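import Pool.Agent.MP_09973c_nt.H58.T5c
import Pool.Agent.MP_09973c_nt.H71.CF

/-!
The two base points lie on a curve of controlled degree and height.
-/

set_option autoImplicit false

namespace Pool.Agent.MP_09973c_nt.H58

open Polynomial Finset IntermediateField Classical Filter

theorem t5_params (K C' C₁ c : ℕ) : ∃ C : ℕ, ∀ L, ∃ l J : ℕ, (J + 2) ^ C' ≤ 2 ^ l ∧
    J = 6 * (K * (l + 1) ^ 3) + C₁ * (L + 1) ∧ c * (J + 1) ^ 2 ≤ (C * (L + 1)) ^ C := by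
  obtain ⟨y₀, hy⟩ := eventually_atTop.1 (H71.poly_le_two_pow ((48 * K + C₁ + 2) ^ C') (3 * C'))
  refine ⟨6 + c * ((48 * K + C₁ + 2) * (y₀ + 1) ^ 3) ^ 2, fun L => ⟨(y₀ + 1) * (L + 1), _, ?_, rfl, ?_⟩⟩
  all_goals
    have h1 : L + 1 ≤ (y₀ + 1) * (L + 1) := by nlinarith
    have h2 : y₀ ≤ (y₀ + 1) * (L + 1) := by nlinarith
    have h3 : 6 * (K * ((y₀ + 1) * (L + 1) + 1) ^ 3) + C₁ * (L + 1) + 2 ≤
        (48 * K + C₁ + 2) * ((y₀ + 1) * (L + 1)) ^ 3 := by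
      generalize (y₀ + 1) * (L + 1) = y at *
      have h4 : (y + 1) ^ 3 ≤ (2 * y) ^ 3 := Nat.pow_le_pow_left (by omega) 3
      have h5 : y ≤ y ^ 3 := Nat.le_self_pow (by norm_num) y
      have h6 := Nat.mul_le_mul_left K h4
      have h7 := Nat.mul_le_mul_left C₁ (h1.trans h5)
      nlinarith
  · refine (Nat.pow_le_pow_left h3 _).trans (le_trans (le_of_eq ?_) (hy _ h2))
    rw [mul_pow, ← pow_mul]
  · set M := c * ((48 * K + C₁ + 2) * (y₀ + 1) ^ 3) ^ 2 with hM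
    calc _ ≤ c * ((48 * K + C₁ + 2) * ((y₀ + 1) * (L + 1)) ^ 3) ^ 2 :=
          Nat.mul_le_mul_left _ (Nat.pow_le_pow_left (by omega) 2)
      _ = M * (L + 1) ^ 6 := by rw [hM]; ring
      _ ≤ (6 + M) ^ (6 + M) * (L + 1) ^ (6 + M) :=
          Nat.mul_le_mul ((Nat.le_add_left _ _).trans (Nat.le_self_pow (by omega) _))
            (Nat.pow_le_pow_right (by omega) (by omega))
      _ = _ := (mul_pow _ _ _).symm

theorem t5_low {p q J k c : ℕ} (hp : 0 < p) (hpq : p < q) {a : Qb} {Ca C h : ℝ} (ha : ‖a‖ ≤ Ca)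
    {x : ℕ → Qb} (hx : Fwd p q a J x) (h0 : h ≤ lp (x 0)) (hk : 2 ^ k ≤ h)
    (hc : |C| + Real.log (1 + Ca) ≤ c) (hJ : (q + 1 + c) * (J + 1) ≤ k) :
    C * (J + 1) ≤ lp (x J) := by
  have h1 := esc_up hp hpq ha hx.rev J le_rfl
  simp only [Nat.sub_self, Nat.sub_zero] at h1
  have h2 := log_one_add_nonneg ((norm_nonneg _).trans ha)
  have h3 := lp_nonneg (x J)
  have hp' : (1 : ℝ) ≤ p := by exact_mod_cast hp
  have h4 : ((q : ℝ) / p) ^ J ≤ 2 ^ (q * J) := by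
    rw [pow_mul]
    refine pow_le_pow_left₀ (by positivity) ((div_le_self (by positivity) hp').trans ?_) _
    exact_mod_cast Nat.lt_two_pow_self.le
  have h5 : (c : ℝ) * (J + 1) ≤ 2 ^ (c * (J + 1)) := by exact_mod_cast Nat.lt_two_pow_self.le
  have h6 : (2 : ℝ) ^ (q * J) * 2 ^ (c * (J + 1)) ≤ 2 ^ k := by
    rw [← pow_add]; exact pow_le_pow_right₀ one_le_two (by nlinarith)
  have h7 : (2 : ℝ) ^ (c * (J + 1)) ≤ lp (x J) + Real.log (1 + Ca) := by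
    refine le_of_mul_le_mul_left (h6.trans ?_) (show (0 : ℝ) < 2 ^ (q * J) by positivity)
    have := mul_le_mul_of_nonneg_right h4 (add_nonneg h3 h2)
    linarith
  have h8 : (0 : ℝ) ≤ J := by positivity
  nlinarith [le_abs_self C]

theorem t5_size {q J I₀ C₁ c₁ l d : ℕ} {Ca : ℝ} (hd : 0 < d) (hCa : 0 ≤ Ca)
    (hc : Real.log (d * (2 + Ca)) ≤ c₁)
    (hl : (I₀ + 12 * q + C₁ + 4 * q * c₁ + 2) * (J + 1) ^ 2 ≤ l) :
    4 * J * q * (I₀ * q ^ (4 * (J + 1))) ≤ 2 ^ l ∧ ((q : ℝ) ^ (4 * J) * Real.exp (2 ^ (C₁ * J ^ 2)) *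
      (d * (2 + Ca)) ^ (4 * J * q)) ^ (I₀ * q ^ (4 * (J + 1))) ≤ Real.exp (2 ^ l) := by
  have h1 : I₀ * q ^ (4 * (J + 1)) ≤ 2 ^ (I₀ + q * (4 * (J + 1))) := by
    rw [pow_add, pow_mul 2]
    exact Nat.mul_le_mul Nat.lt_two_pow_self.le (Nat.pow_le_pow_left Nat.lt_two_pow_self.le _)
  have h2 : ∀ A B, A ≤ 2 ^ B → I₀ + q * (4 * (J + 1)) + B ≤ l →
      A * (I₀ * q ^ (4 * (J + 1))) ≤ 2 ^ l := fun A B h h' =>
    (Nat.mul_le_mul h h1).trans (by rw [← pow_add]; exact Nat.pow_le_pow_right two_pos (by omega))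
  have h3 : J + 1 ≤ (J + 1) ^ 2 := Nat.le_self_pow two_ne_zero _
  have h4 : J ^ 2 ≤ (J + 1) ^ 2 := Nat.pow_le_pow_left (by omega) 2
  have key : I₀ + q * (4 * (J + 1)) + (4 * J * q + C₁ * J ^ 2 + 4 * J * q * c₁ + 2) ≤ l := by
    have := Nat.mul_le_mul_left C₁ h4
    have := Nat.mul_le_mul_left (4 * q * c₁) h3
    have := Nat.mul_le_mul_left q h3
    have := Nat.mul_le_mul_left I₀ (show 1 ≤ (J + 1) ^ 2 by omega)
    nlinarith
  refine ⟨h2 _ (4 * J * q) Nat.lt_two_pow_self.le (by omega), ?_⟩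
  have hd' : (1 : ℝ) ≤ d := by exact_mod_cast hd
  have h5 : (q : ℝ) ^ (4 * J) * Real.exp (2 ^ (C₁ * J ^ 2)) * (d * (2 + Ca)) ^ (4 * J * q) ≤
      Real.exp ((4 * J * q + 2 ^ (C₁ * J ^ 2) + 4 * J * q * c₁ : ℕ) : ℝ) := by
    push_cast
    rw [Real.exp_add, Real.exp_add]
    gcongr
    · rw [show (4 : ℝ) * J * q = (4 * J : ℕ) * q by push_cast; ring, Real.exp_nat_mul]
      gcongr
      linarith [Real.add_one_le_exp (q : ℝ)]
    · rw [show (4 : ℝ) * J * q * c₁ = (4 * J * q : ℕ) * c₁ by push_cast; ring, Real.exp_nat_mul]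
      gcongr
      rw [← Real.exp_log (show (0 : ℝ) < d * (2 + Ca) by positivity)]
      exact Real.exp_le_exp.2 hc
  refine (pow_le_pow_left₀ (by positivity) h5 _).trans ?_
  rw [← Real.exp_nat_mul, Real.exp_le_exp, mul_comm]
  have h6 : 4 * J * q + 2 ^ (C₁ * J ^ 2) + 4 * J * q * c₁ ≤
      2 ^ (4 * J * q + C₁ * J ^ 2 + 4 * J * q * c₁ + 2) := by
    have e1 : 4 * J * q ≤ 2 ^ (4 * J * q + C₁ * J ^ 2 + 4 * J * q * c₁) :=
      le_trans (by omega) Nat.lt_two_pow_self.le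
    have e2 : 2 ^ (C₁ * J ^ 2) ≤ 2 ^ (4 * J * q + C₁ * J ^ 2 + 4 * J * q * c₁) :=
      Nat.pow_le_pow_right two_pos (by omega)
    have e3 : 4 * J * q * c₁ ≤ 2 ^ (4 * J * q + C₁ * J ^ 2 + 4 * J * q * c₁) :=
      le_trans (by omega) Nat.lt_two_pow_self.le
    have e4 : ∀ X, 2 ^ (X + 2) = 4 * 2 ^ X := fun X => by ring
    rw [e4]; omega
  exact_mod_cast h2 _ _ h6 key

theorem alg_rat {Ω : Type} [Field Ω] [CharZero Ω] [Algebra Qb Ω] {S : Set Ω}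
    (h : Algebra.IsAlgebraic (adjoin Qb S) Ω) : Algebra.IsAlgebraic (adjoin ℚ S) Ω := ⟨fun x => by
  have h1 : ∀ y : adjoin Qb S, algebraMap _ Ω y ∈ algebraicClosure (adjoin ℚ S) Ω := fun y =>
    adjoin_le_subfield Qb S (K := (algebraicClosure (adjoin ℚ S) Ω).toSubfield)
      (Set.range_subset_iff.2 fun c => mem_algebraicClosure_iff.2
        (((Algebra.IsAlgebraic.isAlgebraic (R := ℚ) c).algHom
          (IsScalarTower.toAlgHom ℚ Qb Ω)).tower_top _))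
      (fun y hy => mem_algebraicClosure_iff.2
        (isAlgebraic_algebraMap (⟨y, subset_adjoin _ _ hy⟩ : adjoin ℚ S))) y.2
  have h2 : IsAlgebraic (algebraicClosure (adjoin ℚ S) Ω) x :=
    (h.1 x).ringHom_of_comp_eq ((algebraMap _ Ω).codRestrict _ h1) (RingHom.id Ω)
      (RingHom.injective _) rfl
  exact h2.restrictScalars _⟩

theorem t1 (hF : FFStmt) (hM : MFwdStmt) (hT : MTStmt) (hR : RLStmt) (hE : Elim2Stmt)
    (hN : NoEdgeStmt) : T1Stmt := by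
  intro p q a b B hp hpq hc ha hb hab
  have hq : 0 < q := by omega
  obtain ⟨K, C', hK⟩ := pair_indep hF hM hT hp hpq hc ha hb
  obtain ⟨C₁, hR⟩ := hR p q a b B hp hpq
  obtain ⟨C₂, hN⟩ := hN p q a b hp hpq hc ha hb hab
  obtain ⟨d, hd, Ca, hCa, hS⟩ := exists_Sz_finset {a, b}
  have sa := hS a (by simp)
  obtain ⟨I₀, hE⟩ := elim_step hE hpq hd sa (hS b (by simp))
  obtain ⟨c₁, hc₁⟩ := exists_nat_ge (Real.log (d * (2 + Ca)))
  obtain ⟨c₂, hc₂⟩ := exists_nat_ge (|C₂| + Real.log (1 + Ca))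
  obtain ⟨C, hC⟩ := t5_params K C' C₁ (I₀ + 12 * q + C₁ + 4 * q * c₁ + 2 + c₂)
  refine ⟨C, fun L k h X hX hk hh => ?_⟩
  obtain ⟨l, J, h1, hJ, h2⟩ := hC L
  have h3 : J + 1 ≤ (J + 1) ^ 2 := Nat.le_self_pow two_ne_zero _
  have h4 : J ^ 2 ≤ (J + 1) ^ 2 := Nat.pow_le_pow_left (by omega) 2
  have hJk : (q + 1 + c₂) * (J + 1) ≤ k :=
    (Nat.mul_le_mul (by omega) h3).trans (h2.trans hk)
  have hJk' : J ≤ k := by nlinarith
  obtain ⟨c, hc0, hcb, hrel⟩ := (hR L k (K * (l + 1) ^ 3) J h X hX hJk' hJ.ge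
    (le_trans (pow_le_pow_right₀ one_le_two
      ((Nat.mul_le_mul (by omega) h4).trans (h2.trans hk))) hh)).1
  have ch : ∀ m, Fwd p q (![a, b, a, b] m) J (X m) := fun m i hi => hX.ch m i (by omega)
  have n0 := hN J _ _ (ch 0) (ch 1) hX.b1
    (t5_low (by omega) hpq sa.norm_le (ch 0) hX.big0 hh hc₂ hJk)
  have n2 := hN J _ _ (ch 2) (ch 3) hX.b3
    (t5_low (by omega) hpq sa.norm_le (ch 2) hX.big2 hh hc₂ hJk)
  obtain ⟨Ω, _, _, _, _, u, v, hu, hv, halg⟩ := exists_generic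
  have hind := ev2_inj (trans_base hu) hv
  let u' : IntO {u, v} := ⟨u, subset_IntO _ (by simp)⟩
  let v' : IntO {u, v} := ⟨v, subset_IntO _ (by simp)⟩
  obtain ⟨φ, φu, φv, hφ⟩ := exists_spec2 hind u' v' rfl rfl (X 0 0) (X 2 0)
  obtain ⟨κ, hκ, e1⟩ := exists_mul_of_pow_eq hq hX.b1
  obtain ⟨κ', hκ', e3⟩ := exists_mul_of_pow_eq hq hX.b3
  have : ∀ m, ∃ w : ℕ → IntO {u, v}, w 0 = cO _ (![1, κ, 1, κ'] m) * ![u', u', v', v'] m ∧
      Fwd p q (cO _ (![a, b, a, b] m)) J w ∧ ∀ i ≤ J, φ (w i) = X m i := fun m =>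
    lift_fwd φ hφ hq (ch m) _ (by fin_cases m <;> simp [hφ, φu, φv, e1, e3])
  choose W w0 hW φW using this
  let V : Fin 4 → ℕ → Ω := fun m i => W m i
  have hV : ∀ m, Fwd p q (algebraMap Qb Ω (![a, b, a, b] m)) J (V m) := fun m =>
    (hW m).map (IntO {u, v}).subtype
  have tr : ∀ m m', ∀ j ≤ J, ∀ t ≤ J, ∀ μ : Qb, X m' j ≠ μ * X m t →
      V m' j ≠ algebraMap Qb Ω μ * V m t := fun m m' j hj t ht μ h1 h2 => h1 (by
    have : W m' j = cO _ μ * W m t := Subtype.ext h2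
    rw [← φW m' j hj, this, map_mul, hφ, φW m t ht])
  have hκ0 : ∀ {z : Qb}, z ^ q = 1 → z ≠ 0 := fun h h0 => by simp [h0, hq.ne'] at h
  have v0 : V 0 0 = u := by simp [V, w0, u']
  have v1 : V 1 0 = algebraMap Qb Ω κ * u := by simp [V, w0, u']
  have v2 : V 2 0 = v := by simp [V, w0, v']
  have v3 : V 3 0 = algebraMap Qb Ω κ' * v := by simp [V, w0, v']
  have hcs : ∀ c : Qb, IsAlgebraic (adjoin Qb {v}) (algebraMap Qb Ω c) := fun c =>
    isAlgebraic_algebraMap (algebraMap Qb (adjoin Qb {v}) c)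
  have hvv : IsAlgebraic (adjoin Qb {v}) v :=
    isAlgebraic_algebraMap (⟨v, subset_adjoin _ _ rfl⟩ : adjoin Qb {v})
  have p0 := hK Ω u v l _ J κ (V 0) (V 1) hu halg (hκ0 hκ) h1 le_rfl (by omega) v0 v1 (hV 0) (hV 1)
    (fun j hj t ht μ => ⟨fun h1 h2 => tr 0 1 j hj t ht μ ((n0 j hj t ht μ).1 h1 h2),
      fun h1 h2 => tr 1 0 j hj t ht μ ((n0 j hj t ht μ).2 h1 h2)⟩) (lv (V 2) J ∪ lv (V 3) J) (by
      rintro _ (⟨i, hi, rfl⟩ | ⟨i, hi, rfl⟩)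
      · exact fwd_alg hq (hcs _) (hV 2) (v2 ▸ hvv) i hi
      · exact fwd_alg hq (hcs _) (hV 3) (v3 ▸ (hcs _).mul hvv) i hi)
  have p2 := hK Ω v u l _ J κ' (V 2) (V 3) hv (Set.pair_comm u v ▸ halg) (hκ0 hκ') h1 le_rfl
    (by omega) v2 v3 (hV 2) (hV 3)
    (fun j hj t ht μ => ⟨fun h1 h2 => tr 2 3 j hj t ht μ ((n2 j hj t ht μ).1 h1 h2),
      fun h1 h2 => tr 3 2 j hj t ht μ ((n2 j hj t ht μ).2 h1 h2)⟩) ∅ (by simp)
  obtain ⟨R, r0, r1, r2, r3, r4⟩ := hE Ω u v u' v' rfl rfl (fun R hR => by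
      have := hind (R.map (mapRingHom (algebraMap ℚ Qb))) (by
        rw [ev2, eval₂_map, ← hR, ev2]
        congr 1
        ext <;> simp)
      exact (Polynomial.map_eq_zero_iff (map_injective _ (algebraMap ℚ Qb).injective)).1 this)
    (alg_rat halg)
    _ J W ![1, κ, 1, κ'] (fun m => by fin_cases m <;> simp [hκ, hκ'])
    (fun m => by rw [w0]; fin_cases m <;> simp) hW c _ (by positivity) hcb (fun h0 =>
      hc0 (four_indep V (fun i h1 h2 => ⟨p0 i h1 h2, p2 i h1 h2⟩) c (by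
        simpa [mon, V] using congrArg (IntO {u, v}).subtype h0)))
  obtain ⟨s1, s2⟩ := t5_size (q := q) (J := J) (I₀ := I₀) (C₁ := C₁) hd (by linarith) hc₁
    ((Nat.mul_le_mul_right _ (by omega)).trans h2)
  refine ⟨R, r0, r1.trans s1, fun i => (r2 i).trans s1, fun i j => (r3 i j).trans s2, ?_⟩
  have := r4 ((algebraMap Qb ℂ).comp φ) (by
    rw [RingHom.comp_apply, map_eq_zero, map_sum, ← hrel]
    refine sum_congr rfl fun e _ => ?_
    rw [map_mul, map_intCast, mon_map, mon, mon]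
    congr 1
    exact prod_congr rfl fun z _ => by rw [φW _ _ (by have := z.2.2; omega)])
  rw [RingHom.comp_apply, RingHom.comp_apply, φu, φv] at this
  refine (algebraMap Qb ℂ).injective ?_
  rw [H31.ev2_map, map_zero, ← this]
  congr 1

end Pool.Agent.MP_09973c_nt.H58
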