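import Pool.Agent.MP_09973c_nt.H58.Avg

/-!
Bridge between fixing subgroups and field degrees.
-/

set_option autoImplicit false

namespace Pool.Agent.MP_09973c_nt.H58

open Finset Polynomial IntermediateField

variable {k Ω : Type} [Field k] [Field Ω] [Algebra k Ω]

theorem mem_Fix {S : Set Ω} {g : Ω ≃ₐ[k] Ω} : g ∈ Fix k S ↔ ∀ x ∈ S, g x = x :=
  mem_fixingSubgroup_iff _

theorem Fix_anti {S S' : Set Ω} (h : S ⊆ S') : Fix k S' ≤ Fix k S :=
  fun _ hg => mem_Fix.2 fun x hx => mem_Fix.1 hg x (h hx)

theorem Fix_union (S S' : Set Ω) : Fix k (S ∪ S') = Fix k S ⊓ Fix k S' :=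
  fixingSubgroup_union _ _

theorem fix_of_mem_adjoin {S : Set Ω} {g : Ω ≃ₐ[k] Ω} (hg : g ∈ Fix k S) {x : Ω}
    (hx : x ∈ adjoin k S) : g x = x := by
  have : adjoin k S ≤ fixedField (Fix k S) :=
    adjoin_le_iff.2 fun y hy => (mem_fixedField_iff _ _).2 fun f hf => mem_Fix.1 hf y hy
  exact (mem_fixedField_iff _ _).1 (this hx) g hg

theorem Fix_adjoin (S : Set Ω) : Fix k (adjoin k S : Set Ω) = Fix k S :=
  le_antisymm (Fix_anti (subset_adjoin k S))
    fun _ hg => mem_Fix.2 fun _ hx => fix_of_mem_adjoin hg hx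

theorem Fix_le_of_subset_adjoin {S S' : Set Ω} (h : S ⊆ adjoin k S') : Fix k S' ≤ Fix k S :=
  fun _ hg => mem_Fix.2 fun _ hx => fix_of_mem_adjoin hg (h hx)

theorem isAlgebraic_mono {S S' : Set Ω} (h : S ⊆ adjoin k S')
    (hS : Algebra.IsAlgebraic (adjoin k S) Ω) : Algebra.IsAlgebraic (adjoin k S') Ω := by
  have hle : adjoin k S ≤ adjoin k S' := adjoin_le_iff.2 h
  letI : Algebra (adjoin k S) (adjoin k S') := (inclusion hle).toAlgebra
  haveI : IsScalarTower (adjoin k S) (adjoin k S') Ω := IsScalarTower.of_algebraMap_eq fun _ => rfl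
  exact Algebra.IsAlgebraic.tower_top (K := adjoin k S) _

theorem PowInd.mono {S S' : Set Ω} (h : S ⊆ adjoin k S') {z : Ω} {n : ℕ} (hz : PowInd k S' z n) :
    PowInd k S z n := by
  have hle : adjoin k S ≤ adjoin k S' := adjoin_le_iff.2 h
  letI : Algebra (adjoin k S) (adjoin k S') := (inclusion hle).toAlgebra
  haveI : IsScalarTower (adjoin k S) (adjoin k S') Ω := IsScalarTower.of_algebraMap_eq fun _ => rfl
  exact LinearIndependent.restrict_scalars' (adjoin k S) hz

/-- Root count bound. -/
theorem relIndex_root {S : Set Ω} {z : Ω} {r : ℕ} (hr : 0 < r) (hz : z ^ r ∈ adjoin k S) :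
    (Fix k (insert z S)).relIndex (Fix k S) ≠ 0 ∧ (Fix k (insert z S)).relIndex (Fix k S) ≤ r := by
  classical
  have := relIndex_le_card (G₀ := Fix k S) (S := Fix k (insert z S)) (fun g => g z)
    (nthRoots r (z ^ r)).toFinset
    (fun g hg => by
      rw [Multiset.mem_toFinset, mem_nthRoots hr, ← map_pow, fix_of_mem_adjoin hg hz])
    (fun g hg g' hg' he => mem_Fix.2 fun x hx => by
      rcases hx with rfl | hx
      · simp [← he]
      · exact mem_Fix.1 ((Fix k S).mul_mem ((Fix k S).inv_mem hg) hg') x hx)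
  exact ⟨this.1, this.2.trans ((Multiset.toFinset_card_le _).trans (card_nthRoots _ _))⟩

variable [CharZero k] [IsAlgClosed Ω]

theorem isGalois_adjoin {S : Set Ω} (hS : Algebra.IsAlgebraic (adjoin k S) Ω) :
    IsGalois (adjoin k S) Ω := by
  haveI : CharZero Ω := charZero_of_injective_algebraMap (algebraMap k Ω).injective
  haveI : IsAlgClosure (adjoin k S) Ω := ⟨inferInstance, hS⟩
  infer_instance

/-- An element fixed by the group of `S` lies in `k(S)`. -/
theorem mem_adjoin_of_fixed {S : Set Ω} (hS : Algebra.IsAlgebraic (adjoin k S) Ω) {x : Ω}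
    (hx : ∀ g ∈ Fix k S, g x = x) : x ∈ adjoin k S := by
  haveI := isGalois_adjoin hS
  obtain ⟨y, rfl⟩ := (InfiniteGalois.mem_range_algebraMap_iff_fixed (k := adjoin k S) x).2
    fun f => hx (f.restrictScalars k) (mem_Fix.2 fun y hy =>
      f.commutes (⟨y, subset_adjoin k S hy⟩ : adjoin k S))
  exact y.2

/-- The relative index is the field degree. -/
theorem relIndex_eq_finrank {S S' : Set Ω} (hS : Algebra.IsAlgebraic (adjoin k S) Ω) :
    (Fix k S').relIndex (Fix k S) = Module.finrank (adjoin k S) (adjoin (adjoin k S) S') := by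
  haveI := isGalois_adjoin hS
  rw [IntermediateField.finrank_eq_fixingSubgroup_index]
  let e : (Ω ≃ₐ[adjoin k S] Ω) ≃* Fix k S :=
    ((IntermediateField.fixingSubgroupEquiv (adjoin k S)).symm).trans
      (MulEquiv.subgroupCongr (Fix_adjoin S))
  rw [Subgroup.relIndex, ← Subgroup.index_comap_of_surjective _ (f := e.toMonoidHom) e.surjective]
  congr 1
  ext g
  have h1 := congrArg (g ∈ ·) (Fix_adjoin (k := adjoin k S) S')
  refine Iff.trans ?_ (eq_iff_iff.1 h1).symm
  rw [Subgroup.mem_comap, Subgroup.mem_subgroupOf, mem_Fix, mem_Fix]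
  rfl

theorem relIndex_ne_zero_of_finite {S S' : Set Ω} (hS : Algebra.IsAlgebraic (adjoin k S) Ω)
    (h : S'.Finite) : (Fix k S').relIndex (Fix k S) ≠ 0 := by
  rw [relIndex_eq_finrank hS]
  haveI := h.to_subtype
  haveI : FiniteDimensional (adjoin k S) (adjoin (adjoin k S) S') :=
    finiteDimensional_adjoin fun x _ => (hS.isAlgebraic x).isIntegral
  exact Module.finrank_pos.ne'

/-- Independent elements bound the relative index from below. -/
theorem card_le_relIndex {S S' : Set Ω} (hS : Algebra.IsAlgebraic (adjoin k S) Ω)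
    (h0 : (Fix k S').relIndex (Fix k S) ≠ 0) {ι : Type} [Fintype ι] (f : ι → Ω)
    (hf : ∀ i, f i ∈ adjoin k (S ∪ S')) (hind : LinearIndependent (adjoin k S) f) :
    Fintype.card ι ≤ (Fix k S').relIndex (Fix k S) := by
  rw [relIndex_eq_finrank hS] at h0 ⊢
  haveI := Module.finite_of_finrank_pos (Nat.pos_of_ne_zero h0)
  have hf' : ∀ i, f i ∈ adjoin (adjoin k S) S' := fun i => by
    have := hf i
    rwa [← adjoin_adjoin_left, mem_restrictScalars] at this
  exact (LinearIndependent.of_comp (adjoin (adjoin k S) S').val.toLinearMap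
    (v := fun i => (⟨f i, hf' i⟩ : adjoin (adjoin k S) S')) hind).fintype_card_le_finrank

omit [CharZero k] [IsAlgClosed Ω] in
theorem relIndex_insert (S : Set Ω) (z : Ω) :
    (Fix k (insert z S)).relIndex (Fix k S) = (Fix k {z}).relIndex (Fix k S) := by
  rw [Set.insert_eq, Fix_union, Subgroup.inf_relIndex_right]

theorem powInd_iff {S : Set Ω} (hS : Algebra.IsAlgebraic (adjoin k S) Ω) (z : Ω) (n : ℕ) :
    PowInd k S z n ↔ n ≤ (Fix k (insert z S)).relIndex (Fix k S) := by
  have hz := (hS.isAlgebraic z).isIntegral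
  rw [relIndex_insert]
  constructor
  · intro h
    have := card_le_relIndex hS (relIndex_ne_zero_of_finite hS (Set.finite_singleton z)) _
      (fun e : Fin n => pow_mem (subset_adjoin k (S ∪ {z}) (Or.inr rfl)) _) h
    simpa using this
  · intro h
    rw [relIndex_eq_finrank hS, adjoin.finrank hz] at h
    exact (linearIndependent_pow (K := adjoin k S) z).comp (Fin.castLE h) (Fin.castLE_injective h)

/-- Rotation by a root of unity. -/
theorem exists_rot [IsAlgClosed k] {S : Set Ω} (hS : Algebra.IsAlgebraic (adjoin k S) Ω) {z : Ω}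
    {r : ℕ} (hr : 0 < r) (hz : z ^ r ∈ adjoin k S) (h : PowInd k S z r) {y : Ω}
    (hy : y ^ r = z ^ r) : ∃ g ∈ Fix k S, g z = y := by
  classical
  refine realize (G₀ := Fix k S) (S := Fix k (insert z S)) (fun g => g z)
    (nthRoots r (z ^ r)).toFinset (fun g hg => ?_) (fun g hg g' hg' he => ?_) ?_ y ?_
  · rw [Multiset.mem_toFinset, mem_nthRoots hr, ← map_pow, fix_of_mem_adjoin hg hz]
  · refine mem_Fix.2 fun x hx => ?_
    rcases hx with rfl | hx
    · simp [← show g x = g' x from he]
    · exact mem_Fix.1 ((Fix k S).mul_mem ((Fix k S).inv_mem hg) hg') x hx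
  · exact ((Multiset.toFinset_card_le _).trans (card_nthRoots _ _)).trans ((powInd_iff hS z r).1 h)
  · rw [Multiset.mem_toFinset, mem_nthRoots hr, hy]

/-- The norm lies in the base field. -/
theorem IsAvg.prod_mem {S₀ : Set Ω} (hS : Algebra.IsAlgebraic (adjoin k S₀) Ω)
    {S : Subgroup (Ω ≃ₐ[k] Ω)} {ι : Type} [Fintype ι] {γ : ι → Ω ≃ₐ[k] Ω}
    (h : IsAvg (Fix k S₀) S γ) {x : Ω} (hx : ∀ s ∈ S, s x = x) : ∏ i, γ i x ∈ adjoin k S₀ := by
  refine mem_adjoin_of_fixed hS fun g hg => ?_
  rw [map_prod]
  exact h.prod_eq (fun g => g x) (fun g s hs => by simp [hx s hs]) hg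

omit [CharZero k] [IsAlgClosed Ω] in
/-- Stepwise independence gives independence of monomials. -/
theorem monInd {X : Type} [Fintype X] [DecidableEq X] (S : Set Ω) (z : X → Ω) (rk : X → ℕ)
    (hrk : Function.Injective rk) (r : ℕ)
    (h : ∀ x, PowInd k (S ∪ z '' {y | rk y < rk x}) (z x) r) :
    LinearIndependent (adjoin k S) fun e : X → Fin r => ∏ x, z x ^ (e x : ℕ) := by
  classical
  have key : ∀ n, ∀ c : (X → Fin r) → adjoin k S, ∀ e₀ : X → Fin r,
      ∑ e ∈ univ.filter (fun e : X → Fin r => ∀ x, n ≤ rk x → e x = e₀ x),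
        c e • ∏ x ∈ univ.filter (fun x => rk x < n), z x ^ (e x : ℕ) = 0 → c e₀ = 0 := by
    intro n
    induction n with
    | zero =>
      intro c e₀ hc
      rw [show univ.filter (fun e : X → Fin r => ∀ x, 0 ≤ rk x → e x = e₀ x) = {e₀} by
        ext e; simp [funext_iff]] at hc
      simpa using hc
    | succ n ih =>
      intro c e₀ hc
      by_cases hn : ∃ x₀, rk x₀ = n
      · obtain ⟨x₀, hx₀⟩ := hn
        have hle : adjoin k S ≤ adjoin k (S ∪ z '' {y | rk y < rk x₀}) :=
          adjoin.mono _ _ _ Set.subset_union_left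
        let A : Fin r → Ω := fun a => ∑ e ∈ univ.filter (fun e : X → Fin r =>
          ∀ x, n ≤ rk x → e x = Function.update e₀ x₀ a x),
          c e • ∏ x ∈ univ.filter (fun x => rk x < n), z x ^ (e x : ℕ)
        have hA : ∀ a, A a ∈ adjoin k (S ∪ z '' {y | rk y < rk x₀}) := fun a =>
          sum_mem fun e _ => mul_mem (hle (c e).2) (prod_mem fun x hx => pow_mem
            (subset_adjoin k (S ∪ z '' {y | rk y < rk x₀})
              (Or.inr ⟨x, by simpa [hx₀] using hx, rfl⟩)) _)
        have hsum : ∑ a : Fin r, (⟨A a, hA a⟩ : adjoin k (S ∪ z '' {y | rk y < rk x₀})) •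
            z x₀ ^ (a : ℕ) = 0 := by
          rw [← hc, ← sum_fiberwise_of_maps_to (t := univ) (g := fun e : X → Fin r => e x₀)
            (fun _ _ => mem_univ _)]
          refine sum_congr rfl fun a _ => ?_
          change A a * _ = _
          rw [sum_mul]
          refine sum_congr ?_ fun e he => ?_
          · ext e
            simp only [mem_filter, mem_univ, true_and]
            constructor
            · intro he
              refine ⟨fun x hx => ?_, by simpa using he x₀ hx₀.ge⟩
              rw [he x (by omega), Function.update_of_ne (by rintro rfl; omega)]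
            · rintro ⟨he, rfl⟩ x hx
              by_cases hxx : x = x₀
              · subst hxx; simp
              · rw [Function.update_of_ne hxx]
                exact he x (by have : rk x ≠ rk x₀ := fun h => hxx (hrk h); omega)
          · have h2 : univ.filter (fun x => rk x < n + 1)
                = insert x₀ (univ.filter fun x => rk x < n) := by
              ext x
              simp only [mem_filter, mem_univ, true_and, mem_insert]
              constructor
              · intro hx
                by_cases hxx : rk x = n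
                · exact Or.inl (hrk (hxx.trans hx₀.symm))
                · exact Or.inr (by omega)
              · rintro (rfl | hx) <;> omega
            rw [h2, prod_insert (by simp [hx₀]), (mem_filter.1 he).2, smul_mul_assoc, mul_comm]
        have h0 := congrArg Subtype.val (Fintype.linearIndependent_iff.1 (h x₀) _ hsum (e₀ x₀))
        refine ih c e₀ ?_
        simpa [A] using h0
      · push Not at hn
        refine ih c e₀ ?_
        rw [← hc]
        refine sum_congr ?_ fun e _ => ?_
        · ext e
          simp only [mem_filter, mem_univ, true_and]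
          refine forall_congr' fun x => ?_
          have := hn x
          exact ⟨fun h' h'' => h' (by omega), fun h' h'' => h' (by omega)⟩
        · congr 2
          ext x
          simp only [mem_filter, mem_univ, true_and]
          have := hn x; omega
  refine Fintype.linearIndependent_iff.2 fun c hc e₀ => key (univ.sup rk + 1) c e₀ ?_
  have hlt : ∀ x, rk x < univ.sup rk + 1 := fun x => Nat.lt_succ_of_le (le_sup (mem_univ x))
  rw [filter_true_of_mem fun e _ x hx => absurd (hlt x) (by omega),
    filter_true_of_mem fun x _ => hlt x]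
  exact hc

end Pool.Agent.MP_09973c_nt.H58
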