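import Pool.Agent.MP_09973c_nt.H58.Wrap
import Pool.Agent.MP_09973c_nt.H58.T5
import Pool.Agent.MP_09973c_nt.H3.CV
import Pool.Agent.MP_09973c_nt.H9.PC
import Pool.Agent.MP_09973c_nt.H9.Sel
import Pool.Agent.MP_09973c_nt.H14.Ex
import Pool.Agent.MP_09973c_nt.H14.Pat
import Pool.Agent.MP_09973c_nt.H19.G4
import Pool.Agent.MP_09973c_nt.H21.Deg
import Pool.Agent.MP_09973c_nt.H24.RL
import Pool.Agent.MP_09973c_nt.H28.CV1
import Pool.Agent.MP_09973c_nt.H31.A13
import Pool.Agent.MP_09973c_nt.H31.F8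
import Pool.Agent.MP_09973c_nt.H31.T4
import Pool.Agent.MP_09973c_nt.H41.A1
import Pool.Agent.MP_09973c_nt.H42.GP
import Pool.Agent.MP_09973c_nt.H42.MBwd
import Pool.Agent.MP_09973c_nt.H43.IP
import Pool.Agent.MP_09973c_nt.H45.Roth
import Pool.Agent.MP_09973c_nt.H54.Sp
import Pool.Agent.MP_09973c_nt.H55.Pole
import Pool.Agent.MP_09973c_nt.H56.F1
import Pool.Agent.MP_09973c_nt.H60.Bc
import Pool.Agent.MP_09973c_nt.H65.NA
import Pool.Agent.MP_09973c_nt.H65.Tow
import Pool.Agent.MP_09973c_nt.H69.S1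
import Pool.Agent.MP_09973c_nt.H71.Esc
import Pool.Agent.MP_09973c_nt.H71.CF
import Pool.Agent.MP_09973c_nt.H72.FF
import Pool.Agent.MP_09973c_nt.H74.DP
import Pool.Agent.MP_09973c_nt.H76.Det
import Pool.Agent.MP_09973c_nt.H82.A9
import Pool.Agent.MP_09973c_nt.H82.Cnt
import Pool.Agent.MP_09973c_nt.H88.QDir
import Pool.Agent.MP_09973c_nt.H95.AC
import Pool.Agent.MP_09973c_nt.H95.EA

/-!
Assembly of all parts.
-/

set_option autoImplicit false

namespace Pool.Agent.MP_09973c_nt.H58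

theorem all_detA : DetAStmt := H76.detA H76.detJ

theorem all_dp : DPStmt := H74.dp H54.sp H74.zb all_detA

theorem all_esc : ESCStmt := H71.esc all_dp H82.large H95.ea

theorem all_finF : FinFStmt := H71.finF all_esc

theorem all_u : UStmt := H71.uesc all_esc all_finF

theorem all_dl : DLStmt := H65.dlt H56.plcEx H56.pf H65.tow

theorem all_cnt : CntStmt := H82.cnt all_dl

theorem all_ff : FFStmt :=
  H72.ff (H60.bc H56.pf) H65.tow all_dl (H55.pole H56.plcEx H56.pf) (H42.gp H56.plcEx all_cnt)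
    H14.pat1 H14.pat2 H14.strong (H31.merge H56.plcEx H56.pf H65.tow all_dl all_cnt)

theorem all_ip : IPStmt :=
  H43.ip (H31.szH all_dp H82.size H95.ea H95.ac)
    (H31.sz2 H54.sp all_detA H9.prod H9.selG H82.size H95.ea H95.ac)
    (H69.sz1 H54.sp all_detA H9.comp H9.selG H82.size H95.ea H95.ac) all_esc all_ff
    (H42.mbwd all_finF)

theorem all_deg : DegStmt := H21.deg H41.window

theorem all_rl : RLStmt := H24.rl H14.ex H14.rl0

theorem all_main (hM : MFwdStmt) (hE : Elim2Stmt) (h2 : T2Stmt) : MainStmt := by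
  have hTD : TDStmt := H31.td (t1 all_ff hM H56.mt all_rl hE (H31.noEdge H41.w2)) h2
  exact main red (a0 all_u all_esc) all_u
    (H3.cv (cv1 all_ip all_esc (H31.noEdge H41.w2) H41.w2 H41.qcon
      (H88.qdir all_dp H82.large H95.ea) all_deg) all_ip all_esc hTD)
    (H71.cf all_u all_deg H65.na (H71.cf1 all_deg (H31.deg2 H41.window) (H71.ng hTD H41.w2)
      (H65.den H65.na) H45.roth H41.w2))

end Pool.Agent.MP_09973c_nt.H58
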