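import Pool.Agent.MP_09973c_nt.H58.Defs

/-!
Elementary estimates along chains in a normed field.
-/

set_option autoImplicit false

namespace Pool.Agent.MP_09973c_nt.H58

open Finset

variable {F : Type} [NormedField F]

theorem lp_nonneg (x : F) : 0 ≤ lp x := Real.log_nonneg (le_max_left _ _)

theorem exp_lp (x : F) : Real.exp (lp x) = max 1 ‖x‖ :=
  Real.exp_log (lt_of_lt_of_le one_pos (le_max_left _ _))

theorem norm_le_exp_lp (x : F) : ‖x‖ ≤ Real.exp (lp x) := by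
  rw [exp_lp]; exact le_max_right _ _

theorem lp_le_of_norm_le {x : F} {y : ℝ} (hy : 0 ≤ y) (h : ‖x‖ ≤ Real.exp y) : lp x ≤ y := by
  rw [← Real.exp_le_exp, exp_lp]
  exact max_le (Real.one_le_exp hy) h

theorem norm_eq_exp_lp {x : F} (h : 0 < lp x) : ‖x‖ = Real.exp (lp x) := by
  rw [exp_lp]
  rcases le_total 1 ‖x‖ with h1 | h1
  · rw [max_eq_right h1]
  · rw [lp, max_eq_left h1, Real.log_one] at h; exact absurd h (lt_irrefl _)

theorem lp_eq_log {x : F} (h : 1 ≤ ‖x‖) : lp x = Real.log ‖x‖ := by rw [lp, max_eq_right h]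

theorem lp_congr {F' : Type} [NormedField F'] {x : F} {y : F'} (h : ‖x‖ = ‖y‖) : lp x = lp y := by
  rw [lp, lp, h]

theorem lp_mono {F' : Type} [NormedField F'] {x : F} {y : F'} (h : ‖x‖ ≤ ‖y‖) : lp x ≤ lp y :=
  Real.log_le_log (lt_of_lt_of_le one_pos (le_max_left _ _)) (max_le_max le_rfl h)

theorem lp_coe (x : Qb) : lp (x : ℂ) = lp x := rfl

theorem lp_pow (x : F) (n : ℕ) : lp (x ^ n) = n * lp x := by
  rw [lp, lp, ← Real.log_pow, norm_pow]
  congr 1
  rcases le_total 1 ‖x‖ with h1 | h1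
  · rw [max_eq_right h1, max_eq_right (one_le_pow₀ h1)]
  · rw [max_eq_left h1, max_eq_left (pow_le_one₀ (norm_nonneg _) h1), one_pow]

theorem norm_root {ζ : F} {M : ℕ} (hM : 0 < M) (h : ζ ^ M = 1) : ‖ζ‖ = 1 := by
  have : ‖ζ‖ ^ M = 1 := by rw [← norm_pow, h, norm_one]
  exact (pow_eq_one_iff_of_nonneg (norm_nonneg _) hM.ne').1 this

theorem lp_unit_mul {ζ : F} (h : ‖ζ‖ = 1) (x : F) : lp (ζ * x) = lp x :=
  lp_congr (by rw [norm_mul, h, one_mul])

theorem lp_add_le (x c : F) : lp (x + c) ≤ lp x + Real.log (1 + ‖c‖) := by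
  have hc := norm_nonneg c
  rw [lp, lp, ← Real.log_mul (by positivity) (by positivity)]
  refine Real.log_le_log (by positivity) (max_le ?_ ?_)
  · nlinarith [le_max_left 1 ‖x‖]
  · nlinarith [le_max_left 1 ‖x‖, le_max_right 1 ‖x‖, norm_add_le x c]

theorem log_one_add_nonneg {C : ℝ} (h : 0 ≤ C) : 0 ≤ Real.log (1 + C) :=
  Real.log_nonneg (by linarith)

/-- One step of a chain. -/
theorem lp_step {p q : ℕ} {c x y : F} {Ca : ℝ} (hc : ‖c‖ ≤ Ca) (h : x ^ p + c = y ^ q) :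
    |q * lp y - p * lp x| ≤ Real.log (1 + Ca) := by
  have h0 : Real.log (1 + ‖c‖) ≤ Real.log (1 + Ca) :=
    Real.log_le_log (by positivity) (by linarith)
  have h1 := lp_add_le (x ^ p) c
  have h2 := lp_add_le (y ^ q) (-c)
  rw [h] at h1
  rw [← h, add_neg_cancel_right, h, norm_neg] at h2
  rw [lp_pow, lp_pow] at h1 h2
  rw [abs_le]; constructor <;> linarith

/-- Sizes along two forward chains stay close. -/
theorem match_fwd {p q n : ℕ} (hpq : p < q) {a b : F} {Ca M : ℝ} (ha : ‖a‖ ≤ Ca) (hb : ‖b‖ ≤ Ca)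
    {x x' : ℕ → F} (hx : Fwd p q a n x) (hx' : Fwd p q b n x')
    (hM : 2 * Real.log (1 + Ca) ≤ M) (h0 : |lp (x 0) - lp (x' 0)| ≤ M) :
    ∀ k ≤ n, |lp (x k) - lp (x' k)| ≤ M := by
  intro k
  induction k with
  | zero => exact fun _ => h0
  | succ k ih =>
    intro hk
    have h1 := abs_le.1 (ih (by omega))
    have h2 := abs_le.1 (lp_step ha (hx k (by omega)))
    have h3 := abs_le.1 (lp_step hb (hx' k (by omega)))
    have hq : (p : ℝ) + 1 ≤ q := by exact_mod_cast hpq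
    have hp : (0 : ℝ) ≤ p := by positivity
    have hM0 : 0 ≤ M := (abs_nonneg _).trans h0
    rw [abs_le]
    constructor
    · by_contra hh
      nlinarith
    · by_contra hh
      nlinarith

/-- Lower bound along a backward chain. -/
theorem esc_low {p q n : ℕ} (hp : 0 < p) (hpq : p < q) {c : F} {Ca : ℝ} (hc : ‖c‖ ≤ Ca)
    {u : ℕ → F} (hu : Bwd p q c n u) : ∀ j ≤ n,
      ((q : ℝ) / p) ^ j * (lp (u 0) - Real.log (1 + Ca)) ≤ lp (u j) - Real.log (1 + Ca) := by
  intro j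
  induction j with
  | zero => simp
  | succ k ih =>
    intro hk
    have h1 := ih (by omega)
    have h2 := abs_le.1 (lp_step hc (hu k (by omega)))
    have hq : (p : ℝ) + 1 ≤ q := by exact_mod_cast hpq
    have hp' : (0 : ℝ) < p := by exact_mod_cast hp
    have hL := log_one_add_nonneg ((norm_nonneg _).trans hc)
    have h3 : (q : ℝ) / p * (lp (u k) - Real.log (1 + Ca)) ≤ lp (u (k + 1)) - Real.log (1 + Ca) := by
      rw [div_mul_eq_mul_div, div_le_iff₀ hp']
      nlinarith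
    rw [pow_succ', mul_assoc]
    exact (mul_le_mul_of_nonneg_left h1 (by positivity)).trans h3

/-- Upper bound along a backward chain. -/
theorem esc_up {p q n : ℕ} (hp : 0 < p) (hpq : p < q) {c : F} {Ca : ℝ} (hc : ‖c‖ ≤ Ca)
    {u : ℕ → F} (hu : Bwd p q c n u) : ∀ j ≤ n,
      lp (u j) + Real.log (1 + Ca) ≤ ((q : ℝ) / p) ^ j * (lp (u 0) + Real.log (1 + Ca)) := by
  intro j
  induction j with
  | zero => simp
  | succ k ih =>
    intro hk
    have h1 := ih (by omega)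
    have h2 := abs_le.1 (lp_step hc (hu k (by omega)))
    have hq : (p : ℝ) + 1 ≤ q := by exact_mod_cast hpq
    have hp' : (0 : ℝ) < p := by exact_mod_cast hp
    have hL := log_one_add_nonneg ((norm_nonneg _).trans hc)
    have h3 : lp (u (k + 1)) + Real.log (1 + Ca) ≤ (q : ℝ) / p * (lp (u k) + Real.log (1 + Ca)) := by
      rw [div_mul_eq_mul_div, le_div_iff₀ hp']
      nlinarith
    rw [pow_succ', mul_assoc]
    exact h3.trans (mul_le_mul_of_nonneg_left h1 (by positivity))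

theorem Bwd.shift {A : Type} [CommRing A] {p q n : ℕ} {c : A} {u : ℕ → A} (h : Bwd p q c n u)
    {i m : ℕ} (him : i + m ≤ n) : Bwd p q c m fun k => u (i + k) :=
  fun k hk => h (i + k) (by omega)

theorem Fwd.shift {A : Type} [CommRing A] {p q n : ℕ} {c : A} {x : ℕ → A} (h : Fwd p q c n x)
    {i m : ℕ} (him : i + m ≤ n) : Fwd p q c m fun k => x (i + k) :=
  fun k hk => h (i + k) (by omega)

theorem Fwd.rev {A : Type} [CommRing A] {p q n : ℕ} {c : A} {x : ℕ → A} (h : Fwd p q c n x) :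
    Bwd p q c n fun k => x (n - k) := fun k hk => by
  have := h (n - (k + 1)) (by omega)
  rwa [show n - (k + 1) + 1 = n - k by omega] at this

theorem Bwd.rev {A : Type} [CommRing A] {p q n m : ℕ} {c : A} {u : ℕ → A} (h : Bwd p q c n u)
    (hm : m ≤ n) : Fwd p q c m fun k => u (n - k) := fun k hk => by
  have := h (n - (k + 1)) (by omega)
  rwa [show n - (k + 1) + 1 = n - k by omega] at this

theorem Bwd.map {A B : Type} [CommRing A] [CommRing B] (φ : A →+* B) {p q n : ℕ} {c : A}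
    {u : ℕ → A} (h : Bwd p q c n u) : Bwd p q (φ c) n fun k => φ (u k) := fun k hk => by
  simpa using congrArg φ (h k hk)

theorem Fwd.map {A B : Type} [CommRing A] [CommRing B] (φ : A →+* B) {p q n : ℕ} {c : A}
    {x : ℕ → A} (h : Fwd p q c n x) : Fwd p q (φ c) n fun k => φ (x k) := fun k hk => by
  simpa using congrArg φ (h k hk)

theorem Cyc.map {A B : Type} [CommRing A] [CommRing B] (φ : A →+* B) {p q : ℕ} {c x : A}
    (h : x ∈ Cyc p q c) : φ x ∈ Cyc p q (φ c) := by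
  obtain ⟨u, m, hm, hu, hp, rfl⟩ := h
  exact ⟨fun i => φ (u i), m, hm, fun i => by simpa using congrArg φ (hu i),
    fun i => congrArg φ (hp i), rfl⟩

/-- Points on cycles are bounded. -/
theorem cyc_le {p q : ℕ} (hp : 0 < p) (hpq : p < q) {c x : F} {Ca : ℝ} (hc : ‖c‖ ≤ Ca)
    (h : x ∈ Cyc p q c) : lp x ≤ Real.log (1 + Ca) := by
  obtain ⟨u, m, hm, hu, hper, rfl⟩ := h
  have h1 := esc_low hp hpq hc (n := m) (u := u) (fun k _ => hu k) m le_rfl
  have h2 := hper 0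
  rw [zero_add] at h2
  rw [h2] at h1
  have hp' : (0 : ℝ) < p := by exact_mod_cast hp
  have h3 : 1 < ((q : ℝ) / p) ^ m :=
    one_lt_pow₀ ((one_lt_div hp').2 (by exact_mod_cast hpq)) hm.ne'
  by_contra hh
  nlinarith

/-- Separation of roots of unity. -/
theorem sep (hF : GoodF F) {ζ : F} {M : ℕ} (hM : 0 < M) (h : ζ ^ M = 1) (h1 : ζ ≠ 1) :
    1 / (M : ℝ) ^ 3 ≤ ‖ζ - 1‖ := by
  have hz := norm_root hM h
  have hs : ∑ i ∈ range M, ζ ^ i = 0 := by
    have := mul_geom_sum ζ M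
    rw [h, sub_self] at this
    exact (mul_eq_zero.1 this).resolve_left (sub_ne_zero.2 h1)
  have hi : ∀ i : ℕ, ‖1 - ζ ^ i‖ ≤ i * ‖ζ - 1‖ := by
    intro i
    induction i with
    | zero => simp
    | succ i ih =>
      have : 1 - ζ ^ (i + 1) = (1 - ζ ^ i) - ζ ^ i * (ζ - 1) := by ring
      rw [this]
      refine (norm_sub_le _ _).trans ?_
      rw [norm_mul, norm_pow, hz, one_pow]
      push_cast
      linarith
  have hM' : (0 : ℝ) < M := by exact_mod_cast hM
  have h2 : (M : F) = ∑ i ∈ range M, (1 - ζ ^ i) := by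
    rw [sum_sub_distrib, hs]; simp
  have h3 : ‖(M : F)‖ ≤ M * (M * ‖ζ - 1‖) := by
    rw [h2]
    refine (norm_sum_le _ _).trans ?_
    refine (sum_le_card_nsmul _ _ (M * ‖ζ - 1‖) fun i hi' => (hi i).trans ?_).trans (by simp)
    have : (i : ℝ) ≤ M := by exact_mod_cast (mem_range.1 hi').le
    gcongr
  have h4 := (hF M hM).trans h3
  rw [div_le_iff₀ hM'] at h4
  rw [div_le_iff₀ (by positivity)]
  nlinarith

theorem sep' (hF : GoodF F) {ζ η : F} {M : ℕ} (hM : 0 < M) (h : ζ ^ M = 1) (h' : η ^ M = 1)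
    (h1 : ζ ≠ η) : 1 / (M : ℝ) ^ 3 ≤ ‖ζ - η‖ := by
  have hz := norm_root hM h'
  have h0 : η ≠ 0 := by rintro rfl; simp at hz
  have := sep hF hM (ζ := ζ / η) (by rw [div_pow, h, h', div_one])
    (fun hh => h1 ((div_eq_one_iff_eq h0).1 hh))
  rwa [div_sub_one h0, norm_div, hz, div_one] at this

/-- Choice of the closest root. -/
theorem rt_close [IsAlgClosed F] [CharZero F] (hF : GoodF F) {r : ℕ} (hr : 0 < r) (x y : F) :
    ∃ ω : F, ω ^ r = 1 ∧
      ‖x - ω * y‖ * max ‖x‖ ‖y‖ ^ (r - 1) ≤ (4 * (r : ℝ) ^ 3) ^ (r - 1) * ‖x ^ r - y ^ r‖ := by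
  classical
  haveI : NeZero (r : F) := ⟨by exact_mod_cast hr.ne'⟩
  obtain ⟨ζ, hζ⟩ := HasEnoughRootsOfUnity.exists_primitiveRoot F r
  have hprod : x ^ r - y ^ r = ∏ i ∈ range r, (x - ζ ^ i * y) := by
    have := congrArg (Polynomial.eval x) (X_pow_sub_C_eq_prod hζ (α := y) hr rfl)
    simpa [Polynomial.eval_prod] using this
  obtain ⟨j, hj, hmin⟩ := exists_min_image (range r) (fun i => ‖x - ζ ^ i * y‖)
    ⟨0, mem_range.2 hr⟩
  have hpow : ∀ i : ℕ, (ζ ^ i) ^ r = 1 := fun i => by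
    rw [← pow_mul, mul_comm, pow_mul, hζ.pow_eq_one, one_pow]
  refine ⟨ζ ^ j, hpow j, ?_⟩
  have hr1 : (1 : ℝ) ≤ (r : ℝ) ^ 3 := one_le_pow₀ (by exact_mod_cast hr)
  have hother : ∀ i ∈ (range r).erase j,
      max ‖x‖ ‖y‖ ≤ (4 * (r : ℝ) ^ 3) * ‖x - ζ ^ i * y‖ := by
    intro i hi
    obtain ⟨hij, hi⟩ := mem_erase.1 hi
    have hne : ζ ^ i ≠ ζ ^ j := fun h =>
      hij (hζ.pow_inj (mem_range.1 hi) (mem_range.1 hj) h)
    have h1 := sep' hF hr (hpow i) (hpow j) hne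
    have h2 : ‖ζ ^ i - ζ ^ j‖ * ‖y‖ ≤ 2 * ‖x - ζ ^ i * y‖ := by
      rw [← norm_mul]
      have : (ζ ^ i - ζ ^ j) * y = (x - ζ ^ j * y) - (x - ζ ^ i * y) := by ring
      rw [this]
      have := hmin i hi
      linarith [norm_sub_le (x - ζ ^ j * y) (x - ζ ^ i * y)]
    have h3 : ‖y‖ ≤ 2 * (r : ℝ) ^ 3 * ‖x - ζ ^ i * y‖ := by
      rw [div_le_iff₀ (by positivity)] at h1
      nlinarith [norm_nonneg y, norm_nonneg (ζ ^ i - ζ ^ j), norm_nonneg (x - ζ ^ i * y)]
    have h4 : ‖x‖ ≤ ‖x - ζ ^ i * y‖ + ‖y‖ := by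
      have := norm_add_le (x - ζ ^ i * y) (ζ ^ i * y)
      rwa [sub_add_cancel, norm_mul, norm_root hr (hpow i), one_mul] at this
    have h5 := norm_nonneg (x - ζ ^ i * y)
    refine max_le ?_ ?_ <;> nlinarith
  have hcard : ((range r).erase j).card = r - 1 := by rw [card_erase_of_mem hj, card_range]
  rw [hprod, norm_prod, ← mul_prod_erase _ _ hj, mul_left_comm]
  refine mul_le_mul_of_nonneg_left ?_ (norm_nonneg _)
  rw [← hcard, ← prod_const, ← prod_const, ← prod_mul_distrib]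
  exact prod_le_prod (fun _ _ => le_max_of_le_left (norm_nonneg _)) hother

theorem goodF_complex : GoodF ℂ := fun M hM => by
  have : (1 : ℝ) ≤ M := by exact_mod_cast hM
  rw [Complex.norm_natCast]
  exact (div_le_one (by linarith)).2 this |>.trans this

theorem goodF_Qb : GoodF Qb := fun M hM => goodF_complex M hM

theorem goodF_padic (l : ℕ) [Fact l.Prime] : GoodF (PadicAlgCl l) := fun M hM => by
  have h1 : ‖(M : PadicAlgCl l)‖ = ‖(M : ℚ_[l])‖ := by
    rw [← PadicAlgCl.norm_extends, map_natCast]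
  have hl : 1 < l := (Fact.out : l.Prime).one_lt
  rw [h1, Padic.norm_eq_zpow_neg_valuation (by exact_mod_cast hM.ne'), Padic.valuation_natCast,
    zpow_neg, zpow_natCast, one_div]
  refine inv_anti₀ (by positivity) ?_
  exact_mod_cast Nat.le_of_dvd hM pow_padicValNat_dvd

/-- A root of unity whose order divides two coprime numbers is one. -/
theorem eq_one_of_coprime {A : Type} [Monoid A] {ζ : A} {m n : ℕ} (h : m.Coprime n)
    (hm : ζ ^ m = 1) (hn : ζ ^ n = 1) : ζ = 1 := by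
  rw [← pow_one ζ, ← h]; exact pow_gcd_eq_one.2 ⟨hm, hn⟩

end Pool.Agent.MP_09973c_nt.H58
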