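import Pool.Agent.MP_09973c_nt.H58.GB
import Pool.Agent.MP_09973c_nt.H58.WKit

/-!
Arithmetic of algebraic numbers: sizes, Liouville, Northcott.
-/

set_option autoImplicit false

namespace Pool.Agent.MP_09973c_nt.H58

open Finset Polynomial

instance : IsAlgClosure ℚ Qb := algebraicClosure.isAlgClosure ℚ ℂ

instance : IsAlgClosed Qb := IsAlgClosure.isAlgClosed ℚ

instance : IsGalois ℚ Qb := inferInstance

theorem index_Fix_ne_zero {S : Set Qb} (h : S.Finite) : (Fix ℚ S).index ≠ 0 := by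
  have h0 : Algebra.IsAlgebraic (IntermediateField.adjoin ℚ (∅ : Set Qb)) Qb :=
    Algebra.IsAlgebraic.tower_top (K := ℚ) _
  have := relIndex_ne_zero_of_finite h0 h
  rwa [show Fix ℚ (∅ : Set Qb) = ⊤ from eq_top_iff.2 fun g _ => mem_Fix.2 (by simp),
    Subgroup.relIndex_top_right] at this

theorem finite_roots_one {M : ℕ} (hM : 0 < M) : {z : Qb | z ^ M = 1}.Finite := by
  classical
  refine (nthRoots M (1 : Qb)).toFinset.finite_toSet.subset fun z hz => ?_
  simpa [mem_nthRoots hM] using hz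

theorem GK_index {p q : ℕ} (h : 0 < p * q) (a b : Qb) : (GK p q a b).index ≠ 0 :=
  index_Fix_ne_zero ((Set.toFinite _).union (finite_roots_one h))

theorem GK_left {p q : ℕ} {a b : Qb} {g : Gal} (hg : g ∈ GK p q a b) : g a = a :=
  mem_Fix.1 hg a (by simp)

theorem GK_right {p q : ℕ} {a b : Qb} {g : Gal} (hg : g ∈ GK p q a b) : g b = b :=
  mem_Fix.1 hg b (by simp)

theorem GK_p {p q : ℕ} {a b : Qb} {g : Gal} (hg : g ∈ GK p q a b) {z : Qb} (hz : z ^ p = 1) :
    g z = z := mem_Fix.1 hg z (Or.inr (by simp [pow_mul, hz]))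

theorem GK_q {p q : ℕ} {a b : Qb} {g : Gal} (hg : g ∈ GK p q a b) {z : Qb} (hz : z ^ q = 1) :
    g z = z := mem_Fix.1 hg z (Or.inr (by simp [mul_comm p q, pow_mul, hz]))

theorem GK_comm (p q : ℕ) (a b : Qb) : GK p q a b = GK p q b a := by
  rw [GK, GK, Set.pair_comm]

theorem GK_le_left (p q : ℕ) (a b : Qb) : GK p q a b ≤ GK p q a a :=
  Fix_anti (Set.union_subset_union_left _ (by simp))

theorem exists_avg_top {S : Subgroup Gal} (h : S.index ≠ 0) :
    ∃ γ : Fin S.index → Gal, IsAvg ⊤ S γ := by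
  have := exists_avg ⊤ S (by rwa [Subgroup.relIndex_top_right])
  rwa [Subgroup.relIndex_top_right] at this

theorem orb_ncard (G : Subgroup Gal) (x : Qb) : (orb G x).ncard = (Fix ℚ {x}).relIndex G := by
  have h1 : orb G x = MulAction.orbit G x := by
    ext y; simp [orb, MulAction.mem_orbit_iff, Subgroup.smul_def]
  rw [h1, ← MulAction.index_stabilizer, Subgroup.relIndex]
  congr 1
  ext g
  simp [Subgroup.mem_subgroupOf, mem_Fix, Subgroup.smul_def]

theorem orb_finite (G : Subgroup Gal) (x : Qb) : (orb G x).Finite := by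
  refine Set.finite_of_ncard_ne_zero ?_
  rw [orb_ncard]
  intro h
  have := Subgroup.relIndex_eq_zero_of_le_right (le_top : G ≤ ⊤) h
  rw [Subgroup.relIndex_top_right] at this
  exact index_Fix_ne_zero (Set.finite_singleton x) this

theorem index_inf_Fix (G : Subgroup Gal) (x : Qb) :
    (G ⊓ Fix ℚ {x}).index = (orb G x).ncard * G.index := by
  rw [orb_ncard, ← Subgroup.relIndex_mul_index (inf_le_left : G ⊓ Fix ℚ {x} ≤ G),
    Subgroup.inf_relIndex_left]

theorem exists_max_orb (G : Subgroup Gal) (x : Qb) :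
    ∃ g₀ ∈ G, ∀ g ∈ G, ‖g x‖ ≤ ‖g₀ x‖ := by
  obtain ⟨_, ⟨g₀, hg₀, rfl⟩, h⟩ := Set.exists_max_image (orb G x) (fun y => ‖y‖) (orb_finite G x)
    ⟨x, 1, G.one_mem, rfl⟩
  exact ⟨g₀, hg₀, fun g hg => h _ ⟨g, hg, rfl⟩⟩

theorem rat_of_fixed {x : Qb} (h : ∀ g : Gal, g x = x) : ∃ r : ℚ, (r : Qb) = x :=
  (InfiniteGalois.mem_range_algebraMap_iff_fixed (k := ℚ) x).2 h

theorem int_of_fixed {x : Qb} (h : ∀ g : Gal, g x = x) (hx : IsIntegral ℤ x) :
    ∃ n : ℤ, (n : Qb) = x := by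
  obtain ⟨r, rfl⟩ := rat_of_fixed h
  have : IsIntegral ℤ r := (isIntegral_algHom_iff (IsScalarTower.toAlgHom ℤ ℚ Qb)
    (algebraMap ℚ Qb).injective).1 hx
  obtain ⟨n, rfl⟩ := IsIntegrallyClosed.isIntegral_iff.1 this
  exact ⟨n, by simp⟩

theorem isIntegral_gal (g : Gal) {x : Qb} (h : IsIntegral ℤ x) : IsIntegral ℤ (g x) :=
  h.map (g.toRingEquiv.toRingHom.toIntAlgHom)

theorem norm_intCast_Qb (n : ℤ) : ‖(n : Qb)‖ = |(n : ℝ)| := by
  rw [← Complex.norm_intCast]; rfl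

theorem norm_natCast_Qb (n : ℕ) : ‖(n : Qb)‖ = n := by
  rw [← Complex.norm_natCast]; rfl

/-- The norm of a nonzero integer is a nonzero rational integer. -/
theorem IsAvg.norm_int {S : Subgroup Gal} {ι : Type} [Fintype ι] {γ : ι → Gal} (h : IsAvg ⊤ S γ)
    {x : Qb} (hx : ∀ s ∈ S, s x = x) (hi : IsIntegral ℤ x) : ∃ n : ℤ, (n : Qb) = ∏ i, γ i x := by
  refine int_of_fixed (fun g => ?_) (IsIntegral.prod _ fun i _ => isIntegral_gal _ hi)
  rw [map_prod]
  exact h.prod_eq (fun g => g x) (fun g s hs => by simp [hx s hs]) (Subgroup.mem_top g)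

namespace Sz

variable {x y : Qb} {d d' : ℕ} {H H' : ℝ}

theorem nonneg (h : Sz x d H) : 0 ≤ H := (norm_nonneg _).trans (h.2 1)

theorem norm_le (h : Sz x d H) : ‖x‖ ≤ H := h.2 1

theorem mono (h : Sz x d H) (hd : d ∣ d') (hH : H ≤ H') : Sz x d' H' := by
  obtain ⟨e, rfl⟩ := hd
  refine ⟨?_, fun g => (h.2 g).trans hH⟩
  rw [Nat.cast_mul, mul_comm (d : Qb), mul_assoc]
  exact (isIntegral_natCast e).mul h.1

theorem mul (h : Sz x d H) (h' : Sz y d' H') : Sz (x * y) (d * d') (H * H') := by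
  refine ⟨?_, fun g => ?_⟩
  · rw [Nat.cast_mul, mul_mul_mul_comm]; exact h.1.mul h'.1
  · rw [map_mul, norm_mul]; exact mul_le_mul (h.2 g) (h'.2 g) (norm_nonneg _) h.nonneg

theorem add (h : Sz x d H) (h' : Sz y d H') : Sz (x + y) d (H + H') := by
  refine ⟨?_, fun g => ?_⟩
  · rw [mul_add]; exact h.1.add h'.1
  · rw [map_add]; exact (norm_add_le _ _).trans (add_le_add (h.2 g) (h'.2 g))

theorem neg (h : Sz x d H) : Sz (-x) d H :=
  ⟨by rw [mul_neg]; exact h.1.neg, fun g => by rw [map_neg, norm_neg]; exact h.2 g⟩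

theorem sub (h : Sz x d H) (h' : Sz y d H') : Sz (x - y) d (H + H') := by
  rw [sub_eq_add_neg]; exact h.add h'.neg

theorem map (h : Sz x d H) (g : Gal) : Sz (g x) d H :=
  ⟨by simpa using isIntegral_gal g h.1, fun g' => h.2 (g' * g)⟩

theorem int (n : ℤ) : Sz (n : Qb) 1 |(n : ℝ)| :=
  ⟨by simpa using isIntegral_intCast n, fun g => by rw [map_intCast, norm_intCast_Qb]⟩

theorem one : Sz 1 1 1 := by simpa using int 1

theorem zero : Sz 0 d 0 := ⟨by simpa using isIntegral_zero, by simp⟩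

theorem root {M : ℕ} (hM : 0 < M) (h : x ^ M = 1) : Sz x 1 1 :=
  ⟨by simpa using IsIntegral.of_pow hM (h ▸ isIntegral_one),
    fun g => (norm_root hM (by rw [← map_pow, h, map_one])).le⟩

theorem pow (h : Sz x d H) (n : ℕ) : Sz (x ^ n) (d ^ n) (H ^ n) := by
  induction n with
  | zero => simpa using one
  | succ n ih => simpa only [pow_succ] using ih.mul h

theorem sum {ι : Type} (T : Finset ι) {f : ι → Qb} {B : ι → ℝ} (h : ∀ i ∈ T, Sz (f i) d (B i)) :
    Sz (∑ i ∈ T, f i) d (∑ i ∈ T, B i) := by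
  classical
  induction T using Finset.induction_on with
  | empty => simpa using zero
  | insert a T ha ih =>
    rw [sum_insert ha, sum_insert ha]
    exact (h a (by simp)).add (ih fun i hi => h i (by simp [hi]))

theorem prod {ι : Type} (T : Finset ι) {f : ι → Qb} {e : ι → ℕ} {B : ι → ℝ}
    (h : ∀ i ∈ T, Sz (f i) (e i) (B i)) : Sz (∏ i ∈ T, f i) (∏ i ∈ T, e i) (∏ i ∈ T, B i) := by
  classical
  induction T using Finset.induction_on with
  | empty => simpa using one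
  | insert a T ha ih =>
    rw [prod_insert ha, prod_insert ha, prod_insert ha]
    exact (h a (by simp)).mul (ih fun i hi => h i (by simp [hi]))

theorem det {ι : Type} [Fintype ι] [DecidableEq ι] {M : Matrix ι ι Qb}
    (h : ∀ i j, Sz (M i j) d H) : Sz M.det (d ^ Fintype.card ι)
      ((Fintype.card ι).factorial * H ^ Fintype.card ι) := by
  rw [Matrix.det_apply']
  have := sum (d := d ^ Fintype.card ι) (univ : Finset (Equiv.Perm ι))
    (f := fun σ => ((Equiv.Perm.sign σ : ℤ) : Qb) * ∏ i, M (σ i) i)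
    (B := fun _ => H ^ Fintype.card ι) fun σ _ => by
      have h1 := (int (Equiv.Perm.sign σ : ℤ)).mul (prod univ fun i _ => h (σ i) i)
      rcases Int.units_eq_one_or (Equiv.Perm.sign σ) with h2 | h2 <;> simpa [h2] using h1
  simpa [Fintype.card_perm] using this

end Sz

theorem exists_Sz (x : Qb) : ∃ d : ℕ, 0 < d ∧ ∃ H : ℝ, 1 ≤ H ∧ Sz x d H := by
  have hx : IsAlgebraic ℤ x :=
    (IsFractionRing.isAlgebraic_iff ℤ ℚ Qb).2 (Algebra.IsAlgebraic.isAlgebraic x)
  obtain ⟨d, hd, hi⟩ := hx.exists_integral_multiple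
  obtain ⟨g₀, -, hg₀⟩ := exists_max_orb ⊤ x
  refine ⟨d.natAbs, Int.natAbs_pos.2 hd, max 1 ‖g₀ x‖, le_max_left _ _, ?_,
    fun g => (hg₀ g (Subgroup.mem_top g)).trans (le_max_right _ _)⟩
  rw [zsmul_eq_mul] at hi
  rcases Int.natAbs_eq d with h | h
  · rw [h] at hi; simpa using hi
  · rw [h] at hi; simpa using hi.neg

theorem exists_Sz_finset (Z : Finset Qb) :
    ∃ d : ℕ, 0 < d ∧ ∃ H : ℝ, 1 ≤ H ∧ ∀ x ∈ Z, Sz x d H := by
  choose d hd H hH h using exists_Sz
  refine ⟨∏ x ∈ Z, d x, prod_pos fun x _ => hd x, 1 + ∑ x ∈ Z, H x, ?_, fun x hx =>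
    (h x).mono (dvd_prod_of_mem _ hx) ?_⟩
  · have : 0 ≤ ∑ x ∈ Z, H x := sum_nonneg fun x _ => by linarith [hH x]
    linarith
  · have := single_le_sum (f := H) (fun x _ => by linarith [hH x]) hx
    linarith

theorem one_le_prod_norm {S : Subgroup Gal} {ι : Type} [Fintype ι] {γ : ι → Gal}
    (h : IsAvg ⊤ S γ) {x : Qb} (hx : ∀ s ∈ S, s x = x) (hi : IsIntegral ℤ x) (h0 : x ≠ 0) :
    1 ≤ ∏ i, ‖γ i x‖ := by
  obtain ⟨n, hn⟩ := h.norm_int hx hi
  have hn0 : n ≠ 0 := by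
    rintro rfl
    obtain ⟨i, -, hi⟩ := prod_eq_zero_iff.1 (hn.symm.trans Int.cast_zero)
    exact h0 (by simpa using hi)
  rw [← norm_prod, ← hn, norm_intCast_Qb]
  exact_mod_cast Int.one_le_abs hn0

theorem exists_one_le {x : Qb} (hi : IsIntegral ℤ x) (h0 : x ≠ 0) : ∃ g : Gal, 1 ≤ ‖g x‖ := by
  obtain ⟨γ, hγ⟩ := exists_avg_top (index_Fix_ne_zero (Set.finite_singleton x))
  have := one_le_prod_norm hγ (fun s hs => mem_Fix.1 hs x rfl) hi h0
  obtain ⟨g₀, -, hg₀⟩ := exists_max_orb ⊤ x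
  refine ⟨g₀, not_lt.1 fun hlt => ?_⟩
  have h2 := prod_le_prod (s := univ) (f := fun i => ‖γ i x‖) (g := fun _ => ‖g₀ x‖)
    (fun _ _ => norm_nonneg _) fun i _ => hg₀ _ (Subgroup.mem_top _)
  rw [prod_const] at h2
  have h3 := pow_lt_one₀ (norm_nonneg _) hlt (by rw [card_univ]; exact hγ.card_pos.ne' :
    (univ : Finset (Fin (Fix ℚ {x}).index)).card ≠ 0)
  linarith

/-- Liouville: some conjugate under `G` is not too small. -/
theorem liouville_sub {G : Subgroup Gal} (hG : G.index ≠ 0) {x : Qb} {d : ℕ} {H : ℝ}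
    (h : Sz x d H) (h0 : x ≠ 0) (hd : 0 < d) (hH : 1 ≤ H) :
    ∃ g ∈ G, (((d : ℝ) * H) ^ G.index)⁻¹ ≤ ‖g x‖ := by
  classical
  have hS : (G ⊓ Fix ℚ {x}).index ≠ 0 :=
    Subgroup.index_inf_ne_zero hG (index_Fix_ne_zero (Set.finite_singleton x))
  obtain ⟨γ, hγ⟩ := exists_avg_top hS
  obtain ⟨g₀, hg₀, hmax⟩ := exists_max_orb G x
  refine ⟨g₀, hg₀, ?_⟩
  have hd' : (1 : ℝ) ≤ d := by exact_mod_cast hd
  have h1 := one_le_prod_norm hγ (x := d * x)
    (fun s hs => by rw [map_mul, map_natCast, mem_Fix.1 hs.2 x rfl]) h.1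
    (mul_ne_zero (by exact_mod_cast hd.ne') h0)
  have h2 := hγ.coset (inf_le_left : _ ≤ G) (Subgroup.mem_top 1)
  rw [Subgroup.relIndex_top_right] at h2
  simp only [inv_one, one_mul] at h2
  set A := univ.filter fun i => γ i ∈ G with hA
  have hApos : A.card ≠ 0 := fun h0 => by rw [h0, zero_mul] at h2; exact hγ.card_pos.ne h2
  have hB : 1 ≤ (d : ℝ) * H := one_le_mul_of_one_le_of_one_le hd' hH
  have h3 : ∏ i, ‖γ i (d * x)‖ ≤ ∏ i, (((d : ℝ) * H) * if γ i ∈ G then ‖g₀ x‖ else 1) := by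
    refine prod_le_prod (fun _ _ => norm_nonneg _) fun i _ => ?_
    rw [map_mul, map_natCast, norm_mul, norm_natCast_Qb, mul_assoc]
    refine mul_le_mul_of_nonneg_left ?_ (by positivity)
    split_ifs with hi
    · exact (hmax _ hi).trans (le_mul_of_one_le_left (norm_nonneg _) hH)
    · simpa using h.2 _
  rw [prod_mul_distrib, prod_const, prod_ite, prod_const, prod_const_one, mul_one, card_univ, ← h2,
    mul_comm A.card, pow_mul, ← hA, ← mul_pow] at h3
  have h4 := (one_le_pow_iff_of_nonneg (by positivity) hApos).1 (h1.trans h3)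
  rw [inv_le_iff_one_le_mul₀' (by positivity)]
  exact h4

theorem index_conj (S : Subgroup Gal) (g : Gal) :
    (S.map (MulAut.conj g).toMonoidHom).index = S.index :=
  Subgroup.index_map_of_bijective (MulAut.conj g).bijective S

theorem liP_arch (g : Gal) : LiP ((algebraMap Qb ℂ).comp g.toRingEquiv.toRingHom) := by
  intro x d H S hS hx h h0 hd hH
  obtain ⟨g', hg', h1⟩ := liouville_sub (G := S.map (MulAut.conj g).toMonoidHom)
    (by rwa [index_conj]) (h.map g) (by simpa using h0) hd hH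
  obtain ⟨s, hs, rfl⟩ := hg'
  rw [index_conj] at h1
  refine h1.trans_eq ?_
  change ‖(g * s * g⁻¹) (g x)‖ = ‖g x‖
  simp [hx s hs]

theorem liP_id : LiP (RingHom.id Qb) := liP_arch 1

theorem padic_le_one {l : ℕ} [Fact l.Prime] (ψ : Qb →+* PadicAlgCl l) {x : Qb}
    (h : IsIntegral ℤ x) : ‖ψ x‖ ≤ 1 := by
  obtain ⟨f, hf, hfx⟩ := h.map ψ.toIntAlgHom
  by_contra hlt
  push Not at hlt
  set y := ψ x
  have h1 : y ^ f.natDegree = -∑ i ∈ range f.natDegree, (f.coeff i : PadicAlgCl l) * y ^ i := by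
    rw [eval₂_eq_sum_range, sum_range_succ, hf.coeff_natDegree] at hfx
    simp only [map_one, one_mul, eq_intCast] at hfx
    exact eq_neg_of_add_eq_zero_right hfx
  rcases (range f.natDegree).eq_empty_or_nonempty with h0 | hne
  · rw [h0, range_eq_empty_iff.1 h0] at h1; simp at h1
  obtain ⟨i, hi, h2⟩ := IsUltrametricDist.exists_norm_finsetSum_le_of_nonempty hne
    fun i => (f.coeff i : PadicAlgCl l) * y ^ i
  rw [← norm_neg, ← h1, norm_mul, norm_pow, norm_pow] at h2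
  have h3 := pow_lt_pow_right₀ hlt (mem_range.1 hi)
  have h4 := IsUltrametricDist.norm_intCast_le_one (PadicAlgCl l) (f.coeff i)
  nlinarith [pow_pos (one_pos.trans hlt) i]

theorem padic_le_of_Sz {l : ℕ} [Fact l.Prime] (ψ : Qb →+* PadicAlgCl l) {x : Qb} {d : ℕ}
    (hd : 0 < d) (h : IsIntegral ℤ ((d : Qb) * x)) : ‖ψ x‖ ≤ d := by
  have h1 := padic_le_one ψ h
  have h2 := goodF_padic l d hd
  have hd' : (0 : ℝ) < d := by exact_mod_cast hd
  rw [map_mul, map_natCast, norm_mul] at h1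
  rw [div_le_iff₀ hd'] at h2
  nlinarith [norm_nonneg (ψ x), norm_nonneg (d : PadicAlgCl l)]

theorem liP_padic {l : ℕ} [Fact l.Prime] (ψ : Qb →+* PadicAlgCl l) : LiP ψ := by
  classical
  intro x d H S hS hx h h0 hd hH
  obtain ⟨γ, hγ⟩ := exists_avg_top hS
  have hx' : ∀ s ∈ S, s ((d : Qb) * x) = d * x := fun s hs => by rw [map_mul, map_natCast, hx s hs]
  obtain ⟨n, hn⟩ := hγ.norm_int hx' h.1
  have h1 := one_le_prod_norm hγ hx' h.1 (mul_ne_zero (by exact_mod_cast hd.ne') h0)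
  have h2 : ∏ i, ‖γ i (d * x)‖ ≤ ((d : ℝ) * H) ^ S.index := by
    refine (prod_le_prod (g := fun _ => (d : ℝ) * H) (fun _ _ => norm_nonneg _)
      fun i _ => ?_).trans_eq (by simp)
    rw [map_mul, map_natCast, norm_mul, norm_natCast_Qb]
    exact mul_le_mul_of_nonneg_left (h.2 _) (by positivity)
  rw [← norm_prod, ← hn, norm_intCast_Qb] at h1 h2
  have hn0 : 0 < n.natAbs := Int.natAbs_pos.2 (by rintro rfl; norm_num at h1)
  have h3 := goodF_padic l _ hn0
  obtain ⟨i, hi, -⟩ := hγ.2 1 (Subgroup.mem_top _)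
  have hix : γ i (d * x) = d * x := hx' _ (by simpa using S.inv_mem hi)
  have h4 : ‖(n.natAbs : PadicAlgCl l)‖ ≤ ‖ψ x‖ := by
    have h5 : ‖(n.natAbs : PadicAlgCl l)‖ = ‖ψ (n : Qb)‖ := by
      rw [map_intCast, Nat.cast_natAbs]
      rcases abs_choice n with h | h <;> simp [h]
    rw [h5, hn, ← mul_prod_erase _ _ (mem_univ i), hix, map_mul, map_mul, norm_mul, norm_mul]
    have h6 := padic_le_one ψ (IsIntegral.prod (s := univ.erase i) (fun j => γ j (d * x))
      fun j _ => isIntegral_gal (γ j) h.1)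
    have h7 := padic_le_one ψ (isIntegral_natCast (B := Qb) d)
    calc _ ≤ 1 * ‖ψ x‖ * 1 := by gcongr
      _ = _ := by ring
  refine le_trans ?_ (h3.trans h4)
  rw [one_div, Nat.cast_natAbs, Int.cast_abs]
  exact inv_anti₀ (by linarith) h2

/-- Integrality can be tested at the finite places. -/
theorem integral_of_padic {x : Qb}
    (h : ∀ (l : ℕ) (_ : Fact l.Prime) (ψ : Qb →+* PadicAlgCl l), ‖ψ x‖ ≤ 1) : IsIntegral ℤ x := by
  obtain ⟨γ, hγ⟩ := exists_avg_top (index_Fix_ne_zero (Set.finite_singleton x))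
  let χ : Qb[X] := ∏ i, (X - C (γ i x))
  have hfix : ∀ (g : Gal) n, g (χ.coeff n) = χ.coeff n := fun g n => by
    have := hγ.prod_eq (fun g => X - C (g x)) (fun g s hs => by simp [mem_Fix.1 hs x rfl])
      (Subgroup.mem_top g)
    conv_rhs => rw [show χ = _ from this.symm]
    rw [show g (χ.coeff n) = (χ.map g.toRingEquiv.toRingHom).coeff n by simp]
    simp [χ, Polynomial.map_prod]
  have hint : ∀ n, χ.coeff n ∈ Set.range (algebraMap ℤ Qb) := fun n => by
    obtain ⟨r, hr⟩ := rat_of_fixed (hfix · n)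
    have hden : r.den = 1 := by
      by_contra hne
      obtain ⟨l, hl, hdvd⟩ := Nat.exists_prime_and_dvd hne
      haveI : Fact l.Prime := ⟨hl⟩
      let ψ : Qb →+* PadicAlgCl l := (IsAlgClosed.lift (R := ℚ) (S := Qb)
        (M := PadicAlgCl l)).toRingHom
      let O : Subring (PadicAlgCl l) :=
        { carrier := {y | ‖y‖ ≤ 1}
          mul_mem' := fun {a b} ha hb => (norm_mul a b).trans_le (mul_le_one₀ ha (norm_nonneg _) hb)
          one_mem' := norm_one.le
          add_mem' := fun {a b} ha hb => (IsUltrametricDist.norm_add_le_max a b).trans (max_le ha hb)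
          zero_mem' := by simp
          neg_mem' := fun {a} ha => (norm_neg a).trans_le ha }
      have h1 : χ.map ψ ∈ lifts O.subtype := by
        simp only [χ, Polynomial.map_prod, Polynomial.map_sub, map_X, map_C]
        exact Subring.prod_mem (liftsRing O.subtype) fun i _ => (liftsRing O.subtype).sub_mem
          (X_mem_lifts _) (C_mem_lifts O.subtype ⟨_, h l ⟨hl⟩ (ψ.comp (γ i).toRingEquiv.toRingHom)⟩)
      obtain ⟨y, hy⟩ := (lifts_iff_coeff_lifts _).1 h1 n
      have h2 : ‖(r : ℚ_[l])‖ ≤ 1 := by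
        rw [← PadicAlgCl.norm_extends, map_ratCast, ← map_ratCast ψ, hr, ← coeff_map, ← hy]
        exact y.2
      exact Rat.padicValuation_le_one_iff.1
        ((Padic.norm_rat_le_one_iff_padicValuation_le_one l).1 h2) hdvd
    exact ⟨r.num, by rw [← hr, ← Rat.coe_int_num_of_den_eq_one hden]; simp⟩
  have hm : χ.Monic := monic_prod_of_monic _ _ fun _ _ => monic_X_sub_C _
  obtain ⟨f, hf, -, hfm⟩ := lifts_and_natDegree_eq_and_monic ((lifts_iff_coeff_lifts _).2 hint) hm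
  obtain ⟨i, hi, -⟩ := hγ.2 1 (Subgroup.mem_top _)
  have hix : γ i x = x := mem_Fix.1 (show γ i ∈ Fix ℚ {x} by simpa using hi) x rfl
  refine ⟨f, hfm, ?_⟩
  rw [← eval_map, hf, eval_prod]
  exact prod_eq_zero (mem_univ i) (by simp [hix])

end Pool.Agent.MP_09973c_nt.H58
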