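import Pool.Agent.MP_09973c_nt.H58.Defs

/-!
Counting with coset representatives.
-/

set_option autoImplicit false

namespace Pool.Agent.MP_09973c_nt.H58

open Finset Classical

variable {G ι : Type} [Group G] {G₀ S S' : Subgroup G} {γ : ι → G}

theorem IsAvg.equiv (h : IsAvg G₀ S γ) : Nonempty (ι ≃ (G₀ ⧸ S.subgroupOf G₀)) := by
  refine ⟨Equiv.ofBijective (fun i => QuotientGroup.mk ⟨γ i, h.1 i⟩) ⟨fun i j hij => ?_, ?_⟩⟩
  · have h1 : (γ i)⁻¹ * γ j ∈ S := by
      simpa [Subgroup.mem_subgroupOf] using QuotientGroup.eq.1 hij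
    obtain ⟨l, -, hl⟩ := h.2 (γ j) (h.1 j)
    rw [hl i h1, hl j (by simp)]
  · rintro ⟨g⟩
    obtain ⟨l, hl, -⟩ := h.2 g g.2
    exact ⟨l, QuotientGroup.eq.2 (by simpa [Subgroup.mem_subgroupOf] using hl)⟩

theorem IsAvg.card [Fintype ι] (h : IsAvg G₀ S γ) : Fintype.card ι = S.relIndex G₀ := by
  obtain ⟨e⟩ := h.equiv
  rw [← Nat.card_eq_fintype_card, Nat.card_congr e]
  rfl

theorem IsAvg.card_pos [Fintype ι] (h : IsAvg G₀ S γ) : 0 < Fintype.card ι := by
  obtain ⟨l, -⟩ := h.2 1 G₀.one_mem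
  exact Fintype.card_pos_iff.2 ⟨l⟩

theorem exists_avg (G₀ S : Subgroup G) (h : S.relIndex G₀ ≠ 0) :
    ∃ γ : Fin (S.relIndex G₀) → G, IsAvg G₀ S γ := by
  have hfin : Finite (G₀ ⧸ S.subgroupOf G₀) := Nat.finite_of_card_ne_zero h
  let e : Fin (S.relIndex G₀) ≃ (G₀ ⧸ S.subgroupOf G₀) := (Finite.equivFinOfCardEq rfl).symm
  refine ⟨fun i => ((e i).out : G₀), fun i => (e i).out.2, fun g hg => ?_⟩
  have key : ∀ i, (((e i).out : G₀) : G)⁻¹ * g ∈ S ↔ e i = QuotientGroup.mk ⟨g, hg⟩ := by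
    intro i
    conv_rhs => rw [← QuotientGroup.out_eq' (e i), QuotientGroup.eq]
    simp [Subgroup.mem_subgroupOf]
  refine ⟨e.symm (QuotientGroup.mk ⟨g, hg⟩), (key _).2 (by simp), fun j hj => ?_⟩
  rw [← (key j).1 hj]; simp

theorem IsAvg.inj (h : IsAvg G₀ S γ) {i j : ι} (hij : (γ i)⁻¹ * γ j ∈ S) : i = j := by
  obtain ⟨l, -, hl⟩ := h.2 (γ j) (h.1 j)
  rw [hl i hij, hl j (by simp)]

theorem IsAvg.perm [Fintype ι] (h : IsAvg G₀ S γ) {g : G} (hg : g ∈ G₀) :
    ∃ π : Equiv.Perm ι, ∀ i, (γ (π i))⁻¹ * (g * γ i) ∈ S := by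
  choose f hf _ using fun i => h.2 (g * γ i) (G₀.mul_mem hg (h.1 i))
  refine ⟨Equiv.ofBijective f (Finite.injective_iff_bijective.1 fun i j hij => ?_), hf⟩
  have h1 := S.mul_mem (S.inv_mem (hf i)) (hf j)
  rw [hij] at h1
  exact h.inj (by simpa [mul_assoc] using h1)

/-- Products of right invariant functions are left invariant. -/
theorem IsAvg.prod_eq [Fintype ι] (h : IsAvg G₀ S γ) {M : Type} [CommMonoid M] (φ : G → M)
    (hφ : ∀ x, ∀ s ∈ S, φ (x * s) = φ x) {g : G} (hg : g ∈ G₀) :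
    ∏ i, φ (g * γ i) = ∏ i, φ (γ i) := by
  obtain ⟨π, hπ⟩ := h.perm hg
  rw [← Equiv.prod_comp π fun i => φ (γ i)]
  refine prod_congr rfl fun i _ => ?_
  rw [← hφ (γ (π i)) _ (hπ i)]; simp

theorem IsAvg.coset [Fintype ι] (h : IsAvg G₀ S γ) (hS : S ≤ S') {g : G} (hg : g ∈ G₀) :
    (univ.filter fun i => g⁻¹ * γ i ∈ S').card * S'.relIndex G₀ = Fintype.card ι := by
  have h1 : IsAvg (S' ⊓ G₀) S fun i : {i // g⁻¹ * γ i ∈ S'} => g⁻¹ * γ i := by
    refine ⟨fun i => ⟨i.2, G₀.mul_mem (G₀.inv_mem hg) (h.1 i)⟩, fun x hx => ?_⟩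
    obtain ⟨l, hl, hu⟩ := h.2 (g * x) (G₀.mul_mem hg hx.2)
    have h2 : g⁻¹ * γ l ∈ S' := by
      have := S'.mul_mem hx.1 (S'.inv_mem (hS hl))
      simpa [mul_assoc] using this
    refine ⟨⟨l, h2⟩, by simpa [mul_assoc] using hl, fun j hj => Subtype.ext (hu j ?_)⟩
    simpa [mul_assoc] using hj
  have h2 := h1.card
  rw [Fintype.card_subtype] at h2
  rw [h2, Subgroup.relIndex_inf_mul_relIndex, inf_eq_left.2 hS, h.card]

/-- Upper bound for the number of representatives with a property. -/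
theorem IsAvg.upper [Fintype ι] (h : IsAvg G₀ S γ) (hS : S ≤ S') {Y : Type} (P : G → Prop)
    (f : G → Y) (Z : Finset Y) (hZ : ∀ g ∈ G₀, P g → f g ∈ Z)
    (hf : ∀ g ∈ G₀, ∀ g' ∈ G₀, P g → P g' → f g = f g' → g⁻¹ * g' ∈ S') :
    (univ.filter fun i => P (γ i)).card * S'.relIndex G₀ ≤ Z.card * Fintype.card ι := by
  rw [card_eq_sum_card_fiberwise (f := fun i => f (γ i)) (t := Z)
    (fun i hi => hZ _ (h.1 i) (mem_filter.1 hi).2), sum_mul]
  refine (sum_le_card_nsmul _ _ (Fintype.card ι) fun y _ => ?_).trans (by simp)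
  rcases ((univ.filter fun i => P (γ i)).filter fun i => f (γ i) = y).eq_empty_or_nonempty with
    h0 | ⟨j, hj⟩
  · rw [h0]; simp
  · rw [← h.coset hS (h.1 j)]
    refine Nat.mul_le_mul_right _ (card_le_card fun i hi => ?_)
    simp only [mem_filter, mem_univ, true_and] at hi hj ⊢
    exact hf _ (h.1 j) _ (h.1 i) hj.1 hi.1 (hj.2.trans hi.2.symm)

/-- Lower bound for the number of representatives with a property. -/
theorem IsAvg.lower [Fintype ι] (h : IsAvg G₀ S γ) (hS : S ≤ S') (P : G → Prop) (T : Finset G)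
    (hT : ∀ g ∈ T, g ∈ G₀) (hd : ∀ g ∈ T, ∀ g' ∈ T, g⁻¹ * g' ∈ S' → g = g')
    (hP : ∀ g ∈ T, ∀ g' ∈ G₀, g⁻¹ * g' ∈ S' → P g') :
    T.card * Fintype.card ι ≤ (univ.filter fun i => P (γ i)).card * S'.relIndex G₀ := by
  have h1 : (T.biUnion fun g => univ.filter fun i => g⁻¹ * γ i ∈ S') ⊆
      univ.filter fun i => P (γ i) := by
    intro i hi
    obtain ⟨g, hg, hi⟩ := mem_biUnion.1 hi
    exact mem_filter.2 ⟨mem_univ _, hP g hg _ (h.1 i) (mem_filter.1 hi).2⟩
  refine le_trans ?_ (Nat.mul_le_mul_right _ (card_le_card h1))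
  rw [card_biUnion, sum_mul]
  · rw [sum_congr rfl fun g hg => h.coset hS (hT g hg)]; simp
  · intro g hg g' hg' hne
    refine disjoint_left.2 fun i hi hi' => hne (hd g hg g' hg' ?_)
    have := S'.mul_mem (mem_filter.1 hi).2 (S'.inv_mem (mem_filter.1 hi').2)
    simpa [mul_assoc] using this

/-- Passing to a property that can be arranged inside each coset of `S'`. -/
theorem IsAvg.lift [Fintype ι] (h : IsAvg G₀ S γ) {S₃ : Subgroup G} (hS : S ≤ S₃) (hS' : S₃ ≤ S')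
    (hG : S' ≤ G₀) {n : ℕ} (hn : S₃.relIndex S' ≤ n) (P Q : G → Prop)
    (hQ : ∀ g, ∀ s ∈ S₃, Q g → Q (g * s))
    (hPQ : ∀ g ∈ G₀, P g → ∃ s ∈ S', Q (g * s)) :
    (univ.filter fun i => P (γ i)).card ≤ n * (univ.filter fun i => Q (γ i)).card := by
  have hrel : S.relIndex G₀ ≠ 0 := by rw [← h.card]; exact h.card_pos.ne'
  have h3 : S₃.relIndex G₀ ≠ 0 := fun h0 => hrel (Subgroup.relIndex_eq_zero_of_le_left hS h0)
  have h' : S'.relIndex G₀ ≠ 0 := fun h0 => h3 (Subgroup.relIndex_eq_zero_of_le_left hS' h0)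
  obtain ⟨δ, hδ⟩ := exists_avg G₀ S' h'
  choose c hc _ using hδ.2
  let Z : Finset (Fin (S'.relIndex G₀)) := univ.filter fun j => ∃ s ∈ S', Q (δ j * s)
  have hup := h.upper (hS.trans hS') P (fun g => if hg : g ∈ G₀ then some (c g hg) else none)
    (Z.image some) (fun g hg hP => by
      obtain ⟨s, hs, hq⟩ := hPQ g hg hP
      simp only [dif_pos hg]
      refine mem_image_of_mem _ (mem_filter.2 ⟨mem_univ _, _, S'.mul_mem (hc g hg) hs, ?_⟩)
      simpa [mul_assoc] using hq) (fun g hg g' hg' _ _ he => by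
      simp only [dif_pos hg, dif_pos hg', Option.some.injEq] at he
      have := S'.mul_mem (S'.inv_mem (hc g hg)) (hc g' hg')
      rw [he] at this
      simpa [mul_assoc] using this)
  rw [card_image_of_injective _ (Option.some_injective _)] at hup
  have hZ : ∀ j ∈ Z, ∃ s ∈ S', Q (δ j * s) := fun j hj => (mem_filter.1 hj).2
  choose! s hs hq using hZ
  have hinj : ∀ j ∈ Z, ∀ j' ∈ Z, (δ j * s j)⁻¹ * (δ j' * s j') ∈ S' → j = j' := by
    intro j hj j' hj' he
    have := S'.mul_mem (S'.mul_mem (hs j hj) he) (S'.inv_mem (hs j' hj'))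
    exact hδ.inj (by simpa [mul_assoc] using this)
  have hlow := h.lower hS Q (Z.image fun j => δ j * s j)
    (fun g hg => by
      obtain ⟨j, hj, rfl⟩ := mem_image.1 hg
      exact G₀.mul_mem (hδ.1 j) (hG (hs j hj)))
    (fun g hg g' hg' he => by
      obtain ⟨j, hj, rfl⟩ := mem_image.1 hg
      obtain ⟨j', hj', rfl⟩ := mem_image.1 hg'
      rw [hinj j hj j' hj' (hS' he)])
    (fun g hg g' _ he => by
      obtain ⟨j, hj, rfl⟩ := mem_image.1 hg
      simpa [mul_assoc] using hQ _ _ he (hq j hj))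
  rw [card_image_of_injOn fun j hj j' hj' he => hinj j hj j' hj' (by
    rw [show δ j * s j = δ j' * s j' from he]; simp)] at hlow
  rw [← Subgroup.relIndex_mul_relIndex S₃ S' G₀ hS' hG] at hlow
  refine Nat.le_of_mul_le_mul_right (hup.trans (hlow.trans ?_)) (Nat.pos_of_ne_zero h')
  rw [← mul_assoc, mul_comm _ (S₃.relIndex S')]
  exact Nat.mul_le_mul_right _ (Nat.mul_le_mul_right _ hn)

/-- The relative index is at most the number of values of an invariant. -/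
theorem relIndex_le_card {Y : Type} (f : G → Y) (Z : Finset Y) (hZ : ∀ g ∈ G₀, f g ∈ Z)
    (hf : ∀ g ∈ G₀, ∀ g' ∈ G₀, f g = f g' → g⁻¹ * g' ∈ S) :
    S.relIndex G₀ ≠ 0 ∧ S.relIndex G₀ ≤ Z.card := by
  let F : (G₀ ⧸ S.subgroupOf G₀) → Z := fun x => ⟨f (x.out : G₀), hZ _ x.out.2⟩
  have hF : Function.Injective F := fun x y hxy => by
    rw [← QuotientGroup.out_eq' x, ← QuotientGroup.out_eq' y, QuotientGroup.eq]
    simpa [Subgroup.mem_subgroupOf] using
      hf _ x.out.2 _ y.out.2 (congrArg Subtype.val hxy)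
  have hfin : Finite (G₀ ⧸ S.subgroupOf G₀) := Finite.of_injective F hF
  refine ⟨Nat.card_pos.ne', ?_⟩
  have := Nat.card_le_card_of_injective F hF
  rwa [Nat.card_eq_fintype_card (α := Z), Fintype.card_coe] at this

/-- If the relative index is as large as the set of possible values, all values occur. -/
theorem realize {Y : Type} (f : G → Y) (Z : Finset Y) (hZ : ∀ g ∈ G₀, f g ∈ Z)
    (hf : ∀ g ∈ G₀, ∀ g' ∈ G₀, f g = f g' → g⁻¹ * g' ∈ S) (hc : Z.card ≤ S.relIndex G₀) :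
    ∀ y ∈ Z, ∃ g ∈ G₀, f g = y := by
  intro y hy
  by_contra hne
  push Not at hne
  have := (relIndex_le_card f (Z.erase y)
    (fun g hg => mem_erase.2 ⟨hne g hg, hZ g hg⟩) hf).2
  rw [card_erase_of_mem hy] at this
  have := card_pos.2 ⟨y, hy⟩
  omega

/-- Block counting: a map into `good` whose fibres are separated by a key. -/
theorem block_count {W K : Type} [Fintype K] (A good : Finset W) (key : W → K)
    (Φ : W → W) (hΦ : ∀ x ∈ A, Φ x ∈ good)
    (hinj : ∀ x ∈ A, ∀ x' ∈ A, Φ x = Φ x' → key x = key x' → x = x') :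
    A.card ≤ Fintype.card K * good.card := by
  have := card_le_card_of_injOn (s := A) (t := (univ : Finset K) ×ˢ good) (fun x => (key x, Φ x))
    (fun x hx => by simp [hΦ x hx])
    (fun x hx x' hx' he => hinj x hx x' hx' (congrArg Prod.snd he) (congrArg Prod.fst he))
  simpa using this

end Pool.Agent.MP_09973c_nt.H58
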