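import Pool.Agent.MP_09973c_nt.H58.PS

/-!
Basic facts on cycles with tails.
-/

set_option autoImplicit false

namespace Pool.Agent.MP_09973c_nt.H58

open Finset Polynomial

variable {p q : ℕ}

theorem finite_range_of_per {X : Type} {u : ℕ → X} {m : ℕ} (hm : 0 < m)
    (h : ∀ i, u (i + m) = u i) : (Set.range u).Finite := by
  refine ((Set.finite_lt_nat m).image u).subset ?_
  rintro _ ⟨i, rfl⟩
  exact ⟨i % m, Nat.mod_lt _ hm, Function.Periodic.map_mod_nat h i⟩

theorem cyc_integral (hpq : p < q) {c x : Qb} {d : ℕ} (hc : IsIntegral ℤ ((d : Qb) * c))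
    (h : x ∈ Cyc p q c) : IsIntegral ℤ ((d : Qb) * x) := by
  obtain ⟨u, m, hm, hu, hper, rfl⟩ := h
  by_contra hk
  obtain ⟨V, hV, hxV⟩ := Subring.exists_le_valuationSubring_of_isIntegrallyClosedIn
    (x := (d : Qb) * u 0) (R := (integralClosure ℤ Qb).toSubring) hk
  have h1 := H31.chain_val_le V.valuation hpq
    (u := u) ⟨fun k => (hu k).symm, finite_range_of_per hm hper⟩ 0
  have h2 : V.valuation d ≤ 1 := (V.valuation_le_one_iff _).2 (natCast_mem V d)
  have h3 : V.valuation (d * c) ≤ 1 := (V.valuation_le_one_iff _).2 (hV hc)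
  refine hxV ((V.valuation_le_one_iff _).1 ?_)
  rw [map_mul] at h3 ⊢
  rcases le_total (V.valuation (u 0)) 1 with h4 | h4
  · exact mul_le_one' h2 h4
  · have h5 := (le_self_pow h4 (by omega : q ≠ 0)).trans h1
    rcases le_max_iff.1 h5 with h6 | h6
    · exact mul_le_one' h2 h6
    · exact (mul_le_mul_right h6 _).trans h3

theorem cyc_Sz (hp : 0 < p) (hpq : p < q) {c x : Qb} {d : ℕ} {Ca : ℝ} (hc : Sz c d Ca)
    (h : x ∈ Cyc p q c) : Sz x d (1 + Ca) := by
  refine ⟨cyc_integral hpq hc.1 h, fun g => (norm_le_exp_lp _).trans ?_⟩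
  rw [← Real.exp_log (show 0 < 1 + Ca by linarith [hc.nonneg]), Real.exp_le_exp]
  exact cyc_le hp hpq (hc.2 g) (Cyc.map (g : Qb →+* Qb) h)

theorem fwd_integral (hpq : p < q) {c x y : Qb} {d : ℕ} (hc : IsIntegral ℤ ((d : Qb) * c))
    (hx : IsIntegral ℤ ((d : Qb) * x)) (h : x ^ p + c = y ^ q) : IsIntegral ℤ ((d : Qb) * y) := by
  refine IsIntegral.of_pow (by omega : 0 < q) ?_
  obtain ⟨e, rfl⟩ := Nat.exists_eq_add_of_lt hpq
  have : ((d : Qb) * y) ^ (p + e + 1) = d ^ (e + 1) * (d * x) ^ p + d ^ (p + e) * (d * c) := by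
    rw [mul_pow, ← h]; ring
  rw [this]
  exact (((isIntegral_natCast d).pow _).mul (hx.pow _)).add (((isIntegral_natCast d).pow _).mul hc)

/-- Exponent of the denominator at depth `j`. -/
def dn (p q : ℕ) : ℕ → ℕ
  | 0 => 1
  | j + 1 => q * dn p q j / p + 1

theorem dn_pos (p q j : ℕ) : 0 < dn p q j := by cases j <;> simp [dn]

theorem dn_mono (hp : 0 < p) (hpq : p < q) : Monotone (dn p q) :=
  monotone_nat_of_le_succ fun j => by
    have : dn p q j ≤ q * dn p q j / p := (Nat.le_div_iff_mul_le hp).2 (by nlinarith)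
    simp only [dn]; omega

theorem dn_le (hp : 0 < p) (hpq : p < q) (j : ℕ) :
    (dn p q j : ℝ) + p ≤ (p + 1) * ((q : ℝ) / p) ^ j := by
  induction j with
  | zero => simp [dn, add_comm]
  | succ j ih =>
    have hp' : (0 : ℝ) < p := by exact_mod_cast hp
    have hq : (p : ℝ) + 1 ≤ q := by exact_mod_cast hpq
    have h1 : ((q * dn p q j / p : ℕ) : ℝ) ≤ (q : ℝ) / p * dn p q j := by
      refine Nat.cast_div_le.trans_eq ?_
      push_cast; ring
    have h2 : (q : ℝ) / p * p = q := by field_simp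
    have h3 := mul_le_mul_of_nonneg_left ih (show 0 ≤ (q : ℝ) / p by positivity)
    simp only [dn, Nat.cast_add, Nat.cast_one, pow_succ]
    nlinarith

theorem bwd_integral (hp : 0 < p) {c : Qb} {d n : ℕ} (hc : IsIntegral ℤ ((d : Qb) * c))
    {t : ℕ → Qb} (ht : Bwd p q c n t) (h0 : IsIntegral ℤ ((d : Qb) * t 0)) :
    ∀ j ≤ n, IsIntegral ℤ (((d ^ dn p q j : ℕ) : Qb) * t j) := by
  intro j
  induction j with
  | zero => simpa [dn] using h0
  | succ j ih =>
    intro hj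
    refine IsIntegral.of_pow hp ?_
    have h1 : q * dn p q j < dn p q (j + 1) * p := by
      rw [dn, mul_comm _ p]; exact Nat.lt_mul_div_succ _ hp
    obtain ⟨e, he⟩ := Nat.exists_eq_add_of_lt h1
    have : (((d ^ dn p q (j + 1) : ℕ) : Qb) * t (j + 1)) ^ p =
        d ^ (e + 1) * (((d ^ dn p q j : ℕ) : Qb) * t j) ^ q - d ^ (q * dn p q j + e) * (d * c) := by
      push_cast
      rw [mul_pow, mul_pow, ← ht j (by omega), ← pow_mul, ← pow_mul, he]; ring
    rw [this]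
    exact (((isIntegral_natCast d).pow _).mul ((ih (by omega)).pow _)).sub
      (((isIntegral_natCast d).pow _).mul hc)

/-- Sizes along a backward chain. -/
theorem bwd_Sz (hp : 0 < p) (hpq : p < q) {c : Qb} {d n : ℕ} {Ca H : ℝ} (hc : Sz c d Ca)
    {t : ℕ → Qb} (ht : Bwd p q c n t) (hH : 1 ≤ H) (h0 : Sz (t 0) d H) : ∀ j ≤ n,
      Sz (t j) (d ^ dn p q j)
        (Real.exp (((q : ℝ) / p) ^ j * (Real.log H + Real.log (1 + Ca)))) := by
  intro j hj
  refine ⟨bwd_integral hp hc.1 ht h0.1 j hj, fun g => (norm_le_exp_lp _).trans ?_⟩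
  have h1 := esc_up hp hpq (hc.2 g) (ht.map (g : Qb →+* Qb)) j hj
  have h2 : lp (g (t 0)) ≤ Real.log H :=
    lp_le_of_norm_le (Real.log_nonneg hH) (by rw [Real.exp_log (by linarith)]; exact h0.2 g)
  have h3 := log_one_add_nonneg hc.nonneg
  rw [Real.exp_le_exp]
  have h4 := mul_le_mul_of_nonneg_left (add_le_add_left h2 (Real.log (1 + Ca)))
    (show 0 ≤ ((q : ℝ) / p) ^ j by positivity)
  simp only [RingHom.coe_coe] at h1
  linarith

/-! ### The Galois trick -/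

theorem fix_of_coprime {g : Gal} {x : Qb} {m n : ℕ} (h : m.Coprime n) (hm : (g ^ m) x = x)
    (hn : (g ^ n) x = x) : g x = x := by
  have h1 : ∀ k, (g ^ k) x = x ↔ g ^ k ∈ MulAction.stabilizer Gal x := fun _ => Iff.rfl
  rw [h1] at hm hn
  have : g ^ (m.gcd n : ℤ) ∈ MulAction.stabilizer Gal x := by
    rw [Nat.gcd_eq_gcd_ab, zpow_add, zpow_mul, zpow_mul, zpow_natCast, zpow_natCast]
    exact Subgroup.mul_mem _ (Subgroup.zpow_mem _ hm _) (Subgroup.zpow_mem _ hn _)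
  rwa [h, Nat.cast_one, zpow_one] at this

theorem pow_apply_of_mul {g : Gal} {x ω : Qb} (hω : g ω = ω) (h : g x = ω * x) (n : ℕ) :
    (g ^ n) x = ω ^ n * x := by
  induction n with
  | zero => simp
  | succ n ih => rw [pow_succ', AlgEquiv.mul_apply, ih, map_mul, map_pow, hω, h]; ring

theorem exists_mul_of_pow_eq {F : Type} [Field F] {r : ℕ} (hr : 0 < r) {x y : F}
    (h : y ^ r = x ^ r) : ∃ ω, ω ^ r = 1 ∧ y = ω * x := by
  by_cases hx : x = 0
  · subst hx
    rw [zero_pow hr.ne'] at h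
    exact ⟨1, one_pow _, by rw [pow_eq_zero_iff hr.ne'] at h; simp [h]⟩
  · exact ⟨y / x, by rw [div_pow, h, div_self (pow_ne_zero _ hx)], by field_simp⟩

theorem fix_pow_of_root {g : Gal} {r : ℕ} (hr : 0 < r) (hg : ∀ z : Qb, z ^ r = 1 → g z = z)
    {x : Qb} (h : g (x ^ r) = x ^ r) : (g ^ r) x = x := by
  obtain ⟨ω, hω, h1⟩ := exists_mul_of_pow_eq hr (show g x ^ r = x ^ r by rw [← map_pow, h])
  rw [pow_apply_of_mul (hg ω hω) h1, hω, one_mul]

theorem fix_fwd (hq : 0 < q) {a b : Qb} {n : ℕ} {x : ℕ → Qb} (hx : Fwd p q a n x) {g : Gal}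
    (hg : g ∈ GK p q a b) (h0 : g (x 0) = x 0) : ∀ s ≤ n, (g ^ q ^ s) (x s) = x s := by
  intro s
  induction s with
  | zero => simpa using h0
  | succ s ih =>
    intro hs
    have hg' := (GK p q a b).pow_mem hg (q ^ s)
    rw [pow_succ, pow_mul]
    refine fix_pow_of_root hq (fun z hz => GK_q hg' hz) ?_
    rw [← hx s (by omega), map_add, map_pow, ih (by omega), GK_left hg']

theorem fix_bwd (hp : 0 < p) {a b : Qb} {n : ℕ} {u : ℕ → Qb} (hu : Bwd p q a n u) {g : Gal}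
    (hg : g ∈ GK p q a b) (h0 : g (u 0) = u 0) : ∀ s ≤ n, (g ^ p ^ s) (u s) = u s := by
  intro s
  induction s with
  | zero => simpa using h0
  | succ s ih =>
    intro hs
    have hg' := (GK p q a b).pow_mem hg (p ^ s)
    rw [pow_succ, pow_mul]
    refine fix_pow_of_root hp (fun z hz => GK_p hg' hz) ?_
    rw [eq_sub_of_add_eq (hu s (by omega)), map_sub, map_pow, ih (by omega), GK_left hg']

/-- An automorphism fixing both ends of a chain fixes the whole chain. -/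
theorem fix_between (hp : 0 < p) (hq : 0 < q) (h : p.Coprime q) {a b : Qb} {n : ℕ} {u : ℕ → Qb}
    (hu : Bwd p q a n u) {g : Gal} (hg : g ∈ GK p q a b) (h0 : g (u 0) = u 0)
    (hn : g (u n) = u n) : ∀ s ≤ n, g (u s) = u s := by
  intro s hs
  have h1 := fix_fwd hq (hu.rev le_rfl) hg hn (n - s) (by omega)
  rw [show n - (n - s) = s by omega] at h1
  exact fix_of_coprime (h.pow s (n - s)) (fix_bwd hp hu hg h0 s hs) h1

namespace Dat

variable {c : Qb} (D : Dat p q c)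

theorem bwd_u (m : ℕ) : Bwd p q c m D.u := fun k _ => D.hu k

theorem u_cyc (i : ℕ) : D.u i ∈ Cyc p q c := by
  obtain ⟨m, hm, h⟩ := D.per
  exact ⟨fun k => D.u (i + k), m, hm, fun k => D.hu (i + k), fun k => by simp only [← add_assoc, h], rfl⟩

theorem fwd_lev {m : ℕ} (hm : m ≤ D.n) : Fwd p q c m D.lev := D.ht.rev hm

theorem lev_zero : D.lev 0 = D.t D.n := rfl

theorem lev_sub {j : ℕ} (hj : j ≤ D.n) : D.lev (D.n - j) = D.t j := by
  rw [lev, Nat.sub_sub_self hj]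

/-- The conjugate data. -/
noncomputable def map (g : Gal) {c' : Qb} (hc : g c = c') : Dat p q c' where
  n := D.n
  ξ := g D.ξ
  u := fun i => g (D.u i)
  t := fun j => g (D.t j)
  hξ := by rw [← map_pow, D.hξ, map_one]
  hξ1 := by simpa using D.hξ1
  hu := fun i => by rw [← hc, ← map_pow, ← map_pow, ← map_add, D.hu]
  per := by
    obtain ⟨m, hm, h⟩ := D.per
    exact ⟨m, hm, fun i => by rw [h]⟩
  ht0 := by rw [D.ht0, map_mul]
  ht := hc ▸ D.ht.map (g : Qb →+* Qb)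
  ncyc := fun j hj h => D.ncyc j hj (by
    simpa [← hc] using Cyc.map (g.symm : Qb →+* Qb) h)

@[simp] theorem map_n (g : Gal) {c' : Qb} (hc : g c = c') : (D.map g hc).n = D.n := rfl
@[simp] theorem map_u (g : Gal) {c' : Qb} (hc : g c = c') (i : ℕ) :
    (D.map g hc).u i = g (D.u i) := rfl
@[simp] theorem map_t (g : Gal) {c' : Qb} (hc : g c = c') (i : ℕ) :
    (D.map g hc).t i = g (D.t i) := rfl
@[simp] theorem map_lev (g : Gal) {c' : Qb} (hc : g c = c') (i : ℕ) :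
    (D.map g hc).lev i = g (D.lev i) := rfl

theorem u_Sz (hp : 0 < p) (hpq : p < q) {d : ℕ} {Ca : ℝ} (hc : Sz c d Ca) (i : ℕ) :
    Sz (D.u i) d (1 + Ca) := cyc_Sz hp hpq hc (D.u_cyc i)

theorem t0_Sz (hp : 0 < p) (hpq : p < q) {d : ℕ} {Ca : ℝ} (hc : Sz c d Ca) :
    Sz (D.t 0) d (1 + Ca) := by
  simpa [D.ht0] using (Sz.root hp D.hξ).mul (D.u_Sz hp hpq hc 0)

theorem t_Sz (hp : 0 < p) (hpq : p < q) {d : ℕ} {Ca : ℝ} (hc : Sz c d Ca) {j : ℕ} (hj : j ≤ D.n) :
    Sz (D.t j) (d ^ dn p q j) (Real.exp (((q : ℝ) / p) ^ j * (2 * Real.log (1 + Ca)))) := by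
  rw [two_mul]
  exact bwd_Sz hp hpq hc D.ht (by linarith [hc.nonneg]) (D.t0_Sz hp hpq hc) j hj

/-- Upper bound at an arbitrary place. -/
theorem lp_t_le (hp : 0 < p) (hpq : p < q) {F : Type} [NormedField F] (ψ : Qb →+* F) {Ca : ℝ}
    (hc : ‖ψ c‖ ≤ Ca) {j : ℕ} (hj : j ≤ D.n) :
    lp (ψ (D.t j)) ≤ ((q : ℝ) / p) ^ j * (2 * Real.log (1 + Ca)) := by
  have h1 := esc_up hp hpq hc (D.ht.map ψ) j hj
  have h2 : lp (ψ (D.t 0)) ≤ Real.log (1 + Ca) := by
    rw [D.ht0, map_mul, lp_unit_mul (norm_root hp (by rw [← map_pow, D.hξ, map_one]))]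
    exact cyc_le hp hpq hc (Cyc.map ψ (D.u_cyc 0))
  have h3 := log_one_add_nonneg ((norm_nonneg _).trans hc)
  have h4 := mul_le_mul_of_nonneg_left (add_le_add_left h2 (Real.log (1 + Ca)))
    (show 0 ≤ ((q : ℝ) / p) ^ j by positivity)
  linarith

theorem fix_u (hp : 0 < p) (hq : 0 < q) (h : p.Coprime q) {b : Qb} {g : Gal}
    (hg : g ∈ GK p q c b) (h0 : g (D.u 0) = D.u 0) (i : ℕ) : g (D.u i) = D.u i := by
  obtain ⟨m, hm, hper⟩ := D.per
  have h1 : D.u (i * m) = D.u 0 := by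
    simpa using Function.Periodic.nat_mul hper i 0
  exact fix_between hp hq h (D.bwd_u (i * m)) hg h0 (by rw [h1, h0]) i (by nlinarith)

theorem fix_t0 {b : Qb} {g : Gal} (hg : g ∈ GK p q c b) (h0 : g (D.u 0) = D.u 0) :
    g (D.t 0) = D.t 0 := by rw [D.ht0, map_mul, GK_p hg D.hξ, h0]

/-- An automorphism fixing the entry point and level `j` fixes all deeper levels. -/
theorem fix_lev (hp : 0 < p) (hq : 0 < q) (h : p.Coprime q) {b : Qb} {g : Gal}
    (hg : g ∈ GK p q c b) (h0 : g (D.u 0) = D.u 0) {j i : ℕ} (hj : g (D.lev j) = D.lev j)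
    (hji : j ≤ i) : g (D.lev i) = D.lev i :=
  fix_between hp hq h (n := D.n - j) (fun k hk => D.ht k (by omega)) hg (D.fix_t0 hg h0) hj _
    (by omega)

/-- An automorphism fixing the entry point and level `l + 1` rotates level `l`. -/
theorem rot_lev (hp : 0 < p) {b : Qb} {g : Gal} (hg : g ∈ GK p q c b) (h0 : g (D.u 0) = D.u 0)
    {l : ℕ} (hl : l + 1 ≤ D.n → g (D.lev (l + 1)) = D.lev (l + 1)) :
    ∃ ω, ω ^ p = 1 ∧ g (D.lev l) = ω * D.lev l := by
  by_cases h : l + 1 ≤ D.n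
  · refine exists_mul_of_pow_eq hp ?_
    rw [← map_pow, eq_sub_of_add_eq (D.fwd_lev le_rfl l h), map_sub, map_pow, hl h, GK_left hg]
  · refine ⟨1, one_pow _, ?_⟩
    rw [lev, show D.n - l = 0 by omega, one_mul, D.fix_t0 hg h0]

end Dat

section HL

variable {a b : Qb} (D : Dat p q a) (D' : Dat p q b)

theorem mem_HL {l : ℕ} {g : Gal} : g ∈ HL D D' l ↔ g ∈ GK p q a b ∧ g (D.u 0) = D.u 0 ∧
    g (D'.u 0) = D'.u 0 ∧ (∀ i, l ≤ i → i ≤ D.n → g (D.lev i) = D.lev i) ∧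
    ∀ i, l ≤ i → i ≤ D'.n → g (D'.lev i) = D'.lev i := by
  rw [HL, Subgroup.mem_inf, mem_Fix]
  refine and_congr_right fun _ => ⟨fun h => ⟨h _ (by simp), h _ (by simp),
    fun i h1 h2 => h _ (Or.inr ⟨i, h1, Or.inl ⟨h2, rfl⟩⟩),
    fun i h1 h2 => h _ (Or.inr ⟨i, h1, Or.inr ⟨h2, rfl⟩⟩)⟩, ?_⟩
  rintro ⟨h1, h2, h3, h4⟩ x ((rfl | rfl) | ⟨i, hi, ⟨h5, rfl⟩ | ⟨h5, rfl⟩⟩)
  exacts [h1, h2, h3 i hi h5, h4 i hi h5]

theorem mem_HC {g : Gal} :
    g ∈ HC D D' ↔ g ∈ GK p q a b ∧ g (D.u 0) = D.u 0 ∧ g (D'.u 0) = D'.u 0 := by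
  simp [HC, mem_Fix]

theorem HL_comm (l : ℕ) : HL D D' l = HL D' D l := by
  ext g; rw [mem_HL, mem_HL, GK_comm]; tauto

theorem HC_comm : HC D D' = HC D' D := by
  ext g; rw [mem_HC, mem_HC, GK_comm]; tauto

theorem HL_mono : Monotone (HL D D') := fun l l' h g hg => by
  rw [mem_HL] at hg ⊢
  exact ⟨hg.1, hg.2.1, hg.2.2.1, fun i hi => hg.2.2.2.1 i (h.trans hi),
    fun i hi => hg.2.2.2.2 i (h.trans hi)⟩

theorem HL_of_lt {l : ℕ} (h : D.n < l) (h' : D'.n < l) : HL D D' l = HC D D' := by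
  ext g; rw [mem_HL, mem_HC]
  exact ⟨fun h => ⟨h.1, h.2.1, h.2.2.1⟩,
    fun h => ⟨h.1, h.2.1, h.2.2, fun i _ _ => by omega, fun i _ _ => by omega⟩⟩

theorem HC_index (h : 0 < p * q) : (HC D D').index ≠ 0 :=
  Subgroup.index_inf_ne_zero (GK_index h a b) (index_Fix_ne_zero (Set.toFinite _))

theorem HC_index_le : (HC D D').index ≤ (orb (GK p q a b) (D.u 0)).ncard *
    (orb (GK p q a b) (D'.u 0)).ncard * (GK p q a b).index := by
  have h1 : HC D D' = (GK p q a b ⊓ Fix ℚ {D.u 0}) ⊓ Fix ℚ {D'.u 0} := by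
    ext g; simp [mem_HC, mem_Fix, and_assoc]
  rw [h1, index_inf_Fix, index_inf_Fix, mul_comm (orb (GK p q a b) (D.u 0)).ncard
    (orb (GK p q a b) (D'.u 0)).ncard, mul_assoc]
  refine Nat.mul_le_mul_right _ (Set.ncard_le_ncard ?_ (orb_finite _ _))
  rintro _ ⟨g, hg, rfl⟩
  exact ⟨g, hg.1, rfl⟩

theorem HL_index (h : 0 < p * q) (l : ℕ) : (HL D D' l).index ≠ 0 := by
  refine Subgroup.index_inf_ne_zero (GK_index h a b) (index_Fix_ne_zero ((Set.toFinite _).union
    ((((Set.finite_le_nat D.n).image D.lev).union ((Set.finite_le_nat D'.n).image D'.lev)).subset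
      ?_)))
  rintro _ ⟨i, -, ⟨h, rfl⟩ | ⟨h, rfl⟩⟩
  exacts [Or.inl ⟨i, h, rfl⟩, Or.inr ⟨i, h, rfl⟩]

theorem HL_step (hp : 0 < p) (l : ℕ) : (HL D D' l).relIndex (HL D D' (l + 1)) ≤ p ^ 2 := by
  classical
  refine (relIndex_le_card (fun g : Gal => (g (D.lev l), g (D'.lev l)))
    ((nthRoots p (D.lev l ^ p)).toFinset ×ˢ (nthRoots p (D'.lev l ^ p)).toFinset)
    (fun g hg => ?_) fun g hg g' hg' he => ?_).2.trans ?_
  · rw [mem_HL] at hg
    obtain ⟨ω, hω, h1⟩ := D.rot_lev hp hg.1 hg.2.1 (hg.2.2.2.1 _ le_rfl)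
    obtain ⟨ω', hω', h2⟩ := D'.rot_lev hp (GK_comm p q a b ▸ hg.1) hg.2.2.1 (hg.2.2.2.2 _ le_rfl)
    simp [mem_nthRoots hp, h1, h2, mul_pow, hω, hω']
  · have h1 := (mem_HL D D').1 ((HL D D' (l + 1)).mul_mem ((HL D D' (l + 1)).inv_mem hg) hg')
    rw [Prod.mk.injEq] at he
    refine (mem_HL D D').2 ⟨h1.1, h1.2.1, h1.2.2.1, fun i hi hi' => ?_, fun i hi hi' => ?_⟩
    · rcases hi.eq_or_lt with rfl | hi
      · simp [← he.1]
      · exact h1.2.2.2.1 i hi hi'
    · rcases hi.eq_or_lt with rfl | hi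
      · simp [← he.2]
      · exact h1.2.2.2.2 i hi hi'
  · rw [card_product, sq]
    exact Nat.mul_le_mul ((Multiset.toFinset_card_le _).trans (card_nthRoots _ _))
      ((Multiset.toFinset_card_le _).trans (card_nthRoots _ _))

/-- The degree is controlled by the number of levels where the group grows. -/
theorem HL_index_le (hp : 0 < p) (Γ : Finset ℕ)
    (hΓ : ∀ l, l ∉ Γ → HL D D' (l + 1) ≤ HL D D' l) :
    (HL D D' 0).index ≤ (HC D D').index * (p ^ 2) ^ Γ.card := by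
  have key : ∀ l, (HL D D' 0).index ≤ (HL D D' l).index * (p ^ 2) ^ (Γ.filter (· < l)).card := by
    intro l
    induction l with
    | zero => simp
    | succ l ih =>
      refine ih.trans ?_
      by_cases hl : l ∈ Γ
      · rw [show Γ.filter (· < l + 1) = insert l (Γ.filter (· < l)) by
          ext i; simp only [mem_filter, mem_insert]
          constructor
          · rintro ⟨h1, h2⟩
            rcases Nat.lt_succ_iff_lt_or_eq.1 h2 with h | h
            exacts [Or.inr ⟨h1, h⟩, Or.inl h]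
          · rintro (rfl | ⟨h1, h2⟩)
            exacts [⟨hl, by omega⟩, ⟨h1, by omega⟩], card_insert_of_notMem (by simp), pow_succ,
          ← Subgroup.relIndex_mul_index (HL_mono D D' l.le_succ)]
        have := HL_step D D' hp l
        calc _ ≤ p ^ 2 * (HL D D' (l + 1)).index * (p ^ 2) ^ (Γ.filter (· < l)).card :=
            Nat.mul_le_mul_right _ (Nat.mul_le_mul_right _ this)
          _ = _ := by ring
      · rw [le_antisymm (hΓ l hl) (HL_mono D D' l.le_succ)]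
        refine Nat.mul_le_mul_left _ (Nat.pow_le_pow_right (by positivity) (card_le_card ?_))
        exact monotone_filter_right _ fun i _ hi => by omega
  have := key (D.n + D'.n + 1)
  rw [HL_of_lt D D' (l := D.n + D'.n + 1) (by omega) (by omega)] at this
  exact this.trans (Nat.mul_le_mul_left _
    (Nat.pow_le_pow_right (by positivity) (card_filter_le _ _)))

end HL

end Pool.Agent.MP_09973c_nt.H58
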