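import Pool.Agent.MP_09973c_nt.H31.Final

/-!
Definitions for the remaining case `2 ≤ p < q`, algebraic parameters.
-/

set_option autoImplicit false

namespace Pool.Agent.MP_09973c_nt.H58

open Polynomial Finset Pool.Agent.MP_09973c_nt.H31

/-- The algebraic numbers. -/
abbrev Qb : Type := algebraicClosure ℚ ℂ

/-- The absolute Galois group. -/
abbrev Gal : Type := Qb ≃ₐ[ℚ] Qb

/-- The automorphisms over `k` fixing a set. -/
abbrev Fix (k : Type) {Ω : Type} [Field k] [Field Ω] [Algebra k Ω] (S : Set Ω) :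
    Subgroup (Ω ≃ₐ[k] Ω) := fixingSubgroup (Ω ≃ₐ[k] Ω) S

/-- The powers `z ^ e`, `e < n`, are independent over `k(S)`. -/
def PowInd (k : Type) {Ω : Type} [Field k] [Field Ω] [Algebra k Ω] (S : Set Ω) (z : Ω) (n : ℕ) :
    Prop := LinearIndependent (IntermediateField.adjoin k S) fun e : Fin n => z ^ (e : ℕ)

/-- `γ` lists representatives of the left cosets of `S` in `G₀`. -/
def IsAvg {G ι : Type} [Group G] (G₀ S : Subgroup G) (γ : ι → G) : Prop :=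
  (∀ i, γ i ∈ G₀) ∧ ∀ g ∈ G₀, ∃! i, (γ i)⁻¹ * g ∈ S

/-- Logarithm of the maximum of one and the norm. -/
noncomputable def lp {F : Type} [NormedField F] (x : F) : ℝ := Real.log (max 1 ‖x‖)

/-- Integers are not too small. -/
def GoodF (F : Type) [NormedField F] : Prop := ∀ M : ℕ, 0 < M → 1 / (M : ℝ) ≤ ‖(M : F)‖

/-- Denominator `d` and house at most `H`. -/
def Sz (x : Qb) (d : ℕ) (H : ℝ) : Prop := IsIntegral ℤ ((d : Qb) * x) ∧ ∀ g : Gal, ‖g x‖ ≤ H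

/-- Liouville inequality at the place `ψ`. -/
def LiP {F : Type} [NormedField F] (ψ : Qb →+* F) : Prop :=
  ∀ (x : Qb) (d : ℕ) (H : ℝ) (S : Subgroup Gal), S.index ≠ 0 → (∀ g ∈ S, g x = x) → Sz x d H →
    x ≠ 0 → 0 < d → 1 ≤ H → (((d : ℝ) * H) ^ S.index)⁻¹ ≤ ‖ψ x‖

/-- Orbit under a subgroup. -/
def orb (G : Subgroup Gal) (x : Qb) : Set Qb := {y | ∃ g ∈ G, g x = y}

/-- The group fixing the parameters and the roots of unity of order `p * q`. -/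
noncomputable def GK (p q : ℕ) (a b : Qb) : Subgroup Gal := Fix ℚ ({a, b} ∪ {z | z ^ (p * q) = 1})

/-- Forward chain of length `n`. -/
def Fwd {A : Type} [CommRing A] (p q : ℕ) (c : A) (n : ℕ) (x : ℕ → A) : Prop :=
  ∀ k < n, x k ^ p + c = x (k + 1) ^ q

/-- Backward chain of length `n`. -/
def Bwd {A : Type} [CommRing A] (p q : ℕ) (c : A) (n : ℕ) (u : ℕ → A) : Prop :=
  ∀ k < n, u (k + 1) ^ p + c = u k ^ q

/-- Points on periodic chains. -/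
def Cyc {A : Type} [CommRing A] (p q : ℕ) (c : A) : Set A :=
  {x | ∃ (u : ℕ → A) (m : ℕ), 0 < m ∧ (∀ i, u (i + 1) ^ p + c = u i ^ q) ∧
    (∀ i, u (i + m) = u i) ∧ u 0 = x}

/-- A cycle `u` together with a tail `t 0, …, t n` leaving it. -/
structure Dat (p q : ℕ) (c : Qb) where
  n : ℕ
  ξ : Qb
  u : ℕ → Qb
  t : ℕ → Qb
  hξ : ξ ^ p = 1
  hξ1 : ξ ≠ 1
  hu : ∀ i, u (i + 1) ^ p + c = u i ^ q
  per : ∃ m, 0 < m ∧ ∀ i, u (i + m) = u i
  ht0 : t 0 = ξ * u 0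
  ht : Bwd p q c n t
  ncyc : ∀ j ≤ n, t j ∉ Cyc p q c

/-- The point at level `l`, counted from the top of the tail. -/
def Dat.lev {p q : ℕ} {c : Qb} (D : Dat p q c) (l : ℕ) : Qb := D.t (D.n - l)

/-- The group fixing both entry points and all levels from `l` on. -/
noncomputable def HL {p q : ℕ} {a b : Qb} (D : Dat p q a) (D' : Dat p q b) (l : ℕ) : Subgroup Gal :=
  GK p q a b ⊓ Fix ℚ ({D.u 0, D'.u 0} ∪
    {x | ∃ i, l ≤ i ∧ ((i ≤ D.n ∧ x = D.lev i) ∨ (i ≤ D'.n ∧ x = D'.lev i))})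

/-- The group fixing both entry points. -/
noncomputable def HC {p q : ℕ} {a b : Qb} (D : Dat p q a) (D' : Dat p q b) : Subgroup Gal :=
  GK p q a b ⊓ Fix ℚ {D.u 0, D'.u 0}

/-! ### Determinant method -/

/-- A finite dimensional space of functions with a well conditioned grid. -/
structure Sys (P κ ι : Type) [Fintype κ] [DecidableEq κ] where
  Ok : P → Prop
  e : κ → P → ℂ
  lo : ι ↪ κ
  R : κ → P
  B : ℝ
  hB : 1 ≤ B
  okR : ∀ r, Ok (R r)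
  be : ∀ k x, Ok x → ‖e k x‖ ≤ B
  lag : ∃ L : κ → κ → ℂ, (∀ r r', ∑ k, L r k * e k (R r') = if r = r' then 1 else 0) ∧
    ∀ r x, Ok x → ‖∑ k, L r k * e k x‖ ≤ B

/-- Membership in the space. -/
def Sys.InV {P κ ι : Type} [Fintype κ] [DecidableEq κ] (S : Sys P κ ι) (f : P → ℂ) : Prop :=
  ∃ c : κ → ℂ, ∀ x, S.Ok x → f x = ∑ k, c k * S.e k x

/-- `f` multiplies the low part of the basis into the space. -/
def Sys.Mul {P κ ι : Type} [Fintype κ] [DecidableEq κ] (S : Sys P κ ι) (f : P → ℂ) : Prop :=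
  ∀ i, S.InV fun x => f x * S.e (S.lo i) x

/-- The equidistribution inequality: `a t l` is the size of the test function `t` at the orbit
point `l`, and `b t l` its size at the grid point `l`. -/
def EQ {τ κ : Type} [Fintype κ] (N' : ℕ) (a b : τ → κ → ℝ) : Prop :=
  ∀ w : κ → ℝ, (∀ l, 0 < w l) → ∃ S₁ : Finset κ, S₁.card = N' ∧ ∀ f : τ,
    ∃ S : Finset κ, S.card = N' ∧ ∀ h : τ, ∃ S₂ : Finset κ, S₂.card = N' ∧
      (∏ l ∈ S₁, a f l / w l) * ∏ l ∈ S, b h l ≤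
        Real.exp (Fintype.card κ) * (∏ l ∈ S, b f l) * ∏ l ∈ S₂, a h l / w l

/-- Test functions: polynomials of degree at most `w` in one value. -/
def EQp {κ : Type} [Fintype κ] (N' w : ℕ) (x y : κ → ℂ) : Prop :=
  EQ N' (fun (f : {f : ℂ[X] // f.natDegree ≤ w}) l => ‖f.1.eval (x l)‖)
    (fun f l => ‖f.1.eval (y l)‖)

/-- Test functions: products of two linear forms in three values. -/
def EQq {κ : Type} [Fintype κ] (N' : ℕ) (x y : κ → Fin 3 → ℂ) : Prop :=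
  EQ N' (fun (f : (Fin 3 → ℂ) × (Fin 3 → ℂ)) l =>
      ‖(∑ i, f.1 i * x l i) * ∑ i, f.2 i * x l i‖)
    (fun f l => ‖(∑ i, f.1 i * y l i) * ∑ i, f.2 i * y l i‖)

/-- The path `t j, …, t 1, u 0, u 1, …`. -/
def pv {A : Type} (j : ℕ) (u t : ℕ → A) : ℕ → A := fun k => if k < j then t (j - k) else u (k - j)

/-- Index set of the monomials. -/
abbrev PK (p q j m T : ℕ) : Type := Fin T × Idx (tr p q j) (m + j)

/-- The monomials in a chain `u 0, …, u m` and a tail `t 1, …, t j`. -/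
def mono {A : Type} [CommRing A] {p q j m T : ℕ} (k : PK p q j m T) (u t : ℕ → A) : A :=
  u m ^ (k.1 : ℕ) * bas k.2 (pv j u t)

/-- A bounded chain with a tail. -/
def OkP (p q : ℕ) (a ξ : ℂ) (C₀ : ℝ) (j m : ℕ) (x : (ℕ → ℂ) × (ℕ → ℂ)) : Prop :=
  Bwd p q a m x.1 ∧ (∀ i ≤ m, ‖x.1 i‖ ≤ C₀) ∧ x.2 0 = ξ * x.1 0 ∧ Bwd p q a j x.2

/-- Combinatorial properties of a grid of chains with tails. -/
structure Grid (p q : ℕ) (a ξ : ℂ) (C₀ : ℝ) (j m : ℕ) {κ : Type} [Fintype κ]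
    (R : κ → (ℕ → ℂ) × (ℕ → ℂ)) : Prop where
  ok : ∀ x, OkP p q a ξ C₀ j m (R x)
  frac : ∀ m₁ ≤ m, ∀ j₁ ≤ j, ∀ good : Finset κ,
    (∀ x, ∃ u t : ℕ → ℂ, Bwd p q a m₁ u ∧ u m₁ = (R x).1 m₁ ∧ t 0 = ξ * u 0 ∧ Bwd p q a j₁ t ∧
      ∀ y, (∀ i ≤ m₁, (R y).1 i = u i) → (∀ i ≤ j₁, (R y).2 i = t i) → y ∈ good) →
    Fintype.card κ ≤ q ^ (m₁ + j₁) * good.card
  rot : 1 ≤ j → ∀ ζ : ℂ, ζ ^ p = 1 → ∃ π : Equiv.Perm κ, ∀ x, (R (π x)).2 j = ζ * (R x).2 j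

/-! ### Trees of preimages of zero -/

/-- The node reached from zero by the digits `dg`: `pth (d+1) ^ s = pth d ^ r - c`. -/
def pth {k : Type} [Field k] (r : ℕ) (c ζ : k) (rt : k → k) (dg : ℕ → ℕ) : ℕ → k
  | 0 => 0
  | d + 1 => ζ ^ dg d * rt (pth r c ζ rt dg d ^ r - c)

/-- Digits of a finite word. -/
def wd {i s : ℕ} (ω : Fin i → Fin s) : ℕ → ℕ := fun d => if h : d < i then (ω ⟨d, h⟩ : ℕ) else 0

open Classical in
/-- The combinatorial hypothesis on the tree of preimages of zero. -/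
def MHyp {k : Type} [Field k] (r s : ℕ) (c : k) (C ρ : ℝ) (Pm J : ℕ) : Prop :=
  ∃ (ζ : k) (rt : k → k), IsPrimitiveRoot ζ s ∧ (∀ x, rt x ^ s = x) ∧ ∀ i ≤ J,
    ((s : ℝ) ^ i ≤ C * ((univ.filter fun ω : Fin i → Fin s =>
      ∀ d, 1 ≤ d → d ≤ i → pth r c ζ rt (wd ω) d ≠ 0).card : ℝ)) ∧
    ∀ h : ℕ, ∃ Good : Finset (Fin i → Fin s),
      ((Goodᶜ.card : ℝ) ≤ C * ρ ^ h * (s : ℝ) ^ i) ∧
      (∀ β, (Good.filter fun ω => pth r c ζ rt (wd ω) i = β).card ≤ s ^ h * Pm) ∧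
      ∀ ω ∈ Good, ∀ d, h ≤ d → 1 ≤ d → d ≤ i → pth r c ζ rt (wd ω) d ≠ 0

end Pool.Agent.MP_09973c_nt.H58
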