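import Pool.Agent.MP_09973c_nt.H42.MBwd

/-!
The tree of preimages of zero: most words escape at some place.
-/

set_option autoImplicit false

namespace Pool.Agent.MP_09973c_nt.H58.MF

open Polynomial Finset Classical Pool.Agent.MP_09973c_nt.H42

section Count

variable {k : Type} [Field k] {r s : ℕ} {c ζ : k} {rt : k → k}

theorem cnt_step_le (i : ℕ) {R R' : (ℕ → ℕ) → Prop}
    (h : ∀ dg, R dg → ∃ e < s, R' (Function.update dg i e)) : cnt s i R ≤ cnt s (i + 1) R' := by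
  rw [cnt_succ', cnt, card_filter]
  refine sum_le_sum fun ω _ => ?_
  split_ifs with h1
  · obtain ⟨e, he, h2⟩ := h _ h1
    exact card_pos.2 ⟨⟨e, he⟩, mem_filter.2 ⟨mem_univ _, h2⟩⟩
  · exact Nat.zero_le _

theorem cnt_split (i : ℕ) (Q R : (ℕ → ℕ) → Prop) :
    cnt s i (fun dg => Q dg ∧ R dg) + cnt s i (fun dg => Q dg ∧ ¬R dg) = cnt s i Q := by
  simp only [cnt, card_filter]
  rw [← sum_add_distrib]
  refine sum_congr rfl fun ω _ => ?_
  by_cases h1 : Q (wd ω) <;> by_cases h2 : R (wd ω) <;> simp [h1, h2]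

theorem cnt_pot {Φ : ℕ → k → Prop} (h0 : ∀ dg d, Φ 0 (pth r c ζ rt dg d))
    (h1 : ∀ N x, Φ N x → ∃ e < s, Φ (N + 1) (ζ ^ e * rt (x ^ r - c))) {n : ℕ}
    {Q : (ℕ → ℕ) → Prop} (hQ : Dep n Q) (m : ℕ) :
    cnt s n Q ≤ cnt s (n + m) fun dg => Q dg ∧ Φ m (pth r c ζ rt dg (n + m)) := by
  induction m with
  | zero => exact cnt_mono fun dg h => ⟨h, h0 _ _⟩
  | succ m ih =>
    refine ih.trans (cnt_step_le _ fun dg h => ?_)
    obtain ⟨e, he, h2⟩ := h1 _ _ h.2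
    refine ⟨e, he, hQ _ _ (fun j hj => (Function.update_of_ne (by omega) _ _).symm) h.1, ?_⟩
    have h3 : pth r c ζ rt (Function.update dg (n + m) e) (n + m) = pth r c ζ rt dg (n + m) :=
      pth_congr fun j hj => Function.update_of_ne hj.ne _ _
    rw [← add_assoc, pth, h3, Function.update_self]
    exact h2

theorem bad_dep (E : k → Prop) (n : ℕ) : Dep n fun dg => ∀ d ≤ n, ¬E (pth r c ζ rt dg d) :=
  fun dg dg' e h d hd => by
    rw [← pth_congr (dg := dg) fun j hj => e j (by omega)]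
    exact h d hd

theorem bad_pow (hs : 0 < s) {Φ : ℕ → k → Prop} (h0 : ∀ dg d, Φ 0 (pth r c ζ rt dg d))
    (h1 : ∀ N x, Φ N x → ∃ e < s, Φ (N + 1) (ζ ^ e * rt (x ^ r - c))) {E : k → Prop} {m : ℕ}
    (h2 : ∀ x, Φ m x → E x) (j : ℕ) :
    (cnt s (j * m) (fun dg => ∀ d ≤ j * m, ¬E (pth r c ζ rt dg d)) : ℝ) ≤
      ((s : ℝ) ^ m - 1) ^ j := by
  induction j with
  | zero =>
    have := cnt_add_not (s := s) 0 fun dg => ∀ d ≤ 0, ¬E (pth r c ζ rt dg d)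
    rw [pow_zero] at this
    rw [zero_mul, pow_zero]
    exact_mod_cast (by omega : _ ≤ 1)
  | succ j ih =>
    have hD := bad_dep (r := r) (c := c) (ζ := ζ) (rt := rt) E (j * m)
    have e1 := cnt_pot h0 h1 hD m
    have e2 := cnt_split (s := s) (j * m + m) (fun dg => ∀ d ≤ j * m, ¬E (pth r c ζ rt dg d))
      fun dg => Φ m (pth r c ζ rt dg (j * m + m))
    have e3 := cnt_dep (s := s) hD m
    have e4 : cnt s (j * m + m) (fun dg => ∀ d ≤ j * m + m, ¬E (pth r c ζ rt dg d)) ≤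
        cnt s (j * m + m) fun dg => (∀ d ≤ j * m, ¬E (pth r c ζ rt dg d)) ∧
          ¬Φ m (pth r c ζ rt dg (j * m + m)) :=
      cnt_mono fun dg h => ⟨fun d hd => h d (by omega), fun h3 => h _ le_rfl (h2 _ h3)⟩
    rw [add_mul, one_mul, pow_succ']
    generalize cnt s (j * m) (fun dg => ∀ d ≤ j * m, ¬E (pth r c ζ rt dg d)) = b at *
    generalize cnt s (j * m + m) (fun dg => ∀ d ≤ j * m + m, ¬E (pth r c ζ rt dg d)) = b' at *
    have e5 : b' + b ≤ s ^ m * b := by omega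
    have e6 : (b' : ℝ) + b ≤ (s : ℝ) ^ m * b := by exact_mod_cast e5
    have e7 : (1 : ℝ) ≤ (s : ℝ) ^ m := one_le_pow₀ (by exact_mod_cast hs)
    have e8 := mul_le_mul_of_nonneg_left ih (sub_nonneg.2 e7)
    linarith

theorem bad_le (hs : 1 < s) {Φ : ℕ → k → Prop} (h0 : ∀ dg d, Φ 0 (pth r c ζ rt dg d))
    (h1 : ∀ N x, Φ N x → ∃ e < s, Φ (N + 1) (ζ ^ e * rt (x ^ r - c))) {E : k → Prop} {m : ℕ}
    (hm : 0 < m) (h2 : ∀ x, Φ m x → E x) : ∃ C ρ : ℝ, 1 ≤ C ∧ 0 < ρ ∧ ρ < 1 ∧ ∀ h i, h ≤ i →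
      (cnt s i (fun dg => ∀ d ≤ h, ¬E (pth r c ζ rt dg d)) : ℝ) ≤ C * ρ ^ h * (s : ℝ) ^ i := by
  have hs1 : (1 : ℝ) < s := by exact_mod_cast hs
  have e1 : (1 : ℝ) < (s : ℝ) ^ m := one_lt_pow₀ hs1 hm.ne'
  obtain ⟨τ, t0, t1, t2⟩ : ∃ τ : ℝ, 0 < τ ∧ τ < 1 ∧ (s : ℝ) ^ m - 1 = τ * (s : ℝ) ^ m :=
    ⟨((s : ℝ) ^ m - 1) / (s : ℝ) ^ m, div_pos (by linarith) (by linarith),
      (div_lt_one (by linarith)).2 (by linarith), (div_mul_cancel₀ _ (by positivity)).symm⟩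
  obtain ⟨ρ, r0, r1⟩ : ∃ ρ : ℝ, 0 < ρ ∧ ρ ^ m = τ :=
    ⟨τ ^ ((m : ℝ)⁻¹), Real.rpow_pos_of_pos t0 _, Real.rpow_inv_natCast_pow t0.le hm.ne'⟩
  have r2 : ρ < 1 := (pow_lt_one_iff_of_nonneg r0.le hm.ne').1 (r1 ▸ t1)
  refine ⟨τ⁻¹, ρ, (one_le_inv₀ t0).2 t1.le, r0, r2, fun h i hi => ?_⟩
  have e2 : h / m * m ≤ h := Nat.div_mul_le_self h m
  have e3 : h ≤ (h / m + 1) * m := by
    have := Nat.lt_div_mul_add (a := h) hm
    rw [add_mul, one_mul]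
    omega
  obtain ⟨n, rfl⟩ := Nat.exists_eq_add_of_le (e2.trans hi)
  have e4 : cnt s (h / m * m + n) (fun dg => ∀ d ≤ h, ¬E (pth r c ζ rt dg d)) ≤
      s ^ n * cnt s (h / m * m) fun dg => ∀ d ≤ h / m * m, ¬E (pth r c ζ rt dg d) := by
    rw [← cnt_dep (bad_dep E _) n]
    exact cnt_mono fun dg h3 d hd => h3 d (hd.trans e2)
  have e5 := bad_pow (by omega) h0 h1 h2 (h / m)
  have e6 : τ ^ (h / m) ≤ τ⁻¹ * ρ ^ h := by
    rw [← div_eq_inv_mul, le_div_iff₀ t0, ← pow_succ, ← r1, ← pow_mul, mul_comm m]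
    exact pow_le_pow_of_le_one r0.le r2.le e3
  generalize h / m = j at *
  refine le_trans (Nat.cast_le.2 e4) ?_
  push_cast
  refine (mul_le_mul_of_nonneg_left e5 (by positivity)).trans ?_
  rw [t2, mul_pow, ← pow_mul, pow_add, mul_comm m j]
  have e7 := mul_le_mul_of_nonneg_right e6 (show 0 ≤ (s : ℝ) ^ (j * m) * (s : ℝ) ^ n by positivity)
  linarith

theorem fibre_le' (hs : 0 < s) (hζ : IsPrimitiveRoot ζ s) {i h : ℕ} (T : Finset (Fin i → Fin s))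
    (h0 : ∀ ω ∈ T, ∀ d, h ≤ d → d ≤ i → pth r c ζ rt (wd ω) d ≠ 0)
    (h1 : ∀ ω ∈ T, ∀ ω' ∈ T, (∀ j < h, wd ω j = wd ω' j) → ∀ d, h ≤ d → d ≤ i →
      pth r c ζ rt (wd ω) d = pth r c ζ rt (wd ω') d) : T.card ≤ s ^ h := by
  have := card_le_card_of_injOn (s := T) (t := (univ : Finset (Fin h → Fin s)))
    (fun ω j => ⟨wd ω j, wd_lt hs ω j⟩) (fun _ _ => mem_univ _) fun ω hω ω' hω' e => by
      funext j
      have e' : ∀ j < h, wd ω j = wd ω' j := fun j hj => congrArg Fin.val (congrFun e ⟨j, hj⟩)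
      have h2 : wd ω j = wd ω' j := by
        by_cases hj : (j : ℕ) < h
        · exact e' j hj
        · have h3 := h1 ω hω ω' hω' e' (j + 1) (by omega) j.2
          have h4 := h0 ω hω (j + 1) (by omega) j.2
          rw [pth] at h4
          rw [pth, pth, ← h1 ω hω ω' hω' e' j (by omega) j.2.le] at h3
          exact digit_eq hζ (wd_lt hs _ _) (wd_lt hs _ _) h3 h4
      simpa [wd, Fin.ext_iff] using h2
  simpa using this

end Count

section Place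

variable {F : Type} [NormedField F]

theorem root_eq_one (hF : GoodF F) {q J M : ℕ} (hq : 0 < q) {C K : ℝ} (hC : 1 ≤ C)
    (hK : C * (q : ℝ) ^ 3 ≤ K) {y η : F} (hy : K * (J + 2) ≤ lp y) (hM : 0 < M)
    (hM' : M ≤ q ^ (J + 1)) (hη : η ^ M = 1) (h : ‖η * y - y‖ * ‖y‖ ^ (q - 1) ≤ C) : η = 1 := by
  by_contra hne
  have q1 : (1 : ℝ) ≤ q := by exact_mod_cast hq
  have q3 : (1 : ℝ) ≤ (q : ℝ) ^ 3 := one_le_pow₀ q1
  have K1 : 1 ≤ K := by nlinarith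
  have J0 : (0 : ℝ) ≤ J := Nat.cast_nonneg J
  have e1 := sep hF hM hη hne
  have e2 : ‖y‖ = Real.exp (lp y) := norm_eq_exp_lp (by nlinarith)
  have e3 : Real.exp K ^ (J + 2) ≤ ‖y‖ := by
    rw [e2, ← Real.exp_nat_mul]
    refine Real.exp_le_exp.2 ?_
    push_cast
    linarith
  have e4 : K + 1 ≤ Real.exp K := Real.add_one_le_exp K
  have e5 : 1 ≤ ‖y‖ := (one_le_pow₀ (by linarith)).trans e3
  have e6 : ‖η - 1‖ * ‖y‖ ≤ C := by
    rw [← sub_one_mul, norm_mul] at h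
    exact (le_mul_of_one_le_right (by positivity) (one_le_pow₀ e5)).trans h
  have M0 : (0 : ℝ) < M := by exact_mod_cast hM
  have e7 : (M : ℝ) ^ 3 ≤ Real.exp K ^ (J + 1) := by
    have : (M : ℝ) ≤ (q : ℝ) ^ (J + 1) := by exact_mod_cast hM'
    refine (pow_le_pow_left₀ M0.le this 3).trans ?_
    rw [← pow_mul, mul_comm, pow_mul]
    exact pow_le_pow_left₀ (by positivity) (by nlinarith) _
  have e8 : ‖y‖ ≤ C * (M : ℝ) ^ 3 := by
    have := (mul_le_mul_of_nonneg_right e1 (norm_nonneg y)).trans e6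
    rwa [one_div, ← div_eq_inv_mul, div_le_iff₀ (by positivity)] at this
  have e9 : C * Real.exp K ^ (J + 1) < Real.exp K ^ (J + 2) := by
    rw [pow_succ' _ (J + 1)]
    exact mul_lt_mul_of_pos_right (by nlinarith) (by positivity)
  have := mul_le_mul_of_nonneg_left e7 (show 0 ≤ C by linarith)
  linarith

/-- Two large chains with the same ends agree. -/
theorem chain_eq (hF : GoodF F) {p q J n : ℕ} (hp : 0 < p) (hpq : p < q) (hco : p.Coprime q)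
    {C K : ℝ} (hC : 1 ≤ C) (hK : C * (q : ℝ) ^ 3 ≤ K) {a : F} {x x' ζ : ℕ → F} (hn : n ≤ J)
    (hx : Fwd p q a n x) (hx' : Fwd p q a n x') (h1 : x' n = x n)
    (hR : Ratio p q n C x x' ζ) (hb : ∀ k ≤ n, K * (J + 2) ≤ lp (x k)) : ∀ k ≤ n, x' k = x k := by
  have hq : 0 < q := by omega
  have z1 : ζ n = 1 := root_eq_one hF hq hC hK (hb n le_rfl) (pow_pos hq _)
    (Nat.pow_le_pow_right hq (Nat.succ_le_succ hn)) (hR.1 n le_rfl)
    (by rw [norm_sub_rev, ← h1]; simpa [h1] using hR.2.2 n le_rfl)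
  have z2 : ∀ e k, k + e = n → ζ k = 1 := by
    intro e
    induction e with
    | zero => rintro k rfl; exact z1
    | succ e ih =>
      intro k hk
      have e1 := hR.2.1 k (by omega)
      rw [ih (k + 1) (by omega), one_pow] at e1
      exact eq_one_of_coprime (hco.pow_right (k + 1)) e1.symm (hR.1 k (by omega))
  have key : ∀ e k, k + e = n → x' k = x k := by
    intro e
    induction e with
    | zero => rintro k rfl; exact h1
    | succ e ih =>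
      intro k hk
      have e1 := hx' k (by omega)
      rw [ih (k + 1) (by omega), ← hx k (by omega), add_left_inj] at e1
      obtain ⟨ω, hω, e2⟩ := exists_mul_of_pow_eq hp e1
      have e3 := hR.2.2 k (by omega)
      rw [z2 (e + 1) k hk, one_mul, e2] at e3
      rw [e2, root_eq_one hF hq hC hK (hb k (by omega)) hp
        (hpq.le.trans (Nat.le_self_pow (Nat.succ_ne_zero J) q)) hω e3, one_mul]
  exact fun k hk => key (n - k) k (by omega)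

theorem core (hW : W2Stmt) [IsAlgClosed F] [CharZero F] (hF : GoodF F) {p q : ℕ} (hp : 2 ≤ p)
    (hpq : p < q) (hco : p.Coprime q) {a ζ : Qb} {rt : Qb → Qb} (hζ : IsPrimitiveRoot ζ p)
    (hrt : ∀ x, rt x ^ p = x) (ψ : Qb →+* F) {Φ : ℕ → Qb → Prop}
    (h0 : ∀ dg d, Φ 0 (pth q a ζ rt dg d))
    (h1 : ∀ N x, Φ N x → ∃ e < p, Φ (N + 1) (ζ ^ e * rt (x ^ q - a)))
    (h2 : ∀ A : ℝ, ∃ m, 0 < m ∧ ∀ x, Φ m x → A ≤ lp (ψ x)) : ∃ (C ρ : ℝ) (C' : ℕ),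
      1 ≤ C ∧ 0 < ρ ∧ ρ < 1 ∧ ∀ J, MHyp q p a C ρ ((J + 2) ^ C') J := by
  have hp0 : 0 < p := by omega
  have hpR : (0 : ℝ) < p := by exact_mod_cast hp0
  have hθ : (1 : ℝ) < (q : ℝ) / p := (one_lt_div hpR).2 (by exact_mod_cast hpq)
  obtain ⟨A, C, hA, hC, hW⟩ := hW p q ‖ψ a‖ hp hpq hco
  set L := Real.log (1 + ‖ψ a‖) with hL
  have hL0 : 0 ≤ L := log_one_add_nonneg (norm_nonneg _)
  obtain ⟨m, hm, h2⟩ := h2 (L + 1)
  obtain ⟨C₁, ρ, hC₁, r0, r1, hbad⟩ := bad_le (E := fun x => L + 1 ≤ lp (ψ x)) hp h0 h1 hm h2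
  have hB : ∀ (dg : ℕ → ℕ) (n : ℕ), Bwd p q (ψ a) n fun d => ψ (pth q a ζ rt dg d) :=
    fun dg n => Bwd.map ψ (u := pth q a ζ rt dg) fun d _ => by
      rw [pth_pow hζ.pow_eq_one hrt, sub_add_cancel]
  have hE : ∀ (dg : ℕ → ℕ) (h : ℕ), (¬∀ d ≤ h, ¬L + 1 ≤ lp (ψ (pth q a ζ rt dg d))) →
      ∀ t d, h + t ≤ d → ((q : ℝ) / p) ^ t ≤ lp (ψ (pth q a ζ rt dg d)) := by
    intro dg h hh t d hd
    push Not at hh
    obtain ⟨d₀, a1, a2⟩ := hh
    obtain ⟨j, rfl⟩ := Nat.exists_eq_add_of_le (show d₀ ≤ d by omega)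
    have e1 := esc_low hp0 hpq le_rfl ((hB dg (d₀ + j)).shift (i := d₀) (m := j) le_rfl) j le_rfl
    have e2 : ((q : ℝ) / p) ^ t ≤ ((q : ℝ) / p) ^ j := pow_le_pow_right₀ hθ.le (by omega)
    have e3 : (0 : ℝ) < ((q : ℝ) / p) ^ j := by positivity
    simp only [add_zero] at e1
    nlinarith
  have hz : ∀ (dg : ℕ → ℕ) (h : ℕ), (¬∀ d ≤ h, ¬L + 1 ≤ lp (ψ (pth q a ζ rt dg d))) →
      ∀ d, h ≤ d → pth q a ζ rt dg d ≠ 0 := fun dg h hh d hd e => by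
    have := hE dg h hh 0 d hd
    rw [e, map_zero, pow_zero, lp, norm_zero, max_eq_left zero_le_one, Real.log_one] at this
    linarith
  obtain ⟨K, K1, K2⟩ : ∃ K : ℝ, A ≤ K ∧ C * (q : ℝ) ^ 3 ≤ K :=
    ⟨max A (C * (q : ℝ) ^ 3), le_max_left _ _, le_max_right _ _⟩
  obtain ⟨M, hM⟩ := pow_unbounded_of_one_lt (4 * K) hθ
  obtain ⟨n, hn⟩ := exists_pow_lt_of_lt_one (show 0 < 1 / (2 * C₁) by positivity) r1
  have hn1 : C₁ * ρ ^ (n + 1) ≤ 1 / 2 := by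
    rw [lt_div_iff₀ (by positivity)] at hn
    have : ρ ^ (n + 1) ≤ ρ ^ n := pow_le_pow_of_le_one r0.le r1.le (Nat.le_succ n)
    nlinarith [pow_pos r0 n]
  have n0 : (0 : ℝ) ≤ n := Nat.cast_nonneg n
  refine ⟨2 * (n + 1) + C₁, ρ, p ^ M, by linarith, r0, r1,
    fun J => ⟨ζ, rt, hζ, hrt, fun i hi => ⟨?_, fun h => ?_⟩⟩⟩
  · have e1 := hbad (n + 1) (i + (n + 1)) (by omega)
    have e2 := cnt_add_not (s := p) (i + (n + 1)) fun dg =>
      ∀ d ≤ n + 1, ¬L + 1 ≤ lp (ψ (pth q a ζ rt dg d))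
    have e3 : p ^ (i + (n + 1)) ≤ 2 * cnt p (i + (n + 1)) fun dg =>
        ¬∀ d ≤ n + 1, ¬L + 1 ≤ lp (ψ (pth q a ζ rt dg d)) := by
      have e4 := mul_le_mul_of_nonneg_right hn1 (pow_pos hpR (i + (n + 1))).le
      have e5 := congrArg (Nat.cast : ℕ → ℝ) e2
      push_cast at e5
      have : ((p : ℝ)) ^ (i + (n + 1)) ≤ 2 * (cnt p (i + (n + 1)) (fun dg =>
          ¬∀ d ≤ n + 1, ¬L + 1 ≤ lp (ψ (pth q a ζ rt dg d))) : ℝ) := by linarith
      exact_mod_cast this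
    have e4 := shift_lemma (r := q) (c := a) (ζ := ζ) (rt := rt) hp0 i (n + 1) n.succ_pos
      (e3.trans (Nat.mul_le_mul_left 2 (cnt_mono fun dg hdg d a1 _ => hz dg _ hdg d a1)))
    have e6 : (p : ℝ) ^ i ≤ 2 * (n + 1) *
        (cnt p i (fun dg => ∀ d, 1 ≤ d → d ≤ i → pth q a ζ rt dg d ≠ 0) : ℝ) := by
      exact_mod_cast e4
    refine e6.trans (mul_le_mul (by linarith) (Nat.cast_le.2 (card_le_card fun ω hω => ?_))
      (Nat.cast_nonneg _) (by positivity))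
    exact (mem_cnt (Q := fun dg => ∀ d, 1 ≤ d → d ≤ i → pth q a ζ rt dg d ≠ 0)).2
      ((mem_cnt (Q := fun dg => ∀ d, 1 ≤ d → d ≤ i → pth q a ζ rt dg d ≠ 0)).1 hω)
  by_cases hh : i < h
  · refine ⟨univ, by simp; positivity, fun β => ?_, fun ω _ d a1 _ a2 => by omega⟩
    refine (card_le_univ _).trans ?_
    rw [Fintype.card_fun, Fintype.card_fin, Fintype.card_fin]
    exact (Nat.pow_le_pow_right hp0 hh.le).trans (Nat.le_mul_of_pos_right _ (by positivity))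
  set Q : (ℕ → ℕ) → Prop := fun dg => ¬∀ d ≤ h, ¬L + 1 ≤ lp (ψ (pth q a ζ rt dg d)) with hQ
  refine ⟨univ.filter fun ω : Fin i → Fin p => Q (wd ω), ?_, fun β => ?_,
    fun ω hω d a1 _ _ => hz _ h (mem_cnt.1 hω) d a1⟩
  · rw [card_compl_cnt]
    refine le_trans (Nat.cast_le.2 (cnt_mono fun dg hdg => not_not.1 hdg)) ?_
    refine (hbad h i (by omega)).trans (mul_le_mul_of_nonneg_right (mul_le_mul_of_nonneg_right ?_
      (by positivity)) (by positivity))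
    linarith
  obtain ⟨l, l1, l2, l3⟩ : ∃ l, 1 ≤ l ∧ 2 ^ l ≤ J + 2 ∧ J + 2 < 2 ^ (l + 1) :=
    ⟨Nat.log 2 (J + 2), Nat.log_pos one_lt_two (by omega), Nat.pow_log_le_self 2 (by omega),
      Nat.lt_pow_succ_log_self one_lt_two _⟩
  have e1 : p ^ (h + M * l) ≤ p ^ h * (J + 2) ^ p ^ M := by
    rw [pow_add, pow_mul]
    refine Nat.mul_le_mul_left _ (le_trans ?_ (Nat.pow_le_pow_left l2 _))
    rw [← pow_mul 2, mul_comm l, pow_mul 2]
    exact Nat.pow_le_pow_left Nat.lt_two_pow_self.le _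
  have e2 : K * (J + 2) ≤ ((q : ℝ) / p) ^ (M * l) := by
    have a1 : ((J : ℝ) + 2) ≤ 2 ^ (l + 1) := by exact_mod_cast l3.le
    have a2 : (2 * K) ^ 1 ≤ (2 * K) ^ l := pow_le_pow_right₀ (by linarith) l1
    have a3 : (2 * (2 * K)) ^ l ≤ (((q : ℝ) / p) ^ M) ^ l :=
      pow_le_pow_left₀ (by linarith) (by linarith) l
    rw [mul_pow] at a3
    rw [pow_succ] at a1
    rw [pow_mul]
    have a4 : (0 : ℝ) < 2 ^ l := by positivity
    nlinarith
  refine le_trans (fibre_le' (r := q) (c := a) (rt := rt) hp0 hζ _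
    (fun ω hω d a1 _ => hz _ h (mem_cnt.1 (of_mem_filter hω).1) d (by omega))
    fun ω hω ω' hω' e d a1 a2 => ?_) e1
  obtain ⟨u, rfl⟩ := Nat.exists_eq_add_of_le (a1.trans a2)
  have f1 := (hB (wd ω) (h + M * l + u)).rev (Nat.le_add_left u _)
  have f2 := (hB (wd ω') (h + M * l + u)).rev (Nat.le_add_left u _)
  have hb : ∀ k ≤ u, K * (J + 2) ≤ lp (ψ (pth q a ζ rt (wd ω) (h + M * l + u - k))) :=
    fun k hk => e2.trans (hE _ h (mem_cnt.1 (of_mem_filter hω).1) _ _ (by omega))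
  have J0 : (0 : ℝ) ≤ J := Nat.cast_nonneg J
  obtain ⟨η, hη⟩ := hW F hF _ _ u _ _ le_rfl le_rfl f1 f2
    (by rw [Nat.sub_zero, (of_mem_filter hω).2, (of_mem_filter hω').2])
    (le_trans (by nlinarith) (hb u le_rfl))
  have := chain_eq hF hp0 hpq hco hC K2 (show u ≤ J by omega) f1 f2
    (by rw [Nat.add_sub_cancel, pth_congr e]) hη hb (h + M * l + u - d) (by omega)
  rw [show h + M * l + u - (h + M * l + u - d) = d by omega] at this
  exact (ψ.injective this).symm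

theorem le_lp_of_pow {x : F} {A : ℝ} {n : ℕ} (hn : 0 < n) (h : Real.exp A ^ n ≤ ‖x‖ ^ n) :
    A ≤ lp x := by
  rw [← Real.exp_le_exp]
  exact (le_of_pow_le_pow_left₀ hn.ne' (norm_nonneg _) h).trans (norm_le_exp_lp x)

end Place

theorem exists_rot {p q : ℕ} (hp : 2 ≤ p) (hco : p.Coprime q) {ζ : ℂ} (hζ : IsPrimitiveRoot ζ p)
    (y a : ℂ) : ∃ e < p, ‖y‖ ^ (q * 2) + ‖a‖ ^ 2 ≤ ‖(ζ ^ e * y) ^ q - a‖ ^ 2 := by
  have h1 := (hζ.pow_of_coprime q hco.symm).geom_sum_eq_zero hp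
  have h2 : ∑ e ∈ range p, ((ζ ^ e * y) ^ q * starRingEnd ℂ a).re = ∑ _e ∈ range p, (0 : ℝ) := by
    rw [← Complex.re_sum, ← sum_mul]
    simp only [mul_pow, ← pow_mul, mul_comm _ q]
    simp only [pow_mul]
    rw [← sum_mul, h1]
    simp
  obtain ⟨e, he, h3⟩ := exists_le_of_sum_le (nonempty_range_iff.2 (by omega)) h2.le
  refine ⟨e, mem_range.1 he, ?_⟩
  have h4 : ‖ζ ^ e * y‖ = ‖y‖ := by
    rw [norm_mul, norm_pow, norm_root (by omega) hζ.pow_eq_one, one_pow, one_mul]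
  rw [pow_mul, ← h4, ← norm_pow, Complex.sq_norm, Complex.sq_norm, Complex.sq_norm,
    Complex.normSq_sub]
  linarith

theorem mfwd (hW : W2Stmt) : MFwdStmt := by
  intro p q a hp hpq hco ha
  have hp0 : 0 < p := by omega
  have : NeZero (p : Qb) := ⟨Nat.cast_ne_zero.2 hp0.ne'⟩
  obtain ⟨ζ, hζ⟩ := HasEnoughRootsOfUnity.exists_primitiveRoot Qb p
  choose rt hrt using fun x : Qb => IsAlgClosed.exists_pow_nat_eq x hp0
  have hn : ∀ (e : ℕ) (x : Qb), (ζ ^ e * rt x) ^ p = x := fun e x => by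
    rw [mul_pow, hrt, ← pow_mul, mul_comm e, pow_mul, hζ.pow_eq_one, one_pow, one_mul]
  by_cases hi : IsIntegral ℤ a
  · obtain ⟨g, hg⟩ := exists_one_le hi ha
    obtain ⟨ψ, hψ⟩ : ∃ ψ : Qb →+* ℂ, 1 ≤ ‖ψ a‖ :=
      ⟨(algebraMap Qb ℂ).comp g.toRingEquiv.toRingHom, hg⟩
    refine core hW goodF_complex hp hpq hco hζ hrt ψ
      (Φ := fun N x => (N : ℝ) ≤ ‖ψ x ^ q - ψ a‖ ^ 2 ∧ (N : ℝ) ≤ ‖ψ x‖ ^ (p * 2) + 1)
      (fun dg d => ⟨by rw [Nat.cast_zero]; positivity, by rw [Nat.cast_zero]; positivity⟩)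
      (fun N x h => ?_) fun A => ?_
    · obtain ⟨e, he, h1⟩ := exists_rot hp hco (hζ.map_of_injective ψ.injective)
        (ψ (rt (x ^ q - a))) (ψ a)
      have h2 : ‖ψ (rt (x ^ q - a))‖ ^ (p * 2) = ‖ψ x ^ q - ψ a‖ ^ 2 := by
        rw [pow_mul, ← norm_pow, ← map_pow, hrt, map_sub, map_pow]
      have h3 : ‖ψ (ζ ^ e * rt (x ^ q - a))‖ ^ (p * 2) = ‖ψ x ^ q - ψ a‖ ^ 2 := by
        rw [pow_mul, ← norm_pow, ← map_pow, hn, map_sub, map_pow]
      have h4 : (N : ℝ) ≤ ‖ψ (rt (x ^ q - a))‖ ^ (q * 2) := by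
        rcases Nat.eq_zero_or_pos N with rfl | hN
        · rw [Nat.cast_zero]; positivity
        · have h5 : (1 : ℝ) ≤ ‖ψ (rt (x ^ q - a))‖ ^ (p * 2) := by
            rw [h2]
            exact le_trans (by exact_mod_cast hN) h.1
          have h6 := (one_le_pow_iff_of_nonneg (norm_nonneg _) (by omega)).1 h5
          exact h.1.trans (h2.symm.le.trans (pow_le_pow_right₀ h6 (by omega)))
      refine ⟨e, he, ?_, ?_⟩
      · rw [map_mul, map_pow]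
        push_cast
        nlinarith
      · rw [h3]
        push_cast
        linarith [h.1]
    · obtain ⟨m, hm⟩ := exists_nat_ge (Real.exp A ^ (p * 2))
      refine ⟨m + 1, m.succ_pos, fun x h => le_lp_of_pow (n := p * 2) (by omega) ?_⟩
      have := h.2
      push_cast at this
      linarith
  · obtain ⟨l, hl, ψ, hψ⟩ : ∃ (l : ℕ) (_ : Fact l.Prime) (ψ : Qb →+* PadicAlgCl l), 1 < ‖ψ a‖ := by
      by_contra h
      push Not at h
      exact hi (integral_of_padic h)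
    have step : ∀ (N : ℕ) (x y : Qb), y ^ p = x ^ q - a →
        ((N = 0 ∧ x = 0) ∨ (‖ψ a‖ ≤ ‖ψ x‖ ^ p ∧ ‖ψ a‖ ^ N ≤ (‖ψ x‖ ^ p) ^ p)) →
        ‖ψ a‖ ≤ ‖ψ y‖ ^ p ∧ ‖ψ a‖ ^ (N + 1) ≤ (‖ψ y‖ ^ p) ^ p := by
      intro N x y hy h
      rw [← norm_pow, ← map_pow, hy, map_sub, map_pow]
      rcases h with ⟨rfl, rfl⟩ | ⟨h1, h2⟩
      · rw [map_zero, zero_pow (by omega), zero_sub, norm_neg]
        exact ⟨le_rfl, pow_le_pow_right₀ hψ.le hp0⟩
      · have h3 : 1 < ‖ψ x‖ := (one_lt_pow_iff_of_nonneg (norm_nonneg _) hp0.ne').1 (hψ.trans_le h1)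
        have h4 : ‖ψ x‖ ^ p * ‖ψ x‖ ≤ ‖ψ x‖ ^ q := by
          rw [← pow_succ]
          exact pow_le_pow_right₀ h3.le hpq
        have h5 : ‖ψ a‖ < ‖ψ x‖ ^ q := by nlinarith
        have h6 : ‖ψ x ^ q - ψ a‖ = ‖ψ x‖ ^ q := by
          rw [sub_eq_add_neg, IsUltrametricDist.norm_add_eq_max_of_norm_ne_norm
            (by rw [norm_neg, norm_pow]; exact h5.ne'), norm_neg, norm_pow, max_eq_left h5.le]
        rw [h6]
        refine ⟨h5.le, le_trans ?_ (pow_le_pow_left₀ (by positivity) h4 p)⟩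
        rw [pow_succ, mul_pow]
        exact mul_le_mul h2 h1 (norm_nonneg _) (by positivity)
    refine core hW (goodF_padic l) hp hpq hco hζ hrt ψ
      (Φ := fun N x => (N = 0 ∧ x = 0) ∨ (‖ψ a‖ ≤ ‖ψ x‖ ^ p ∧ ‖ψ a‖ ^ N ≤ (‖ψ x‖ ^ p) ^ p))
      (fun dg d => ?_) (fun N x h => ⟨0, hp0, Or.inr (step N x _ (hn _ _) h)⟩) fun A => ?_
    · induction d with
      | zero => exact Or.inl ⟨rfl, rfl⟩
      | succ d ih =>
        have := step 0 _ _ (pth_pow hζ.pow_eq_one hrt dg d) ih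
        exact Or.inr ⟨this.1, (pow_le_pow_right₀ hψ.le (Nat.zero_le _)).trans this.2⟩
    · obtain ⟨m, hm⟩ := pow_unbounded_of_one_lt (Real.exp A ^ (p * p)) hψ
      refine ⟨m + 1, m.succ_pos, fun x h => le_lp_of_pow (n := p * p) (by positivity) ?_⟩
      rcases h with h | h
      · omega
      · rw [pow_mul ‖ψ x‖]
        exact hm.le.trans ((pow_le_pow_right₀ hψ.le m.le_succ).trans h.2)

end Pool.Agent.MP_09973c_nt.H58.MF
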