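import Pool.Agent.MP_09973c_nt.H58.T6b

/-!
The second step of the Runge type theorem.
-/

set_option autoImplicit false

namespace Pool.Agent.MP_09973c_nt.H58

open Polynomial Finset IntermediateField Classical Filter

theorem t6_params (K C' C₁ c : ℕ) : ∃ C : ℕ, ∀ L, ∃ l J : ℕ, L + 1 ≤ l ∧ (J + 2) ^ C' ≤ 2 ^ l ∧
    J = 6 * (K * (l + 1) ^ 3) + C₁ * (L + 1) ∧ c * (J + 1) ^ 2 ≤ (C * (L + 1)) ^ C := by
  obtain ⟨y₀, hy⟩ := eventually_atTop.1 (H71.poly_le_two_pow ((48 * K + C₁ + 2) ^ C') (3 * C'))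
  refine ⟨6 + c * ((48 * K + C₁ + 2) * (y₀ + 1) ^ 3) ^ 2, fun L =>
    ⟨(y₀ + 1) * (L + 1), _, by nlinarith, ?_, rfl, ?_⟩⟩
  all_goals
    have h1 : L + 1 ≤ (y₀ + 1) * (L + 1) := by nlinarith
    have h2 : y₀ ≤ (y₀ + 1) * (L + 1) := by nlinarith
    have h3 : 6 * (K * ((y₀ + 1) * (L + 1) + 1) ^ 3) + C₁ * (L + 1) + 2 ≤
        (48 * K + C₁ + 2) * ((y₀ + 1) * (L + 1)) ^ 3 := by
      generalize (y₀ + 1) * (L + 1) = y at *
      have h4 : (y + 1) ^ 3 ≤ (2 * y) ^ 3 := Nat.pow_le_pow_left (by omega) 3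
      have h5 : y ≤ y ^ 3 := Nat.le_self_pow (by norm_num) y
      have h6 := Nat.mul_le_mul_left K h4
      have h7 := Nat.mul_le_mul_left C₁ (h1.trans h5)
      nlinarith
  · refine (Nat.pow_le_pow_left h3 _).trans (le_trans (le_of_eq ?_) (hy _ h2))
    rw [mul_pow, ← pow_mul]
  · set M := c * ((48 * K + C₁ + 2) * (y₀ + 1) ^ 3) ^ 2 with hM
    calc _ ≤ c * ((48 * K + C₁ + 2) * ((y₀ + 1) * (L + 1)) ^ 3) ^ 2 :=
          Nat.mul_le_mul_left _ (Nat.pow_le_pow_left (by omega) 2)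
      _ = M * (L + 1) ^ 6 := by rw [hM]; ring
      _ ≤ (6 + M) ^ (6 + M) * (L + 1) ^ (6 + M) :=
          Nat.mul_le_mul ((Nat.le_add_left _ _).trans (Nat.le_self_pow (by omega) _))
            (Nat.pow_le_pow_right (by omega) (by omega))
      _ = _ := (mul_pow _ _ _).symm

theorem t6_big {x : Qb} {h : ℝ} {k m : ℕ} (h1 : h ≤ lp x) (h2 : 2 ^ k ≤ h) (h3 : m < k) :
    Real.exp (2 ^ m) + 1 < ‖x‖ := by
  have e1 : (2 : ℝ) ^ (m + 1) ≤ 2 ^ k := pow_le_pow_right₀ one_le_two h3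
  have e2 : (1 : ℝ) ≤ 2 ^ m := one_le_pow₀ one_le_two
  have e3 := Real.add_one_le_exp (2 ^ m)
  rw [pow_succ] at e1
  have e4 : Real.exp (2 ^ m + 2 ^ m) ≤ Real.exp (lp x) := Real.exp_le_exp.2 (by linarith)
  rw [norm_eq_exp_lp (x := x) (by linarith)]
  rw [Real.exp_add] at e4
  nlinarith

theorem t6_size {q J I₀ C₁ c₁ l d : ℕ} {Ca : ℝ} (hd : 0 < d) (hCa : 0 ≤ Ca)
    (hc : Real.log (d * (2 + Ca)) ≤ c₁) (hl : l + 1 ≤ J) :
    ((q : ℝ) ^ (4 * J) * Real.exp (2 ^ (C₁ * J ^ 2)) *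
      (d * ((2 + Ca) * Real.exp (2 ^ (2 * l + 2)))) ^ (4 * J * q)) ^ (I₀ * 2 ^ l * q ^ (4 * (J + 1)))
      ≤ Real.exp (2 ^ ((I₀ + 12 * q + (C₁ + 4 * q + 3) + 4 * q * c₁ + 2) * (J + 1) ^ 2 + l)) := by
  have h1 := (t5_size (q := q) (J := J) (I₀ := I₀) (C₁ := C₁ + 4 * q + 3) hd hCa hc le_rfl).2
  have h2 : 2 ^ (C₁ * J ^ 2) + 4 * J * q * 2 ^ (2 * l + 2) ≤ 2 ^ ((C₁ + 4 * q + 3) * J ^ 2) := by
    have e1 : J ≤ J ^ 2 := Nat.le_self_pow two_ne_zero _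
    have e2 := Nat.mul_le_mul_left q e1
    have e3 : 4 * J * q * 2 ^ (2 * l + 2) ≤ 2 ^ ((C₁ + 4 * q + 2) * J ^ 2) :=
      (Nat.mul_le_mul_right _ Nat.lt_two_pow_self.le).trans (by
        rw [← pow_add]
        exact Nat.pow_le_pow_right two_pos (by nlinarith))
    have e4 : 2 ^ (C₁ * J ^ 2) ≤ 2 ^ ((C₁ + 4 * q + 2) * J ^ 2) :=
      Nat.pow_le_pow_right two_pos (by nlinarith)
    have e5 : 2 ^ ((C₁ + 4 * q + 2) * J ^ 2 + 1) ≤ 2 ^ ((C₁ + 4 * q + 3) * J ^ 2) :=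
      Nat.pow_le_pow_right two_pos (by nlinarith)
    rw [pow_succ] at e5
    omega
  have h3 : Real.exp (2 ^ (C₁ * J ^ 2)) * Real.exp (2 ^ (2 * l + 2)) ^ (4 * J * q) ≤
      Real.exp (2 ^ ((C₁ + 4 * q + 3) * J ^ 2)) := by
    rw [← Real.exp_nat_mul, ← Real.exp_add, Real.exp_le_exp]
    exact_mod_cast h2
  rw [mul_right_comm I₀, pow_mul, pow_add (2 : ℝ) _ l, mul_comm _ ((2 : ℝ) ^ l),
    show (2 : ℝ) ^ l = ((2 ^ l : ℕ) : ℝ) by push_cast; rfl, Real.exp_nat_mul]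
  refine pow_le_pow_left₀ (by positivity) (le_trans (pow_le_pow_left₀ (by positivity) ?_ _) h1) _
  have h4 := mul_le_mul_of_nonneg_left h3
    (show 0 ≤ (q : ℝ) ^ (4 * J) * (d * (2 + Ca)) ^ (4 * J * q) by positivity)
  rw [← mul_assoc (d : ℝ), mul_pow (d * (2 + Ca) : ℝ)]
  linarith

theorem t2 (hF : FFStmt) (hM : MFwdStmt) (hR : RLStmt) (hE : Elim1Stmt) (hN : NoEdgeStmt)
    (hL : LevStmt) : T2Stmt := by
  intro p q a b B hp hpq hc ha hb hab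
  have hq : 0 < q := by omega
  obtain ⟨A₁, ρ₁, e₁, a1, a2, a3, hA⟩ := hM p q a hp hpq hc ha
  obtain ⟨A₂, ρ₂, e₂, a4, a5, a6, hB⟩ := hM p q b hp hpq hc hb
  obtain ⟨K, hK⟩ := hF q p (max A₁ A₂) (max ρ₁ ρ₂) (by omega) hp hc.symm (le_max_of_le_left a1)
    (lt_max_of_lt_left a2) (max_lt a3 a6)
  obtain ⟨C₁, hR⟩ := hR p q a b B hp hpq
  obtain ⟨C₂, hN⟩ := hN p q a b hp hpq hc ha hb hab
  obtain ⟨C₃, hL⟩ := hL p q a b hp hpq
  obtain ⟨d, hd, Ca, hCa, hS⟩ := exists_Sz_finset {a, b}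
  have sa := hS a (by simp)
  obtain ⟨I₀, hE⟩ := elim_step1 hE hpq hd sa (hS b (by simp))
  obtain ⟨c₁, hc₁⟩ := exists_nat_ge (Real.log (d * (2 + Ca)))
  obtain ⟨c₂, hc₂⟩ := exists_nat_ge (abs (|C₂| + |C₃|) + Real.log (1 + Ca))
  obtain ⟨C, hC⟩ := t6_params K (max e₁ e₂) (C₁ + 1)
    (I₀ + 12 * q + (C₁ + 4 * q + 3) + 4 * q * c₁ + 2 + (c₂ + 1))
  refine ⟨C, fun L l k h x x' σ hX hP hk hh => ?_⟩
  by_contra hcon
  push Not at hcon
  obtain ⟨ℓ, J, h0, h1, hJ, h2⟩ := hC (L + l)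
  have hlJ : l + 1 ≤ J := by nlinarith [Nat.zero_le (K * (ℓ + 1) ^ 3)]
  have h3 : J + 1 ≤ (J + 1) ^ 2 := Nat.le_self_pow two_ne_zero _
  have h4 : J ^ 2 ≤ (J + 1) ^ 2 := Nat.pow_le_pow_left (by omega) 2
  have hJk : (q + 1 + c₂) * (J + 1) ≤ k :=
    (Nat.mul_le_mul (by omega) h3).trans (h2.trans hk)
  have hJk' : J ≤ k := by nlinarith
  have hJ₀ : K * (ℓ + 1) ^ 3 ≤ J := by omega
  obtain ⟨X, hXd⟩ : ∃ X : Fin 4 → ℕ → Qb, X = ![x, x', fun i => σ (x i), fun i => σ (x' i)] :=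
    ⟨_, rfl⟩
  rw [← hXd] at hX
  have x0 : X 0 = x := by rw [hXd]; rfl
  have x1 : X 1 = x' := by rw [hXd]; rfl
  have x2 : ∀ i, X 2 i = σ (x i) := by rw [hXd]; exact fun _ => rfl
  have x3 : ∀ i, X 3 i = σ (x' i) := by rw [hXd]; exact fun _ => rfl
  obtain ⟨rel4, rel3⟩ := hR L k (K * (ℓ + 1) ^ 3) J h X hX hJk' (by nlinarith)
    (le_trans (pow_le_pow_right₀ one_le_two
      ((Nat.mul_le_mul (by omega) h4).trans (h2.trans hk))) hh)
  have ch : ∀ m, Fwd p q (![a, b, a, b] m) J (X m) := fun m i hi => hX.ch m i (by omega)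
  have J0 : (0 : ℝ) ≤ J := Nat.cast_nonneg J
  have b0 := t5_low (by omega) hpq sa.norm_le (ch 0) hX.big0 hh hc₂ hJk
  have b2 := t5_low (by omega) hpq sa.norm_le (ch 2) hX.big2 hh hc₂ hJk
  have c2 : C₂ * (J + 1) ≤ (|C₂| + |C₃|) * (J + 1) := by
    nlinarith [le_abs_self C₂, abs_nonneg C₃]
  have n0 := hN J _ _ (ch 0) (ch 1) hX.b1 (c2.trans b0)
  have n2 := hN J _ _ (ch 2) (ch 3) hX.b3 (c2.trans b2)
  have lev := hL J _ _ (ch 0) (ch 1) hX.b1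
    (le_trans (by nlinarith [le_abs_self C₃, abs_nonneg C₃, abs_nonneg C₂]) b0)
  obtain ⟨Ω, _, _, _, _, u, hu, halg⟩ := exists_generic1
  let u' : IntO {u} := ⟨u, subset_IntO _ rfl⟩
  obtain ⟨φ, φu, hφ⟩ := exists_spec1 hu u' rfl (X 0 0)
  obtain ⟨lam, w, v, l0, φw, hw, hv, ⟨R, r0, r1, r2, r3⟩, hidx, hlam, hwi, hψ⟩ :=
    curve_pt hu u' rfl φ hφ (l := l) (y := X 2 0) (by rw [φu, x0, x2]; exact hP)
      (φu ▸ t6_big hX.big0 hh (by omega)) (t6_big hX.big2 hh (by omega))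
  have l1 : (lam : Ω) ≠ 0 := fun h => l0 (by rw [show lam = 0 from Subtype.ext h, map_zero])
  obtain ⟨κ, hκ, e1⟩ := exists_mul_of_pow_eq hq hX.b1
  obtain ⟨κ', hκ', e3⟩ := exists_mul_of_pow_eq hq hX.b3
  have hκq : ∀ m, ![1, κ, 1, κ'] m ^ q = 1 := fun m => by fin_cases m <;> simp [hκ, hκ']
  have := fun m => lift_scaled φ hφ hpq (ch m) lam
    (cO _ (![1, κ, 1, κ'] m) * ![lam * u', lam * u', w, w] m) (by
      fin_cases m <;> simp [hφ, φu, φw, e1, e3, mul_left_comm])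
  choose Y y0 hY φY using this
  let V : Fin 4 → ℕ → Ω := fun m i => Y m i / lam
  have hYV : ∀ m i, (Y m i : Ω) = lam * V m i := fun m i => (mul_div_cancel₀ _ l1).symm
  have hV : ∀ m, Fwd p q (algebraMap Qb Ω (![a, b, a, b] m)) J (V m) := fun m i hi => by
    have e := congrArg (IntO {u}).subtype (hY m i hi)
    simp only [map_add, map_mul, map_pow, Subring.coe_subtype, cO_coe, hYV] at e
    rw [mul_pow, mul_pow, ← mul_assoc, ← pow_add, Nat.sub_add_cancel hpq.le, ← mul_add] at e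
    exact mul_left_cancel₀ (pow_ne_zero _ l1) e
  have v0 : ∀ m, V m 0 = algebraMap Qb Ω (![1, κ, 1, κ'] m) * ![u, u, v, v] m := fun m => by
    refine mul_left_cancel₀ l1 ?_
    rw [← hYV, y0]
    fin_cases m <;> simp [hw, u', mul_left_comm]
  have hc0 : ∀ m, ![a, b, a, b] m ≠ 0 := fun m => by fin_cases m <;> assumption
  let T : Fin 4 → Tw Qb q p J {u, v} := fun m =>
    ⟨![a, b, a, b] m, ![1, κ, 1, κ'] m, ![u, u, v, v] m, V m, hc0 m,
      fun h0 => by simpa [h0, hq.ne'] using hκq m, by fin_cases m <;> simp, v0 m,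
      fun i hi => (hV m i hi).symm⟩
  have m1 := (hA J).mono (by linarith) a2.le (le_max_left _ A₂) (le_max_left _ ρ₂)
    (Nat.pow_le_pow_right (by omega) (le_max_left _ e₂)) le_rfl
  have m2 := (hB J).mono (by linarith) a5.le (le_max_right A₁ _) (le_max_right ρ₁ _)
    (Nat.pow_le_pow_right (by omega) (le_max_right e₁ _)) le_rfl
  have hll : 2 ^ l ≤ 2 ^ ℓ := Nat.pow_le_pow_right two_pos (by omega)
  obtain ⟨E, t, -, ht, hE', hI⟩ := hK Qb Ω u v R ℓ 0 (K * (ℓ + 1) ^ 3) J ((J + 2) ^ max e₁ e₂)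
    hu hv halg r0 (r1.trans hll) (fun i => (r2 i).trans hll) r3 h1 (by omega) hJ₀ (Fin 4) T
    (by simp) (fun m => by fin_cases m <;> assumption)
  have tr : ∀ m m', E m m' → ∃ j ≤ J, ∃ μ : Qb, μ ^ p * ![a, b, a, b] m = ![a, b, a, b] m' ∧
      μ ^ q * ![a, b, a, b] m = ![a, b, a, b] m' ∧ X m' j = μ * X m t := fun m m' he => by
    obtain ⟨j, -, hj, μ, f1, f2, f3⟩ := hE' m m' he
    refine ⟨j, by omega, μ, f2, f1, mul_left_cancel₀ l0 ?_⟩
    have : Y m' j = cO _ μ * Y m t := Subtype.ext (by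
      rw [Subring.coe_mul, hYV, hYV, cO_coe, mul_left_comm]
      exact congrArg _ f3)
    rw [← φY m' j (by omega), this, map_mul, hφ, φY m t (by omega), mul_left_comm]
  have unit : ∀ (μ c c' : Qb), c' ≠ 0 → μ ^ p * c = c' → μ ^ q * c = c' → μ ^ (q - p) = 1 :=
    fun μ c c' f0 f1 f2 => mul_right_cancel₀ f0 (by
      rw [one_mul, ← f1, ← mul_assoc, ← pow_add, Nat.sub_add_cancel hpq.le, f2, f1])
  have fin : ∀ (n : ℕ) (A : Fin n → Fin 4), Function.Injective A → n ≤ 4 →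
      (∀ m ∈ Set.range A, ∀ m' ∈ Set.range A, m ≠ m' → ¬E m m') →
      ¬Rel q (K * (ℓ + 1) ^ 3) J (fun i => X (A i)) (2 ^ (C₁ * J ^ 2)) := by
    rintro n A hA hn hno ⟨c, c0, c1, c2⟩
    obtain ⟨R₁, s0, s1, s2⟩ := hE Ω u v u' lam (2 ^ l) (Real.exp (2 ^ (2 * l + 2))) rfl
      (hu.restrictScalars (algebraMap ℚ Qb).injective) (alg_rat halg) hidx l1 hlam
      (Real.one_le_exp (by positivity)) _ J Y V hYV hV hY (fun m => by
        rw [v0, mul_pow, ← map_pow, hκq, map_one, one_mul]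
        fin_cases m <;> simp) (fun m => by
        have f1 : IsIntegral (Algebra.adjoin ℤ {u}) (algebraMap Qb Ω (![1, κ, 1, κ'] m)) :=
          IsIntegral.of_pow hq (by rw [← map_pow, hκq, map_one]; exact isIntegral_one)
        have f2 : IsIntegral (Algebra.adjoin ℤ {u}) ((lam : Ω) * u) := isIntegral_algebraMap
          (x := (⟨_, mul_mem hlam (Algebra.subset_adjoin rfl)⟩ : Algebra.adjoin ℤ {u}))
        rw [y0, Subring.coe_mul]
        refine f1.mul ?_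
        fin_cases m
        exacts [f2, f2, hwi, hwi]) (fun ψ f1 => ⟨(hψ ψ f1).1, fun m => by
        have f2 := hom_norm_le (ψ.comp (cO _)) (Sz.root hq (hκq m))
        have f3 : ‖ψ (lam * u')‖ ≤ Real.exp (2 ^ (2 * l + 2)) := by
          rw [map_mul, norm_mul]
          exact (mul_le_of_le_one_right (norm_nonneg _) f1).trans (hψ ψ f1).1
        rw [y0, map_mul, norm_mul]
        refine (mul_le_of_le_one_left (norm_nonneg _) f2).trans ?_
        fin_cases m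
        exacts [f3, f3, (hψ ψ f1).2, (hψ ψ f1).2]⟩) n A hn c _ (by positivity) c1
      fun f0 => c0 (set_indep {u, v} V A hA (hI _ hno) c f0)
    have f1 := s2 ((algebraMap Qb ℂ).comp φ) (fun m i => algebraMap Qb ℂ (X m i))
      (fun m i hi => by rw [RingHom.comp_apply, φY m i hi, map_mul]; rfl) (by
        have := congrArg (algebraMap Qb ℂ) c2
        simpa only [map_sum, map_mul, map_intCast, mon_map, map_zero] using this)
    rw [RingHom.comp_apply, φu, aeval_algebraMap_apply, map_eq_zero] at f1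
    have f2 := int_root_le s0 (fun i => (s1 i).trans (t6_size hd (by linarith) hc₁ hlJ)) f1
    refine absurd f2 (not_le.2 (t6_big hX.big0 hh ?_))
    have := h2.trans hk
    nlinarith
  have tJ : t ≤ J := by omega
  have z01 : E 0 1 ∨ E 1 0 ∨ E 2 3 ∨ E 3 2 → False := fun he => by
    rcases he with he | he | he | he <;> obtain ⟨j, hj, μ, f1, f2, f3⟩ := tr _ _ he
    · exact absurd f3 ((n0 j hj t tJ μ).1 f1 f2)
    · exact absurd f3 ((n0 j hj t tJ μ).2 f1 f2)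
    · exact absurd f3 ((n2 j hj t tJ μ).1 f1 f2)
    · exact absurd f3 ((n2 j hj t tJ μ).2 f1 f2)
  have lk : ∀ m m', (m = 0 ∨ m = 1) → (m' = 2 ∨ m' = 3) → E m m' ∨ E m' m → ∃ μ : Qb,
      μ ^ p * ![a, b, a, b] m = ![a, b, a, b] m' ∧ μ ^ q * ![a, b, a, b] m = ![a, b, a, b] m' ∧
      X m' t = μ * X m t := fun m m' hm hm' he => by
    have g1 : X m = X 0 ∨ X m = X 1 := hm.imp (congrArg X) (congrArg X)
    obtain ⟨z, g2, g3⟩ : ∃ z, (z = X 0 ∨ z = X 1) ∧ ∀ i, X m' i = σ (z i) := by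
      rcases hm' with rfl | rfl
      exacts [⟨x, Or.inl x0.symm, x2⟩, ⟨x', Or.inr x1.symm, x3⟩]
    rcases he with he | he <;> obtain ⟨j, hj, μ, f1, f2, f3⟩ := tr _ _ he
    · obtain rfl := lev z (X m) g2 g1 σ 1 μ _ (Nat.sub_pos_of_lt hpq) (unit _ _ _ (hc0 _) f1 f2)
        j hj t tJ (by rw [← g3, f3]; rfl)
      exact ⟨μ, f1, f2, f3⟩
    · obtain rfl := lev (X m) z g1 g2 1 σ μ _ (Nat.sub_pos_of_lt hpq) (unit _ _ _ (hc0 _) f1 f2)
        j hj t tJ (by rw [← g3, ← f3]; rfl)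
      have f0 : μ ≠ 0 := fun f => hc0 m (by rw [← f2, f, zero_pow hq.ne', zero_mul])
      exact ⟨μ⁻¹, by rw [← f1, inv_pow, inv_mul_cancel_left₀ (pow_ne_zero _ f0)],
        by rw [← f2, inv_pow, inv_mul_cancel_left₀ (pow_ne_zero _ f0)],
        by rw [f3, inv_mul_cancel_left₀ f0]⟩
  have z02 : E 0 2 ∨ E 2 0 → False := fun he => by
    obtain ⟨μ, f1, f2, f3⟩ := lk 0 2 (Or.inl rfl) (Or.inl rfl) he
    obtain rfl : μ = 1 := eq_one_of_coprime hc ((mul_eq_right₀ ha).1 f1) ((mul_eq_right₀ ha).1 f2)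
    exact absurd (Or.inl ((x2 t).symm.trans (by rw [f3, one_mul, x0]))) (hcon t (by omega))
  by_cases g12 : E 1 2 ∨ E 2 1
  · obtain ⟨μ, f1, f2, f3⟩ := lk 1 2 (Or.inr rfl) (Or.inl rfl) g12
    refine fin 3 ![0, 2, 3] (by decide) (by omega) ?_
      (rel3 1 2 t μ (Or.inr rfl) (Or.inl rfl) ht (unit _ _ _ ha f1 f2) f3 _)
    have z03 : E 0 3 ∨ E 3 0 → False := fun he => by
      obtain ⟨ν, g1, g2, g3⟩ := lk 0 3 (Or.inl rfl) (Or.inr rfl) he
      have g4 : μ * ν = 1 := eq_one_of_coprime hc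
        ((mul_eq_right₀ ha).1 (by rw [mul_pow, mul_assoc]; exact (congrArg _ g1).trans f1))
        ((mul_eq_right₀ ha).1 (by rw [mul_pow, mul_assoc]; exact (congrArg _ g2).trans f2))
      exact absurd (Or.inr ⟨μ, f1, f2, (x2 t).symm.trans (by rw [f3, x1]),
        (congrArg (μ * ·) (x3 t)).symm.trans (by rw [g3, ← mul_assoc, g4, one_mul, x0])⟩) (hcon t (by omega))
    rintro _ ⟨m, rfl⟩ _ ⟨m', rfl⟩ hne he
    fin_cases m <;> fin_cases m' <;> first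
      | exact hne rfl | exact z02 (Or.inl he) | exact z02 (Or.inr he) | exact z03 (Or.inl he)
      | exact z03 (Or.inr he) | exact z01 (Or.inr (Or.inr (Or.inl he)))
      | exact z01 (Or.inr (Or.inr (Or.inr he)))
  by_cases g3 : ∃ m, (m = 0 ∨ m = 1) ∧ (E m 3 ∨ E 3 m)
  · obtain ⟨m, g4, g5⟩ := g3
    obtain ⟨μ, f1, f2, f3⟩ := lk m 3 g4 (Or.inr rfl) g5
    refine fin 3 ![0, 1, 2] (by decide) (by omega) ?_
      (rel3 m 3 t μ g4 (Or.inr rfl) ht (unit _ _ _ hb f1 f2) f3 _)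
    rintro _ ⟨m, rfl⟩ _ ⟨m', rfl⟩ hne he
    fin_cases m <;> fin_cases m' <;> first
      | exact hne rfl | exact z02 (Or.inl he) | exact z02 (Or.inr he) | exact g12 (Or.inl he)
      | exact g12 (Or.inr he) | exact z01 (Or.inl he) | exact z01 (Or.inr (Or.inl he))
  · refine fin 4 id Function.injective_id le_rfl (fun m _ m' _ hne he => ?_) rel4
    fin_cases m <;> fin_cases m' <;> first
      | exact hne rfl | exact z02 (Or.inl he) | exact z02 (Or.inr he) | exact g12 (Or.inl he)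
      | exact g12 (Or.inr he) | exact z01 (Or.inl he) | exact z01 (Or.inr (Or.inl he))
      | exact z01 (Or.inr (Or.inr (Or.inl he))) | exact z01 (Or.inr (Or.inr (Or.inr he)))
      | exact g3 ⟨_, Or.inl rfl, Or.inl he⟩ | exact g3 ⟨_, Or.inl rfl, Or.inr he⟩
      | exact g3 ⟨_, Or.inr rfl, Or.inl he⟩ | exact g3 ⟨_, Or.inr rfl, Or.inr he⟩

end Pool.Agent.MP_09973c_nt.H58
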