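import Pool.Agent.MP_09973c_nt.H58.All
import Pool.Agent.MP_09973c_nt.H58.MF
import Pool.Agent.MP_09973c_nt.H58.T6
import Pool.Agent.MP_09973c_nt.H69.Elim

/-!
The theorem for algebraic parameters.
-/

set_option autoImplicit false

namespace Pool.Agent.MP_09973c_nt.H58

theorem main_alg : MainStmt :=
  all_main (MF.mfwd H41.w2) H69.elim2
    (t2 all_ff (MF.mfwd H41.w2) all_rl H69.elim1 (H31.noEdge H41.w2) H31.lev)

end Pool.Agent.MP_09973c_nt.H58
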