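import Pool.Agent.MP_09973c_nt.H58.SpecA

/-!
Places of an algebraically closed function field.
-/

set_option autoImplicit false

namespace Pool.Agent.MP_09973c_nt.H58

open Polynomial Finset IntermediateField NNReal Pool.Agent.MP_09973c_nt.H31

/-- A real valuation, trivial on `k`, with residue field `k`. -/
structure Plc (k Ω : Type) [Field k] [Field Ω] [Algebra k Ω] where
  ν : Valuation Ω ℝ≥0
  triv : ∀ c : k, ν (algebraMap k Ω c) ≤ 1
  res : ∀ x, ν x ≤ 1 → ∃ c : k, ν (x - algebraMap k Ω c) < 1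

/-- The levels up to `i` of a sequence. -/
def lv {Ω : Type} (w : ℕ → Ω) (i : ℕ) : Set Ω := w '' Set.Iic i

namespace Plc

variable {k Ω : Type} [Field k] [Field Ω] [Algebra k Ω] (P : Plc k Ω)

/-- The order function (junk value zero at zero). -/
noncomputable def ord (x : Ω) : ℝ := -Real.log (P.ν x)

/-- The place composed with an automorphism. -/
noncomputable def act (σ : Ω ≃ₐ[k] Ω) : Plc k Ω where
  ν := P.ν.comap σ.toRingEquiv.toRingHom
  triv c := by simpa using P.triv c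
  res x hx := by
    obtain ⟨c, hc⟩ := P.res (σ x) hx
    exact ⟨c, by simpa using hc⟩

/-- `x` has residue `c`. -/
def Red (x : Ω) (c : k) : Prop := P.ν (x - algebraMap k Ω c) < 1

/-- All orders in `k(S)` are integer multiples of `g`. -/
def VG (S : Set Ω) (g : ℝ) : Prop := ∀ x ∈ adjoin k S, x ≠ 0 → ∃ n : ℤ, P.ord x = n * g

/-- `x` has a nonzero residue and is a local coordinate. -/
def Loc (x : Ω) : Prop := ∃ β : k, β ≠ 0 ∧ P.ord (x - algebraMap k Ω β) = 1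

open Classical in
/-- Number of zeros among the levels `1, …, j`. -/
noncomputable def nz (w : ℕ → Ω) (j : ℕ) : ℕ := ((Icc 1 j).filter fun i => P.ν (w i) < 1).card

@[simp] theorem act_ν (σ : Ω ≃ₐ[k] Ω) (x : Ω) : (P.act σ).ν x = P.ν (σ x) := rfl

@[simp] theorem act_ord (σ : Ω ≃ₐ[k] Ω) (x : Ω) : (P.act σ).ord x = P.ord (σ x) := rfl

theorem act_red (σ : Ω ≃ₐ[k] Ω) (x : Ω) (c : k) : (P.act σ).Red x c ↔ P.Red (σ x) c := by
  simp [Red]

theorem ν_const {c : k} (hc : c ≠ 0) : P.ν (algebraMap k Ω c) = 1 :=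
  val_unit P.ν (P.triv c) (P.triv c⁻¹) (by rw [← map_mul, mul_inv_cancel₀ hc, map_one])

theorem ν_nat [CharZero k] {n : ℕ} (hn : 0 < n) : P.ν (n : Ω) = 1 := by
  rw [← map_natCast (algebraMap k Ω)]; exact P.ν_const (by exact_mod_cast hn.ne')

theorem ν_pos {x : Ω} (hx : x ≠ 0) : (0 : ℝ) < P.ν x := by
  exact_mod_cast pos_iff_ne_zero.2 (P.ν.ne_zero_iff.2 hx)

@[simp] theorem ord_zero : P.ord 0 = 0 := by simp [ord]

@[simp] theorem ord_one : P.ord 1 = 0 := by simp [ord]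

theorem ord_const (c : k) : P.ord (algebraMap k Ω c) = 0 := by
  by_cases hc : c = 0
  · simp [hc]
  · simp [ord, P.ν_const hc]

theorem ord_mul {x y : Ω} (hx : x ≠ 0) (hy : y ≠ 0) : P.ord (x * y) = P.ord x + P.ord y := by
  simp only [ord, map_mul, NNReal.coe_mul]
  rw [Real.log_mul (P.ν_pos hx).ne' (P.ν_pos hy).ne']; ring

theorem ord_pow (x : Ω) (n : ℕ) : P.ord (x ^ n) = n * P.ord x := by simp [ord]

theorem ord_inv (x : Ω) : P.ord x⁻¹ = -P.ord x := by simp [ord]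

theorem ord_neg (x : Ω) : P.ord (-x) = P.ord x := by simp [ord]

theorem ord_zpow (x : Ω) (n : ℤ) : P.ord (x ^ n) = n * P.ord x := by simp [ord]

theorem ord_prod {ι : Type} (T : Finset ι) (f : ι → Ω) (h : ∀ i ∈ T, f i ≠ 0) :
    P.ord (∏ i ∈ T, f i) = ∑ i ∈ T, P.ord (f i) := by
  simp only [ord, map_prod, NNReal.coe_prod]
  rw [Real.log_prod fun i hi => (P.ν_pos (h i hi)).ne', sum_neg_distrib]

theorem ord_congr {x y : Ω} (h : P.ν x = P.ν y) : P.ord x = P.ord y := by rw [ord, ord, h]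

theorem ord_le_iff {x y : Ω} (hx : x ≠ 0) (hy : y ≠ 0) : P.ord x ≤ P.ord y ↔ P.ν y ≤ P.ν x := by
  rw [ord, ord, neg_le_neg_iff, Real.log_le_log_iff (P.ν_pos hy) (P.ν_pos hx), NNReal.coe_le_coe]

theorem ord_lt_iff {x y : Ω} (hx : x ≠ 0) (hy : y ≠ 0) : P.ord x < P.ord y ↔ P.ν y < P.ν x := by
  rw [← not_le, ← not_le, P.ord_le_iff hy hx]

theorem ord_eq_iff {x y : Ω} (hx : x ≠ 0) (hy : y ≠ 0) : P.ord x = P.ord y ↔ P.ν x = P.ν y := by
  rw [le_antisymm_iff, le_antisymm_iff, P.ord_le_iff hx hy, P.ord_le_iff hy hx, and_comm]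

theorem ord_pos_iff {x : Ω} (hx : x ≠ 0) : 0 < P.ord x ↔ P.ν x < 1 := by
  simpa using P.ord_lt_iff one_ne_zero hx

theorem ord_neg_iff {x : Ω} : P.ord x < 0 ↔ 1 < P.ν x := by
  by_cases hx : x = 0
  · simp [hx]
  · simpa using P.ord_lt_iff hx one_ne_zero

theorem ord_nonneg_iff {x : Ω} : 0 ≤ P.ord x ↔ P.ν x ≤ 1 := by
  rw [← not_lt, ← not_lt, P.ord_neg_iff]

theorem ne_zero_of_ord {x : Ω} (h : P.ord x ≠ 0) : x ≠ 0 := by rintro rfl; simp at h

theorem ν_lt_one_of_ord {x : Ω} (h : 0 < P.ord x) : P.ν x < 1 :=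
  (P.ord_pos_iff (P.ne_zero_of_ord h.ne')).1 h

theorem ord_eq_zero {x : Ω} (h : P.ν x = 1) : P.ord x = 0 := by simp [ord, h]

theorem ν_eq_exp {x : Ω} (hx : x ≠ 0) : (P.ν x : ℝ) = Real.exp (-P.ord x) := by
  rw [ord, neg_neg, Real.exp_log (P.ν_pos hx)]

theorem min_le_ord_add {x y : Ω} (hx : x ≠ 0) (hy : y ≠ 0) (h : x + y ≠ 0) :
    min (P.ord x) (P.ord y) ≤ P.ord (x + y) := by
  rcases le_max_iff.1 (P.ν.map_add x y) with h1 | h1
  · exact (min_le_left _ _).trans ((P.ord_le_iff hx h).2 h1)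
  · exact (min_le_right _ _).trans ((P.ord_le_iff hy h).2 h1)

variable {P}

theorem red_const (c : k) : P.Red (algebraMap k Ω c) c := by simp [Red]

theorem red_zero {x : Ω} : P.Red x 0 ↔ P.ν x < 1 := by simp [Red]

theorem red_of_ord {x : Ω} {c : k} (h : 0 < P.ord (x - algebraMap k Ω c)) : P.Red x c :=
  P.ν_lt_one_of_ord h

theorem Red.le_one {x : Ω} {c : k} (h : P.Red x c) : P.ν x ≤ 1 := by
  have := P.ν.map_add_le (le_of_lt h) (P.triv c)
  rwa [sub_add_cancel] at this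

theorem Red.eq_one {x : Ω} {c : k} (h : P.Red x c) (hc : c ≠ 0) : P.ν x = 1 := by
  have := P.ν.map_add_eq_of_lt_right (x := x - algebraMap k Ω c) (y := algebraMap k Ω c)
    (by rw [P.ν_const hc]; exact h)
  rwa [sub_add_cancel, P.ν_const hc] at this

theorem Red.add {x y : Ω} {c d : k} (h : P.Red x c) (h' : P.Red y d) : P.Red (x + y) (c + d) := by
  have := P.ν.map_add_lt h h'
  rwa [show x - algebraMap k Ω c + (y - algebraMap k Ω d) = x + y - algebraMap k Ω (c + d) by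
    rw [map_add]; ring] at this

theorem Red.neg {x : Ω} {c : k} (h : P.Red x c) : P.Red (-x) (-c) := by
  rw [Red, map_neg, ← neg_sub', Valuation.map_neg]; exact h

theorem Red.sub {x y : Ω} {c d : k} (h : P.Red x c) (h' : P.Red y d) : P.Red (x - y) (c - d) := by
  simpa [sub_eq_add_neg] using h.add h'.neg

theorem Red.mul {x y : Ω} {c d : k} (h : P.Red x c) (h' : P.Red y d) : P.Red (x * y) (c * d) := by
  rw [Red, show x * y - algebraMap k Ω (c * d) =
    (x - algebraMap k Ω c) * y + algebraMap k Ω c * (y - algebraMap k Ω d) by rw [map_mul]; ring]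
  refine P.ν.map_add_lt ?_ ?_ <;> rw [map_mul]
  · exact (mul_le_of_le_one_right' h'.le_one).trans_lt h
  · exact (mul_le_of_le_one_left' (P.triv c)).trans_lt h'

theorem Red.pow {x : Ω} {c : k} (h : P.Red x c) (n : ℕ) : P.Red (x ^ n) (c ^ n) := by
  induction n with
  | zero => simpa using red_const (P := P) 1
  | succ n ih => rw [pow_succ, pow_succ]; exact ih.mul h

theorem Red.unique {x : Ω} {c d : k} (h : P.Red x c) (h' : P.Red x d) : c = d := by
  by_contra hne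
  have := (h.sub h').eq_one (sub_ne_zero.2 hne)
  simp at this

theorem Red.eq_zero_iff {x : Ω} {c : k} (h : P.Red x c) : c = 0 ↔ P.ν x < 1 :=
  ⟨fun h0 => red_zero.1 (h0 ▸ h), fun h0 => h.unique (red_zero.2 h0)⟩

theorem Red.aeval {x : Ω} {c : k} (h : P.Red x c) (f : k[X]) :
    P.Red (Polynomial.aeval x f) (f.eval c) := by
  induction f using Polynomial.induction_on' with
  | add f g hf hg => rw [map_add, eval_add]; exact hf.add hg
  | monomial n a => rw [aeval_monomial, eval_monomial]; exact (red_const a).mul (h.pow n)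

theorem Loc.eq_one {x : Ω} (h : P.Loc x) : P.ν x = 1 := by
  obtain ⟨β, h0, h1⟩ := h
  exact (red_of_ord (by rw [h1]; exact one_pos)).eq_one h0

theorem Loc.smul {x : Ω} (h : P.Loc x) {κ : k} (hκ : κ ≠ 0) : P.Loc (algebraMap k Ω κ * x) := by
  obtain ⟨β, h0, h1⟩ := h
  refine ⟨κ * β, mul_ne_zero hκ h0, ?_⟩
  rw [map_mul, ← mul_sub, P.ord_mul (by simpa using hκ) (P.ne_zero_of_ord (by rw [h1]; simp)),
    P.ord_const, h1, zero_add]

theorem nz_zero (w : ℕ → Ω) : P.nz w 0 = 0 := by simp [nz]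

open Classical in
theorem nz_succ (w : ℕ → Ω) (j : ℕ) :
    P.nz w (j + 1) = P.nz w j + if P.ν (w (j + 1)) < 1 then 1 else 0 := by
  rw [nz, nz, ← insert_Icc_right_eq_Icc_add_one (by omega), filter_insert]
  split_ifs
  · rw [card_insert_of_notMem (by simp)]
  · rfl

theorem nz_mono (w : ℕ → Ω) : Monotone (P.nz w) :=
  monotone_nat_of_le_succ fun j => by rw [nz_succ]; omega

theorem nz_eq_zero {w : ℕ → Ω} {j : ℕ} :
    P.nz w j = 0 ↔ ∀ i, 1 ≤ i → i ≤ j → ¬ P.ν (w i) < 1 := by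
  simp [nz, filter_eq_empty_iff]

theorem VG.anti {S S' : Set Ω} {g : ℝ} (h : P.VG S' g) (hS : S ⊆ adjoin k S') : P.VG S g :=
  fun x hx => h x (adjoin_le_iff.2 hS hx)

theorem VG.div {S : Set Ω} {g g' : ℝ} (h : P.VG S g) (m : ℤ) (hg : g = m * g') : P.VG S g' :=
  fun x hx h0 => by
    obtain ⟨n, hn⟩ := h x hx h0
    exact ⟨n * m, by rw [hn, hg]; push_cast; ring⟩

theorem arch (x y : Ω) (hx : P.ν x < 1) (hy : y ≠ 0) : ∃ n, P.ν x ^ n < P.ν y :=
  NNReal.exists_pow_lt_of_lt_one (pos_iff_ne_zero.2 (P.ν.ne_zero_iff.2 hy)) hx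

/-- A maximal field with the same value group. -/
theorem VG.maxF {S : Set Ω} {g : ℝ} (h : P.VG S g) : ∃ M : Subfield Ω,
    (adjoin k S).toSubfield ≤ M ∧ MaxF P.ν {γ | ∃ n : ℤ, (γ : ℝ) = Real.exp (-(n * g))} M := by
  refine exists_maxF P.ν (Exists.intro 0 (by simp)) ?_ ?_ arch _ fun z hz h0 => ?_
  · rintro x ⟨n, hn⟩ y ⟨m, hm⟩
    exact ⟨n + m, by rw [NNReal.coe_mul, hn, hm, ← Real.exp_add]; push_cast; ring_nf⟩
  · rintro x ⟨n, hn⟩
    exact ⟨-n, by rw [NNReal.coe_inv, hn, ← Real.exp_neg]; push_cast; ring_nf⟩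
  · obtain ⟨n, hn⟩ := h z hz h0
    exact ⟨n, by rw [P.ν_eq_exp h0, hn]⟩

theorem VG.of_maxF {S : Set Ω} {g : ℝ} {M : Subfield Ω}
    (hM : MaxF P.ν {γ | ∃ n : ℤ, (γ : ℝ) = Real.exp (-(n * g))} M)
    (hk : ∀ c : k, algebraMap k Ω c ∈ M) (hS : S ⊆ M) : P.VG S g := fun x hx h0 => by
  have hx' : x ∈ M := adjoin_le_subfield k S (K := M) (Set.range_subset_iff.2 hk) hS hx
  obtain ⟨n, hn⟩ := hM.val x hx' h0
  exact ⟨n, by rw [ord, hn, Real.log_exp, neg_neg]⟩

/-- Adjoining a radical whose order is in the value group. -/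
theorem VG.adj [IsAlgClosed Ω] [CharZero k] {S : Set Ω} {g : ℝ} (h : P.VG S g) {z : Ω} {r : ℕ}
    (hr : 0 < r) (hz : z ^ r ∈ adjoin k S) (ho : ∃ n : ℤ, P.ord z = n * g) :
    P.VG (insert z S) g := by
  obtain ⟨M, h1, hM⟩ := h.maxF
  refine VG.of_maxF hM (fun c => h1 ((adjoin k S).algebraMap_mem c))
    (Set.insert_subset ?_ fun x hx => h1 (subset_adjoin k S hx))
  by_cases h0 : z = 0
  · rw [h0]; exact M.zero_mem
  obtain ⟨n, hn⟩ := ho
  exact hM.mem_of_pow hr (P.ν_nat hr) (h1 hz) ⟨n, by rw [P.ν_eq_exp h0, hn]⟩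

/-- Powers with distinct orders modulo the value group are independent. -/
theorem VG.powInd {S : Set Ω} {g : ℝ} (h : P.VG S g) (hg : g ≠ 0) {z : Ω} (hz : z ≠ 0) {n : ℕ}
    {a : ℤ} (ha : IsCoprime (n : ℤ) a) (ho : n * P.ord z = a * g) : PowInd k S z n := by
  classical
  refine Fintype.linearIndependent_iff.2 fun c hc => ?_
  rcases val_sum_distinct P.ν univ (fun e : Fin n => c e • z ^ (e : ℕ)) (fun i _ j _ hi hj hij => by
    have key : ∀ e : Fin n, c e • z ^ (e : ℕ) ≠ 0 →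
        ∃ m : ℤ, P.ord (c e • z ^ (e : ℕ)) = m * g + (e : ℕ) * P.ord z := fun e he => by
      have hc0 : (c e : Ω) ≠ 0 := fun h0 => he (by rw [IntermediateField.smul_def, h0, zero_smul])
      obtain ⟨m, hm⟩ := h _ (c e).2 hc0
      exact ⟨m, by rw [IntermediateField.smul_def, smul_eq_mul, P.ord_mul hc0 (pow_ne_zero _ hz),
        hm, ord_pow]⟩
    obtain ⟨m, hm⟩ := key i hi
    obtain ⟨m', hm'⟩ := key j hj
    have h1 := P.ord_congr hij
    rw [hm, hm'] at h1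
    have h2 : ((((i : ℕ) : ℤ) - (j : ℕ)) * a : ℤ) = n * (m' - m) := by
      have : ((((i : ℕ) : ℝ) - (j : ℕ)) * a) * g = (n * (m' - m)) * g := by
        rw [mul_assoc, ← ho]; linear_combination (n : ℝ) * h1
      exact_mod_cast mul_right_cancel₀ hg this
    have h3 : (n : ℤ) ∣ ((i : ℕ) : ℤ) - (j : ℕ) := ha.dvd_of_dvd_mul_right ⟨_, h2⟩
    have h4 := Int.eq_zero_of_abs_lt_dvd h3 (by
      have := i.2; have := j.2; rw [abs_lt]; constructor <;> omega)
    exact Fin.ext (by omega)) with h0 | ⟨i, -, hi, h0⟩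
  · intro i
    have := h0 i (mem_univ _)
    rw [IntermediateField.smul_def, smul_eq_mul] at this
    exact Subtype.ext ((mul_eq_zero.1 this).resolve_right (pow_ne_zero _ hz))
  · rw [hc, map_zero] at h0
    exact absurd (P.ν.zero_iff.1 h0.symm) hi

end Plc

end Pool.Agent.MP_09973c_nt.H58
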