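import Pool.Agent.MP_09973c_nt.H58.Ar

/-!
Sizes of polynomials with algebraic coefficients and Northcott's theorem.
-/

set_option autoImplicit false

namespace Pool.Agent.MP_09973c_nt.H58

open Finset Polynomial

section L1

variable {F : Type} [NormedField F]

/-- Sum of the norms of the coefficients. -/
noncomputable def l1 (f : F[X]) : ℝ := ∑ n ∈ f.support, ‖f.coeff n‖

theorem l1_nonneg (f : F[X]) : 0 ≤ l1 f := sum_nonneg fun _ _ => norm_nonneg _

theorem l1_eq_of_subset (f : F[X]) {T : Finset ℕ} (h : f.support ⊆ T) :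
    l1 f = ∑ n ∈ T, ‖f.coeff n‖ :=
  sum_subset h fun n _ hn => by rw [notMem_support_iff.1 hn, norm_zero]

theorem sum_le_l1 (f : F[X]) (T : Finset ℕ) : ∑ n ∈ T, ‖f.coeff n‖ ≤ l1 f := by
  rw [l1_eq_of_subset f (subset_union_right (s₁ := T))]
  exact sum_le_sum_of_subset_of_nonneg subset_union_left fun _ _ _ => norm_nonneg _

theorem coeff_le_l1 (f : F[X]) (n : ℕ) : ‖f.coeff n‖ ≤ l1 f := by
  simpa using sum_le_l1 f {n}

theorem l1_zero : l1 (0 : F[X]) = 0 := by simp [l1]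

theorem l1_monomial (n : ℕ) (c : F) : l1 (monomial n c) = ‖c‖ := by
  rw [l1_eq_of_subset _ (support_monomial' n c)]; simp

theorem l1_C (c : F) : l1 (C c) = ‖c‖ := l1_monomial 0 c

theorem l1_X_pow (n : ℕ) : l1 (X ^ n : F[X]) = 1 := by
  rw [← monomial_one_right_eq_X_pow, l1_monomial, norm_one]

theorem l1_add (f g : F[X]) : l1 (f + g) ≤ l1 f + l1 g := by
  rw [l1_eq_of_subset _ support_add, l1_eq_of_subset f (subset_union_left (s₂ := g.support)),
    l1_eq_of_subset g (subset_union_right (s₁ := f.support)), ← sum_add_distrib]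
  exact sum_le_sum fun n _ => by rw [coeff_add]; exact norm_add_le _ _

theorem l1_neg (f : F[X]) : l1 (-f) = l1 f := by simp [l1]

theorem l1_sum {ι : Type} (T : Finset ι) (f : ι → F[X]) : l1 (∑ i ∈ T, f i) ≤ ∑ i ∈ T, l1 (f i) :=
  le_sum_of_subadditive l1 l1_zero.le l1_add T f

theorem l1_mul (f g : F[X]) : l1 (f * g) ≤ l1 f * l1 g := by
  rw [mul_eq_sum_sum]
  refine (l1_sum _ _).trans ?_
  rw [l1, sum_mul]
  refine sum_le_sum fun i _ => (l1_sum _ _).trans ?_
  rw [l1, mul_sum]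
  exact sum_le_sum fun j _ => by rw [l1_monomial, norm_mul]

theorem l1_pow (f : F[X]) (n : ℕ) : l1 (f ^ n) ≤ l1 f ^ n := by
  induction n with
  | zero => simpa using (l1_X_pow (F := F) 0).le
  | succ n ih =>
    rw [pow_succ, pow_succ]
    exact (l1_mul _ _).trans (mul_le_mul_of_nonneg_right ih (l1_nonneg _))

/-- A polynomial without terms of degree below `V` is small at a small point. -/
theorem norm_eval_le_of_coeff (f : F[X]) {z : F} (hz : ‖z‖ ≤ 1) {V : ℕ}
    (h : ∀ n < V, f.coeff n = 0) : ‖f.eval z‖ ≤ l1 f * ‖z‖ ^ V := by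
  rw [eval_eq_sum, Polynomial.sum, l1, sum_mul]
  refine (norm_sum_le _ _).trans (sum_le_sum fun n hn => ?_)
  rw [norm_mul, norm_pow]
  exact mul_le_mul_of_nonneg_left (pow_le_pow_of_le_one (norm_nonneg _) hz
    (not_lt.1 fun h' => mem_support_iff.1 hn (h n h'))) (norm_nonneg _)

theorem norm_eval_le (f : F[X]) {z : F} (hz : ‖z‖ ≤ 1) : ‖f.eval z‖ ≤ l1 f := by
  simpa using norm_eval_le_of_coeff f hz (V := 0) (by simp)

end L1

/-- Common denominator `d` and conjugate coefficient sums at most `H`. -/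
def PSz (f : Qb[X]) (d : ℕ) (H : ℝ) : Prop :=
  (∀ n, IsIntegral ℤ ((d : Qb) * f.coeff n)) ∧ ∀ g : Gal, l1 (f.map (g : Qb →+* Qb)) ≤ H

namespace PSz

variable {f f' : Qb[X]} {d d' : ℕ} {H H' : ℝ}

theorem nonneg (h : PSz f d H) : 0 ≤ H := (l1_nonneg _).trans (h.2 1)

theorem coeff (h : PSz f d H) (n : ℕ) : Sz (f.coeff n) d H :=
  ⟨h.1 n, fun g => by simpa using (coeff_le_l1 _ n).trans (h.2 g)⟩

theorem l1_le (h : PSz f d H) : l1 f ≤ H := by
  have := h.2 1
  rwa [show ((1 : Gal) : Qb →+* Qb) = RingHom.id _ from rfl, Polynomial.map_id] at this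

theorem mono (h : PSz f d H) (hd : d ∣ d') (hH : H ≤ H') : PSz f d' H' :=
  ⟨fun n => ((h.coeff n).mono hd le_rfl).1, fun g => (h.2 g).trans hH⟩

theorem monomial {x : Qb} (h : Sz x d H) (n : ℕ) : PSz (Polynomial.monomial n x) d H := by
  refine ⟨fun m => ?_, fun g => ?_⟩
  · rw [coeff_monomial]; split_ifs
    · exact h.1
    · simpa using isIntegral_zero
  · rw [Polynomial.map_monomial, l1_monomial]; exact h.2 g

theorem C {x : Qb} (h : Sz x d H) : PSz (Polynomial.C x) d H := monomial h 0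

theorem X_pow (n : ℕ) : PSz (X ^ n) 1 1 := by
  rw [← monomial_one_right_eq_X_pow]; exact monomial Sz.one n

theorem add (h : PSz f d H) (h' : PSz f' d H') : PSz (f + f') d (H + H') :=
  ⟨fun n => by rw [coeff_add]; exact ((h.coeff n).add (h'.coeff n)).1, fun g => by
    rw [Polynomial.map_add]; exact (l1_add _ _).trans (add_le_add (h.2 g) (h'.2 g))⟩

theorem neg (h : PSz f d H) : PSz (-f) d H :=
  ⟨fun n => by rw [coeff_neg]; exact (h.coeff n).neg.1, fun g => by
    rw [Polynomial.map_neg, l1_neg]; exact h.2 g⟩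

theorem sub (h : PSz f d H) (h' : PSz f' d H') : PSz (f - f') d (H + H') := by
  rw [sub_eq_add_neg]; exact h.add h'.neg

theorem mul (h : PSz f d H) (h' : PSz f' d' H') : PSz (f * f') (d * d') (H * H') :=
  ⟨fun n => by
    rw [coeff_mul]; exact (Sz.sum _ fun x _ => (h.coeff x.1).mul (h'.coeff x.2)).1, fun g => by
    rw [Polynomial.map_mul]
    exact (l1_mul _ _).trans (mul_le_mul (h.2 g) (h'.2 g) (l1_nonneg _) h.nonneg)⟩

theorem one : PSz 1 1 1 := by simpa using X_pow 0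

theorem zero : PSz 0 d 0 := by simpa using C (Sz.zero (d := d))

theorem pow (h : PSz f d H) (n : ℕ) : PSz (f ^ n) (d ^ n) (H ^ n) := by
  induction n with
  | zero => simpa using one
  | succ n ih => simpa only [pow_succ] using ih.mul h

theorem sum {ι : Type} (T : Finset ι) {f : ι → Qb[X]} {B : ι → ℝ}
    (h : ∀ i ∈ T, PSz (f i) d (B i)) : PSz (∑ i ∈ T, f i) d (∑ i ∈ T, B i) := by
  classical
  induction T using Finset.induction_on with
  | empty => simpa using zero
  | insert a T ha ih =>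
    rw [sum_insert ha, sum_insert ha]
    exact (h a (by simp)).add (ih fun i hi => h i (by simp [hi]))

theorem prod {ι : Type} (T : Finset ι) {f : ι → Qb[X]} {e : ι → ℕ} {B : ι → ℝ}
    (h : ∀ i ∈ T, PSz (f i) (e i) (B i)) :
    PSz (∏ i ∈ T, f i) (∏ i ∈ T, e i) (∏ i ∈ T, B i) := by
  classical
  induction T using Finset.induction_on with
  | empty => simpa using one
  | insert a T ha ih =>
    rw [prod_insert ha, prod_insert ha, prod_insert ha]
    exact (h a (by simp)).mul (ih fun i hi => h i (by simp [hi]))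

end PSz

theorem den_le_of_mul {r : ℚ} {B : Qb} {H : ℝ} (hB : Sz B 1 H) (h0 : B ≠ 0)
    (hA : IsIntegral ℤ ((r : Qb) * B)) : (r.den : ℝ) ≤ H := by
  obtain ⟨γ, hγ⟩ := exists_avg_top (index_Fix_ne_zero (Set.finite_singleton B))
  have hi : IsIntegral ℤ B := by simpa using hB.1
  have hfix : ∀ s ∈ Fix ℚ {B}, s B = B := fun s hs => mem_Fix.1 hs B rfl
  obtain ⟨n, hn⟩ := hγ.norm_int hfix hi
  obtain ⟨m, hm⟩ := hγ.norm_int (x := r * B) (fun s hs => by simp [hfix s hs]) hA
  have h1 := one_le_prod_norm hγ hfix hi h0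
  have h2 := prod_le_prod (s := univ) (f := fun i => ‖γ i B‖) (g := fun _ => H)
    (fun _ _ => norm_nonneg _) fun i _ => hB.2 _
  rw [← norm_prod, ← hn, norm_intCast_Qb] at h1 h2
  set e := (Fix ℚ {B}).index
  have he : e ≠ 0 := index_Fix_ne_zero (Set.finite_singleton B)
  simp only [map_mul, map_ratCast, prod_mul_distrib, prod_const, card_univ, Fintype.card_fin,
    ← hn] at hm h2
  have h3 : (m : ℚ) = r ^ e * n := by exact_mod_cast hm
  have h4 : m * (r.den : ℤ) ^ e = r.num ^ e * n := by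
    have : (m : ℚ) * (r.den : ℚ) ^ e = (r.num : ℚ) ^ e * n := by
      rw [h3, ← Rat.mul_den_eq_num]; ring
    exact_mod_cast this
  have h5 : (r.den : ℤ) ^ e ∣ n :=
    (IsCoprime.pow (Int.isCoprime_iff_gcd_eq_one.2 (by simpa [Int.gcd] using r.reduced.symm))
      ).dvd_of_dvd_mul_left ⟨m, by rw [← h4, mul_comm]⟩
  have hn0 : n ≠ 0 := by rintro rfl; norm_num at h1
  have h6 : ((r.den : ℝ)) ^ e ≤ |(n : ℝ)| := by
    exact_mod_cast Int.le_of_dvd (abs_pos.2 hn0) ((dvd_abs _ _).2 h5)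
  exact (pow_le_pow_iff_left₀ (by positivity) hB.nonneg he).1 (h6.trans h2)

theorem finite_rat (H : ℝ) :
    {r : ℚ | ∃ B : Qb, B ≠ 0 ∧ Sz B 1 H ∧ Sz ((r : Qb) * B) 1 H}.Finite := by
  refine (((Set.finite_Icc (-⌈H⌉) ⌈H⌉).prod (Set.finite_Icc 0 ⌈H⌉₊)).image
    fun x : ℤ × ℕ => (x.1 : ℚ) / x.2).subset ?_
  rintro r ⟨B, h0, hB, hA⟩
  have h1 := den_le_of_mul hB h0 (by simpa using hA.1)
  have h2 : |(r.num : ℝ)| ≤ H := by
    by_cases hr : r = 0
    · simpa [hr] using hB.nonneg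
    · have := den_le_of_mul (r := r⁻¹) hA (mul_ne_zero (by exact_mod_cast hr) h0) (by
        rw [Rat.cast_inv, inv_mul_cancel_left₀ (by exact_mod_cast hr)]; simpa using hB.1)
      rwa [Rat.den_inv_of_ne_zero hr, Nat.cast_natAbs, Int.cast_abs] at this
  refine ⟨(r.num, r.den), ⟨?_, Nat.zero_le _, ?_⟩, Rat.num_div_den r⟩
  · rw [Set.mem_Icc, ← abs_le]
    exact_mod_cast h2.trans (Int.le_ceil H)
  · exact_mod_cast h1.trans (Nat.le_ceil H)

/-- Northcott's theorem for quotients of integers with bounded house. -/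
theorem northQ (I : ℕ) (H : ℝ) : {c : Qb | (∃ S : Subgroup Gal, S.index ≠ 0 ∧ S.index ≤ I ∧
    ∀ g ∈ S, g c = c) ∧ ∃ B : Qb, B ≠ 0 ∧ Sz B 1 H ∧ Sz (c * B) 1 H}.Finite := by
  classical
  refine (bUnion_roots_finite (algebraMap ℚ Qb) I (finite_rat (max 1 (2 * H) ^ I))).subset ?_
  rintro c ⟨⟨S, hS, hI, hc⟩, B, h0, hB, hA⟩
  obtain ⟨γ, hγ⟩ := exists_avg_top hS
  let χ : Qb[X] := ∏ i, (X - C (γ i c))
  have hfix : ∀ (g : Gal) n, g (χ.coeff n) = χ.coeff n := fun g n => by
    have := hγ.prod_eq (fun g => X - C (g c)) (fun g s hs => by simp [hc s hs])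
      (Subgroup.mem_top g)
    conv_rhs => rw [show χ = _ from this.symm]
    rw [show g (χ.coeff n) = (χ.map g.toRingEquiv.toRingHom).coeff n by simp]
    simp [χ, Polynomial.map_prod]
  have hm : χ.Monic := monic_prod_of_monic _ _ fun _ _ => monic_X_sub_C _
  obtain ⟨f, hf, hdeg, -⟩ := lifts_and_natDegree_eq_and_monic
    ((lifts_iff_coeff_lifts (f := algebraMap ℚ Qb) χ).2 fun n => rat_of_fixed (hfix · n)) hm
  have hpow : ∀ {y : ℝ}, 0 ≤ y → y ≤ 2 * H → y ^ S.index ≤ max 1 (2 * H) ^ I := fun h0 h =>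
    (pow_le_pow_left₀ h0 (h.trans (le_max_right _ _)) _).trans
      (pow_le_pow_right₀ (le_max_left _ _) hI)
  have hH := hB.nonneg
  have h1 : Sz (∏ i, γ i B) 1 (max 1 (2 * H) ^ I) := by
    have := Sz.prod univ fun i _ => hB.map (γ i)
    simp only [prod_const, one_pow, card_univ, Fintype.card_fin] at this
    exact this.mono dvd_rfl (hpow hH (by linarith))
  have h2 : PSz (C (∏ i, γ i B) * χ) 1 (max 1 (2 * H) ^ I) := by
    have := PSz.prod univ fun i _ =>
      (PSz.monomial (hB.map (γ i)) 1).sub (PSz.C (hA.map (γ i)))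
    simp only [prod_const, one_pow, card_univ, Fintype.card_fin] at this
    rw [map_prod, ← prod_mul_distrib, prod_congr rfl fun i _ => show C (γ i B) * (X - C (γ i c)) =
      monomial 1 (γ i B) - C (γ i (c * B)) by
        rw [← C_mul_X_eq_monomial, map_mul, C_mul]; ring]
    exact this.mono dvd_rfl (hpow (by linarith) (by linarith))
  simp only [Set.mem_iUnion]
  refine ⟨f, ⟨?_, fun n => ⟨_, prod_ne_zero_iff.2 fun i _ => by simpa using h0, h1, ?_⟩⟩, ?_⟩
  · rw [hdeg, natDegree_prod_of_monic _ _ fun _ _ => monic_X_sub_C _]; simpa using hI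
  · have := h2.coeff n
    rwa [coeff_C_mul, mul_comm, ← hf, coeff_map] at this
  · obtain ⟨i, hi, -⟩ := hγ.2 1 (Subgroup.mem_top _)
    have hix : γ i c = c := hc _ (by simpa using hi)
    rw [hf, mem_coe, Multiset.mem_toFinset, mem_roots hm.ne_zero, IsRoot, eval_prod]
    exact prod_eq_zero (mem_univ i) (by simp [hix])

/-- Northcott's theorem. -/
theorem northcott {G : Subgroup Gal} (hG : G.index ≠ 0) (W : ℕ) {d : ℕ} (hd : 0 < d) (H : ℝ) :
    {x : Qb | (orb G x).ncard ≤ W ∧ Sz x d H}.Finite := by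
  refine (northQ (W * G.index) (d * max 1 H)).subset ?_
  rintro x ⟨hW, hx⟩
  have hd' : (0 : ℝ) ≤ d := by positivity
  refine ⟨⟨G ⊓ Fix ℚ {x}, Subgroup.index_inf_ne_zero hG (index_Fix_ne_zero (Set.toFinite _)),
    by rw [index_inf_Fix]; exact Nat.mul_le_mul_right _ hW, fun g hg => mem_Fix.1 hg.2 x rfl⟩,
    d, by exact_mod_cast hd.ne', ?_, by simpa [mul_comm] using hx.1, fun g => ?_⟩
  · refine (Sz.int d).mono dvd_rfl ?_
    simpa using le_mul_of_one_le_right hd' (le_max_left _ _)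
  · rw [map_mul, map_natCast, norm_mul, norm_natCast_Qb, mul_comm]
    exact mul_le_mul_of_nonneg_left ((hx.2 g).trans (le_max_right _ _)) hd'

end Pool.Agent.MP_09973c_nt.H58
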