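import Pool.Agent.MP_09973c_nt.H58.DatKit

/-!
Interface statements: local analysis, degrees, determinant method.
-/

set_option autoImplicit false

namespace Pool.Agent.MP_09973c_nt.H58

open Polynomial Finset Filter Classical

/-! ### Local analysis -/

/-- `ζ i` approximates the ratio of the two chains at level `i`. -/
def Ratio {F : Type} [NormedField F] (p q n : ℕ) (C : ℝ) (x x' ζ : ℕ → F) : Prop :=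
  (∀ i ≤ n, ζ i ^ q ^ (i + 1) = 1) ∧ (∀ i < n, ζ (i + 1) ^ q = ζ i ^ p) ∧
    ∀ i ≤ n, ‖x' i - ζ i * x i‖ * ‖x i‖ ^ (q - 1) ≤ C

/-- Ratios of two large chains from the same point are close to roots of unity. -/
def W2Stmt : Prop :=
  ∀ (p q : ℕ) (Ca : ℝ), 2 ≤ p → p < q → p.Coprime q → ∃ A C : ℝ, 1 ≤ A ∧ 1 ≤ C ∧
    ∀ (F : Type) [NormedField F] [IsAlgClosed F] [CharZero F], GoodF F →
    ∀ (a b : F) (n : ℕ) (x x' : ℕ → F), ‖a‖ ≤ Ca → ‖b‖ ≤ Ca → Fwd p q a n x → Fwd p q b n x' →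
      x' 0 ^ q = x 0 ^ q → A ≤ lp (x n) → ∃ ζ : ℕ → F, Ratio p q n C x x' ζ

/-- The window lemma: a rotation at level `i` forces `b` to be close to `ζ (i-1) ^ p * a`. -/
def WdStmt : Prop :=
  ∀ (p q : ℕ) (Ca : ℝ), 2 ≤ p → p < q → p.Coprime q → ∃ A C : ℝ, 1 ≤ A ∧ 1 ≤ C ∧
    ∀ (F : Type) [NormedField F] [IsAlgClosed F] [CharZero F], GoodF F →
    ∀ (a b : F) (n : ℕ) (x x' : ℕ → F), ‖a‖ ≤ Ca → ‖b‖ ≤ Ca → Fwd p q a n x → Fwd p q b n x' →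
      x' 0 ^ q = x 0 ^ q → A ≤ lp (x n) → ∃ ζ : ℕ → F, Ratio p q n C x x' ζ ∧
      ∀ i, 1 ≤ i → i ≤ n → ∀ (z z' : ℕ → F) (ω ω' : F), Fwd p q a i z → Fwd p q b i z' →
        z' 0 ^ q = z 0 ^ q → ω ^ p = 1 → ω' ^ p = 1 → (ω ≠ 1 ∨ ω' ≠ 1) → z i = ω * x i →
        z' i = ω' * x' i → C * (i + 1) ≤ lp (x i) → ‖b - ζ (i - 1) ^ p * a‖ * ‖x i‖ ≤ C

/-- Equal moduli after a rotation force a direction. -/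
def QConStmt : Prop :=
  ∀ (p q : ℕ) (a : ℂ) (C₀ : ℝ), 2 ≤ p → p < q → p.Coprime q → a ≠ 0 →
    ∃ E : ℕ, 0 < E ∧ E.Coprime p ∧ ∃ C κ : ℝ, 0 < κ ∧ ∀ ω : ℂ, ω ^ p = 1 → ω ≠ 1 →
      ∃ φ : ℂ, ‖φ‖ = 1 ∧ ∀ t y w w' : ℂ, y ^ p + a = t ^ q → w ^ p + a = y ^ q →
        w' ^ p + a = (ω * y) ^ q → |‖w'‖ - ‖w‖| * ‖w‖ ^ (q - 1) ≤ C₀ → C ≤ lp t →
        ‖t ^ E - φ * (‖t ^ E‖ : ℝ)‖ ≤ C * ‖t ^ E‖ * Real.exp (-(κ * lp t))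

/-- Polynomial bound for the degree over the field of the entry points. -/
def DegStmt : Prop :=
  ∀ (p q : ℕ) (a b : Qb) (Ca : ℝ), 2 ≤ p → p < q → p.Coprime q → a ≠ 0 → b ≠ 0 → a ≠ b →
    ∃ A : ℝ, ∀ j₁ e : ℕ, ∃ C : ℕ,
    ∀ (F : Type) [NormedField F] [IsAlgClosed F] [CharZero F], GoodF F →
    ∀ ψ : Qb →+* F, LiP ψ → ‖ψ a‖ ≤ Ca → ‖ψ b‖ ≤ Ca →
    ∀ (D : Dat p q a) (D' : Dat p q b), D'.t D'.n ^ q = D.t D.n ^ q → j₁ ≤ D.n →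
      D.n ≤ D'.n + e → D'.n ≤ D.n + e → A ≤ lp (ψ (D.t j₁)) →
      (HL D D' 0).index ≤ (HC D D').index * (D.n + 2) ^ C

/-- Escape at a finite place forces ramification. -/
def NAStmt : Prop :=
  ∀ (p q : ℕ), 2 ≤ p → p < q → p.Coprime q → ∀ (l : ℕ) [Fact l.Prime]
    (ψ : Qb →+* PadicAlgCl l) (c : Qb) (s : ℕ) (z : ℕ → Qb) (H : Subgroup Gal),
    Bwd p q c s z → max 1 ‖ψ c‖ < ‖ψ (z 0)‖ ^ q → H.index ≠ 0 →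
    (∀ g ∈ H, g (z 0) = z 0 ∧ g (z s) = z s) →
    (p : ℝ) ^ s ≤ 2 * (H.index : ℝ) ^ 2 * lp (ψ (z 0))

/-- Bounded degree gives bounded denominators. -/
def DenStmt : Prop :=
  ∀ (p q : ℕ) (c : Qb) (I : ℕ), 2 ≤ p → p < q → p.Coprime q → ∃ d : ℕ, 0 < d ∧
    ∀ (D : Dat p q c) (H : Subgroup Gal), H.index ≠ 0 → H.index ≤ I →
      (∀ g ∈ H, ∀ j ≤ D.n, g (D.t j) = D.t j) → ∀ j ≤ D.n, IsIntegral ℤ ((d : Qb) * D.t j)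

/-- Roth's theorem in the form needed at the end. -/
def RothStmt : Prop :=
  ∀ (S : Finset Qb) (d M : ℕ) (C : ℝ) (U : Ultrafilter ℕ) (X X' : ℕ → Qb), 0 < d → 0 < M →
    (∀ᶠ ν in (U : Filter ℕ), (∀ g ∈ Fix ℚ (S : Set Qb), g (X ν) = X ν ∧ g (X' ν) = X' ν) ∧
      IsIntegral ℤ ((d : Qb) * X ν) ∧ IsIntegral ℤ ((d : Qb) * X' ν) ∧
      ∀ g : Gal, (‖g (X ν)‖ ≤ C ∧ ‖g (X' ν)‖ ≤ C) ∨
        ∃ ζ : Qb, ζ ^ M = 1 ∧ ‖g (X' ν) - ζ * g (X ν)‖ * ‖g (X ν)‖ ^ 2 ≤ C ∧ 1 ≤ ‖g (X ν)‖) →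
    Tendsto (fun ν => ‖X ν‖) U atTop →
    ∃ ζ : Qb, ζ ^ M = 1 ∧ ∀ᶠ ν in (U : Filter ℕ), X' ν = ζ * X ν

/-! ### Determinant method -/

/-- The determinant inequality. -/
def DetJStmt : Prop :=
  ∀ (P κ ι τ : Type) [Fintype κ] [DecidableEq κ] [Fintype ι] (S : Sys P κ ι) (Λ : κ → P)
    (f : τ → P → ℂ) (J : ℕ) (ε : ℝ), (∀ l, S.Ok (Λ l)) → 0 < ε →
    ε ≤ ‖(Matrix.of fun k l => S.e k (Λ l)).det‖ → 0 < J → (∀ t, S.Mul fun x => f t x ^ J) →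
    (((2 * Fintype.card κ).factorial : ℝ) * S.B ^ Fintype.card κ) ^ 2 ≤
      ε * Real.exp (J * Fintype.card κ) →
    EQ (Fintype.card ι) (fun t l => ‖f t (Λ l)‖) fun t l => ‖f t (S.R l)‖

/-- The determinant inequality for a Galois orbit. -/
def DetAStmt : Prop :=
  ∀ (P κ ι τ : Type) [Fintype κ] [DecidableEq κ] [Fintype ι] (S : Sys P κ ι) (G : Subgroup Gal)
    (pt : Gal → P) (E : κ → Qb) (d : ℕ) (H : ℝ) (g₀ : κ → Gal) (f : τ → P → ℂ) (J : ℕ),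
    G.index ≠ 0 → (∀ g ∈ G, S.Ok (pt g) ∧ ∀ k, S.e k (pt g) = (g (E k) : Qb)) →
    0 < d → 1 ≤ H → (∀ k, Sz (E k) d H) → (∀ l, g₀ l ∈ G) →
    (Matrix.of fun k l => g₀ l (E k)).det ≠ 0 → 0 < J → (∀ t, S.Mul fun x => f t x ^ J) →
    4 * Real.log (2 * Fintype.card κ) + 2 * Real.log S.B +
      G.index * (Real.log d + Real.log H + Real.log (Fintype.card κ)) ≤ J →
    ∃ g ∈ G, EQ (Fintype.card ι) (fun t l => ‖f t (pt (g * g₀ l))‖) fun t l => ‖f t (S.R l)‖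

/-- Product of two systems. -/
def ProdStmt : Prop :=
  ∀ (P κ ι P' κ' ι' : Type) [Fintype κ] [DecidableEq κ] [Fintype κ'] [DecidableEq κ']
    (S : Sys P κ ι) (S' : Sys P' κ' ι'), ∃ T : Sys (P × P') (κ × κ') (ι × ι'),
    (∀ x, T.Ok x ↔ S.Ok x.1 ∧ S'.Ok x.2) ∧ (∀ k x, T.e k x = S.e k.1 x.1 * S'.e k.2 x.2) ∧
    (∀ k, T.R k = (S.R k.1, S'.R k.2)) ∧ T.B = S.B * S'.B ∧
    ∀ (z : P → ℂ) (z' : P' → ℂ) (n : ℕ), (∀ i ≤ n, S.Mul fun x => z x ^ i) →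
      (∀ i ≤ n, S'.Mul fun x => z' x ^ i) → ∀ (J : ℕ) (l l' : Fin 3 → ℂ), 2 * J ≤ n →
      T.Mul fun x => ((∑ i, l i * ![1, z x.1, z' x.2] i) * ∑ i, l' i * ![1, z x.1, z' x.2] i) ^ J

/-- Evaluation of a polynomial in two variables: `z` inside, `θ` outside. -/
noncomputable def ev2 {A B : Type} [CommRing A] [CommRing B] (φ : A →+* B) (f : A[X][X])
    (z θ : B) : B := f.eval₂ (eval₂RingHom φ z) θ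

/-- Extension of a system by a root of a fixed separable monic polynomial. -/
def CompStmt : Prop :=
  ∀ (f : ℂ[X][X]) (ψ : Fin 3 → ℂ[X][X]) (C₀ : ℝ), f.Monic →
    (∃ A B : ℂ[X][X], ∃ r : ℂ[X], r ≠ 0 ∧ A * f + B * derivative f = C r) →
    ∃ (Bad : Finset ℂ) (w E : ℕ) (C₁ : ℝ), 1 ≤ C₁ ∧
    ∀ (P κ ι : Type) [Fintype κ] [DecidableEq κ] (S : Sys P κ ι) (z : P → ℂ) (η : ℝ)
      (rt : κ → Fin f.natDegree → ℂ), 0 < η → η ≤ 1 → (∀ x, S.Ok x → ‖z x‖ ≤ C₀) →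
      (∀ r, ∀ β ∈ Bad, η ≤ ‖z (S.R r) - β‖) →
      (∀ r, f.map (evalRingHom (z (S.R r))) = ∏ j, (X - C (rt r j))) →
      ∃ T : Sys (P × ℂ) (κ × Fin f.natDegree) (ι × Fin f.natDegree),
        (∀ x, T.Ok x ↔ S.Ok x.1 ∧ ev2 (RingHom.id ℂ) f (z x.1) x.2 = 0) ∧
        (∀ k x, T.e k x = S.e k.1 x.1 * x.2 ^ (k.2 : ℕ)) ∧
        (∀ k, T.R k = (S.R k.1, rt k.1 k.2)) ∧ T.B = S.B * (C₁ / η ^ E) ∧
        ∀ (n J : ℕ), (∀ i ≤ n, S.Mul fun x => z x ^ i) → w * (J + 1) ≤ n →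
          ∀ l l' : Fin 3 → ℂ, T.Mul fun x =>
            ((∑ i, l i * ev2 (RingHom.id ℂ) (ψ i) (z x.1) x.2) *
              ∑ i, l' i * ev2 (RingHom.id ℂ) (ψ i) (z x.1) x.2) ^ J

/-- The system of monomials in a chain with a tail, with all parameters chosen. -/
def SPStmt : Prop :=
  ∀ (p q : ℕ) (C₀ : ℝ), 2 ≤ p → p < q → p.Coprime q → ∃ C : ℕ,
    ∀ j₀ nb w K Y : ℕ, 0 < w → 0 < K → 0 < Y → ∃ m₀ : ℕ, j₀ ≤ m₀ ∧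
      2 ^ m₀ ≤ (2 ^ (j₀ + nb + 1) * w * K * Y) ^ C ∧ ∀ m, m₀ ≤ m → ∃ T T' J : ℕ, 0 < T ∧
      T ≤ q ^ m ∧ ∀ (a ξ : ℂ) (j : ℕ) (Bad : Finset ℂ), 2 + ‖a‖ ≤ C₀ → ξ ^ p = 1 → j ≤ j₀ →
      Bad.card ≤ nb →
      ∃ S : Sys ((ℕ → ℂ) × (ℕ → ℂ)) (PK p q j m T) (PK p q j m T'),
        (∀ x, S.Ok x ↔ OkP p q a ξ C₀ j m x) ∧ (∀ k x, S.e k x = mono k x.1 x.2) ∧
        Grid p q a ξ C₀ j m S.R ∧
        (K : ℝ) * (Real.log (Fintype.card (PK p q j m T)) + 4) *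
          ((Fintype.card (PK p q j m T) : ℝ) - Fintype.card (PK p q j m T')) ≤
            Fintype.card (PK p q j m T) ∧
        (Y : ℝ) * (Real.log S.B + Real.log (Fintype.card (PK p q j m T)) + T + m + 1) ≤ J ∧
        (∀ n ≤ w * J, S.Mul fun x => x.2 j ^ n) ∧
        ∃ η : ℝ, 0 < η ∧ η ≤ 1 ∧ (Y : ℝ) * Real.log η⁻¹ ≤ J ∧
          ∀ r, ∀ β ∈ Bad, η ≤ ‖(S.R r).1 0 - β‖

/-- Zero estimate for the monomials. -/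
def ZBStmt : Prop :=
  ∀ (p q : ℕ) (a : ℂ), 2 ≤ p → p < q → p.Coprime q → a ≠ 0 → ∀ (j m T : ℕ) (ξ : ℂ),
    ξ ^ p = 1 → ξ ≠ 1 → ∀ c : PK p q j m T → ℂ, c ≠ 0 → ∃ Z : Finset ℂ,
      Z.card ≤ (T + 1) * q ^ (4 * (m + j + 1)) ∧ ∀ u t : ℕ → ℂ, Bwd p q a m u → t 0 = ξ * u 0 →
        Bwd p q a j t → ∑ k, c k * mono k u t = 0 → u 0 ∈ Z

/-- Equidistribution for large orbits of a small chain with a tail. -/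
def DPStmt : Prop :=
  ∀ (p q : ℕ) (a : Qb) (G : Subgroup Gal) (C₀ : ℝ) (d : ℕ), 2 ≤ p → p < q → p.Coprime q →
    a ≠ 0 → G.index ≠ 0 → G ≤ GK p q a a → 2 + ‖a‖ ≤ C₀ → 0 < d → IsIntegral ℤ ((d : Qb) * a) →
    ∃ C : ℕ, ∀ j w K m₁ : ℕ, 0 < w → 0 < K → ∃ m : ℕ, m₁ ≤ m ∧
      ∀ (ξ : Qb) (u t : ℕ → Qb), ξ ^ p = 1 → ξ ≠ 1 → Bwd p q a m u →
        (∀ i ≤ m, Sz (u i) d C₀) → t 0 = ξ * u 0 → Bwd p q a j t →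
        (2 ^ (j + m₁ + 1) * w * K) ^ C < (orb G (u 0)).ncard →
        ∃ (N N' : ℕ) (R : Fin N → (ℕ → ℂ) × (ℕ → ℂ)) (g : Fin N → Gal), K ≤ N ∧
          N ≤ (2 ^ (j + m₁ + 1) * w * K) ^ C ∧ Grid p q a ξ C₀ j m R ∧ (∀ l, g l ∈ G) ∧
          Function.Injective (fun l => g l (u 0)) ∧
          (K : ℝ) * (Real.log N + 4) * ((N : ℝ) - N') ≤ N ∧
          EQp N' w (fun l => (g l (t j) : Qb)) fun l => (R l).2 j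

/-- Large values on the grid give large values on the orbit. -/
def LargeStmt : Prop :=
  ∀ (κ : Type) [Fintype κ] (N' E K : ℕ) (x y : κ → ℂ) (ρ₁ ρ₂ Mx : ℝ), EQp N' E x y →
    0 ≤ ρ₁ → 1 ≤ Mx → (∀ l, lp (x l) ≤ Mx) → 8 * (K : ℝ) ≤ E * (ρ₂ - ρ₁) →
    Fintype.card κ ≤ K * (univ.filter fun l => ρ₂ ≤ lp (y l)).card →
    2 * (K : ℝ) * ((Fintype.card κ : ℝ) - N') ≤ Fintype.card κ →
    (Fintype.card κ : ℝ) ≤ E * Mx * (univ.filter fun l => ρ₁ < lp (x l)).card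

/-- Matching sizes on the orbit exclude mismatching sizes on the grid. -/
def SizeStmt : Prop :=
  ∀ (κ : Type) [Fintype κ] [Nonempty κ] (N' K : ℕ) (x y : κ → Fin 3 → ℂ) (C₁ A : ℝ),
    EQq N' x y → (∀ l, x l 0 ≠ 0) → (∀ l, y l 0 ≠ 0) →
    (∀ l, |lp (x l 1 / x l 0) - lp (x l 2 / x l 0)| ≤ C₁) →
    Fintype.card κ ≤ K * (univ.filter fun l =>
      A ≤ |lp (y l 1 / y l 0) - lp (y l 2 / y l 0)|).card →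
    2 * (K : ℝ) * ((Fintype.card κ : ℝ) - N') ≤ Fintype.card κ → A ≤ 2 * K * (C₁ + 6)

/-- Greedy escape. -/
def EAStmt : Prop :=
  ∀ (p q : ℕ) (a : ℂ), 2 ≤ p → p < q → p.Coprime q → a ≠ 0 → ∃ δ : ℝ, 0 < δ ∧ ∃ m₁ : ℕ,
    ∀ m, m₁ ≤ m → ∀ (ξ x : ℂ) (j : ℕ), ξ ^ p = 1 → ξ ≠ 1 → ∃ u t : ℕ → ℂ, Bwd p q a m u ∧
      u m = x ∧ t 0 = ξ * u 0 ∧ Bwd p q a j t ∧ δ * ((q : ℝ) / p) ^ j ≤ lp (t j)

/-- Anticoncentration of the escape rate. -/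
def ACStmt : Prop :=
  ∀ (p q : ℕ) (a : ℂ), 2 ≤ p → p < q → p.Coprime q → a ≠ 0 → ∃ A₀ : ℝ, ∀ W A : ℝ, ∃ J₁ : ℕ,
    ∀ J, J₁ ≤ J → ∀ (w : ℂ) (s : ℝ), A₀ ≤ lp w → lp w ≤ W → ∃ w₁ w₂ : ℂ, w₁ ^ p + a = w ^ q ∧
      w₂ ^ p + a = w₁ ^ q ∧ ∀ z : ℕ → ℂ, z 0 = w₂ → Bwd p q a J z → A ≤ |lp (z J) - s|

/-- Many conjugates escape. -/
def ESCStmt : Prop :=
  ∀ (p q : ℕ) (a : Qb) (G : Subgroup Gal), 2 ≤ p → p < q → p.Coprime q → a ≠ 0 →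
    G.index ≠ 0 → G ≤ GK p q a a → ∃ δ : ℝ, 0 < δ ∧ ∀ (C₀ : ℝ) (d j W : ℕ), 0 < d →
      ∃ m C₁ : ℕ, ∀ (ξ : Qb) (u t : ℕ → Qb), ξ ^ p = 1 → ξ ≠ 1 → Bwd p q a m u →
        (∀ i ≤ m, Sz (u i) d C₀) → t 0 = ξ * u 0 → Bwd p q a j t →
        C₁ < (orb G (u 0)).ncard → ∃ g : Fin W → Gal, (∀ l, g l ∈ G) ∧
          Function.Injective (fun l => g l (u 0)) ∧
          ∀ l, δ * ((q : ℝ) / p) ^ j ≤ lp (g l (t j))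

/-- Finitely many points have two everywhere small backward chains. -/
def FinFStmt : Prop :=
  ∀ (p q : ℕ) (a : Qb) (C₀ : ℝ) (d : ℕ), 2 ≤ p → p < q → p.Coprime q → a ≠ 0 → 0 < d →
    ∃ m : ℕ, {x : Qb | ∃ (ξ : Qb) (u t : ℕ → Qb), ξ ^ p = 1 ∧ ξ ≠ 1 ∧ u 0 = x ∧ t 0 = ξ * x ∧
      Bwd p q a m u ∧ Bwd p q a m t ∧ ∀ i ≤ m, Sz (u i) d C₀ ∧ Sz (t i) d C₀}.Finite

/-- Uniform escape at some place. -/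
def UStmt : Prop :=
  ∀ (p q : ℕ) (a : Qb) (A : ℝ), 2 ≤ p → p < q → p.Coprime q → a ≠ 0 → ∃ j₁ : ℕ,
    ∀ D : Dat p q a, j₁ ≤ D.n → (∃ g : Gal, A ≤ lp (g (D.t j₁))) ∨
      ∃ (l : ℕ) (_ : Fact l.Prime) (ψ : Qb →+* PadicAlgCl l), A ≤ lp (ψ (D.t j₁))

/-- A fixed direction at depth `i` bounds the orbit of the entry point. -/
def QStmt : Prop :=
  ∀ (p q : ℕ) (a : Qb) (G : Subgroup Gal) (E : ℕ) (C κ : ℝ), 2 ≤ p → p < q → p.Coprime q →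
    a ≠ 0 → G.index ≠ 0 → G ≤ GK p q a a → 0 < E → E.Coprime p → 0 < κ → ∃ C' i₀ : ℕ,
    ∀ (D : Dat p q a) (i : ℕ) (φ : ℂ), i₀ ≤ i → i ≤ D.n → ‖φ‖ = 1 →
      (∀ g ∈ G, C ≤ lp (g (D.t i)) →
        ‖((g (D.t i) : Qb) : ℂ) ^ E - φ * (‖((g (D.t i) : Qb) : ℂ) ^ E‖ : ℝ)‖ ≤
          C * ‖((g (D.t i) : Qb) : ℂ) ^ E‖ * Real.exp (-(κ * lp (g (D.t i))))) →
      (orb G (D.u 0)).ncard ≤ C' ^ (i + 1)

/-- Selection of conjugates with nonzero determinant along an ultrafilter. -/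
def SelGStmt : Prop :=
  ∀ (κ : Type) [Fintype κ] [DecidableEq κ] (G : Subgroup Gal) (d : ℕ) (H : ℝ) (U : Ultrafilter ℕ)
    (E : ℕ → κ → Qb), G.index ≠ 0 → 0 < d → (∀ᶠ ν in (U : Filter ℕ), ∀ k, Sz (E ν k) d H) →
    (∀ c : κ → Qb, c ≠ 0 → ∀ᶠ ν in (U : Filter ℕ), ∑ k, c k * E ν k ≠ 0) →
    ∀ᶠ ν in (U : Filter ℕ), ∃ g : κ → Gal, (∀ l, g l ∈ G) ∧
      (Matrix.of fun k l => g l (E ν k)).det ≠ 0

/-- The size at depth `j` is not constant on a large orbit. -/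
def SzHStmt : Prop :=
  ∀ (p q : ℕ) (a : Qb) (C₁ : ℝ), 2 ≤ p → p < q → p.Coprime q → a ≠ 0 → ∃ j₀ : ℕ,
    ∀ j, j₀ ≤ j → ∀ G : Subgroup Gal, G.index ≠ 0 → G ≤ GK p q a a → ∃ W : ℕ,
      ∀ (D : Dat p q a) (s : ℝ), j ≤ D.n → (∀ g ∈ G, |lp (g (D.t j)) - s| ≤ C₁) →
        (orb G (D.u 0)).ncard ≤ W

/-- Two sequences of data with long tails and matching sizes. -/
structure Match {p q : ℕ} {a b : Qb} (U : Ultrafilter ℕ) (D : ℕ → Dat p q a) (D' : ℕ → Dat p q b)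
    (o o' : ℕ) (C₁ : ℝ) : Prop where
  long : ∀ J, ∀ᶠ ν in (U : Filter ℕ), J ≤ (D ν).n ∧ J ≤ (D' ν).n
  size : ∀ j, ∀ᶠ ν in (U : Filter ℕ), ∀ g : Gal,
    |lp (g ((D ν).t (j + o))) - lp (g ((D' ν).t (j + o')))| ≤ C₁

/-- Algebraically independent entry points. -/
def Sz2Stmt : Prop :=
  ∀ (p q : ℕ) (a b : Qb), 2 ≤ p → p < q → p.Coprime q → a ≠ 0 → b ≠ 0 →
    ∀ (U : Ultrafilter ℕ) (D : ℕ → Dat p q a) (D' : ℕ → Dat p q b) (o o' : ℕ) (C₁ : ℝ),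
      Match U D D' o o' C₁ →
      (∀ (m : ℕ) (P : Qb[X][X]), P ≠ 0 → ∀ᶠ ν in (U : Filter ℕ),
        ev2 (RingHom.id Qb) P ((D ν).u m) ((D' ν).u m) ≠ 0) → False

/-- Entry points on a curve with independent towers. -/
def Sz1Stmt : Prop :=
  ∀ (p q : ℕ) (a b : Qb), 2 ≤ p → p < q → p.Coprime q → a ≠ 0 → b ≠ 0 → ∃ J₁ : ℕ,
    ∀ (U : Ultrafilter ℕ) (D : ℕ → Dat p q a) (D' : ℕ → Dat p q b) (o o' : ℕ) (C₁ : ℝ),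
      Match U D D' o o' C₁ → ∀ (Ω : Type) [Field Ω] [IsAlgClosed Ω] [Algebra Qb Ω]
        (ev : Ω →+* Germ (U : Filter ℕ) Qb) (uu tt tt' : ℕ → Ω) (J₀ : ℕ), J₁ ≤ J₀ →
        (∀ c : Qb, ev (algebraMap Qb Ω c) = ((fun _ => c : ℕ → Qb) : Germ (U : Filter ℕ) Qb)) →
        (∀ i, ev (uu i) = ((fun ν => (D ν).u i : ℕ → Qb) : Germ (U : Filter ℕ) Qb)) →
        (∀ i, ev (tt i) = ((fun ν => (D ν).t i : ℕ → Qb) : Germ (U : Filter ℕ) Qb)) →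
        (∀ i, ev (tt' i) = ((fun ν => (D' ν).t i : ℕ → Qb) : Germ (U : Filter ℕ) Qb)) →
        Transcendental Qb (uu 0) →
        Algebra.IsAlgebraic (IntermediateField.adjoin Qb {uu 0}) Ω →
        (∀ J i, J₀ ≤ i → PowInd Qb (uu '' Set.Iic i ∪ tt '' Set.Iic J ∪ tt' '' Set.Iic J)
          (uu (i + 1)) p) →
        (∀ J i, J₀ ≤ i → PowInd Qb (uu '' Set.Iic J₀ ∪ tt '' Set.Iic i ∪ tt' '' Set.Iic J)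
          (tt (i + 1)) p) → False

/-- Varying entry points force the two tails to merge at arbitrarily large depths. -/
def IPStmt : Prop :=
  ∀ (p q : ℕ) (a b : Qb), 2 ≤ p → p < q → p.Coprime q → a ≠ 0 → b ≠ 0 →
    ∀ (U : Ultrafilter ℕ) (D : ℕ → Dat p q a) (D' : ℕ → Dat p q b) (o o' : ℕ) (C₁ : ℝ),
      Match U D D' o o' C₁ → (∀ x, ∀ᶠ ν in (U : Filter ℕ), (D ν).u 0 ≠ x) →
      ∀ α : ℕ, ∃ j, α ≤ j ∧ ∃ μ : Qb, μ ^ p * a = b ∧ μ ^ q * a = b ∧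
        ∀ᶠ ν in (U : Filter ℕ), (D' ν).t (j + o') = μ * (D ν).t (j + o)

/-! ### Trees -/

def MFwdStmt : Prop :=
  ∀ (p q : ℕ) (a : Qb), 2 ≤ p → p < q → p.Coprime q → a ≠ 0 → ∃ (C ρ : ℝ) (C' : ℕ),
    1 ≤ C ∧ 0 < ρ ∧ ρ < 1 ∧ ∀ J, MHyp q p a C ρ ((J + 2) ^ C') J

def MBwdStmt : Prop :=
  ∀ (p q : ℕ) (a : Qb), 2 ≤ p → p < q → p.Coprime q → a ≠ 0 → ∃ C ρ : ℝ,
    1 ≤ C ∧ 0 < ρ ∧ ρ < 1 ∧ ∀ J, MHyp p q (-a) C ρ 1 J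

end Pool.Agent.MP_09973c_nt.H58
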