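import Pool.Agent.MP_09973c_nt.H58.PKit

/-!
Interface statements: independence of radical towers over a curve.
-/

set_option autoImplicit false

namespace Pool.Agent.MP_09973c_nt.H58

open Polynomial Finset IntermediateField Classical

section Defs

variable (k : Type) {Ω : Type} [Field k] [Field Ω] [Algebra k Ω]

/-- A tower of radicals over a base point `b ∈ S₀`. -/
structure Tw (r s J : ℕ) (S₀ : Set Ω) where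
  c : k
  κ : k
  b : Ω
  w : ℕ → Ω
  hc : c ≠ 0
  hκ : κ ≠ 0
  hb : b ∈ S₀
  h0 : w 0 = algebraMap k Ω κ * b
  hw : ∀ i < J, w (i + 1) ^ r = w i ^ s + algebraMap k Ω c

/-- Degree of the field generated by two towers up to levels `i` and `j`. -/
noncomputable def dl (S₀ : Set Ω) (w w' : ℕ → Ω) (i j : ℕ) : ℕ :=
  (Fix k (S₀ ∪ lv w i ∪ lv w' j)).relIndex (Fix k S₀)

/-- One place above each point of the `b`-line. -/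
def Fam (b : Ω) (P : Option k → Plc k Ω) : Prop :=
  (P none).ord b = -1 ∧ ∀ β : k, (P (some β)).ord (b - algebraMap k Ω β) = 1

/-- The geometry of the base curve. -/
structure Bs (S₀ : Set Ω) (Δ : ℕ) : Prop where
  one : 1 ≤ Δ
  fin : S₀.Finite
  tr : ∀ b ∈ S₀, Transcendental k b ∧ Algebra.IsAlgebraic (adjoin k {b}) Ω
  deg : ∀ b ∈ S₀, (Fix k S₀).relIndex (Fix k {b}) ≠ 0 ∧ (Fix k S₀).relIndex (Fix k {b}) ≤ Δ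
  good : ∀ b ∈ S₀, ∃ Bad : Finset k, Bad.card ≤ 8 * Δ ^ 2 ∧ ∀ β ∉ Bad, ∀ P : Plc k Ω,
    P.ord (b - algebraMap k Ω β) = 1 → β ≠ 0 ∧ P.VG S₀ 1 ∧ ∀ b' ∈ S₀, P.Loc b'
  part : ∀ b ∈ S₀, ∀ b' ∈ S₀, ∀ β' : k, ∃ Z : Finset k, Z.card ≤ Δ ∧
    ∀ (β : k) (P : Plc k Ω), P.Red b β → P.Red b' β' → β ∈ Z
  pole : ∃ π : Ω → ℝ, (∀ b ∈ S₀, 0 < π b) ∧ ∀ b ∈ S₀, ∀ b' ∈ S₀, ∀ P : Option k → Plc k Ω,
    Fam k b P → ∀ (S : Subgroup (Ω ≃ₐ[k] Ω)) (n : ℕ) (γ : Fin n → Ω ≃ₐ[k] Ω), S ≤ Fix k S₀ →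
    IsAvg (Fix k {b}) S γ → ∀ B : Finset (Option k),
      π b * ∑ β ∈ B, ∑ i, max (-(P β).ord (γ i b')) 0 ≤ n * π b'
  vg : ∀ b ∈ S₀, ∀ P : Plc k Ω, P.ord b = -1 → ∃ e : ℕ, 1 ≤ e ∧ e ≤ Δ ∧ P.VG S₀ (1 / e) ∧
    (∃ x ∈ adjoin k S₀, x ≠ 0 ∧ P.ord x = 1 / e) ∧ ∀ b' ∈ S₀, -P.ord b' ≤ Δ

end Defs

/-- Existence of places. -/
def PlcExStmt : Prop :=
  ∀ (k Ω : Type) [Field k] [IsAlgClosed k] [CharZero k] [Field Ω] [IsAlgClosed Ω] [Algebra k Ω]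
    (b : Ω), Transcendental k b → Algebra.IsAlgebraic (adjoin k {b}) Ω →
    ∃ P : Option k → Plc k Ω, Fam k b P

/-- Orders of rational functions; product formula; Hensel's lemma. -/
def PFStmt : Prop :=
  ∀ (k Ω : Type) [Field k] [IsAlgClosed k] [CharZero k] [Field Ω] [IsAlgClosed Ω] [Algebra k Ω],
    (∀ (P : Plc k Ω) (b : Ω) (β : k), P.ord (b - algebraMap k Ω β) = 1 → P.VG {b} 1 ∧
      ∀ f : k[X], f ≠ 0 → P.ord (aeval b f) = f.rootMultiplicity β) ∧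
    (∀ (P : Plc k Ω) (b : Ω), P.ord b = -1 → P.VG {b} 1 ∧
      ∀ f : k[X], f ≠ 0 → P.ord (aeval b f) = -f.natDegree) ∧
    (∀ (b : Ω) (P : Option k → Plc k Ω), Fam k b P → Algebra.IsAlgebraic (adjoin k {b}) Ω →
      ∀ (S : Subgroup (Ω ≃ₐ[k] Ω)) (n : ℕ) (γ : Fin n → Ω ≃ₐ[k] Ω), IsAvg (Fix k {b}) S γ →
      ∀ x : Ω, x ≠ 0 → (∀ g ∈ S, g x = x) → ∀ B : Finset (Option k), ∃ B', B ⊆ B' ∧
        ∑ β ∈ B', ∑ i, (P β).ord (γ i x) = 0) ∧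
    ∀ (P : Plc k Ω) (S : Set Ω) (g : ℝ) (f : Polynomial Ω) (z : Ω), P.VG S g →
      (∀ i, f.coeff i ∈ adjoin k S ∧ P.ν (f.coeff i) ≤ 1) → P.ν z ≤ 1 → f.eval z = 0 →
      P.ν (f.derivative.eval z) = 1 → P.VG (insert z S) g

/-- The base curve. -/
def BCStmt : Prop :=
  ∀ (k Ω : Type) [Field k] [IsAlgClosed k] [CharZero k] [Field Ω] [IsAlgClosed Ω] [Algebra k Ω]
    (u v : Ω) (R : k[X][X]) (Δ : ℕ), Transcendental k u → Transcendental k v →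
    Algebra.IsAlgebraic (adjoin k {u}) Ω → R ≠ 0 → 1 ≤ Δ → R.natDegree ≤ Δ →
    (∀ i, (R.coeff i).natDegree ≤ Δ) → ev2 (algebraMap k Ω) R u v = 0 → Bs k {u, v} Δ

/-- Local structure of towers at a good place. -/
def TowStmt : Prop :=
  ∀ (k Ω : Type) [Field k] [IsAlgClosed k] [CharZero k] [Field Ω] [IsAlgClosed Ω] [Algebra k Ω]
    (r s J : ℕ) (S₀ : Set Ω) (P : Plc k Ω), 2 ≤ r → 2 ≤ s → r.Coprime s →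
    (∀ T : Tw k r s J S₀, P.Loc T.b → ∀ i ≤ J, P.ν (T.w i) ≤ 1 ∧ ∀ β : k, P.Red (T.w i) β →
      P.ord (T.w i - algebraMap k Ω β) =
        ((s : ℝ) / r) ^ P.nz T.w i / if β = 0 then (s : ℝ) else 1) ∧
    ∀ (I : Type) [Fintype I] (T : I → Tw k r s J S₀) (A : Set I) (j : I → ℕ) (m : I),
      P.VG S₀ 1 → (∀ m', P.Loc (T m').b) → (∀ m' ∈ A, j m' ≤ J) → j m < J →
      (∀ m' ∈ A, P.nz (T m').w (j m') ≤ P.nz (T m).w (j m)) → P.ν ((T m).w (j m + 1)) < 1 →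
      PowInd k (S₀ ∪ ⋃ m' ∈ A, lv (T m').w (j m')) ((T m).w (j m + 1)) r

/-- Elementary properties of the degree table. -/
structure DTab (r J : ℕ) (δ : ℕ → ℕ → ℕ) : Prop where
  pos : ∀ i ≤ J, ∀ j ≤ J, 0 < δ i j
  mono : ∀ i i' j j', i ≤ i' → i' ≤ J → j ≤ j' → j' ≤ J → δ i j ≤ δ i' j'
  le1 : ∀ i < J, ∀ j ≤ J, δ (i + 1) j ≤ r * δ i j
  le2 : ∀ i ≤ J, ∀ j < J, δ i (j + 1) ≤ r * δ i j
  an1 : ∀ i < J, ∀ j j', j ≤ j' → j' ≤ J → δ (i + 1) j' = r * δ i j' → δ (i + 1) j = r * δ i j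
  an2 : ∀ j < J, ∀ i i', i ≤ i' → i' ≤ J → δ i' (j + 1) = r * δ i' j → δ i (j + 1) = r * δ i j

/-- The degree table of two towers. -/
def DLStmt : Prop :=
  ∀ (k Ω : Type) [Field k] [IsAlgClosed k] [CharZero k] [Field Ω] [IsAlgClosed Ω] [Algebra k Ω]
    (r s J Δ : ℕ) (S₀ : Set Ω) (A B : Tw k r s J S₀), 2 ≤ r → 2 ≤ s → r.Coprime s → Bs k S₀ Δ →
    DTab r J (dl k S₀ A.w B.w) ∧ (∀ i j, dl k S₀ A.w B.w i j = dl k S₀ B.w A.w j i) ∧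
    (∀ P : Plc k Ω, P.VG S₀ 1 → P.Loc A.b → P.Loc B.b → ∀ i < J, ∀ j ≤ J,
      P.nz B.w j ≤ P.nz A.w i → P.ν (A.w (i + 1)) < 1 →
      dl k S₀ A.w B.w (i + 1) j = r * dl k S₀ A.w B.w i j) ∧
    ∀ i < J, PowInd k ({A.b} ∪ lv A.w i) (A.w (i + 1)) r

/-- Ramification at the poles. -/
def PoleStmt : Prop :=
  ∀ (k Ω : Type) [Field k] [IsAlgClosed k] [CharZero k] [Field Ω] [IsAlgClosed Ω] [Algebra k Ω]
    (r s J Δ : ℕ) (S₀ : Set Ω) (A B : Tw k r s J S₀), 2 ≤ r → 2 ≤ s → r.Coprime s → Bs k S₀ Δ →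
    (∀ i ≤ J, r ^ i ≤ Δ * dl k S₀ A.w B.w i 0) ∧
    (((∃ P : Plc k Ω, P.ord A.b < 0 ∧ P.ord B.b < 0) ∧ ∀ i < J, ∀ j < J, Δ ^ 2 < 2 ^ i →
        Δ ^ 2 < 2 ^ j → r * dl k S₀ A.w B.w i j ≤ dl k S₀ A.w B.w (i + 1) (j + 1)) ∨
      ∀ i ≤ J, ∀ j ≤ J, r ^ (i + j) ≤ Δ ^ 2 * r ^ ((j + 1) / 2) * dl k S₀ A.w B.w i j)

/-- Counting conjugates with prescribed residues. -/
def CntStmt : Prop :=
  ∀ (k Ω : Type) [Field k] [IsAlgClosed k] [CharZero k] [Field Ω] [IsAlgClosed Ω] [Algebra k Ω]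
    (r s J Δ : ℕ) (S₀ : Set Ω) (A : Tw k r s J S₀), 2 ≤ r → 2 ≤ s → r.Coprime s → Bs k S₀ Δ →
    ∀ (P : Plc k Ω) (S : Subgroup (Ω ≃ₐ[k] Ω)) (n : ℕ) (γ : Fin n → Ω ≃ₐ[k] Ω),
    IsAvg (Fix k {A.b}) S γ → ∀ i ≤ J, ∀ β : ℕ → k,
    (S ≤ Fix k ({A.b} ∪ lv A.w i) → P.Red (A.w 0) (β 0) →
      (∀ l < i, β (l + 1) ^ r = β l ^ s + A.c) →
      n * r ^ ((Icc 1 i).filter fun l => β l = 0).card ≤
        (univ.filter fun x => ∀ l ≤ i, P.Red (γ x (A.w l)) (β l)).card * r ^ i) ∧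
    ∀ (B : Tw k r s J S₀), ∀ j ≤ J, ∀ β' : ℕ → k, S ≤ Fix k (S₀ ∪ lv A.w i ∪ lv B.w j) →
      (univ.filter fun x => (∀ l ≤ i, P.Red (γ x (A.w l)) (β l)) ∧
          ∀ l ≤ j, P.Red (γ x (B.w l)) (β' l)).card * dl k S₀ A.w B.w i j ≤
        n * r ^ (((Icc 1 i).filter fun l => β l = 0).card +
          ((Icc 1 j).filter fun l => β' l = 0).card)

/-- Existence of a good place at which one tower has its first zero at level `i`. -/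
def GPStmt : Prop :=
  ∀ (r s : ℕ) (C ρ : ℝ), 2 ≤ r → 2 ≤ s → r.Coprime s → 1 ≤ C → 0 < ρ → ρ < 1 → ∃ K : ℕ,
    ∀ (k Ω : Type) [Field k] [IsAlgClosed k] [CharZero k] [Field Ω] [IsAlgClosed Ω] [Algebra k Ω]
      (J ℓ Pm E W : ℕ) (S₀ : Set Ω), Bs k S₀ (2 ^ ℓ) → Pm ≤ 2 ^ ℓ → K * (ℓ + 1) ≤ E →
      E * 2 ^ (K * (ℓ + 1)) ≤ W → ∀ (I : Type) [Fintype I] (T : I → Tw k r s J S₀),
      Fintype.card I ≤ 4 → ∀ (m : I) (i : ℕ) (A : Set I), MHyp r s (T m).c C ρ Pm J → E ≤ i →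
      i ≤ J → (∀ m' ∈ A, ∀ j, j ≤ i → i ≤ j + E → W * r ^ i ≤ dl k S₀ (T m).w (T m').w i j) →
      ∃ P : Plc k Ω, P.VG S₀ 1 ∧ (∀ b ∈ S₀, P.Loc b) ∧ P.nz (T m).w (i - 1) = 0 ∧
        P.ν ((T m).w i) < 1 ∧ (∀ m', P.nz (T m').w (i - E) = 0) ∧ ∀ m' ∈ A, P.nz (T m').w i = 0

/-- Row `l` of the degree table has a cell of full degree in the band of width `E`. -/
def Exc (r E : ℕ) (δ : ℕ → ℕ → ℕ) (l : ℕ) : Prop :=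
  ∃ j, j ≤ l + E ∧ l ≤ j + E ∧ δ (l + 1) (j + 1) = r ^ 2 * δ l j

/-- Few exceptional rows. -/
def Pat1Stmt : Prop :=
  ∀ (r J E L x i j : ℕ) (δ : ℕ → ℕ → ℕ) (Δ W : ℕ), 2 ≤ r → DTab r J δ →
    (∀ l ≤ J, r ^ l ≤ Δ * δ l 0) →
    (∀ l < J, ∀ l' < J, L ≤ l → L ≤ l' → r * δ l l' ≤ δ (l + 1) (l' + 1)) →
    i ≤ J → j ≤ i → i ≤ j + E → δ i j < W * r ^ i → W * Δ ≤ 2 ^ x →
    ((range (i - 2 * E)).filter fun l => L + E ≤ l ∧ Exc r E δ l).card ≤ (2 * E + 1) * (x + 2 * E)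

/-- In a window without exceptional rows the two towers are matched with a constant offset. -/
def Pat2Stmt : Prop :=
  ∀ (r J E l₀ N : ℕ) (δ : ℕ → ℕ → ℕ), 2 ≤ r → 1 ≤ E → DTab r J δ → E ≤ l₀ →
    l₀ + N + E < J → 4 * E ≤ N → (∀ l, l₀ ≤ l → l ≤ l₀ + N → ¬ Exc r E δ l) →
    (∀ l, l₀ ≤ l → l < J → δ (l + 1) J = r * δ l J ∨ ∃ j < J, l < j + E ∧
      δ (l + 1) j = r * δ l j ∧ δ l (j + 1) = r * δ l j) →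
    (∀ j, l₀ ≤ j → j < J → δ J (j + 1) = r * δ J j ∨ ∃ l < J, j < l + E ∧
      δ (l + 1) j = r * δ l j ∧ δ l (j + 1) = r * δ l j) →
    ∃ j₁, j₁ ≤ l₀ + 3 * E ∧ l₀ + E ≤ j₁ ∧ ∀ t, t + 4 * E ≤ N →
      δ (l₀ + 2 * E + t + 1) (j₁ + t + 1) ≠ r * δ (l₀ + 2 * E + t) (j₁ + t + 1) ∧
      δ (l₀ + 2 * E + t + 1) (j₁ + t + 1) ≠ r * δ (l₀ + 2 * E + t + 1) (j₁ + t)

/-- From independence level by level to full independence. -/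
def StrongStmt : Prop :=
  ∀ (k Ω : Type) [Field k] [IsAlgClosed k] [CharZero k] [Field Ω] [IsAlgClosed Ω] [Algebra k Ω]
    (r s J J₀ Δ : ℕ) (S₀ : Set Ω), 2 ≤ r → Bs k S₀ Δ →
    ∀ (I : Type) [Fintype I] (T : I → Tw k r s J S₀) (A : Set I),
    (∀ m ∈ A, ∀ i, J₀ ≤ i → i < J → PowInd k
      (S₀ ∪ lv (T m).w i ∪ ⋃ m' ∈ A \ {m}, lv (T m').w (i + 1)) ((T m).w (i + 1)) r) →
    ∀ m ∈ A, ∀ i, J₀ ≤ i → i < J → PowInd k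
      (S₀ ∪ lv (T m).w i ∪ ⋃ m' ∈ A \ {m}, lv (T m').w J) ((T m).w (i + 1)) r

/-- Matched towers are proportional. -/
def MergeStmt : Prop :=
  ∀ (r s : ℕ) (C ρ : ℝ), 2 ≤ r → 2 ≤ s → r.Coprime s → 1 ≤ C → 0 < ρ → ρ < 1 → ∃ K : ℕ,
    ∀ (k Ω : Type) [Field k] [IsAlgClosed k] [CharZero k] [Field Ω] [IsAlgClosed Ω] [Algebra k Ω]
      (J ℓ Pm E : ℕ) (S₀ : Set Ω) (A B : Tw k r s J S₀), Bs k S₀ (2 ^ ℓ) → Pm ≤ 2 ^ ℓ →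
      MHyp r s A.c C ρ Pm J → MHyp r s B.c C ρ Pm J →
      (∃ P : Plc k Ω, P.ord A.b < 0 ∧ P.ord B.b < 0) → ∀ l₁ j₁ N : ℕ, l₁ ≤ j₁ + E →
      j₁ ≤ l₁ + E → l₁ + N < J → j₁ + N < J →
      (∀ t ≤ N, dl k S₀ A.w B.w (l₁ + t + 1) (j₁ + t + 1) ≠
          r * dl k S₀ A.w B.w (l₁ + t) (j₁ + t + 1) ∧
        dl k S₀ A.w B.w (l₁ + t + 1) (j₁ + t + 1) ≠ r * dl k S₀ A.w B.w (l₁ + t + 1) (j₁ + t)) →
      ∀ t, E + K * (ℓ + 1) ≤ t → t ≤ N → ∃ μ : k, μ ^ r * A.c = B.c ∧ μ ^ s * A.c = B.c ∧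
        B.w (j₁ + t) = algebraMap k Ω μ * A.w (l₁ + t)

/-- Towers over a curve either merge or are independent. -/
def FFStmt : Prop :=
  ∀ (r s : ℕ) (C ρ : ℝ), 2 ≤ r → 2 ≤ s → r.Coprime s → 1 ≤ C → 0 < ρ → ρ < 1 → ∃ K : ℕ,
    ∀ (k Ω : Type) [Field k] [IsAlgClosed k] [CharZero k] [Field Ω] [IsAlgClosed Ω] [Algebra k Ω]
      (u v : Ω) (R : k[X][X]) (ℓ α J₀ J Pm : ℕ), Transcendental k u → Transcendental k v →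
      Algebra.IsAlgebraic (adjoin k {u}) Ω → R ≠ 0 → R.natDegree ≤ 2 ^ ℓ →
      (∀ i, (R.coeff i).natDegree ≤ 2 ^ ℓ) → ev2 (algebraMap k Ω) R u v = 0 → Pm ≤ 2 ^ ℓ →
      α + K * (ℓ + 1) ^ 3 ≤ J₀ → J₀ ≤ J →
      ∀ (I : Type) [Fintype I] (T : I → Tw k r s J {u, v}), Fintype.card I ≤ 4 →
      (∀ m, MHyp r s (T m).c C ρ Pm J) → ∃ (E : I → I → Prop) (t : ℕ), α ≤ t ∧ t ≤ J₀ ∧
        (∀ m m', E m m' → ∃ j, α ≤ j ∧ j ≤ J₀ ∧ ∃ μ : k, μ ^ r * (T m).c = (T m').c ∧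
          μ ^ s * (T m).c = (T m').c ∧ (T m').w j = algebraMap k Ω μ * (T m).w t) ∧
        ∀ A : Set I, (∀ m ∈ A, ∀ m' ∈ A, m ≠ m' → ¬ E m m') → ∀ m ∈ A, ∀ i, J₀ ≤ i → i < J →
          PowInd k ({u, v} ∪ lv (T m).w i ∪ ⋃ m' ∈ A \ {m}, lv (T m').w J) ((T m).w (i + 1)) r

theorem MHyp.mono {k : Type} [Field k] {r s : ℕ} {c : k} {C C' ρ ρ' : ℝ} {Pm Pm' J J' : ℕ}
    (h : MHyp r s c C ρ Pm J) (hC0 : 0 ≤ C) (hρ0 : 0 ≤ ρ) (hC : C ≤ C') (hρ : ρ ≤ ρ')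
    (hP : Pm ≤ Pm') (hJ : J' ≤ J) : MHyp r s c C' ρ' Pm' J' := by
  obtain ⟨ζ, rt, h1, h2, h3⟩ := h
  refine ⟨ζ, rt, h1, h2, fun i hi => ⟨(h3 i (hi.trans hJ)).1.trans (by gcongr), fun h => ?_⟩⟩
  obtain ⟨G, h4, h5, h6⟩ := (h3 i (hi.trans hJ)).2 h
  exact ⟨G, h4.trans (by have := hC0.trans hC; gcongr),
    fun β => (h5 β).trans (Nat.mul_le_mul_left _ hP), h6⟩

/-- Transfer of the tree hypothesis to an algebraically closed extension. -/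
def MTStmt : Prop :=
  ∀ (k k' : Type) [Field k] [Field k'] [IsAlgClosed k'] (φ : k →+* k') (r s : ℕ) (c : k)
    (C ρ : ℝ) (Pm J : ℕ), 0 < s → MHyp r s c C ρ Pm J → MHyp r s (φ c) C ρ Pm J

end Pool.Agent.MP_09973c_nt.H58
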