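import Pool.Agent.MP_09973c_nt.H58.SpecF

/-!
Interface statements: the Runge type argument and the final assembly.
-/

set_option autoImplicit false

namespace Pool.Agent.MP_09973c_nt.H58

open Polynomial Finset IntermediateField Filter Classical

/-! ### Expansions and auxiliary relations -/

/-- `z` is approximated to order `N` by a polynomial in `ϖ` of controlled size whose constant
coefficient is a root of unity. -/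
def Xp (G : Subgroup Gal) (m N : ℕ) (ϖ z : Qb) (lam : ℝ) : Prop :=
  ∃ (f : Qb[X]) (d : ℕ), 0 < d ∧ Real.log d ≤ lam ∧ PSz f d (Real.exp lam) ∧ f.coeff 0 ^ m = 1 ∧
    (∀ g ∈ G, ∀ n, g (f.coeff n) = f.coeff n) ∧ ‖z - f.eval ϖ‖ ≤ Real.exp lam * ‖ϖ‖ ^ N

/-- One radical step of an expansion. -/
def ExStmt : Prop :=
  ∀ (r s : ℕ) (c : Qb), 0 < r → ∃ C : ℕ, ∀ (G : Subgroup Gal) (m N n : ℕ) (ϖ z z' : Qb) (lam : ℝ),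
    0 < m → 1 ≤ N → 1 ≤ n → 0 ≤ lam → (∀ g ∈ G, g c = c ∧ ∀ η : Qb, η ^ (r * m) = 1 → g η = η) →
    Xp G m N ϖ z lam → z' ^ r = z ^ s + c * ϖ ^ n →
    ‖ϖ‖ * Real.exp (C * N ^ 2 * (lam + 1)) ≤ 1 → Xp G (r * m) N ϖ z' (C * N ^ 2 * (lam + 1))

/-- Siegel's lemma and Liouville's inequality. -/
def RL0Stmt : Prop :=
  ∀ (ι : Type) [Fintype ι] (G H : Subgroup Gal) (N N' d dz : ℕ) (ϖ ϖ' π : Qb) (z α β : ι → Qb)
    (f f' : ι → Qb[X]) (lam η : ℝ), G.index ≠ 0 → H.index ≠ 0 → 0 < Fintype.card ι →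
    4 * G.index * N * N' ≤ Fintype.card ι → 1 ≤ lam → 0 ≤ η → Real.log (Fintype.card ι) ≤ lam →
    0 < d → Real.log d ≤ lam → 0 < dz → Real.log dz ≤ η → ‖ϖ‖ ≤ 1 → ‖ϖ'‖ ≤ 1 →
    (∀ i, z i * π = α i * β i ∧ PSz (f i) d (Real.exp lam) ∧ PSz (f' i) d (Real.exp lam) ∧
      (∀ g ∈ G, ∀ n, g ((f i).coeff n) = (f i).coeff n ∧ g ((f' i).coeff n) = (f' i).coeff n) ∧
      ‖α i - (f i).eval ϖ‖ ≤ Real.exp lam * ‖ϖ‖ ^ N ∧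
      ‖β i - (f' i).eval ϖ'‖ ≤ Real.exp lam * ‖ϖ'‖ ^ N' ∧
      (∀ g ∈ H, g (z i) = z i) ∧ Sz (z i) dz (Real.exp η)) →
    (‖ϖ‖ ^ N + ‖ϖ'‖ ^ N') * Real.exp (20 * lam + H.index * (2 * η + 20 * lam)) < ‖π‖ →
    ∃ c : ι → ℤ, c ≠ 0 ∧ (∀ i, |(c i : ℝ)| ≤ Real.exp (10 * lam)) ∧ ∑ i, (c i : Qb) * z i = 0

/-- Four forward chains of small degree starting at two large points. -/
structure Quad (p q : ℕ) (a b : Qb) (B : ℝ) (L k : ℕ) (h : ℝ) (X : Fin 4 → ℕ → Qb) : Prop where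
  ch : ∀ m, Fwd p q (![a, b, a, b] m) k (X m)
  b1 : X 1 0 ^ q = X 0 0 ^ q
  b3 : X 3 0 ^ q = X 2 0 ^ q
  fix : ∃ H : Subgroup Gal, H.index ≠ 0 ∧ H.index ≤ 2 ^ L ∧
    ∀ g ∈ H, ∀ m, ∀ i ≤ k, g (X m i) = X m i
  sz : ∃ d : ℕ, 0 < d ∧ Real.log d ≤ B * h ∧ ∀ m, ∀ i ≤ k, Sz (X m i) d (Real.exp (B * h))
  big0 : h ≤ lp (X 0 0)
  big2 : h ≤ lp (X 2 0)

/-- Monomials in the levels `J₀ + 1, …, J` of `n` chains. -/
def mon {A : Type} [CommRing A] {n q J₀ J : ℕ} (W : Fin n → ℕ → A)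
    (e : Fin n × Fin (J - J₀) → Fin q) : A :=
  ∏ z : Fin n × Fin (J - J₀), W z.1 (J₀ + z.2 + 1) ^ (e z : ℕ)

/-- A small integer relation between the monomials. -/
def Rel {n : ℕ} (q J₀ J : ℕ) (W : Fin n → ℕ → Qb) (y : ℝ) : Prop :=
  ∃ c : (Fin n × Fin (J - J₀) → Fin q) → ℤ, c ≠ 0 ∧ (∀ e, |(c e : ℝ)| ≤ Real.exp y) ∧
    ∑ e, (c e : Qb) * mon W e = 0

/-- Relations among four chains, and among three chains if the two sides are linked. -/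
def RLStmt : Prop :=
  ∀ (p q : ℕ) (a b : Qb) (B : ℝ), 2 ≤ p → p < q → ∃ C : ℕ,
    ∀ (L k J₀ J : ℕ) (h : ℝ) (X : Fin 4 → ℕ → Qb), Quad p q a b B L k h X → J ≤ k →
      6 * J₀ + C * (L + 1) ≤ J → 2 ^ (C * J ^ 2) ≤ h →
      Rel q J₀ J X (2 ^ (C * J ^ 2)) ∧
      ∀ (m m' : Fin 4) (t : ℕ) (μ : Qb), (m = 0 ∨ m = 1) → (m' = 2 ∨ m' = 3) → t ≤ J₀ →
        μ ^ (q - p) = 1 → X m' t = μ * X m t → ∀ A : Fin 3 → Fin 4,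
        Rel q J₀ J (fun i => X (A i)) (2 ^ (C * J ^ 2))

/-! ### Elimination -/

/-- The integral closure of `ℚ[S]`. -/
noncomputable def IntO {Ω : Type} [Field Ω] [CharZero Ω] (S : Set Ω) : Subring Ω :=
  (integralClosure (Algebra.adjoin ℚ S) Ω).toSubring

/-- Norm down to `ℤ[u]`. -/
def Elim1Stmt : Prop :=
  ∀ (Ω : Type) [Field Ω] [CharZero Ω] [IsAlgClosed Ω] (u : Ω) (u' Φ : IntO {u}), (u' : Ω) = u →
    Transcendental ℚ u → Algebra.IsAlgebraic (adjoin ℚ {u}) Ω → Φ ≠ 0 →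
    IsIntegral (Algebra.adjoin ℤ {u}) (Φ : Ω) → ∀ (S : Subgroup (Ω ≃ₐ[ℚ] Ω)) (n : ℕ) (H : ℝ),
    S.relIndex (Fix ℚ {u}) ≠ 0 → S.relIndex (Fix ℚ {u}) ≤ n → (∀ g ∈ S, g Φ = Φ) → 1 ≤ H →
    (∀ ψ : IntO {u} →+* ℂ, ‖ψ u'‖ ≤ 1 → ‖ψ Φ‖ ≤ H) →
    ∃ R : ℤ[X], R ≠ 0 ∧ (∀ i, |(R.coeff i : ℝ)| ≤ H ^ n) ∧
      ∀ ψ : IntO {u} →+* ℂ, ψ Φ = 0 → aeval (ψ u') R = 0

/-- Norm down to `ℤ[u, v]`. -/
def Elim2Stmt : Prop :=
  ∀ (Ω : Type) [Field Ω] [CharZero Ω] [IsAlgClosed Ω] (u v : Ω) (u' v' Φ : IntO {u, v}),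
    (u' : Ω) = u → (v' : Ω) = v →
    (∀ R : ℚ[X][X], ev2 (algebraMap ℚ Ω) R u v = 0 → R = 0) →
    Algebra.IsAlgebraic (adjoin ℚ {u, v}) Ω → Φ ≠ 0 →
    IsIntegral (Algebra.adjoin ℤ {u, v}) (Φ : Ω) →
    ∀ (S : Subgroup (Ω ≃ₐ[ℚ] Ω)) (n w : ℕ) (H : ℝ), S.relIndex (Fix ℚ {u, v}) ≠ 0 →
    S.relIndex (Fix ℚ {u, v}) ≤ n → (∀ g ∈ S, g Φ = Φ) → 1 ≤ H →
    (∀ (ρ : ℝ) (ψ : IntO {u, v} →+* ℂ), 1 ≤ ρ → ‖ψ u'‖ ≤ ρ → ‖ψ v'‖ ≤ ρ → ‖ψ Φ‖ ≤ H * ρ ^ w) →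
    ∃ R : ℤ[X][X], R ≠ 0 ∧ R.natDegree ≤ w * n ∧ (∀ i, (R.coeff i).natDegree ≤ w * n) ∧
      (∀ i j, |((R.coeff i).coeff j : ℝ)| ≤ H ^ n) ∧
      ∀ ψ : IntO {u, v} →+* ℂ, ψ Φ = 0 → ev2 (Int.castRingHom ℂ) R (ψ u') (ψ v') = 0

/-! ### The Runge type theorem -/

/-- Two large chains from the same point with different parameters are never proportional. -/
def NoEdgeStmt : Prop :=
  ∀ (p q : ℕ) (a b : Qb), 2 ≤ p → p < q → p.Coprime q → a ≠ 0 → b ≠ 0 → a ≠ b → ∃ C : ℝ,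
    ∀ (n : ℕ) (x x' : ℕ → Qb), Fwd p q a n x → Fwd p q b n x' → x' 0 ^ q = x 0 ^ q →
      C * (n + 1) ≤ lp (x n) → ∀ j ≤ n, ∀ t ≤ n, ∀ μ : Qb,
      (μ ^ p * a = b → μ ^ q * a = b → x' j ≠ μ * x t) ∧
      (μ ^ p * b = a → μ ^ q * b = a → x j ≠ μ * x' t)

/-- Conjugates up to roots of unity lie on the same level. -/
def LevStmt : Prop :=
  ∀ (p q : ℕ) (a b : Qb), 2 ≤ p → p < q → ∃ C : ℝ,
    ∀ (n : ℕ) (x x' : ℕ → Qb), Fwd p q a n x → Fwd p q b n x' → x' 0 ^ q = x 0 ^ q →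
      C ≤ lp (x n) → ∀ z z' : ℕ → Qb, (z = x ∨ z = x') → (z' = x ∨ z' = x') →
      ∀ (σ τ : Gal) (μ : Qb) (M : ℕ), 0 < M → μ ^ M = 1 → ∀ j ≤ n, ∀ t ≤ n,
      σ (z j) = μ * τ (z' t) → j = t

/-- A polynomial of controlled degree and height vanishing at `(x, y)`. -/
def PRel (l : ℕ) (x y : Qb) : Prop :=
  ∃ R : ℤ[X][X], R ≠ 0 ∧ R.natDegree ≤ 2 ^ l ∧ (∀ i, (R.coeff i).natDegree ≤ 2 ^ l) ∧
    (∀ i j, |((R.coeff i).coeff j : ℝ)| ≤ Real.exp (2 ^ l)) ∧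
    ev2 (Int.castRingHom Qb) R x y = 0

/-- First step: the two base points lie on a curve. -/
def T1Stmt : Prop :=
  ∀ (p q : ℕ) (a b : Qb) (B : ℝ), 2 ≤ p → p < q → p.Coprime q → a ≠ 0 → b ≠ 0 → a ≠ b → ∃ C : ℕ,
    ∀ (L k : ℕ) (h : ℝ) (X : Fin 4 → ℕ → Qb), Quad p q a b B L k h X → (C * (L + 1)) ^ C ≤ k →
      2 ^ k ≤ h → PRel ((C * (L + 1)) ^ C) (X 0 0) (X 2 0)

/-- `y, y'` agree with `x, x'` at level `j`, directly or after a swap. -/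
def Concl (p q : ℕ) (a b : Qb) (x x' y y' : ℕ → Qb) (j : ℕ) : Prop :=
  y j = x j ∨ ∃ μ : Qb, μ ^ p * b = a ∧ μ ^ q * b = a ∧ y j = μ * x' j ∧ μ * y' j = x j

/-- Second step: on the curve. -/
def T2Stmt : Prop :=
  ∀ (p q : ℕ) (a b : Qb) (B : ℝ), 2 ≤ p → p < q → p.Coprime q → a ≠ 0 → b ≠ 0 → a ≠ b → ∃ C : ℕ,
    ∀ (L l k : ℕ) (h : ℝ) (x x' : ℕ → Qb) (σ : Gal),
      Quad p q a b B L k h ![x, x', fun i => σ (x i), fun i => σ (x' i)] →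
      PRel l (x 0) (σ (x 0)) → (C * (L + l + 1)) ^ C ≤ k → 2 ^ k ≤ h →
      ∃ j ≤ k, Concl p q a b x x' (fun i => σ (x i)) (fun i => σ (x' i)) j

/-- The Runge type theorem for two tails. -/
def TDStmt : Prop :=
  ∀ (p q : ℕ) (a b : Qb) (c : ℝ) (e : ℕ), 2 ≤ p → p < q → p.Coprime q → a ≠ 0 → b ≠ 0 → a ≠ b →
    0 < c → ∃ C : ℕ, ∀ (D : Dat p q a) (D' : Dat p q b) (L k : ℕ) (g g' : Gal),
      D'.t D'.n ^ q = D.t D.n ^ q → D.n ≤ D'.n + e → D'.n ≤ D.n + e →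
      (HL D D' 0).index ≤ 2 ^ L → (C * (L + 1)) ^ C ≤ k → C * (k + 1) ≤ D.n →
      g ∈ GK p q a b → g' ∈ GK p q a b → c * ((q : ℝ) / p) ^ D.n ≤ lp (g (D.lev 0)) →
      c * ((q : ℝ) / p) ^ D.n ≤ lp (g' (D.lev 0)) →
      ∃ j ≤ k, Concl p q a b (fun i => g (D.lev i)) (fun i => g (D'.lev i))
        (fun i => g' (D.lev i)) (fun i => g' (D'.lev i)) j

/-! ### Assembly -/

/-- At most one exceptional level near the top. -/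
def Deg2Stmt : Prop :=
  ∀ (p q : ℕ) (a b : Qb), 2 ≤ p → p < q → p.Coprime q → a ≠ 0 → b ≠ 0 → a ≠ b → ∃ C : ℝ,
    ∀ (D : Dat p q a) (D' : Dat p q b) (k : ℕ), D'.t D'.n ^ q = D.t D.n ^ q → k ≤ D.n →
      k ≤ D'.n → C * (q : ℝ) ^ k ≤ lp (D.lev k) →
      (HL D D' 0).index ≤ (HL D D' (k + 1)).index * p ^ 4

/-- No exceptional level in the middle range. -/
def NGStmt : Prop :=
  ∀ (p q : ℕ) (a b : Qb), 2 ≤ p → p < q → p.Coprime q → a ≠ 0 → b ≠ 0 → a ≠ b → ∃ A : ℝ,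
    ∀ j₁ e : ℕ, ∃ C : ℕ, ∀ (D : Dat p q a) (D' : Dat p q b) (L k : ℕ),
      D'.t D'.n ^ q = D.t D.n ^ q → D.n ≤ D'.n + e → D'.n ≤ D.n + e → A ≤ lp (D.t j₁) →
      (HL D D' 0).index ≤ 2 ^ L → (C * (L + 1)) ^ C ≤ k → C * (k + 1) ≤ D.n →
      ∀ l, k < l → l + j₁ + e ≤ D.n → HL D D' (l + 1) ≤ HL D D' l

/-- Two sequences of long tails with common top. -/
structure Seq {p q : ℕ} {a b : Qb} (U : Ultrafilter ℕ) (D : ℕ → Dat p q a) (D' : ℕ → Dat p q b)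
    (o o' : ℕ) : Prop where
  top : ∀ᶠ ν in (U : Filter ℕ), (D' ν).t (D' ν).n ^ q = (D ν).t (D ν).n ^ q ∧
    (D ν).n + o' = (D' ν).n + o
  long : ∀ J, ∀ᶠ ν in (U : Filter ℕ), J ≤ (D ν).n

theorem Seq.symm {p q : ℕ} {a b : Qb} {U : Ultrafilter ℕ} {D : ℕ → Dat p q a} {D' : ℕ → Dat p q b}
    {o o' : ℕ} (h : Seq U D D' o o') : Seq U D' D o' o :=
  ⟨h.top.mono fun _ h1 => ⟨h1.1.symm, h1.2.symm⟩, fun J => by
    filter_upwards [h.top, h.long (J + o)] with ν h1 h2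
    omega⟩

theorem Seq.toMatch {p q : ℕ} (hpq : p < q) {a b : Qb} {U : Ultrafilter ℕ} {D : ℕ → Dat p q a}
    {D' : ℕ → Dat p q b} {o o' : ℕ} (h : Seq U D D' o o') : ∃ C₁, Match U D D' o o' C₁ := by
  obtain ⟨d, -, Ca, hCa, hS⟩ := exists_Sz_finset {a, b}
  refine ⟨2 * Real.log (1 + Ca), fun J => (h.long J).and (h.symm.long J), fun j => ?_⟩
  filter_upwards [h.top, h.long (j + o)] with ν h1 h2 g
  have h3 := match_fwd (F := Qb) hpq ((hS a (by simp)).2 g) ((hS b (by simp)).2 g)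
    (((D ν).fwd_lev (m := (D ν).n - (j + o)) (by omega)).map (g : Qb →+* Qb))
    (((D' ν).fwd_lev (m := (D ν).n - (j + o)) (by omega)).map (g : Qb →+* Qb)) le_rfl (by
      have h4 := congrArg (fun z => lp (g z)) h1.1
      simp only [map_pow, lp_pow] at h4
      have h5 := mul_left_cancel₀ (by exact_mod_cast (by omega : q ≠ 0)) h4
      have h6 := log_one_add_nonneg (zero_le_one.trans hCa)
      simp only [Dat.lev_zero, RingHom.coe_coe, h5, sub_self, abs_zero]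
      linarith) _ le_rfl
  simp only [RingHom.coe_coe] at h3
  rwa [(D ν).lev_sub h2, show (D ν).n - (j + o) = (D' ν).n - (j + o') by omega,
    (D' ν).lev_sub (by omega)] at h3

/-- Varying entry points: polynomial degree. -/
def CV1Stmt : Prop :=
  ∀ (p q : ℕ) (a b : Qb), 2 ≤ p → p < q → p.Coprime q → a ≠ 0 → b ≠ 0 → a ≠ b →
    ∀ (U : Ultrafilter ℕ) (D : ℕ → Dat p q a) (D' : ℕ → Dat p q b) (o o' : ℕ), Seq U D D' o o' →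
      (∀ x, ∀ᶠ ν in (U : Filter ℕ), (D ν).u 0 ≠ x) →
      ∃ C : ℕ, ∀ᶠ ν in (U : Filter ℕ), (HL (D ν) (D' ν) 0).index ≤ ((D ν).n + 2) ^ C

/-- Varying entry points are impossible. -/
def CVStmt : Prop :=
  ∀ (p q : ℕ) (a b : Qb), 2 ≤ p → p < q → p.Coprime q → a ≠ 0 → b ≠ 0 → a ≠ b →
    ∀ (U : Ultrafilter ℕ) (D : ℕ → Dat p q a) (D' : ℕ → Dat p q b) (o o' : ℕ), Seq U D D' o o' →
      (∀ x, ∀ᶠ ν in (U : Filter ℕ), (D ν).u 0 ≠ x) → False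

/-- Fixed entry points, escape at the complex place. -/
def CF1Stmt : Prop :=
  ∀ (p q : ℕ) (a b : Qb), 2 ≤ p → p < q → p.Coprime q → a ≠ 0 → b ≠ 0 → a ≠ b → ∃ A : ℝ,
    ∀ (U : Ultrafilter ℕ) (D : ℕ → Dat p q a) (D' : ℕ → Dat p q b) (o o' j₁ : ℕ) (x x' : Qb),
      Seq U D D' o o' →
      (∀ᶠ ν in (U : Filter ℕ), (D ν).u 0 = x ∧ (D' ν).u 0 = x' ∧ A ≤ lp ((D ν).t j₁)) → False

/-- Fixed entry points are impossible. -/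
def CFStmt : Prop :=
  ∀ (p q : ℕ) (a b : Qb), 2 ≤ p → p < q → p.Coprime q → a ≠ 0 → b ≠ 0 → a ≠ b →
    ∀ (U : Ultrafilter ℕ) (D : ℕ → Dat p q a) (D' : ℕ → Dat p q b) (o o' : ℕ) (x x' : Qb),
      Seq U D D' o o' → (∀ᶠ ν in (U : Filter ℕ), (D ν).u 0 = x ∧ (D' ν).u 0 = x') → False

/-- Structure of constrained points. -/
def RedStmt : Prop :=
  ∀ (p q : ℕ) (c : Qb) (y : ℂ), 0 < p → p < q → H31.Constrained p q (c : ℂ) (y : OnePoint ℂ) →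
    (∃ x ∈ Cyc p q c, ((x ^ q : Qb) : ℂ) = y ∧
      H31.ReachesCycleWithin p q (c : ℂ) 0 (y : OnePoint ℂ)) ∨
    ∃ D : Dat p q c, ((D.t D.n ^ q : Qb) : ℂ) = y ∧
      H31.ReachesCycleWithin p q (c : ℂ) (D.n + 1) (y : OnePoint ℂ)

/-- Finitely many constrained points are everywhere in the unit disc. -/
def A0Stmt : Prop :=
  ∀ (p q : ℕ) (b : Qb), 2 ≤ p → p < q → p.Coprime q → b ≠ 0 →
    {x : Qb | (x ∈ Cyc p q b ∨ ∃ D : Dat p q b, D.t D.n = x) ∧ Sz x 1 1}.Finite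

/-- The theorem for algebraic parameters. -/
def MainStmt : Prop :=
  ∀ (p q : ℕ) (a b : Qb), 2 ≤ p → p < q → p.Coprime q → a ≠ b →
    {y | H31.Constrained p q (a : ℂ) y ∧ H31.Constrained p q (b : ℂ) y}.Finite

end Pool.Agent.MP_09973c_nt.H58
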