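import Pool.Agent.MP_09973c_nt.H58.SpecT
import Pool.Agent.MP_09973c_nt.H31.A13b

/-!
Generic points, specialization and lifting of chains.
-/

set_option autoImplicit false

namespace Pool.Agent.MP_09973c_nt.H58

open Polynomial Finset IntermediateField Classical

theorem exists_generic : ∃ (Ω : Type) (_ : Field Ω) (_ : IsAlgClosed Ω) (_ : CharZero Ω)
    (_ : Algebra Qb Ω) (u v : Ω), Transcendental (adjoin Qb {v}) u ∧
      Transcendental (adjoin Qb {u}) v ∧ Algebra.IsAlgebraic (adjoin Qb {u, v}) Ω := by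
  let A := MvPolynomial (Fin 2) Qb
  let Ω := AlgebraicClosure (FractionRing A)
  have hinj : Function.Injective (algebraMap A Ω) := by
    rw [IsScalarTower.algebraMap_eq A (FractionRing A) Ω]
    exact (algebraMap (FractionRing A) Ω).injective.comp (IsFractionRing.injective A _)
  have hind : AlgebraicIndependent Qb fun i : Fin 2 => algebraMap A Ω (MvPolynomial.X i) :=
    (MvPolynomial.algebraicIndependent_X (Fin 2) Qb).map' (f := IsScalarTower.toAlgHom Qb A Ω) hinj
  haveI : CharZero Ω := algebraRat.charZero Ω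
  refine ⟨Ω, inferInstance, inferInstance, inferInstance, inferInstance,
    algebraMap A Ω (MvPolynomial.X 0), algebraMap A Ω (MvPolynomial.X 1), ?_, ?_, ⟨fun x => ?_⟩⟩
  · rw [IntermediateField.transcendental_adjoin_iff]
    have := hind.transcendental_adjoin (s := {1}) (i := 0) (by simp)
    rwa [Set.image_singleton] at this
  · rw [IntermediateField.transcendental_adjoin_iff]
    have := hind.transcendental_adjoin (s := {0}) (i := 1) (by simp)
    rwa [Set.image_singleton] at this
  · have h1 : IsAlgebraic A x :=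
      (IsFractionRing.isAlgebraic_iff A (FractionRing A) Ω).2 (Algebra.IsAlgebraic.isAlgebraic x)
    have h2 : ∀ f : A, algebraMap A Ω f ∈ adjoin Qb
        {algebraMap A Ω (MvPolynomial.X 0), algebraMap A Ω (MvPolynomial.X 1)} := fun f => by
      induction f using MvPolynomial.induction_on with
      | C c => exact IntermediateField.algebraMap_mem _ c
      | add f g hf hg => rw [map_add]; exact add_mem hf hg
      | mul_X f i hf =>
        rw [map_mul]
        exact mul_mem hf (subset_adjoin _ _ (by fin_cases i <;> simp))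
    exact h1.ringHom_of_comp_eq ((algebraMap A Ω).codRestrict _ h2) (RingHom.id Ω)
      (fun a b hab => hinj (congrArg Subtype.val hab)) rfl

section

variable {k k' Ω : Type} [Field k] [Field k'] [Field Ω] [Algebra k Ω] [Algebra k' Ω]

theorem alg_of_subset {S S' : Set Ω} (h : (adjoin k S : Set Ω) ⊆ adjoin k' S') {x : Ω}
    (hx : IsAlgebraic (adjoin k S) x) : IsAlgebraic (adjoin k' S') x := by
  generalize adjoin k S = K at *
  generalize adjoin k' S' = K' at *
  exact hx.ringHom_of_comp_eq ((algebraMap K Ω).codRestrict _ fun y => h y.2) (RingHom.id Ω)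
    (RingHom.injective _) rfl

theorem linInd_of_subset {K : IntermediateField k Ω} {K' : IntermediateField k' Ω}
    (h : (K : Set Ω) ⊆ K') {ι : Type} [Fintype ι] {v : ι → Ω} (hz : LinearIndependent K' v) :
    LinearIndependent K v := by
  refine Fintype.linearIndependent_iff.2 fun c hc i => ?_
  have h1 : ∑ i, (c i : Ω) * v i = 0 := by
    simpa only [IntermediateField.smul_def, smul_eq_mul] using hc
  have h2 := Fintype.linearIndependent_iff.1 hz (fun i => ⟨c i, h (c i).2⟩)
    (by simpa only [IntermediateField.smul_def, smul_eq_mul] using h1) i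
  have h3 : (c i : Ω) = 0 := (congrArg (algebraMap K' Ω) h2).trans (map_zero _)
  simpa using h3

theorem powInd_of_subset {S S' : Set Ω} (h : (adjoin k S : Set Ω) ⊆ adjoin k' S') {z : Ω} {n : ℕ}
    (hz : PowInd k' S' z n) : PowInd k S z n := linInd_of_subset h hz

theorem adjoin_subset_of {S S' : Set Ω} (h1 : ∀ c : k, algebraMap k Ω c ∈ adjoin k' S')
    (h2 : S ⊆ adjoin k' S') : (adjoin k S : Set Ω) ⊆ adjoin k' S' :=
  (adjoin_subset_adjoin_iff k).2 ⟨Set.range_subset_iff.2 h1, h2⟩

theorem ev2_inj {u v : Ω} (hu : Transcendental k u) (hv : Transcendental (adjoin k {u}) v)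
    (R : k[X][X]) (h : ev2 (algebraMap k Ω) R u v = 0) : R = 0 := by
  by_contra h0
  let f : k[X] →+* adjoin k {u} := (eval₂RingHom (algebraMap k Ω) u).codRestrict _ fun g =>
    algebra_adjoin_le_adjoin k _ (aeval_mem_adjoin_singleton k u)
  have hf : Function.Injective f := fun a b hab =>
    transcendental_iff_injective.1 hu (congrArg Subtype.val hab)
  refine hv ⟨R.map f, (Polynomial.map_ne_zero_iff hf).2 h0, ?_⟩
  rw [aeval_def, eval₂_map]
  exact h

theorem trans_base {u v : Ω} (hu : Transcendental (adjoin k {v}) u) : Transcendental k u :=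
  hu.of_tower_top k

end

section

variable {Ω : Type} [Field Ω] [CharZero Ω] [Algebra Qb Ω]

theorem mem_IntO {S : Set Ω} {x : Ω} : x ∈ IntO S ↔ IsIntegral (Algebra.adjoin ℚ S) x := Iff.rfl

theorem subset_IntO (S : Set Ω) : S ⊆ IntO S := fun x hx =>
  mem_IntO.2 (isIntegral_algebraMap (x := (⟨x, Algebra.subset_adjoin hx⟩ : Algebra.adjoin ℚ S)))

theorem const_mem_IntO (S : Set Ω) (c : Qb) : algebraMap Qb Ω c ∈ IntO S :=
  mem_IntO.2 (((Algebra.IsIntegral.isIntegral (R := ℚ) c).map
    (IsScalarTower.toAlgHom ℚ Qb Ω)).tower_top)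

theorem IntO_root {S : Set Ω} {x : Ω} {n : ℕ} (hn : 0 < n) (h : x ^ n ∈ IntO S) : x ∈ IntO S :=
  IsIntegral.of_pow hn h

/-- The constants inside the integral closure. -/
noncomputable def cO (S : Set Ω) : Qb →+* IntO S :=
  (algebraMap Qb Ω).codRestrict _ (const_mem_IntO S)

@[simp] theorem cO_coe (S : Set Ω) (c : Qb) : (cO S c : Ω) = algebraMap Qb Ω c := rfl

theorem exists_spec2 {u v : Ω} (h : ∀ R : Qb[X][X], ev2 (algebraMap Qb Ω) R u v = 0 → R = 0)
    (u' v' : IntO {u, v}) (hu : (u' : Ω) = u) (hv : (v' : Ω) = v) (x y : Qb) :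
    ∃ φ : IntO {u, v} →+* Qb, φ u' = x ∧ φ v' = y ∧ ∀ c, φ (cO _ c) = c := by
  let f : Qb[X][X] →+* IntO {u, v} := eval₂RingHom (eval₂RingHom (cO _) u') v'
  have hf : ∀ R, (f R : Ω) = ev2 (algebraMap Qb Ω) R u v := fun R => by
    have := H31.ev2_map (cO {u, v}) (IntO {u, v}).subtype R u' v'
    rw [Subring.coe_subtype, hu, hv] at this; exact this
  letI := f.toAlgebra
  letI := ((IntO {u, v}).subtype.comp f).toAlgebra
  haveI : IsScalarTower Qb[X][X] (IntO {u, v}) Ω := IsScalarTower.of_algebraMap_eq fun _ => rfl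
  haveI : Algebra.IsIntegral Qb[X][X] (IntO {u, v}) := ⟨fun z => by
    rw [← isIntegral_algebraMap_iff (B := Ω) Subtype.val_injective]
    have h1 : ∀ y ∈ Algebra.adjoin ℚ {u, v}, y ∈ (algebraMap Qb[X][X] Ω).range := fun y hy => by
      induction hy using Algebra.adjoin_induction with
      | mem y hy =>
        rcases hy with rfl | rfl
        · exact ⟨C X, (hf _).trans (by simp [ev2])⟩
        · exact ⟨X, (hf _).trans (by simp [ev2])⟩
      | algebraMap r => exact ⟨C (C (r : Qb)), (hf _).trans (by simp [ev2])⟩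
      | add _ _ _ _ h1 h2 => exact add_mem h1 h2
      | mul _ _ _ _ h1 h2 => exact mul_mem h1 h2
    obtain ⟨g, hg, h0⟩ := z.2
    obtain ⟨g', h2, -, h3⟩ := lifts_and_natDegree_eq_and_monic (f := algebraMap Qb[X][X] Ω)
      (p := g.map (algebraMap _ Ω))
      ((lifts_iff_coeff_lifts _).2 fun n => by rw [coeff_map]; exact h1 _ (g.coeff n).2) (hg.map _)
    exact ⟨g', h3, by rw [eval₂_eq_eval_map, h2, ← eval₂_eq_eval_map]; exact h0⟩⟩
  obtain ⟨φ, hφ⟩ := H31.ext_hom' (A := Qb[X][X]) (B := IntO {u, v})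
    (eval₂RingHom (evalRingHom x) y) fun R hR => by
      rw [h R ((hf R).symm.trans (congrArg Subtype.val hR))]; exact zero_mem _
  refine ⟨φ, ?_, ?_, fun c => ?_⟩
  · simpa [RingHom.algebraMap_toAlgebra, f] using hφ (C X)
  · simpa [RingHom.algebraMap_toAlgebra, f] using hφ X
  · simpa [RingHom.algebraMap_toAlgebra, f] using hφ (C (C c))

theorem lift_fwd [IsAlgClosed Ω] {S : Set Ω} (φ : IntO S →+* Qb) (hφ : ∀ c, φ (cO S c) = c)
    {p q J : ℕ} (hq : 0 < q) {c : Qb} {x : ℕ → Qb} (hx : Fwd p q c J x) (w₀ : IntO S)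
    (h0 : φ w₀ = x 0) :
    ∃ w : ℕ → IntO S, w 0 = w₀ ∧ Fwd p q (cO S c) J w ∧ ∀ i ≤ J, φ (w i) = x i := by
  have step : ∀ i, ∀ z : IntO S, ∃ z' : IntO S, i < J → φ z = x i →
      z ^ p + cO S c = z' ^ q ∧ φ z' = x (i + 1) := fun i z => by
    by_cases h : i < J ∧ φ z = x i
    · obtain ⟨y, hy⟩ := IsAlgClosed.exists_pow_nat_eq ((z ^ p + cO S c : IntO S) : Ω) hq
      let y' : IntO S := ⟨y, IntO_root hq (hy ▸ (z ^ p + cO S c).2)⟩
      have hy' : z ^ p + cO S c = y' ^ q := Subtype.ext hy.symm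
      obtain ⟨ω, h1, h2⟩ := exists_mul_of_pow_eq hq (y := x (i + 1)) (x := φ y')
        (by rw [← map_pow, ← hy', map_add, map_pow, h.2, hφ, hx i h.1])
      exact ⟨cO S ω * y', fun _ _ => ⟨by rw [mul_pow, ← map_pow, h1, map_one, one_mul, hy'],
        by rw [map_mul, hφ, h2]⟩⟩
    · exact ⟨z, fun h1 h2 => absurd ⟨h1, h2⟩ h⟩
  choose F hF using step
  let w : ℕ → IntO S := fun i => Nat.rec w₀ F i
  have hw : ∀ i ≤ J, φ (w i) = x i := fun i => by
    induction i with
    | zero => exact fun _ => h0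
    | succ i ih => exact fun hi => (hF i (w i) hi (ih (by omega))).2
  exact ⟨w, rfl, fun i hi => (hF i (w i) hi (hw i hi.le)).1, hw⟩

end

theorem hom_norm_le (ψ : Qb →+* ℂ) {x : Qb} {d : ℕ} {H : ℝ} (h : Sz x d H) : ‖ψ x‖ ≤ H := by
  let ψ' : Qb →ₐ[ℚ] Qb := (ψ.toRatAlgHom).codRestrict (algebraicClosure ℚ ℂ).toSubalgebra fun z =>
    mem_algebraicClosure_iff.2 ((Algebra.IsAlgebraic.isAlgebraic z).algHom ψ.toRatAlgHom)
  exact h.2 (AlgEquiv.ofBijective ψ' (Algebra.IsAlgebraic.algHom_bijective ψ'))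

end Pool.Agent.MP_09973c_nt.H58
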