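import Pool.Agent.MP_09973c_nt.H58.T5a

/-!
Independence of four generic towers.
-/

set_option autoImplicit false

namespace Pool.Agent.MP_09973c_nt.H58

open Polynomial Finset IntermediateField Classical

theorem range_of_pow_Qb {F : Type} [Field F] (ι : Qb →+* F) {x : F} {n : ℕ} (hn : 0 < n) {c : Qb}
    (h : x ^ n = ι c) : ∃ y, ι y = x := by
  letI := ι.toAlgebra
  have h1 : IsIntegral Qb x := IsIntegral.of_pow hn (h ▸ isIntegral_algebraMap)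
  exact minpoly.mem_range_of_degree_eq_one Qb x
    (IsAlgClosed.degree_eq_one_of_irreducible Qb (minpoly.irreducible h1))

theorem fwd_alg {K Ω : Type} [Field K] [Field Ω] [Algebra K Ω] {p q J : ℕ} (hq : 0 < q) {c : Ω}
    (hc : IsAlgebraic K c) {W : ℕ → Ω} (hW : Fwd p q c J W) (h0 : IsAlgebraic K (W 0)) :
    ∀ i ≤ J, IsAlgebraic K (W i) := fun i => by
  induction i with
  | zero => exact fun _ => h0
  | succ i ih =>
    exact fun hi => IsAlgebraic.of_pow hq (hW i hi ▸ ((ih (by omega)).pow p).add hc)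

theorem pair_core (hF : FFStmt) (hM : MFwdStmt) (hT : MTStmt) {p q : ℕ} (hp : 2 ≤ p)
    (hpq : p < q) (hc : p.Coprime q) {a b : Qb} (ha : a ≠ 0) (hb : b ≠ 0) : ∃ K C' : ℕ,
    ∀ (Ω : Type) [Field Ω] [IsAlgClosed Ω] [Algebra Qb Ω] (k' : Type) [Field k'] [IsAlgClosed k']
      [CharZero k'] [Algebra k' Ω] (φ : Qb →+* k'),
      (∀ c, algebraMap k' Ω (φ c) = algebraMap Qb Ω c) → ∀ (u : Ω) (l J₀ J : ℕ)
      (κ : Qb) (W W' : ℕ → Ω), Transcendental k' u →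
      Algebra.IsAlgebraic (adjoin k' {u}) Ω → κ ≠ 0 → (J + 2) ^ C' ≤ 2 ^ l →
      K * (l + 1) ^ 3 ≤ J₀ → J₀ ≤ J → W 0 = u → W' 0 = algebraMap Qb Ω κ * u →
      Fwd p q (algebraMap Qb Ω a) J W → Fwd p q (algebraMap Qb Ω b) J W' →
      (∀ j ≤ J, ∀ t ≤ J, ∀ μ : Qb,
        (μ ^ p * a = b → μ ^ q * a = b → W' j ≠ algebraMap Qb Ω μ * W t) ∧
        (μ ^ p * b = a → μ ^ q * b = a → W j ≠ algebraMap Qb Ω μ * W' t)) →
      ∀ S : Set Ω, S ⊆ Set.range (algebraMap k' Ω) → ∀ i, J₀ ≤ i → i < J →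
        PowInd Qb (S ∪ lv W i ∪ lv W' J) (W (i + 1)) q ∧
        PowInd Qb (S ∪ lv W' i ∪ lv W J) (W' (i + 1)) q := by
  obtain ⟨C₁, ρ₁, e₁, h1, h2, h3, hA⟩ := hM p q a hp hpq hc ha
  obtain ⟨C₂, ρ₂, e₂, h4, h5, h6, hB⟩ := hM p q b hp hpq hc hb
  obtain ⟨K, hK⟩ := hF q p (max C₁ C₂) (max ρ₁ ρ₂) (by omega) hp hc.symm (le_max_of_le_left h1)
    (lt_max_of_lt_left h2) (max_lt h3 h6)
  refine ⟨K, max e₁ e₂, ?_⟩
  intro Ω _ _ _ k' _ _ _ _ φ hφ u l J₀ J κ W W' hu halg hκ hP hJ₀ hJ h0 h0' hW hW' hne S hS i hi hiJ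
  have hcst : ∀ (S' : Set Ω) c, algebraMap Qb Ω c ∈ adjoin k' S' := fun S' c =>
    hφ c ▸ (adjoin k' S').algebraMap_mem _
  let T : Fin 2 → Tw k' q p J {u, u} := ![
    ⟨φ a, 1, u, W, by simpa using ha, one_ne_zero, by simp, by simp [h0],
      fun i hi => by rw [hφ]; exact (hW i hi).symm⟩,
    ⟨φ b, φ κ, u, W', by simpa using hb, by simpa using hκ, by simp, by rw [hφ]; exact h0',
      fun i hi => by rw [hφ]; exact (hW' i hi).symm⟩]
  obtain ⟨E, t, -, ht, hE, hI⟩ := hK k' Ω u u (X - C X) l 0 J₀ J ((J + 2) ^ max e₁ e₂)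
    hu hu halg
    (X_sub_C_ne_zero _) (by rw [natDegree_X_sub_C]; exact Nat.one_le_two_pow)
    (fun i => le_trans (by
      rw [coeff_sub, coeff_X, coeff_C]
      refine (natDegree_sub_le _ _).trans (max_le ?_ ?_) <;> split_ifs <;> simp)
      Nat.one_le_two_pow)
    (by simp [ev2]) hP (by omega) hJ (Fin 2) T (by simp) (fun m => by
      fin_cases m
      · exact hT _ _ φ _ _ _ _ _ _ _ (by omega) ((hA J).mono (by linarith) h2.le (le_max_left _ _)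
          (le_max_left _ _) (Nat.pow_le_pow_right (by omega) (le_max_left _ _)) le_rfl)
      · exact hT _ _ φ _ _ _ _ _ _ _ (by omega) ((hB J).mono (by linarith) h5.le (le_max_right _ _)
          (le_max_right _ _) (Nat.pow_le_pow_right (by omega) (le_max_right _ _)) le_rfl))
  have key : ∀ (c c' : Qb) (μ : k'), c ≠ 0 → μ ^ q * φ c = φ c' → μ ^ p * φ c = φ c' →
      ∃ μ₀ : Qb, φ μ₀ = μ ∧ μ₀ ^ p * c = c' ∧ μ₀ ^ q * c = c' := fun c c' μ h0 h1 h2 => by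
    obtain ⟨μ₀, rfl⟩ := range_of_pow_Qb φ (by omega : 0 < q) (c := c' / c) (x := μ)
      (by rw [map_div₀, eq_div_iff (by simpa using h0), h1])
    exact ⟨μ₀, rfl, φ.injective (by simpa using h2), φ.injective (by simpa using h1)⟩
  have hno : ∀ m ∈ (Set.univ : Set (Fin 2)), ∀ m' ∈ (Set.univ : Set (Fin 2)), m ≠ m' →
      ¬ E m m' := fun m _ m' _ hmm he => by
    obtain ⟨j, -, hj, μ, h1, h2, h3⟩ := hE m m' he
    fin_cases m <;> fin_cases m'
    · exact hmm rfl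
    · obtain ⟨μ₀, rfl, h4, h5⟩ := key a b μ ha h1 h2
      exact (hne j (by omega) t (by omega) μ₀).1 h4 h5 (hφ μ₀ ▸ h3)
    · obtain ⟨μ₀, rfl, h4, h5⟩ := key b a μ hb h1 h2
      exact (hne j (by omega) t (by omega) μ₀).2 h4 h5 (hφ μ₀ ▸ h3)
    · exact hmm rfl
  have fin : ∀ m m' : Fin 2, m' ≠ m →
      PowInd Qb (S ∪ lv (T m).w i ∪ lv (T m').w J) ((T m).w (i + 1)) q := fun m m' h => by
    refine powInd_of_subset (adjoin_subset_of (hcst _) ?_) (hI Set.univ hno m trivial i hi hiJ)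
    rintro x ((hx | hx) | hx)
    · obtain ⟨y, rfl⟩ := hS hx
      exact IntermediateField.algebraMap_mem _ y
    · exact subset_adjoin _ _ (Or.inl (Or.inr hx))
    · exact subset_adjoin _ _ (Or.inr (Set.mem_biUnion (x := m')
        (Set.mem_diff_singleton.2 ⟨trivial, h⟩) hx))
  have e0 : (T 0).w = W := rfl
  have e1 : (T 1).w = W' := rfl
  have f0 := fin 0 1 (by decide)
  have f1 := fin 1 0 (by decide)
  rw [e0, e1] at f0 f1
  exact ⟨f0, f1⟩

theorem pair_indep (hF : FFStmt) (hM : MFwdStmt) (hT : MTStmt) {p q : ℕ} (hp : 2 ≤ p)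
    (hpq : p < q) (hc : p.Coprime q) {a b : Qb} (ha : a ≠ 0) (hb : b ≠ 0) : ∃ K C' : ℕ,
    ∀ (Ω : Type) [Field Ω] [IsAlgClosed Ω] [CharZero Ω] [Algebra Qb Ω] (u v : Ω) (l J₀ J : ℕ)
      (κ : Qb) (W W' : ℕ → Ω), Transcendental (adjoin Qb {v}) u →
      Algebra.IsAlgebraic (adjoin Qb {u, v}) Ω → κ ≠ 0 → (J + 2) ^ C' ≤ 2 ^ l →
      K * (l + 1) ^ 3 ≤ J₀ → J₀ ≤ J → W 0 = u → W' 0 = algebraMap Qb Ω κ * u →
      Fwd p q (algebraMap Qb Ω a) J W → Fwd p q (algebraMap Qb Ω b) J W' →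
      (∀ j ≤ J, ∀ t ≤ J, ∀ μ : Qb,
        (μ ^ p * a = b → μ ^ q * a = b → W' j ≠ algebraMap Qb Ω μ * W t) ∧
        (μ ^ p * b = a → μ ^ q * b = a → W j ≠ algebraMap Qb Ω μ * W' t)) →
      ∀ S : Set Ω, (∀ s ∈ S, IsAlgebraic (adjoin Qb {v}) s) → ∀ i, J₀ ≤ i → i < J →
        PowInd Qb (S ∪ lv W i ∪ lv W' J) (W (i + 1)) q ∧
        PowInd Qb (S ∪ lv W' i ∪ lv W J) (W' (i + 1)) q := by
  obtain ⟨K, C', h⟩ := pair_core hF hM hT hp hpq hc ha hb
  refine ⟨K, C', ?_⟩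
  intro Ω _ _ _ _ u v l J₀ J κ W W' hu halg hκ hP hJ₀ hJ h0 h0' hW hW' hne S hS
  haveI : IsAlgClosed (algebraicClosure (adjoin Qb {v}) Ω) :=
    IsAlgClosure.isAlgClosed (adjoin Qb {v})
  have hv : IsAlgebraic (adjoin Qb {v}) v :=
    isAlgebraic_algebraMap (⟨v, subset_adjoin _ _ rfl⟩ : adjoin Qb {v})
  have hm : ∀ x, IsAlgebraic (adjoin Qb {v}) x →
      x ∈ adjoin (algebraicClosure (adjoin Qb {v}) Ω) {u} := fun x hx =>
    IntermediateField.algebraMap_mem _ (⟨x, mem_algebraicClosure_iff.2 hx⟩ :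
      algebraicClosure (adjoin Qb {v}) Ω)
  have h1 : (adjoin Qb {u, v} : Set Ω) ⊆ adjoin (algebraicClosure (adjoin Qb {v}) Ω) {u} := by
    refine adjoin_subset_of (fun c => hm _
      (isAlgebraic_algebraMap (algebraMap Qb (adjoin Qb {v}) c))) ?_
    rintro _ (rfl | rfl)
    · exact subset_adjoin _ _ rfl
    · exact hm _ hv
  have h2 : Algebra.IsAlgebraic (adjoin (algebraicClosure (adjoin Qb {v}) Ω) {u}) Ω :=
    ⟨fun x => alg_of_subset h1 (halg.1 x)⟩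
  exact h Ω (algebraicClosure (adjoin Qb {v}) Ω)
    ((algebraMap (adjoin Qb {v}) _).comp (algebraMap Qb (adjoin Qb {v}))) (fun _ => rfl) u l J₀ J κ
    W W' hu.algebraicClosure h2 hκ hP hJ₀ hJ h0 h0' hW hW' hne S
    fun s hs => ⟨⟨s, mem_algebraicClosure_iff.2 (hS s hs)⟩, rfl⟩

theorem four_indep {Ω : Type} [Field Ω] [CharZero Ω] [Algebra Qb Ω] {q J₀ J : ℕ} (W : Fin 4 → ℕ → Ω)
    (h : ∀ i, J₀ ≤ i → i < J →
      (PowInd Qb ((lv (W 2) J ∪ lv (W 3) J) ∪ lv (W 0) i ∪ lv (W 1) J) (W 0 (i + 1)) q ∧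
        PowInd Qb ((lv (W 2) J ∪ lv (W 3) J) ∪ lv (W 1) i ∪ lv (W 0) J) (W 1 (i + 1)) q) ∧
      PowInd Qb (∅ ∪ lv (W 2) i ∪ lv (W 3) J) (W 2 (i + 1)) q ∧
        PowInd Qb (∅ ∪ lv (W 3) i ∪ lv (W 2) J) (W 3 (i + 1)) q)
    (c : (Fin 4 × Fin (J - J₀) → Fin q) → ℤ) (hc : ∑ e, (c e : Ω) * mon W e = 0) : c = 0 := by
  have hl := monInd (k := Qb) (∅ : Set Ω)
    (fun z : Fin 4 × Fin (J - J₀) => W z.1 (J₀ + z.2 + 1))
    (fun z => ((z.1 : ℕ) + 2) % 4 * J + z.2) (by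
      rintro ⟨m, i⟩ ⟨m', i'⟩ hh
      have := i.2; have := i'.2
      fin_cases m <;> fin_cases m' <;> simp at hh ⊢ <;> omega) q (by
      rintro ⟨m, i⟩
      have hi := i.2
      obtain ⟨⟨h0, h1⟩, h2, h3⟩ := h (J₀ + i) (by omega) (by omega)
      have hm : ∀ (m' : Fin 4) (i' : Fin (J - J₀)) n, J₀ + i' + 1 ≤ n →
          W m' (J₀ + i' + 1) ∈ lv (W m') n := fun m' i' n hn => ⟨_, hn, rfl⟩
      fin_cases m
      all_goals
        first
          | refine PowInd.mono ?_ h0 | refine PowInd.mono ?_ h1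
          | refine PowInd.mono ?_ h2 | refine PowInd.mono ?_ h3
        rintro _ (hx | ⟨⟨m', i'⟩, hy, rfl⟩)
        · exact hx.elim
        have := i'.2
        refine subset_adjoin _ _ ?_
        fin_cases m' <;> simp only [Set.mem_setOf_eq] at hy <;>
          first
            | omega
            | exact Or.inr (hm _ i' _ (by omega))
            | exact Or.inl (Or.inr (hm _ i' _ (by omega)))
            | exact Or.inl (Or.inl (Or.inl (hm _ i' _ (by omega))))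
            | exact Or.inl (Or.inl (Or.inr (hm _ i' _ (by omega)))))
  funext e
  have := Fintype.linearIndependent_iff.1 hl (fun e => (c e : adjoin Qb (∅ : Set Ω)))
    (by simpa [IntermediateField.smul_def, mon] using hc) e
  exact_mod_cast this

end Pool.Agent.MP_09973c_nt.H58
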