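import Pool.Agent.MP_09973c_nt.H58.T5b
import Pool.Agent.MP_09973c_nt.H65.Tow

/-!
Elimination for four generic towers.
-/

set_option autoImplicit false

namespace Pool.Agent.MP_09973c_nt.H58

open Polynomial Finset IntermediateField Classical

theorem relIndex_trans {G : Type} [Group G] {A B C : Subgroup G} (h1 : A ≤ B) (h2 : B ≤ C)
    {m n : ℕ} (hA : A.relIndex B ≠ 0 ∧ A.relIndex B ≤ m) (hB : B.relIndex C ≠ 0 ∧ B.relIndex C ≤ n) :
    A.relIndex C ≠ 0 ∧ A.relIndex C ≤ n * m := by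
  rw [← Subgroup.relIndex_mul_relIndex A B C h1 h2, mul_comm]
  exact ⟨mul_ne_zero hB.1 hA.1, Nat.mul_le_mul hB.2 hA.2⟩

theorem relIndex_chain {k Ω : Type} [Field k] [Field Ω] [Algebra k Ω] {S : Set Ω} {p q J : ℕ}
    (hq : 0 < q) {c : Ω} (hc : c ∈ adjoin k S) {w : ℕ → Ω} (hw : Fwd p q c J w)
    (h0 : w 0 ^ q ∈ adjoin k S) : ∀ i ≤ J, (Fix k (S ∪ lv w i)).relIndex (Fix k S) ≠ 0 ∧
      (Fix k (S ∪ lv w i)).relIndex (Fix k S) ≤ q ^ (i + 1) := fun i => by
  induction i with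
  | zero =>
    intro _
    rw [H65.lv_zero, Set.union_singleton, zero_add, pow_one]
    exact relIndex_root hq h0
  | succ i ih =>
    intro hi
    rw [H65.lv_succ, Set.union_insert, pow_succ]
    refine relIndex_trans (Fix_anti (Set.subset_insert _ _)) (Fix_anti Set.subset_union_left)
      (relIndex_root hq ?_) (ih (by omega))
    rw [← hw i hi]
    exact add_mem (pow_mem (subset_adjoin k _ (Set.mem_union_right _ (H65.mem_lv w le_rfl))) _)
      (adjoin.mono _ _ _ Set.subset_union_left hc)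

theorem relIndex_const {Ω : Type} [Field Ω] [CharZero Ω] [Algebra Qb Ω] (S : Set Ω) (a : Qb) :
    (Fix ℚ (insert (algebraMap Qb Ω a) S)).relIndex (Fix ℚ S) ≠ 0 ∧
      (Fix ℚ (insert (algebraMap Qb Ω a) S)).relIndex (Fix ℚ S) ≤ (minpoly ℚ a).natDegree := by
  have h0 := minpoly.ne_zero (Algebra.IsIntegral.isIntegral (R := ℚ) a)
  have h1 : aeval (algebraMap Qb Ω a) (minpoly ℚ a) = 0 := by
    rw [aeval_algebraMap_apply, minpoly.aeval, map_zero]
  have := relIndex_le_card (G₀ := Fix ℚ S) (S := Fix ℚ (insert (algebraMap Qb Ω a) S))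
    (fun g => g (algebraMap Qb Ω a)) ((minpoly ℚ a).aroots Ω).toFinset
    (fun g _ => by
      rw [Multiset.mem_toFinset, mem_aroots]
      exact ⟨h0, by rw [aeval_algHom_apply, h1, map_zero]⟩)
    (fun g hg g' hg' h => mem_Fix.2 (by
      rintro x (rfl | hx)
      · simp [← h]
      · exact mem_Fix.1 (mul_mem (inv_mem hg) hg') x hx))
  exact ⟨this.1, this.2.trans ((Multiset.toFinset_card_le _).trans
    ((card_roots' _).trans natDegree_map_le))⟩

theorem mon_map {A B : Type} [CommRing A] [CommRing B] (φ : A →+* B) {n q J₀ J : ℕ}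
    (W : Fin n → ℕ → A) (e : Fin n × Fin (J - J₀) → Fin q) :
    φ (mon W e) = mon (fun m i => φ (W m i)) e := by
  simp [mon]

theorem mon_deg {n q J₀ J : ℕ} (e : Fin n × Fin (J - J₀) → Fin q) :
    ∑ z, (e z : ℕ) ≤ n * J * q := by
  refine (sum_le_card_nsmul _ _ q fun z _ => (e z).2.le).trans ?_
  simp only [card_univ, Fintype.card_prod, Fintype.card_fin, smul_eq_mul]
  gcongr; omega

theorem fwd_norm {p q J : ℕ} (hpq : p < q) {c : ℂ} {Ca ρ : ℝ} (hc : ‖c‖ ≤ Ca) (hρ : 1 ≤ ρ)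
    {w : ℕ → ℂ} (hw : Fwd p q c J w) (h0 : ‖w 0‖ ≤ ρ) : ∀ i ≤ J, ‖w i‖ ≤ (2 + Ca) * ρ := fun i => by
  have h1 := (norm_nonneg _).trans hc
  have h2 : 2 + Ca ≤ (2 + Ca) * ρ := by nlinarith
  induction i with
  | zero => exact fun _ => h0.trans (by nlinarith)
  | succ i ih =>
    intro hi
    refine le_of_pow_le_pow_left₀ (by omega : q ≠ 0) (by linarith) ?_
    rw [← norm_pow, ← hw i hi]
    have h3 := pow_le_pow_left₀ (norm_nonneg _) (ih (by omega)) p
    have h4 : 1 ≤ ((2 + Ca) * ρ) ^ p := one_le_pow₀ (by linarith)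
    have h5 : ((2 + Ca) * ρ) ^ (p + 1) ≤ ((2 + Ca) * ρ) ^ q :=
      pow_le_pow_right₀ (by linarith) hpq
    have h6 := norm_add_le (w i ^ p) c
    rw [norm_pow] at h6
    rw [pow_succ] at h5
    nlinarith

theorem elim_step (hE : Elim2Stmt) {p q : ℕ} (hpq : p < q) {a b : Qb} {d : ℕ} {Ca : ℝ}
    (hd : 0 < d) (ha : Sz a d Ca) (hb : Sz b d Ca) : ∃ I₀ : ℕ,
    ∀ (Ω : Type) [Field Ω] [IsAlgClosed Ω] [CharZero Ω] [Algebra Qb Ω] (u v : Ω)
      (u' v' : IntO {u, v}), (u' : Ω) = u → (v' : Ω) = v →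
      (∀ R : ℚ[X][X], ev2 (algebraMap ℚ Ω) R u v = 0 → R = 0) →
      Algebra.IsAlgebraic (adjoin ℚ {u, v}) Ω → ∀ (J₀ J : ℕ) (W : Fin 4 → ℕ → IntO {u, v})
      (κ : Fin 4 → Qb), (∀ m, κ m ^ q = 1) →
      (∀ m, W m 0 = cO _ (κ m) * u' ∨ W m 0 = cO _ (κ m) * v') →
      (∀ m, Fwd p q (cO _ (![a, b, a, b] m)) J (W m)) →
      ∀ (c : (Fin 4 × Fin (J - J₀) → Fin q) → ℤ) (y : ℝ), 0 ≤ y →
      (∀ e, |(c e : ℝ)| ≤ Real.exp y) → ∑ e, (c e : IntO {u, v}) * mon W e ≠ 0 →
      ∃ R : ℤ[X][X], R ≠ 0 ∧ R.natDegree ≤ 4 * J * q * (I₀ * q ^ (4 * (J + 1))) ∧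
        (∀ i, (R.coeff i).natDegree ≤ 4 * J * q * (I₀ * q ^ (4 * (J + 1)))) ∧
        (∀ i j, |((R.coeff i).coeff j : ℝ)| ≤ ((q : ℝ) ^ (4 * J) * Real.exp y *
          (d * (2 + Ca)) ^ (4 * J * q)) ^ (I₀ * q ^ (4 * (J + 1)))) ∧
        ∀ ψ : IntO {u, v} →+* ℂ, ψ (∑ e, (c e : IntO {u, v}) * mon W e) = 0 →
          ev2 (Int.castRingHom ℂ) R (ψ u') (ψ v') = 0 := by
  refine ⟨(minpoly ℚ a).natDegree * (minpoly ℚ b).natDegree, ?_⟩
  intro Ω _ _ _ _ u v u' v' hu hv hind halg J₀ J W κ hκ h0 hW c y hy hc hne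
  have hq : 0 < q := by omega
  have hCa := ha.nonneg
  have hd' : (1 : ℝ) ≤ d := by exact_mod_cast hd
  have hS : ∀ m, Sz (![a, b, a, b] m) d Ca := fun m => by fin_cases m <;> assumption
  let V : Fin 4 → ℕ → Ω := fun m i => W m i
  have hV : ∀ m, Fwd p q (algebraMap Qb Ω (![a, b, a, b] m)) J (V m) := fun m =>
    (hW m).map (IntO {u, v}).subtype
  have hV0 : ∀ m, V m 0 ^ q = u ^ q ∨ V m 0 ^ q = v ^ q := fun m =>
    (h0 m).imp (fun h => by simp [V, h, mul_pow, ← map_pow, hκ, hu])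
      fun h => by simp [V, h, mul_pow, ← map_pow, hκ, hv]
  let S₁ : Set Ω := insert (algebraMap Qb Ω b) (insert (algebraMap Qb Ω a) {u, v})
  have step : ∀ (S : Set Ω) m, S₁ ⊆ S → (Fix ℚ (S ∪ lv (V m) J)).relIndex (Fix ℚ S) ≠ 0 ∧
      (Fix ℚ (S ∪ lv (V m) J)).relIndex (Fix ℚ S) ≤ q ^ (J + 1) := fun S m hS =>
    relIndex_chain hq (subset_adjoin _ _ (hS (by fin_cases m <;> simp [S₁]))) (hV m) (by
      rcases hV0 m with h | h <;> rw [h] <;>
        exact pow_mem (subset_adjoin _ _ (hS (by simp [S₁]))) _) J le_rfl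
  have sub : ∀ S S' : Set Ω, Fix ℚ (S ∪ S') ≤ Fix ℚ S := fun _ _ => Fix_anti Set.subset_union_left
  have i1 := relIndex_trans (Fix_anti (Set.subset_insert _ _)) (Fix_anti (Set.subset_insert _ _))
    (relIndex_const (insert (algebraMap Qb Ω a) {u, v}) b) (relIndex_const {u, v} a)
  have l1 : Fix ℚ S₁ ≤ Fix ℚ {u, v} :=
    Fix_anti ((Set.subset_insert _ _).trans (Set.subset_insert _ _))
  have i2 := relIndex_trans (sub _ _) l1 (step S₁ 0 le_rfl) i1
  have i3 := relIndex_trans (sub _ _) ((sub _ _).trans l1) (step _ 1 Set.subset_union_left) i2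
  have i4 := relIndex_trans (sub _ _) (((sub _ _).trans (sub _ _)).trans l1)
    (step _ 2 (Set.subset_union_left.trans Set.subset_union_left)) i3
  have i5 := relIndex_trans (sub _ _) ((((sub _ _).trans (sub _ _)).trans (sub _ _)).trans l1)
    (step _ 3 ((Set.subset_union_left.trans Set.subset_union_left).trans Set.subset_union_left)) i4
  have hlev : ∀ z : Fin 4 × Fin (J - J₀), J₀ + z.2 + 1 ≤ J := fun z => by have := z.2.2; omega
  have hcoe : (((d : IntO {u, v}) ^ (4 * J * q) * ∑ e, (c e : IntO {u, v}) * mon W e :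
      IntO {u, v}) : Ω) = (d : Ω) ^ (4 * J * q) * ∑ e, (c e : Ω) * mon V e := by
    simp [mon, V]
  have hint : ∀ m, ∀ i ≤ J, IsIntegral (Algebra.adjoin ℤ {u, v}) ((d : Ω) * V m i) := fun m i => by
    have hZ : ∀ x : Qb, IsIntegral ℤ x →
        IsIntegral (Algebra.adjoin ℤ {u, v}) (algebraMap Qb Ω x) := fun x hx =>
      (hx.map (algebraMap Qb Ω).toIntAlgHom).tower_top
    have hm : ∀ x ∈ ({u, v} : Set Ω), IsIntegral (Algebra.adjoin ℤ {u, v}) x := fun x hx =>
      isIntegral_algebraMap (x := (⟨x, Algebra.subset_adjoin hx⟩ : Algebra.adjoin ℤ {u, v}))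
    have hdi : IsIntegral (Algebra.adjoin ℤ {u, v}) (d : Ω) := isIntegral_natCast d
    induction i with
    | zero =>
      refine fun _ => hdi.mul (IsIntegral.of_pow hq ?_)
      rcases hV0 m with h | h <;> rw [h] <;> exact (hm _ (by simp)).pow _
    | succ i ih =>
      refine fun hi => IsIntegral.of_pow hq ?_
      obtain ⟨e, rfl⟩ := Nat.exists_eq_add_of_lt hpq
      have h1 := hZ _ (hS m).1
      rw [map_mul, map_natCast] at h1
      have : ((d : Ω) * V m (i + 1)) ^ (p + e + 1) = d ^ (e + 1) * (d * V m i) ^ p +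
          d ^ (p + e) * (d * algebraMap Qb Ω (![a, b, a, b] m)) := by
        rw [mul_pow, ← hV m i hi]; ring
      rw [this]
      exact ((hdi.pow _).mul ((ih (by omega)).pow _)).add ((hdi.pow _).mul h1)
  obtain ⟨R, h1, h2, h3, h4, h5⟩ := hE Ω u v u' v'
    ((d : IntO {u, v}) ^ (4 * J * q) * ∑ e, (c e : IntO {u, v}) * mon W e) hu hv hind halg
    (mul_ne_zero (pow_ne_zero _ (by exact_mod_cast hd.ne')) hne) (by
      rw [hcoe, mul_sum]
      refine IsIntegral.sum _ fun e _ => ?_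
      obtain ⟨r, hr⟩ := Nat.exists_eq_add_of_le (mon_deg e)
      rw [hr, pow_add, ← prod_pow_eq_pow_sum, mul_left_comm, mul_right_comm, mon,
        ← prod_mul_distrib]
      refine (isIntegral_intCast _).mul (IsIntegral.mul (IsIntegral.prod _ fun z _ => ?_)
        ((isIntegral_natCast d).pow _))
      rw [← mul_pow]
      exact (hint _ _ (hlev z)).pow _)
    _ ((minpoly ℚ a).natDegree * (minpoly ℚ b).natDegree * q ^ (4 * (J + 1))) (4 * J * q)
    ((q : ℝ) ^ (4 * J) * Real.exp y * (d * (2 + Ca)) ^ (4 * J * q)) i5.1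
    (i5.2.trans (le_of_eq (by ring))) (fun g hg => by
      have : ∀ z : Fin 4 × Fin (J - J₀), g (V z.1 (J₀ + z.2 + 1)) = V z.1 (J₀ + z.2 + 1) :=
        fun ⟨m, i⟩ => mem_Fix.1 hg _ (by
          have := H65.mem_lv (V m) (hlev (m, i))
          fin_cases m
          exacts [Or.inl (Or.inl (Or.inl (Or.inr this))), Or.inl (Or.inl (Or.inr this)),
            Or.inl (Or.inr this), Or.inr this])
      rw [hcoe]
      simp [mon, this])
    (one_le_mul_of_one_le_of_one_le (one_le_mul_of_one_le_of_one_le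
      (one_le_pow₀ (by exact_mod_cast hq)) (Real.one_le_exp hy)) (one_le_pow₀ (by nlinarith)))
    (fun ρ ψ hρ h1 h2 => by
      have hn : ∀ m, ∀ i ≤ J, ‖ψ (W m i)‖ ≤ (2 + Ca) * ρ := fun m =>
        fwd_norm hpq (hom_norm_le (ψ.comp (cO _)) (hS m)) hρ ((hW m).map ψ) (by
          have := hom_norm_le (ψ.comp (cO _)) (Sz.root hq (hκ m))
          rcases h0 m with h | h <;> rw [h, map_mul, norm_mul]
          · exact (mul_le_of_le_one_left (norm_nonneg _) this).trans h1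
          · exact (mul_le_of_le_one_left (norm_nonneg _) this).trans h2)
      have h3 : 1 ≤ (2 + Ca) * ρ := by nlinarith
      have h4 : ∀ e : Fin 4 × Fin (J - J₀) → Fin q, ‖ψ ((c e : IntO {u, v}) * mon W e)‖ ≤
          Real.exp y * ((2 + Ca) * ρ) ^ (4 * J * q) := fun e => by
        rw [map_mul, norm_mul, map_intCast, Complex.norm_intCast, mon_map, mon, norm_prod]
        refine mul_le_mul (hc e) ?_ (by positivity) (by positivity)
        refine le_trans ?_ (pow_le_pow_right₀ h3 (mon_deg e))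
        rw [← prod_pow_eq_pow_sum]
        refine prod_le_prod (fun _ _ => norm_nonneg _) fun z _ => ?_
        rw [norm_pow]
        exact pow_le_pow_left₀ (norm_nonneg _) (hn _ _ (hlev z)) _
      have h5 := (norm_sum_le _ _).trans (sum_le_card_nsmul univ _ _ fun e _ => h4 e)
      have h6 : ((univ : Finset (Fin 4 × Fin (J - J₀) → Fin q)).card : ℝ) ≤ (q : ℝ) ^ (4 * J) := by
        simp only [card_univ, Fintype.card_fun, Fintype.card_prod, Fintype.card_fin]
        exact_mod_cast Nat.pow_le_pow_right hq (by omega)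
      rw [map_mul, map_sum, norm_mul, map_pow, map_natCast, norm_pow, Complex.norm_natCast]
      rw [nsmul_eq_mul] at h5
      calc _ ≤ (d : ℝ) ^ (4 * J * q) * ((q : ℝ) ^ (4 * J) *
            (Real.exp y * ((2 + Ca) * ρ) ^ (4 * J * q))) := by
            gcongr
            exact h5.trans (by gcongr)
        _ = _ := by rw [mul_pow, mul_pow]; ring)
  exact ⟨R, h1, h2, h3, h4, fun ψ h => h5 ψ (by rw [map_mul, h, mul_zero])⟩

end Pool.Agent.MP_09973c_nt.H58
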