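import Pool.Agent.MP_09973c_nt.H58.T5

/-!
A generic point of a plane curve and scaled lifting of chains.
-/

set_option autoImplicit false

namespace Pool.Agent.MP_09973c_nt.H58

open Polynomial Finset IntermediateField Classical

theorem int_root_le {f : ℤ[X]} (hf : f ≠ 0) {M : ℝ} (h : ∀ i, |(f.coeff i : ℝ)| ≤ M) {z : Qb}
    (hz : aeval z f = 0) : ‖z‖ ≤ M + 1 := by
  have hM : 0 ≤ M := (abs_nonneg _).trans (h 0)
  have h0 : f.map (algebraMap ℤ Qb) ≠ 0 :=
    (Polynomial.map_ne_zero_iff (algebraMap ℤ Qb).injective_int).2 hf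
  have h1 := IsRoot.norm_lt_cauchyBound h0 (a := z) (by rw [IsRoot, eval_map_algebraMap, hz])
  have h2 : (1 : ℝ) ≤ ‖(f.map (algebraMap ℤ Qb)).leadingCoeff‖ := by
    rw [leadingCoeff_map_of_injective (algebraMap ℤ Qb).injective_int, eq_intCast, norm_intCast_Qb]
    exact_mod_cast Int.one_le_abs (leadingCoeff_ne_zero.2 hf)
  have h3 : (range (f.map (algebraMap ℤ Qb)).natDegree).sup
      (fun i => ‖(f.map (algebraMap ℤ Qb)).coeff i‖₊) ≤ ⟨M, hM⟩ := Finset.sup_le fun i _ => by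
    change ‖_‖ ≤ M
    rw [coeff_map, eq_intCast, norm_intCast_Qb]
    exact h i
  have h4 : ‖z‖ < (cauchyBound (f.map (algebraMap ℤ Qb)) : ℝ) := h1
  refine h4.le.trans ?_
  unfold cauchyBound
  push_cast
  exact add_le_add_left ((div_le_self (NNReal.coe_nonneg _) h2).trans h3) _

theorem exists_generic1 : ∃ (Ω : Type) (_ : Field Ω) (_ : IsAlgClosed Ω) (_ : CharZero Ω)
    (_ : Algebra Qb Ω) (u : Ω), Transcendental Qb u ∧ Algebra.IsAlgebraic (adjoin Qb {u}) Ω := by
  let Ω := AlgebraicClosure (FractionRing Qb[X])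
  have hinj : Function.Injective (algebraMap Qb[X] Ω) := by
    rw [IsScalarTower.algebraMap_eq Qb[X] (FractionRing Qb[X]) Ω]
    exact (algebraMap (FractionRing Qb[X]) Ω).injective.comp (IsFractionRing.injective Qb[X] _)
  haveI : CharZero Ω := algebraRat.charZero Ω
  have h2 : ∀ f : Qb[X], algebraMap Qb[X] Ω f = aeval (algebraMap Qb[X] Ω X) f := fun f => by
    rw [aeval_algebraMap_apply, aeval_X_left_apply]
  refine ⟨Ω, inferInstance, inferInstance, inferInstance, inferInstance,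
    algebraMap Qb[X] Ω X, transcendental_iff_injective.2 fun a b h => hinj ?_, ⟨fun x => ?_⟩⟩
  · rw [h2, h2 b, h]
  · have h1 : IsAlgebraic Qb[X] x :=
      (IsFractionRing.isAlgebraic_iff Qb[X] (FractionRing Qb[X]) Ω).2
        (Algebra.IsAlgebraic.isAlgebraic x)
    have h3 : ∀ f : Qb[X], algebraMap Qb[X] Ω f ∈ adjoin Qb {algebraMap Qb[X] Ω X} := fun f => by
      rw [h2 f]
      exact algebra_adjoin_le_adjoin Qb _ (aeval_mem_adjoin_singleton Qb _)
    exact h1.ringHom_of_comp_eq ((algebraMap Qb[X] Ω).codRestrict _ h3) (RingHom.id Ω)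
      (fun a b hab => hinj (congrArg Subtype.val hab)) rfl

section

variable {Ω : Type} [Field Ω] [CharZero Ω] [Algebra Qb Ω]

theorem exists_spec1 {u : Ω} (h : Transcendental Qb u) (u' : IntO {u}) (hu : (u' : Ω) = u)
    (x : Qb) : ∃ φ : IntO {u} →+* Qb, φ u' = x ∧ ∀ c, φ (cO _ c) = c := by
  let f : Qb[X] →+* IntO {u} := eval₂RingHom (cO _) u'
  have hf : ∀ R, (f R : Ω) = aeval u R := fun R => by
    have := hom_eval₂ R (cO {u}) (IntO {u}).subtype u'
    rw [Subring.coe_subtype, hu] at this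
    exact this
  letI := f.toAlgebra
  letI := ((IntO {u}).subtype.comp f).toAlgebra
  haveI : IsScalarTower Qb[X] (IntO {u}) Ω := IsScalarTower.of_algebraMap_eq fun _ => rfl
  haveI : Algebra.IsIntegral Qb[X] (IntO {u}) := ⟨fun z => by
    rw [← isIntegral_algebraMap_iff (B := Ω) Subtype.val_injective]
    have h1 : ∀ y ∈ Algebra.adjoin ℚ {u}, y ∈ (algebraMap Qb[X] Ω).range := fun y hy => by
      induction hy using Algebra.adjoin_induction with
      | mem y hy => exact ⟨X, (hf _).trans (by simp [Set.mem_singleton_iff.1 hy])⟩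
      | algebraMap r => exact ⟨C (r : Qb), (hf _).trans (by simp)⟩
      | add _ _ _ _ h1 h2 => exact add_mem h1 h2
      | mul _ _ _ _ h1 h2 => exact mul_mem h1 h2
    obtain ⟨g, hg, h0⟩ := z.2
    obtain ⟨g', h2, -, h3⟩ := lifts_and_natDegree_eq_and_monic (f := algebraMap Qb[X] Ω)
      (p := g.map (algebraMap _ Ω))
      ((lifts_iff_coeff_lifts _).2 fun n => by rw [coeff_map]; exact h1 _ (g.coeff n).2) (hg.map _)
    exact ⟨g', h3, by rw [eval₂_eq_eval_map, h2, ← eval₂_eq_eval_map]; exact h0⟩⟩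
  obtain ⟨φ, hφ⟩ := H31.ext_hom' (A := Qb[X]) (B := IntO {u}) (evalRingHom x) fun R hR => by
    rw [transcendental_iff.1 h R ((hf R).symm.trans (congrArg Subtype.val hR))]
    exact zero_mem _
  refine ⟨φ, ?_, fun c => ?_⟩
  · simpa [RingHom.algebraMap_toAlgebra, f] using hφ X
  · simpa [RingHom.algebraMap_toAlgebra, f] using hφ (C c)

theorem lift_root [IsAlgClosed Ω] {S : Set Ω} (φ : IntO S →+* Qb) (z : Qb) (n : ℕ) :
    ∀ g : (IntO S)[X], g.Monic → g.natDegree = n → g.eval₂ φ z = 0 →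
      ∃ w, g.eval w = 0 ∧ φ w = z := by
  induction n with
  | zero =>
    intro g hg h0 h1
    rw [hg.natDegree_eq_zero.1 h0, eval₂_one] at h1
    exact absurd h1 one_ne_zero
  | succ n ih =>
    intro g hg h0 h1
    obtain ⟨y, hy⟩ := IsAlgClosed.exists_eval₂_eq_zero_of_injective (IntO S).subtype
      Subtype.val_injective g (degree_ne_of_natDegree_ne (by rw [h0]; exact n.succ_ne_zero))
    have hy' : y ∈ IntO S := mem_IntO.2
      (isIntegral_trans (A := integralClosure (Algebra.adjoin ℚ S) Ω) y ⟨g, hg, hy⟩)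
    have h2 : g.eval ⟨y, hy'⟩ = 0 := Subtype.val_injective
      ((eval₂_at_apply (IntO S).subtype (⟨y, hy'⟩ : IntO S)).symm.trans hy)
    have h3 := mul_divByMonic_eq_iff_isRoot.2 h2
    by_cases h4 : φ ⟨y, hy'⟩ = z
    · exact ⟨_, h2, h4⟩
    · have h5 : (g /ₘ (X - C ⟨y, hy'⟩)).Monic := (monic_X_sub_C _).of_mul_monic_left (h3.symm ▸ hg)
      obtain ⟨w, h6, h7⟩ := ih _ h5 (by
        rw [natDegree_divByMonic _ (monic_X_sub_C _), h0, natDegree_X_sub_C, Nat.add_sub_cancel])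
        (by
          rw [← h3, eval₂_mul, eval₂_sub, eval₂_X, eval₂_C] at h1
          exact (mul_eq_zero.1 h1).resolve_left (sub_ne_zero.2 (Ne.symm h4)))
      exact ⟨w, by rw [← h3, eval_mul, h6, mul_zero], h7⟩

theorem lift_scaled [IsAlgClosed Ω] {S : Set Ω} (φ : IntO S →+* Qb) (hφ : ∀ c, φ (cO S c) = c)
    {p q J : ℕ} (hpq : p < q) {c : Qb} {x : ℕ → Qb} (hx : Fwd p q c J x) (lam y₀ : IntO S)
    (h0 : φ y₀ = φ lam * x 0) : ∃ y : ℕ → IntO S, y 0 = y₀ ∧
      (∀ i < J, lam ^ (q - p) * y i ^ p + lam ^ q * cO S c = y (i + 1) ^ q) ∧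
      ∀ i ≤ J, φ (y i) = φ lam * x i := by
  have hq : 0 < q := by omega
  have step : ∀ i, ∀ z : IntO S, ∃ z' : IntO S, i < J → φ z = φ lam * x i →
      lam ^ (q - p) * z ^ p + lam ^ q * cO S c = z' ^ q ∧ φ z' = φ lam * x (i + 1) := fun i z => by
    by_cases h : i < J ∧ φ z = φ lam * x i
    · obtain ⟨y, hy⟩ := IsAlgClosed.exists_pow_nat_eq
        ((lam ^ (q - p) * z ^ p + lam ^ q * cO S c : IntO S) : Ω) hq
      let y' : IntO S := ⟨y, IntO_root hq (hy ▸ (lam ^ (q - p) * z ^ p + lam ^ q * cO S c).2)⟩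
      have hy' : lam ^ (q - p) * z ^ p + lam ^ q * cO S c = y' ^ q := Subtype.ext hy.symm
      obtain ⟨ω, h1, h2⟩ := exists_mul_of_pow_eq hq (y := φ lam * x (i + 1)) (x := φ y') (by
        rw [← map_pow, ← hy', map_add, map_mul, map_mul, map_pow, map_pow, map_pow, h.2, hφ,
          mul_pow, mul_pow, ← hx i h.1, ← mul_assoc, ← pow_add, Nat.sub_add_cancel hpq.le, mul_add])
      exact ⟨cO S ω * y', fun _ _ => ⟨by rw [mul_pow, ← map_pow, h1, map_one, one_mul, hy'],
        by rw [map_mul, hφ, h2]⟩⟩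
    · exact ⟨z, fun h1 h2 => absurd ⟨h1, h2⟩ h⟩
  choose F hF using step
  let w : ℕ → IntO S := fun i => Nat.rec y₀ F i
  have hw : ∀ i ≤ J, φ (w i) = φ lam * x i := fun i => by
    induction i with
    | zero => exact fun _ => h0
    | succ i ih => exact fun hi => (hF i (w i) hi (ih (by omega))).2
  exact ⟨w, rfl, fun i hi => (hF i (w i) hi (hw i hi.le)).1, hw⟩

theorem norm_eval_int {f : ℤ[X]} {l : ℕ} (h1 : f.natDegree ≤ 2 ^ l)
    (h2 : ∀ j, |(f.coeff j : ℝ)| ≤ Real.exp (2 ^ l)) {z : ℂ} (hz : ‖z‖ ≤ 1) :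
    ‖f.eval₂ (Int.castRingHom ℂ) z‖ ≤ Real.exp (2 ^ (l + 1)) := by
  rw [eval₂_eq_sum_range]
  refine (norm_sum_le _ _).trans ((sum_le_card_nsmul _ _ (Real.exp (2 ^ l)) fun j _ => ?_).trans ?_)
  · rw [norm_mul, norm_pow, eq_intCast, Complex.norm_intCast]
    exact (mul_le_of_le_one_right (abs_nonneg _) (pow_le_one₀ (norm_nonneg _) hz)).trans (h2 j)
  · rw [card_range, nsmul_eq_mul, pow_succ, mul_two, Real.exp_add]
    refine mul_le_mul_of_nonneg_right (le_trans ?_ (Real.add_one_le_exp _)) (Real.exp_nonneg _)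
    exact_mod_cast Nat.succ_le_succ h1

theorem curve_pt [IsAlgClosed Ω] {u : Ω} (hu : Transcendental Qb u) (u' : IntO {u})
    (hu' : (u' : Ω) = u) (φ : IntO {u} →+* Qb) (hφ : ∀ c, φ (cO _ c) = c) {l : ℕ} {y : Qb}
    (hR : PRel l (φ u') y) (h1 : Real.exp (2 ^ l) + 1 < ‖φ u'‖) (h2 : Real.exp (2 ^ l) + 1 < ‖y‖) :
    ∃ (lam w : IntO {u}) (v : Ω), φ lam ≠ 0 ∧ φ w = φ lam * y ∧ (w : Ω) = lam * v ∧
      Transcendental Qb v ∧ (∃ R : Qb[X][X], R ≠ 0 ∧ R.natDegree ≤ 2 ^ l ∧
        (∀ i, (R.coeff i).natDegree ≤ 2 ^ l) ∧ ev2 (algebraMap Qb Ω) R u v = 0) ∧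
      (∀ S : Set Ω, u ∈ S → (Fix ℚ (insert v S)).relIndex (Fix ℚ S) ≠ 0 ∧
        (Fix ℚ (insert v S)).relIndex (Fix ℚ S) ≤ 2 ^ l) ∧ (lam : Ω) ∈ Algebra.adjoin ℤ {u} ∧
      IsIntegral (Algebra.adjoin ℤ {u}) (w : Ω) ∧ ∀ ψ : IntO {u} →+* ℂ, ‖ψ u'‖ ≤ 1 →
        ‖ψ lam‖ ≤ Real.exp (2 ^ (2 * l + 2)) ∧ ‖ψ w‖ ≤ Real.exp (2 ^ (2 * l + 2)) := by
  obtain ⟨R, r0, r1, r2, r3, r4⟩ := hR
  let f : ℤ[X] →+* IntO {u} := eval₂RingHom (Int.castRingHom _) u'
  have hf : ∀ {B : Type} [CommRing B] (θ : IntO {u} →+* B),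
      θ.comp f = eval₂RingHom (Int.castRingHom B) (θ u') := fun θ => by
    ext <;> simp [f]
  have l0 : φ (f R.leadingCoeff) ≠ 0 := fun h => by
    have := int_root_le (leadingCoeff_ne_zero.2 r0) (r3 _) (z := φ u')
      ((RingHom.congr_fun (hf φ) _).symm.trans h)
    linarith
  have l1 : f R.leadingCoeff ≠ 0 := fun h => l0 (by rw [h, map_zero])
  have l2 : (f R.leadingCoeff : Ω) ≠ 0 := fun h => l1 (Subtype.ext h)
  rw [ev2, ← hf φ] at r4
  have n1 : 1 ≤ R.natDegree := by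
    by_contra h
    have h3 := eq_C_of_natDegree_eq_zero (show R.natDegree = 0 by omega)
    rw [h3, eval₂_C] at r4
    rw [h3, leadingCoeff_C] at l0
    exact l0 r4
  obtain ⟨w, w1, w2⟩ := lift_root φ (φ (f R.leadingCoeff) * y) _ (R.integralNormalization.map f)
    ((monic_integralNormalization r0).map f) rfl (by
      rw [eval₂_map]
      exact (integralNormalization_eval₂_leadingCoeff_mul n1 (φ.comp f) y).trans
        (by rw [r4, mul_zero]))
  have w3 : ∀ {B : Type} [CommRing B] (θ : IntO {u} →+* B),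
      R.integralNormalization.eval₂ (θ.comp f) (θ w) = 0 := fun θ => by
    rw [← eval₂_map, eval₂_at_apply, w1, map_zero]
  obtain ⟨v, hv⟩ : ∃ v : Ω, (w : Ω) = f R.leadingCoeff * v := ⟨w / f R.leadingCoeff, by field_simp⟩
  have hι := hf (IntO {u}).subtype
  rw [Subring.coe_subtype, hu'] at hι
  have v1 : R.eval₂ (eval₂RingHom (Int.castRingHom Ω) u) v = 0 := by
    have e1 := w3 (IntO {u}).subtype
    have e2 := integralNormalization_eval₂_leadingCoeff_mul n1 ((IntO {u}).subtype.comp f) v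
    rw [Subring.coe_subtype, hv] at e1
    rw [← hι]
    exact (mul_eq_zero.1 (e2.symm.trans e1)).resolve_left (pow_ne_zero _ l2)
  have hmem : ∀ g, (f g : Ω) ∈ Algebra.adjoin ℤ {u} := fun g => by
    have : (f g : Ω) = aeval u g := RingHom.congr_fun hι g
    exact this ▸ aeval_mem_adjoin_singleton ℤ u
  refine ⟨f R.leadingCoeff, w, v, l0, w2, hv, fun ha => ?_,
    ⟨R.map (mapRingHom (Int.castRingHom Qb)), ?_, natDegree_map_le.trans r1, fun i => ?_, ?_⟩,
    fun S hS => ?_, hmem _, ?_, fun ψ hψ => ?_⟩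
  · obtain ⟨c, hc⟩ := minpoly.mem_range_of_degree_eq_one Qb v
      (IsAlgClosed.degree_eq_one_of_irreducible Qb (minpoly.irreducible ha.isIntegral))
    have e1 : w = f R.leadingCoeff * cO _ c := Subtype.ext (by rw [hv, ← hc]; rfl)
    rw [e1, map_mul, hφ] at w2
    obtain rfl := mul_left_cancel₀ l0 w2
    have e2 : R.eval₂ (mapRingHom (Int.castRingHom Qb)) (C c) = 0 := by
      refine transcendental_iff.1 hu _ ?_
      rw [← v1, ← hc, aeval_def, ← coe_eval₂RingHom, hom_eval₂]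
      congr 1
      · ext <;> simp
      · simp
    obtain ⟨j, hj⟩ : ∃ j, R.leadingCoeff.coeff j ≠ 0 := ⟨_, leadingCoeff_ne_zero.2
      (leadingCoeff_ne_zero.2 r0)⟩
    have e3 : ∀ i, (R.sum fun i a => monomial i (a.coeff j)).coeff i = (R.coeff i).coeff j :=
      fun i => by
        rw [coeff_sum, sum_def, sum_eq_single i (fun b _ hb => by rw [coeff_monomial, if_neg hb])
          fun h => by rw [notMem_support_iff.1 h]; simp, coeff_monomial, if_pos rfl]
    have := int_root_le (f := R.sum fun i a => monomial i (a.coeff j)) (z := c)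
      (fun h => hj (by rw [leadingCoeff, ← e3, h, coeff_zero])) (fun i => e3 i ▸ r3 i j) (by
        have e4 := congrArg (fun g => coeff g j) e2
        rw [eval₂_eq_sum, coeff_sum, coeff_zero] at e4
        rw [← e4, sum_def, sum_def, map_sum]
        refine sum_congr rfl fun i _ => ?_
        rw [← C_pow, coeff_mul_C]
        simp)
    linarith
  · exact (Polynomial.map_ne_zero_iff (map_injective _ (Int.castRingHom Qb).injective_int)).2 r0
  · rw [coeff_map]
    exact natDegree_map_le.trans (r2 i)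
  · rw [ev2, eval₂_map, ← v1]
    congr 1
    ext <;> simp
  · have g0 : R.map (eval₂RingHom (Int.castRingHom Ω) u) ≠ 0 := fun h => l2 (by
      have := congrArg (fun g => coeff g R.natDegree) h
      rw [coeff_map, coeff_zero, ← hι] at this
      exact this)
    have := relIndex_le_card (G₀ := Fix ℚ S) (S := Fix ℚ (insert v S)) (fun g => g v)
      (R.map (eval₂RingHom (Int.castRingHom Ω) u)).roots.toFinset
      (fun g hg => by
        rw [Multiset.mem_toFinset, mem_roots g0, IsRoot, eval_map]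
        have e1 := hom_eval₂ R (eval₂RingHom (Int.castRingHom Ω) u) (g : Ω →+* Ω) v
        rw [v1, map_zero] at e1
        rw [e1]
        congr 1
        ext <;> simp [mem_Fix.1 hg u hS])
      (fun g hg g' hg' h => mem_Fix.2 (by
        rintro x (rfl | hx)
        · simp [← h]
        · exact mem_Fix.1 (mul_mem (inv_mem hg) hg') x hx))
    exact ⟨this.1, this.2.trans ((Multiset.toFinset_card_le _).trans
      ((card_roots' _).trans (natDegree_map_le.trans r1)))⟩
  · refine ⟨R.integralNormalization.map (((IntO {u}).subtype.comp f).codRestrict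
      (Algebra.adjoin ℤ {u}) hmem), (monic_integralNormalization r0).map _, ?_⟩
    rw [eval₂_map]
    exact w3 (IntO {u}).subtype
  · have e1 : ∀ i, ‖(ψ.comp f) (R.coeff i)‖ ≤ Real.exp (2 ^ (l + 1)) := fun i => by
      rw [hf]
      exact norm_eval_int (r2 i) (r3 i) hψ
    have e2 : (1 : ℝ) ≤ Real.exp (2 ^ (l + 1)) := Real.one_le_exp (by positivity)
    have e3 : Real.exp (2 ^ (l + 1)) ^ 2 ^ l = Real.exp (2 ^ (2 * l + 1)) := by
      rw [← Real.exp_nat_mul]
      congr 1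
      push_cast
      ring
    refine ⟨(e1 _).trans (Real.exp_le_exp.2 (pow_le_pow_right₀ one_le_two (by omega))), ?_⟩
    refine (H31.norm_root_le (R.integralNormalization.map (ψ.comp f))
      ((monic_integralNormalization r0).map _) (Real.exp (2 ^ (2 * l + 1))) (fun i => ?_) _
      (by rw [eval_map, w3])).trans ?_
    · rw [coeff_map, integralNormalization_coeff, ← e3]
      split_ifs
      · rw [map_one, norm_one]
        exact one_le_pow₀ e2
      · rw [map_mul, map_pow, norm_mul, norm_pow]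
        refine (mul_le_mul (e1 i) (pow_le_pow_left₀ (norm_nonneg _) (e1 _) _) (by positivity)
          (by positivity)).trans ?_
        rw [← pow_succ']
        exact pow_le_pow_right₀ e2 (by omega)
    · have e4 := Real.add_one_le_exp (2 ^ (2 * l + 1))
      have e5 : (1 : ℝ) ≤ 2 ^ (2 * l + 1) := one_le_pow₀ one_le_two
      rw [show (2 : ℝ) ^ (2 * l + 2) = 2 ^ (2 * l + 1) + 2 ^ (2 * l + 1) by ring, Real.exp_add]
      nlinarith

end

end Pool.Agent.MP_09973c_nt.H58
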