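import Pool.Agent.MP_09973c_nt.H58.T6a

/-!
Elimination for towers over a curve.
-/

set_option autoImplicit false

namespace Pool.Agent.MP_09973c_nt.H58

open Polynomial Finset IntermediateField Classical

theorem scaled_norm {p q J : ℕ} (hpq : p < q) {c lam : ℂ} {Ca M : ℝ} (hc : ‖c‖ ≤ Ca) (hM : 1 ≤ M)
    (hl : ‖lam‖ ≤ M) {y : ℕ → ℂ}
    (hy : ∀ i < J, lam ^ (q - p) * y i ^ p + lam ^ q * c = y (i + 1) ^ q) (h0 : ‖y 0‖ ≤ M) :
    ∀ i ≤ J, ‖y i‖ ≤ (2 + Ca) * M := fun i => by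
  have h1 := (norm_nonneg _).trans hc
  induction i with
  | zero => exact fun _ => h0.trans (by nlinarith)
  | succ i ih =>
    intro hi
    refine le_of_pow_le_pow_left₀ (by omega : q ≠ 0) (by positivity) ?_
    rw [← norm_pow, ← hy i hi]
    refine (norm_add_le _ _).trans ?_
    rw [norm_mul, norm_mul, norm_pow, norm_pow, norm_pow]
    have h2 : ‖lam‖ ^ (q - p) * ‖y i‖ ^ p ≤ M ^ (q - p) * ((2 + Ca) * M) ^ p := by
      have := ih (by omega)
      gcongr
    have h3 : ‖lam‖ ^ q * ‖c‖ ≤ M ^ q * Ca := by gcongr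
    have h4 : 1 ≤ (2 + Ca) ^ p := one_le_pow₀ (by linarith)
    have h5 : (2 + Ca) ^ (p + 1) ≤ (2 + Ca) ^ q := pow_le_pow_right₀ (by linarith) hpq
    have h6 : (2 + Ca) ^ p + Ca ≤ (2 + Ca) ^ q := by
      rw [pow_succ] at h5
      nlinarith
    have h7 := mul_le_mul_of_nonneg_left h6 (show 0 ≤ M ^ q by positivity)
    rw [mul_pow, mul_left_comm, ← pow_add, Nat.sub_add_cancel hpq.le] at h2
    rw [mul_pow]
    linarith

theorem mon_scale {A B : Type} [CommRing A] [CommRing B] (θ : A →+* B) {n q J₀ J D : ℕ} (lam : A)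
    (Y : Fin n → ℕ → A) (X : Fin n → ℕ → B) (h : ∀ m, ∀ i ≤ J, θ (Y m i) = θ lam * X m i)
    (hD : n * J * q ≤ D) (c : (Fin n × Fin (J - J₀) → Fin q) → ℤ) :
    θ (∑ e, (c e : A) * (lam ^ (D - ∑ z, (e z : ℕ)) * mon Y e)) =
      θ lam ^ D * ∑ e, (c e : B) * mon X e := by
  rw [map_sum, mul_sum]
  refine sum_congr rfl fun e _ => ?_
  have h1 : mon (fun m i => θ (Y m i)) e = θ lam ^ (∑ z, (e z : ℕ)) * mon X e := by
    rw [mon, mon, ← prod_pow_eq_pow_sum, ← prod_mul_distrib]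
    exact prod_congr rfl fun z _ => by rw [h _ _ (by have := z.2.2; omega), mul_pow]
  rw [map_mul, map_mul, map_intCast, map_pow, mon_map, h1, ← mul_assoc (θ lam ^ _), ← pow_add,
    Nat.sub_add_cancel ((mon_deg e).trans hD), mul_left_comm]

theorem elim_step1 (hE : Elim1Stmt) {p q : ℕ} (hpq : p < q) {a b : Qb} {d : ℕ} {Ca : ℝ}
    (hd : 0 < d) (ha : Sz a d Ca) (hb : Sz b d Ca) : ∃ I₀ : ℕ,
    ∀ (Ω : Type) [Field Ω] [IsAlgClosed Ω] [CharZero Ω] [Algebra Qb Ω] (u v : Ω)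
      (u' lam : IntO {u}) (Δ : ℕ) (M : ℝ), (u' : Ω) = u → Transcendental ℚ u →
      Algebra.IsAlgebraic (adjoin ℚ {u}) Ω →
      (∀ S : Set Ω, u ∈ S → (Fix ℚ (insert v S)).relIndex (Fix ℚ S) ≠ 0 ∧
        (Fix ℚ (insert v S)).relIndex (Fix ℚ S) ≤ Δ) → (lam : Ω) ≠ 0 →
      (lam : Ω) ∈ Algebra.adjoin ℤ {u} → 1 ≤ M → ∀ (J₀ J : ℕ) (Y : Fin 4 → ℕ → IntO {u})
      (V : Fin 4 → ℕ → Ω), (∀ m i, (Y m i : Ω) = lam * V m i) →
      (∀ m, Fwd p q (algebraMap Qb Ω (![a, b, a, b] m)) J (V m)) →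
      (∀ m, ∀ i < J, lam ^ (q - p) * Y m i ^ p + lam ^ q * cO _ (![a, b, a, b] m) =
        Y m (i + 1) ^ q) → (∀ m, V m 0 ^ q = u ^ q ∨ V m 0 ^ q = v ^ q) →
      (∀ m, IsIntegral (Algebra.adjoin ℤ {u}) (Y m 0 : Ω)) →
      (∀ ψ : IntO {u} →+* ℂ, ‖ψ u'‖ ≤ 1 → ‖ψ lam‖ ≤ M ∧ ∀ m, ‖ψ (Y m 0)‖ ≤ M) →
      ∀ (n : ℕ) (A : Fin n → Fin 4), n ≤ 4 →
      ∀ (c : (Fin n × Fin (J - J₀) → Fin q) → ℤ) (y : ℝ), 0 ≤ y →
      (∀ e, |(c e : ℝ)| ≤ Real.exp y) → ∑ e, (c e : Ω) * mon (fun m => V (A m)) e ≠ 0 →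
      ∃ R : ℤ[X], R ≠ 0 ∧ (∀ i, |(R.coeff i : ℝ)| ≤ ((q : ℝ) ^ (4 * J) * Real.exp y *
          (d * ((2 + Ca) * M)) ^ (4 * J * q)) ^ (I₀ * Δ * q ^ (4 * (J + 1)))) ∧
        ∀ (ψ : IntO {u} →+* ℂ) (X : Fin 4 → ℕ → ℂ), (∀ m, ∀ i ≤ J, ψ (Y m i) = ψ lam * X m i) →
          ∑ e, (c e : ℂ) * mon (fun m => X (A m)) e = 0 → aeval (ψ u') R = 0 := by
  refine ⟨(minpoly ℚ a).natDegree * (minpoly ℚ b).natDegree, ?_⟩
  intro Ω _ _ _ _ u v u' lam Δ M hu htr halg hv hl0 hl hM J₀ J Y V hYV hV hY hV0 hY0 hψ n A hn c y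
    hy hc hne
  have hq : 0 < q := by omega
  have hCa := ha.nonneg
  have hd' : (1 : ℝ) ≤ d := by exact_mod_cast hd
  have hS : ∀ m, Sz (![a, b, a, b] m) d Ca := fun m => by fin_cases m <;> assumption
  have hD : n * J * q ≤ 4 * J * q := by gcongr
  let S₁ : Set Ω := insert v (insert (algebraMap Qb Ω b) (insert (algebraMap Qb Ω a) {u}))
  have step : ∀ (S : Set Ω) m, S₁ ⊆ S → (Fix ℚ (S ∪ lv (V m) J)).relIndex (Fix ℚ S) ≠ 0 ∧
      (Fix ℚ (S ∪ lv (V m) J)).relIndex (Fix ℚ S) ≤ q ^ (J + 1) := fun S m hS =>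
    relIndex_chain hq (subset_adjoin _ _ (hS (by fin_cases m <;> simp [S₁]))) (hV m) (by
      rcases hV0 m with h | h <;> rw [h] <;>
        exact pow_mem (subset_adjoin _ _ (hS (by simp [S₁]))) _) J le_rfl
  have sub : ∀ S S' : Set Ω, Fix ℚ (S ∪ S') ≤ Fix ℚ S := fun _ _ => Fix_anti Set.subset_union_left
  have i0 := relIndex_trans (Fix_anti (Set.subset_insert _ _)) (Fix_anti (Set.subset_insert _ _))
    (relIndex_const (insert (algebraMap Qb Ω a) {u}) b) (relIndex_const {u} a)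
  have i1 := relIndex_trans (Fix_anti (Set.subset_insert _ _))
    (Fix_anti ((Set.subset_insert _ _).trans (Set.subset_insert _ _))) (hv _ (by simp)) i0
  have l1 : Fix ℚ S₁ ≤ Fix ℚ {u} := Fix_anti (by simp [S₁])
  have i2 := relIndex_trans (sub _ _) l1 (step S₁ 0 le_rfl) i1
  have i3 := relIndex_trans (sub _ _) ((sub _ _).trans l1) (step _ 1 Set.subset_union_left) i2
  have i4 := relIndex_trans (sub _ _) (((sub _ _).trans (sub _ _)).trans l1)
    (step _ 2 (Set.subset_union_left.trans Set.subset_union_left)) i3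
  have i5 := relIndex_trans (sub _ _) ((((sub _ _).trans (sub _ _)).trans (sub _ _)).trans l1)
    (step _ 3 ((Set.subset_union_left.trans Set.subset_union_left).trans Set.subset_union_left)) i4
  have hlev : ∀ z : Fin n × Fin (J - J₀), J₀ + z.2 + 1 ≤ J := fun z => by have := z.2.2; omega
  obtain ⟨Φ, hΦ⟩ : ∃ Φ : IntO {u}, Φ = (d : IntO {u}) ^ (4 * J * q) * ∑ e, (c e : IntO {u}) *
    (lam ^ (4 * J * q - ∑ z, (e z : ℕ)) * mon (fun m => Y (A m)) e) := ⟨_, rfl⟩
  have hcoe : (Φ : Ω) = (d : Ω) ^ (4 * J * q) * ((lam : Ω) ^ (4 * J * q) *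
      ∑ e, (c e : Ω) * mon (fun m => V (A m)) e) := by
    have := mon_scale (IntO {u}).subtype lam (fun m => Y (A m)) (fun m => V (A m))
      (fun m i _ => hYV _ i) hD c
    rw [Subring.coe_subtype] at this
    rw [← this, hΦ]
    simp
  have hli : IsIntegral (Algebra.adjoin ℤ {u}) (lam : Ω) :=
    isIntegral_algebraMap (x := (⟨lam, hl⟩ : Algebra.adjoin ℤ {u}))
  have hdi : IsIntegral (Algebra.adjoin ℤ {u}) (d : Ω) := isIntegral_natCast d
  have hint : ∀ m, ∀ i ≤ J, IsIntegral (Algebra.adjoin ℤ {u}) ((d : Ω) * Y m i) := fun m i => by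
    induction i with
    | zero => exact fun _ => hdi.mul (hY0 m)
    | succ i ih =>
      refine fun hi => IsIntegral.of_pow hq ?_
      obtain ⟨e, rfl⟩ := Nat.exists_eq_add_of_lt hpq
      have h1 : IsIntegral (Algebra.adjoin ℤ {u}) (algebraMap Qb Ω (d * ![a, b, a, b] m)) :=
        ((hS m).1.map (algebraMap Qb Ω).toIntAlgHom).tower_top
      rw [map_mul, map_natCast] at h1
      have h2 := congrArg (IntO {u}).subtype (hY m i hi)
      simp only [map_add, map_mul, map_pow, Subring.coe_subtype, cO_coe] at h2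
      have : ((d : Ω) * Y m (i + 1)) ^ (p + e + 1) = d ^ (e + 1) * lam ^ (p + e + 1 - p) *
          (d * Y m i) ^ p + d ^ (p + e) * lam ^ (p + e + 1) *
          (d * algebraMap Qb Ω (![a, b, a, b] m)) := by
        rw [mul_pow, ← h2]; ring
      rw [this]
      exact (((hdi.pow _).mul (hli.pow _)).mul ((ih (by omega)).pow _)).add
        (((hdi.pow _).mul (hli.pow _)).mul h1)
  have hM2 : M ≤ (2 + Ca) * M := by nlinarith
  obtain ⟨R, h1, h2, h3⟩ := hE Ω u u' Φ hu htr halg (fun h => by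
      rw [h] at hcoe
      exact mul_ne_zero (pow_ne_zero _ (by exact_mod_cast hd.ne'))
        (mul_ne_zero (pow_ne_zero _ hl0) hne) hcoe.symm) (by
      rw [hΦ]
      push_cast
      rw [mul_sum]
      refine IsIntegral.sum _ fun e _ => ?_
      obtain ⟨r, hr⟩ := Nat.exists_eq_add_of_le ((mon_deg e).trans hD)
      have := mon_map (IntO {u}).subtype (fun m => Y (A m)) e
      rw [Subring.coe_subtype] at this
      rw [this, mul_left_comm, mul_left_comm ((d : Ω) ^ _)]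
      refine (isIntegral_intCast _).mul ((hli.pow _).mul ?_)
      rw [hr, pow_add, ← prod_pow_eq_pow_sum, mul_right_comm, mon, ← prod_mul_distrib]
      refine IsIntegral.mul (IsIntegral.prod _ fun z _ => ?_) (hdi.pow _)
      rw [← mul_pow]
      exact (hint _ _ (hlev z)).pow _)
    _ ((minpoly ℚ a).natDegree * (minpoly ℚ b).natDegree * Δ * q ^ (4 * (J + 1)))
    ((q : ℝ) ^ (4 * J) * Real.exp y * (d * ((2 + Ca) * M)) ^ (4 * J * q)) i5.1
    (i5.2.trans (le_of_eq (by ring))) (fun g hg => by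
      have e1 : ∀ m, ∀ i ≤ J, g (V m i) = V m i := fun m i hi => mem_Fix.1 hg _ (by
        have := H65.mem_lv (V m) hi
        fin_cases m
        exacts [Or.inl (Or.inl (Or.inl (Or.inr this))), Or.inl (Or.inl (Or.inr this)),
          Or.inl (Or.inr this), Or.inr this])
      have e2 : g lam = lam := by
        rw [Algebra.adjoin_singleton_eq_range_aeval] at hl
        obtain ⟨f, hf⟩ := hl
        have e3 := aeval_algHom_apply (g : Ω →+* Ω).toIntAlgHom u f
        rw [← show aeval u f = lam from hf]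
        refine e3.symm.trans (congrArg (fun z => aeval z f) ?_)
        exact mem_Fix.1 hg u (by simp [S₁])
      rw [hcoe]
      simp [mon, e1 _ _ (hlev _), e2])
    (one_le_mul_of_one_le_of_one_le (one_le_mul_of_one_le_of_one_le
      (one_le_pow₀ (by exact_mod_cast hq)) (Real.one_le_exp hy)) (one_le_pow₀ (by nlinarith)))
    (fun ψ h1 => by
      have hn' : ∀ m, ∀ i ≤ J, ‖ψ (Y m i)‖ ≤ (2 + Ca) * M := fun m =>
        scaled_norm hpq (hom_norm_le (ψ.comp (cO _)) (hS m)) hM (hψ ψ h1).1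
          (fun i hi => by simpa using congrArg ψ (hY m i hi)) ((hψ ψ h1).2 m)
      have h4 : ∀ e : Fin n × Fin (J - J₀) → Fin q, ‖ψ ((c e : IntO {u}) *
          (lam ^ (4 * J * q - ∑ z, (e z : ℕ)) * mon (fun m => Y (A m)) e))‖ ≤
          Real.exp y * ((2 + Ca) * M) ^ (4 * J * q) := fun e => by
        rw [map_mul, map_mul, norm_mul, norm_mul, map_intCast, Complex.norm_intCast, mon_map, mon,
          norm_prod, map_pow, norm_pow]
        refine mul_le_mul (hc e) ?_ (by positivity) (by positivity)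
        conv_rhs => rw [← Nat.sub_add_cancel ((mon_deg e).trans hD), pow_add,
          ← prod_pow_eq_pow_sum]
        refine mul_le_mul (pow_le_pow_left₀ (norm_nonneg _) ((hψ ψ h1).1.trans hM2) _)
          (prod_le_prod (fun _ _ => norm_nonneg _) fun z _ => ?_) (by positivity) (by positivity)
        rw [norm_pow]
        exact pow_le_pow_left₀ (norm_nonneg _) (hn' _ _ (hlev z)) _
      have h5 := (norm_sum_le _ _).trans (sum_le_card_nsmul univ _ _ fun e _ => h4 e)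
      have h6 : ((univ : Finset (Fin n × Fin (J - J₀) → Fin q)).card : ℝ) ≤ (q : ℝ) ^ (4 * J) := by
        simp only [card_univ, Fintype.card_fun, Fintype.card_prod, Fintype.card_fin]
        exact_mod_cast Nat.pow_le_pow_right hq (Nat.mul_le_mul hn (Nat.sub_le _ _))
      rw [hΦ, map_mul, map_sum, norm_mul, map_pow, map_natCast, norm_pow, Complex.norm_natCast]
      rw [nsmul_eq_mul] at h5
      calc _ ≤ (d : ℝ) ^ (4 * J * q) * ((q : ℝ) ^ (4 * J) *
            (Real.exp y * ((2 + Ca) * M) ^ (4 * J * q))) := by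
            gcongr
            exact h5.trans (by gcongr)
        _ = _ := by rw [mul_pow (d : ℝ)]; ring)
  exact ⟨R, h1, h2, fun ψ X e1 e2 => h3 ψ (by
    rw [hΦ, map_mul, mon_scale ψ lam _ (fun m => X (A m)) (fun m => e1 _) hD, e2, mul_zero,
      mul_zero])⟩

theorem set_indep {Ω : Type} [Field Ω] [CharZero Ω] [Algebra Qb Ω] {q J₀ J n : ℕ} (S : Set Ω)
    (W : Fin 4 → ℕ → Ω) (A : Fin n → Fin 4) (hA : Function.Injective A)
    (h : ∀ m ∈ Set.range A, ∀ i, J₀ ≤ i → i < J →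
      PowInd Qb (S ∪ lv (W m) i ∪ ⋃ m' ∈ Set.range A \ {m}, lv (W m') J) (W m (i + 1)) q)
    (c : (Fin n × Fin (J - J₀) → Fin q) → ℤ)
    (hc : ∑ e, (c e : Ω) * mon (fun m => W (A m)) e = 0) : c = 0 := by
  have hl := monInd (k := Qb) (∅ : Set Ω)
    (fun z : Fin n × Fin (J - J₀) => W (A z.1) (J₀ + z.2 + 1))
    (fun z => (finProdFinEquiv z : ℕ)) (Fin.val_injective.comp finProdFinEquiv.injective) q (by
      rintro ⟨m, i⟩
      have hi := i.2
      refine PowInd.mono ?_ (h _ ⟨m, rfl⟩ (J₀ + i) (by omega) (by omega))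
      rintro _ (hx | ⟨⟨m', i'⟩, hy, rfl⟩)
      · exact hx.elim
      have := i'.2
      refine subset_adjoin _ _ ?_
      by_cases e : m' = m
      · subst e
        simp only [Set.mem_setOf_eq, finProdFinEquiv_apply_val] at hy
        exact Or.inl (Or.inr (H65.mem_lv _ (show J₀ + i' + 1 ≤ J₀ + i by omega)))
      · exact Or.inr (Set.mem_biUnion (x := A m')
          (Set.mem_diff_singleton.2 ⟨⟨m', rfl⟩, fun h => e (hA h)⟩)
          (H65.mem_lv _ (show J₀ + i' + 1 ≤ J by omega))))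
  funext e
  have := Fintype.linearIndependent_iff.1 hl (fun e => (c e : adjoin Qb (∅ : Set Ω)))
    (by simpa [IntermediateField.smul_def, mon] using hc) e
  exact_mod_cast this

end Pool.Agent.MP_09973c_nt.H58
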