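import Pool.Agent.MP_09973c_nt.H58.SpecT

/-!
Reduction of the full statement to algebraic parameters.
-/

set_option autoImplicit false

namespace Pool.Agent.MP_09973c_nt.H58

open Pool.Agent.MP_09973c_nt.H31

theorem algebraic_of_integral {n : ℕ} {a : ℂ} (h : IsIntegral (Subring.closure {((n : ℕ) : ℂ)⁻¹}) a) :
    a ∈ algebraicClosure ℚ ℂ := by
  have h1 : Subring.closure {((n : ℕ) : ℂ)⁻¹} ≤ (algebraicClosure ℚ ℂ).toSubfield.toSubring :=
    Subring.closure_le.2 (Set.singleton_subset_iff.2
      ((algebraicClosure ℚ ℂ).inv_mem (natCast_mem _ n)))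
  have h2 : IsIntegral (algebraicClosure ℚ ℂ) a := by
    obtain ⟨f, hf, h0⟩ := h
    refine ⟨f.map (Subring.inclusion h1), hf.map _, ?_⟩
    rw [Polynomial.eval₂_map]
    exact h0
  haveI : Algebra.IsIntegral ℚ (algebraicClosure ℚ ℂ) := Algebra.IsAlgebraic.isIntegral
  exact mem_algebraicClosure_iff'.2 (isIntegral_trans a h2)

theorem full_of_main (hM : MainStmt) (p q : ℕ) (hp : 0 < p) (hq : 0 < q) (hpq : Nat.Coprime p q)
    (a b : ℂ) (hab : a ≠ b) :
    {y : OnePoint ℂ | Constrained p q a y ∧ Constrained p q b y}.Finite := by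
  by_cases h1 : p = 1
  · subst h1; exact finite_of_one hq hab
  rcases lt_trichotomy q p with h2 | h2 | h2
  · exact finite_of_lt hq h2 hpq hab
  · subst h2; exact absurd (Nat.coprime_self _ |>.1 hpq) h1
  by_cases ha : IsIntegral (Subring.closure {((p * q : ℕ) : ℂ)⁻¹}) a
  · by_cases hb : IsIntegral (Subring.closure {((p * q : ℕ) : ℂ)⁻¹}) b
    · exact hM p q ⟨a, algebraic_of_integral ha⟩ ⟨b, algebraic_of_integral hb⟩ (by omega) h2 hpq
        fun h => hab (congrArg Subtype.val h)
    · have := finite_of_not_integral (by omega) h2 hpq hb hab.symm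
      simpa only [and_comm] using this
  · exact finite_of_not_integral (by omega) h2 hpq ha hab

end Pool.Agent.MP_09973c_nt.H58
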